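import Mathlib

/-!
# Uniform corona constants on relatively compact subdomains (Montel + Gelfand)
-/

open Complex Metric Set Filter Topology
open scoped BoundedContinuousFunction

set_option autoImplicit false

namespace Pool.Corona91698f

/-- Bezout property of a closed algebra of functions all of whose characters are point
evaluations. -/
theorem bezout_of_char {X : Set ℂ} (A : Subalgebra ℂ (X →ᵇ ℂ))
    (hA : IsClosed (A : Set (X →ᵇ ℂ)))
    (hchar : ∀ χ : WeakDual.characterSpace ℂ A, ∃ x : X, ∀ φ : A, χ φ = (φ : X →ᵇ ℂ) x)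
    {n : ℕ} (F : Fin n → A) (hF : ∀ x : X, ∃ j, (F j : X →ᵇ ℂ) x ≠ 0) :
    ∃ H : Fin n → A, ∑ j, H j * F j = 1 := by
  have : CompleteSpace A := hA.completeSpace_coe
  have htop : Ideal.span (range F) = ⊤ := by
    by_contra hne
    obtain ⟨M, hM, hle⟩ := Ideal.exists_le_maximal _ hne
    obtain ⟨x, hx⟩ := hchar (M.toCharacterSpace)
    obtain ⟨j, hj⟩ := hF x
    apply hj
    rw [← hx]
    exact M.toCharacterSpace_apply_eq_zero_of_mem (hle (Ideal.subset_span (mem_range_self j)))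
  have h1 : (1 : A) ∈ Ideal.span (range F) := by rw [htop]; exact Submodule.mem_top
  exact Ideal.mem_span_range_iff_exists_fun.1 h1

/-- Restrictions of bounded holomorphic functions on an open set to a compact subset form a
relatively compact family. -/
theorem isCompact_restrict {U X : Set ℂ} (hU : IsOpen U) (hX : IsCompact X) (hXU : X ⊆ U) :
    IsCompact (closure {φ : X →ᵇ ℂ | ∃ Φ : ℂ → ℂ, DifferentiableOn ℂ Φ U ∧
      (∀ u ∈ U, ‖Φ u‖ ≤ 1) ∧ ∀ x : X, φ x = Φ x}) := by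
  have : CompactSpace X := isCompact_iff_compactSpace.1 hX
  refine BoundedContinuousFunction.arzela_ascoli (closedBall (0 : ℂ) 1)
    (isCompact_closedBall _ _) _ ?_ ?_
  · rintro φ x ⟨Φ, -, hb, he⟩
    rw [mem_closedBall_zero_iff, he]
    exact hb _ (hXU x.2)
  · intro x
    rw [Metric.equicontinuousAt_iff]
    intro ε hε
    obtain ⟨r, hr, hrU⟩ := Metric.isOpen_iff.1 hU x (hXU x.2)
    refine ⟨min r (ε * r / 4), by positivity, fun y hy => ?_⟩
    rintro ⟨φ, Φ, hd, hb, he⟩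
    have hyx : dist (y : ℂ) x < r := (show dist y x < _ from hy).trans_le (min_le_left _ _)
    have hyx2 : dist (y : ℂ) x < ε * r / 4 :=
      (show dist y x < _ from hy).trans_le (min_le_right _ _)
    have key := Complex.dist_le_div_mul_dist_of_mapsTo_ball (f := Φ) (c := (x : ℂ)) (z := y)
      (R₁ := r) (R₂ := 3) (hd.mono hrU) (by
        intro z hz
        rw [mem_closedBall, dist_eq_norm]
        have h1 := hb z (hrU hz)
        have h2 := hb x (hXU x.2)
        have h3 := norm_sub_le (Φ z) (Φ x)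
        linarith) (mem_ball.2 hyx)
    simp only [he]
    rw [dist_comm]
    calc dist (Φ y) (Φ x) ≤ 3 / r * dist (y : ℂ) x := key
      _ ≤ 3 / r * (ε * r / 4) := by gcongr
      _ = 3 / 4 * ε := by field_simp
      _ < ε := by linarith

/-- **Uniform corona on relatively compact subsets**, general principle. -/
theorem uniform_corona {U V X : Set ℂ} (hU : IsOpen U) (hX : IsCompact X) (hXU : X ⊆ U)
    (hVX : V ⊆ X) (A : Subalgebra ℂ (X →ᵇ ℂ)) (hA : IsClosed (A : Set (X →ᵇ ℂ)))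
    (hres : ∀ φ : X →ᵇ ℂ, ∀ Φ : ℂ → ℂ, DifferentiableOn ℂ Φ U → (∀ x : X, φ x = Φ x) → φ ∈ A)
    (hhol : ∀ φ ∈ A, ∀ Φ : ℂ → ℂ, (∀ x : X, φ x = Φ x) → DifferentiableOn ℂ Φ V)
    (hchar : ∀ χ : WeakDual.characterSpace ℂ A, ∃ x : X, ∀ φ : A, χ φ = (φ : X →ᵇ ℂ) x)
    (n : ℕ) (δ : ℝ) (hδ : 0 < δ) :
    ∃ C : ℝ, ∀ Φ : Fin n → ℂ → ℂ, (∀ j, DifferentiableOn ℂ (Φ j) U) →
      (∀ j, ∀ u ∈ U, ‖Φ j u‖ ≤ 1) → (∀ u ∈ U, ∃ j, δ ≤ ‖Φ j u‖) →
      ∃ h : Fin n → ℂ → ℂ, (∀ j, DifferentiableOn ℂ (h j) V) ∧ (∀ j, ∀ u ∈ V, ‖h j u‖ ≤ C) ∧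
        ∀ u ∈ V, ∑ j, Φ j u * h j u = 1 := by
  classical
  have : CompactSpace X := isCompact_iff_compactSpace.1 hX
  by_contra hcon
  push Not at hcon
  choose Φ hd hb hl hno using fun m : ℕ => hcon (m : ℝ)
  set T : Set (X →ᵇ ℂ) := {φ : X →ᵇ ℂ | ∃ Φ : ℂ → ℂ, DifferentiableOn ℂ Φ U ∧
      (∀ u ∈ U, ‖Φ u‖ ≤ 1) ∧ ∀ x : X, φ x = Φ x} with hT
  have hTc : IsCompact (closure T) := isCompact_restrict hU hX hXU
  have hTA : closure T ⊆ A := by
    refine closure_minimal ?_ hA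
    rintro φ ⟨Φ, h1, -, h2⟩
    exact hres φ Φ h1 h2
  -- the restrictions
  have hcontΦ : ∀ m j, Continuous fun x : X => Φ m j x := by
    intro m j
    exact ((hd m j).continuousOn.mono hXU).comp_continuous continuous_subtype_val
      (fun x => x.2)
  let φ : ℕ → Fin n → (X →ᵇ ℂ) := fun m j =>
    BoundedContinuousFunction.mkOfCompact ⟨fun x : X => Φ m j x, hcontΦ m j⟩
  have hφ : ∀ m j (x : X), φ m j x = Φ m j x := fun m j x => rfl
  have hφT : ∀ m, φ m ∈ Set.pi univ (fun _ : Fin n => closure T) := by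
    intro m j _
    exact subset_closure ⟨Φ m j, hd m j, hb m j, fun x => rfl⟩
  have hcomp : IsCompact (Set.pi univ (fun _ : Fin n => closure T)) :=
    isCompact_univ_pi fun _ => hTc
  obtain ⟨F, hFT, k, hk, hlim⟩ := hcomp.tendsto_subseq hφT
  have hlimj : ∀ j, Tendsto (fun m => φ (k m) j) atTop (𝓝 (F j)) := by
    intro j
    exact (tendsto_pi_nhds.1 hlim j)
  have hFA : ∀ j, F j ∈ A := fun j => hTA (hFT j (mem_univ j))
  -- lower bound in the limit
  have hFl : ∀ x : X, ∃ j, F j x ≠ 0 := by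
    intro x
    by_contra hx
    push Not at hx
    have hev : ∀ j, ∀ᶠ m in atTop, ‖φ (k m) j x‖ < δ := by
      intro j
      have h1 : Tendsto (fun m => φ (k m) j x) atTop (𝓝 (F j x)) :=
        ((continuous_eval_const (F := X →ᵇ ℂ) x).tendsto (F j)).comp (hlimj j)
      rw [hx j] at h1
      have h2 := h1.norm
      rw [norm_zero] at h2
      exact h2.eventually (gt_mem_nhds hδ)
    obtain ⟨m, hm⟩ := (eventually_all.2 hev).exists
    obtain ⟨j, hj⟩ := hl (k m) x (hXU x.2)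
    have := hm j
    rw [hφ] at this
    linarith
  obtain ⟨H, hH⟩ := bezout_of_char A hA hchar (fun j => ⟨F j, hFA j⟩) hFl
  -- bounds for H
  set B : ℝ := ∑ j, ‖(H j : X →ᵇ ℂ)‖ with hB
  have hB0 : 0 ≤ B := Finset.sum_nonneg fun j _ => norm_nonneg _
  have hHB : ∀ j, ‖(H j : X →ᵇ ℂ)‖ ≤ B := fun j =>
    Finset.single_le_sum (f := fun j => ‖(H j : X →ᵇ ℂ)‖) (fun i _ => norm_nonneg _)
      (Finset.mem_univ j)
  -- choose m large
  have hdist : ∀ j, Tendsto (fun m => ‖φ (k m) j - F j‖) atTop (𝓝 0) := by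
    intro j
    exact tendsto_iff_norm_sub_tendsto_zero.1 (hlimj j)
  have hsum : Tendsto (fun m => ∑ j, ‖φ (k m) j - F j‖ * B) atTop (𝓝 0) := by
    have := tendsto_finsetSum (Finset.univ : Finset (Fin n))
      (fun j _ => (hdist j).mul_const B)
    simpa using this
  obtain ⟨m, hm1, hm2⟩ := ((hsum.eventually (gt_mem_nhds (show (0:ℝ) < 1 / 2 by norm_num))).and
    (hk.tendsto_atTop.eventually (eventually_ge_atTop ⌈2 * B⌉₊))).exists
  have hm3 : 2 * B ≤ (k m : ℝ) := (Nat.le_ceil _).trans (by exact_mod_cast hm2)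
  -- extension of H
  let Hx : Fin n → ℂ → ℂ := fun j u => if hu : u ∈ X then (H j : X →ᵇ ℂ) ⟨u, hu⟩ else 0
  have hHx : ∀ j (x : X), (H j : X →ᵇ ℂ) x = Hx j x := by
    intro j x
    simp [Hx, x.2]
  have hHd : ∀ j, DifferentiableOn ℂ (Hx j) V := fun j => hhol _ (H j).2 _ (hHx j)
  have hHn : ∀ j, ∀ u ∈ X, ‖Hx j u‖ ≤ B := by
    intro j u hu
    rw [← hHx j ⟨u, hu⟩]
    exact ((H j : X →ᵇ ℂ).norm_coe_le_norm _).trans (hHB j)
  let S : ℂ → ℂ := fun u => ∑ j, Φ (k m) j u * Hx j u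
  have hS : ∀ u ∈ X, ‖S u - 1‖ ≤ 1 / 2 := by
    intro u hu
    have h1 : (1 : ℂ) = ∑ j, Hx j u * F j ⟨u, hu⟩ := by
      have := congrArg (fun a : A => (a : X →ᵇ ℂ) ⟨u, hu⟩) hH
      simp only [AddSubmonoidClass.coe_finsetSum, MulMemClass.coe_mul, OneMemClass.coe_one,
        BoundedContinuousFunction.coe_sum, Finset.sum_apply, BoundedContinuousFunction.coe_mul,
        Pi.mul_apply, BoundedContinuousFunction.coe_one, Pi.one_apply] at this
      rw [← this]
      refine Finset.sum_congr rfl fun j _ => ?_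
      rw [hHx j ⟨u, hu⟩]
    have h2 : S u - 1 = ∑ j, (φ (k m) j - F j) ⟨u, hu⟩ * Hx j u := by
      rw [h1]
      simp only [S]
      rw [← Finset.sum_sub_distrib]
      refine Finset.sum_congr rfl fun j _ => ?_
      rw [BoundedContinuousFunction.sub_apply, hφ]
      ring
    rw [h2]
    calc ‖∑ j, (φ (k m) j - F j) ⟨u, hu⟩ * Hx j u‖
        ≤ ∑ j, ‖(φ (k m) j - F j) ⟨u, hu⟩ * Hx j u‖ := norm_sum_le _ _
      _ ≤ ∑ j, ‖φ (k m) j - F j‖ * B := by
          refine Finset.sum_le_sum fun j _ => ?_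
          rw [norm_mul]
          exact mul_le_mul ((φ (k m) j - F j).norm_coe_le_norm _) (hHn j u hu)
            (norm_nonneg _) (norm_nonneg _)
      _ ≤ 1 / 2 := hm1.le
  have hS2 : ∀ u ∈ X, 1 / 2 ≤ ‖S u‖ := by
    intro u hu
    have h1 := hS u hu
    have h2 : ‖(1 : ℂ)‖ ≤ ‖S u‖ + ‖S u - 1‖ := by
      have := norm_sub_le (S u) (S u - 1)
      simpa using this
    rw [norm_one] at h2
    linarith
  have hS0 : ∀ u ∈ X, S u ≠ 0 := by
    intro u hu h
    have := hS2 u hu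
    rw [h, norm_zero] at this
    linarith
  have hSd : DifferentiableOn ℂ S V := by
    refine DifferentiableOn.fun_sum fun j _ => ?_
    exact ((hd (k m) j).mono (hVX.trans hXU)).mul (hHd j)
  obtain ⟨u, huV, hu⟩ := hno (k m) (fun j u => Hx j u / S u)
    (fun j => (hHd j).div hSd fun u hu => hS0 u (hVX hu))
    (fun j u hu => by
      rw [norm_div]
      have h1 := hHn j u (hVX hu)
      have h2 := hS2 u (hVX hu)
      rw [div_le_iff₀ (by linarith)]
      calc ‖Hx j u‖ ≤ B := h1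
        _ = 2 * B * (1 / 2) := by ring
        _ ≤ (k m : ℝ) * ‖S u‖ := by
            refine mul_le_mul hm3 h2 (by norm_num) (by positivity))
  apply hu
  have h1 : ∑ j, Φ (k m) j u * (Hx j u / S u) = S u / S u := by
    simp only [S]
    rw [Finset.sum_div]
    refine Finset.sum_congr rfl fun j _ => ?_
    ring
  rw [h1]
  exact div_self (hS0 u (hVX huV))

end Pool.Corona91698f
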