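import Mathlib
import Pool.Agent.Corona91698f.Uniform

/-!
# Closed algebras generated by a family of functions on a compact plane set
-/

open Complex Metric Set Filter Topology
open scoped BoundedContinuousFunction

set_option autoImplicit false

namespace Pool.Corona91698f

/-- Extension by zero of a function on a plane set. -/
noncomputable def ext {X : Set ℂ} (φ : X →ᵇ ℂ) : ℂ → ℂ := by
  classical
  exact fun u => if hu : u ∈ X then φ ⟨u, hu⟩ else 0

theorem ext_apply {X : Set ℂ} (φ : X →ᵇ ℂ) (x : X) : ext φ x = φ x := by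
  simp [ext, x.2]

theorem ext_of_mem {X : Set ℂ} (φ : X →ᵇ ℂ) {u : ℂ} (hu : u ∈ X) : ext φ u = φ ⟨u, hu⟩ := by
  simp [ext, hu]

/-- A character of the closed algebra generated by `S` which is a point evaluation on `S` is a
point evaluation. -/
theorem char_eval {X : Set ℂ} (S : Set (X →ᵇ ℂ))
    (χ : WeakDual.characterSpace ℂ (Algebra.adjoin ℂ S).topologicalClosure) (x : X)
    (hx : ∀ s (hs : s ∈ S), χ ⟨s, (Algebra.adjoin ℂ S).le_topologicalClosure
      (Algebra.subset_adjoin hs)⟩ = s x) :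
    ∀ φ : (Algebra.adjoin ℂ S).topologicalClosure, χ φ = (φ : X →ᵇ ℂ) x := by
  have h1 : ∀ b (hb : b ∈ Algebra.adjoin ℂ S),
      χ ⟨b, (Algebra.adjoin ℂ S).le_topologicalClosure hb⟩ = b x := by
    intro b hb
    induction hb using Algebra.adjoin_induction with
    | mem s hs => exact hx s hs
    | algebraMap r =>
      have : (⟨algebraMap ℂ (X →ᵇ ℂ) r, (Algebra.adjoin ℂ S).le_topologicalClosure
          (Subalgebra.algebraMap_mem _ r)⟩ : (Algebra.adjoin ℂ S).topologicalClosure)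
          = algebraMap ℂ _ r := rfl
      rw [this, AlgHomClass.commutes]
      rfl
    | add a b ha hb iha ihb =>
      have : (⟨a + b, (Algebra.adjoin ℂ S).le_topologicalClosure (Subalgebra.add_mem _ ha hb)⟩ :
          (Algebra.adjoin ℂ S).topologicalClosure)
          = ⟨a, (Algebra.adjoin ℂ S).le_topologicalClosure ha⟩ +
            ⟨b, (Algebra.adjoin ℂ S).le_topologicalClosure hb⟩ := rfl
      rw [this, map_add, iha, ihb]
      rfl
    | mul a b ha hb iha ihb =>
      have : (⟨a * b, (Algebra.adjoin ℂ S).le_topologicalClosure (Subalgebra.mul_mem _ ha hb)⟩ :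
          (Algebra.adjoin ℂ S).topologicalClosure)
          = ⟨a, (Algebra.adjoin ℂ S).le_topologicalClosure ha⟩ *
            ⟨b, (Algebra.adjoin ℂ S).le_topologicalClosure hb⟩ := rfl
      rw [this, map_mul, iha, ihb]
      rfl
  intro φ
  have hφ : (φ : X →ᵇ ℂ) ∈ closure ((Algebra.adjoin ℂ S : Subalgebra ℂ (X →ᵇ ℂ)) :
      Set (X →ᵇ ℂ)) := φ.2
  obtain ⟨b, hb, hlim⟩ := mem_closure_iff_seq_limit.1 hφ
  have hlim2 : Tendsto (fun k => (⟨b k, (Algebra.adjoin ℂ S).le_topologicalClosure (hb k)⟩ :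
      (Algebra.adjoin ℂ S).topologicalClosure)) atTop (𝓝 φ) :=
    tendsto_subtype_rng.2 hlim
  have h2 : Tendsto (fun k => χ ⟨b k, (Algebra.adjoin ℂ S).le_topologicalClosure (hb k)⟩) atTop
      (𝓝 (χ φ)) := ((map_continuous χ).tendsto φ).comp hlim2
  have h3 : Tendsto (fun k => b k x) atTop (𝓝 ((φ : X →ᵇ ℂ) x)) :=
    ((continuous_eval_const (F := X →ᵇ ℂ) x).tendsto _).comp hlim
  refine tendsto_nhds_unique h2 (h3.congr fun k => ?_)
  exact (h1 (b k) (hb k)).symm

/-- Elements of the closed algebra generated by holomorphic functions are holomorphic. -/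
theorem hol_closure {X V : Set ℂ} (hV : IsOpen V) (hVX : V ⊆ X) (S : Set (X →ᵇ ℂ))
    (hS : ∀ s ∈ S, DifferentiableOn ℂ (ext s) V) :
    ∀ φ ∈ (Algebra.adjoin ℂ S).topologicalClosure, ∀ Φ : ℂ → ℂ, (∀ x : X, φ x = Φ x) →
      DifferentiableOn ℂ Φ V := by
  have h1 : ∀ b ∈ Algebra.adjoin ℂ S, DifferentiableOn ℂ (ext b) V := by
    intro b hb
    induction hb using Algebra.adjoin_induction with
    | mem s hs => exact hS s hs
    | algebraMap r =>
      refine (differentiableOn_const r).congr fun u hu => ?_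
      rw [ext_of_mem _ (hVX hu)]
      rfl
    | add a b ha hb iha ihb =>
      refine (iha.add ihb).congr fun u hu => ?_
      rw [Pi.add_apply, ext_of_mem _ (hVX hu), ext_of_mem _ (hVX hu), ext_of_mem _ (hVX hu)]
      rfl
    | mul a b ha hb iha ihb =>
      refine (iha.mul ihb).congr fun u hu => ?_
      rw [Pi.mul_apply, ext_of_mem _ (hVX hu), ext_of_mem _ (hVX hu), ext_of_mem _ (hVX hu)]
      rfl
  intro φ hφ Φ hΦ
  obtain ⟨b, hb, hlim⟩ := mem_closure_iff_seq_limit.1
    (show φ ∈ closure ((Algebra.adjoin ℂ S : Subalgebra ℂ (X →ᵇ ℂ)) : Set (X →ᵇ ℂ)) from hφ)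
  have hu : TendstoUniformlyOn (fun k => ext (b k)) Φ atTop V := by
    rw [Metric.tendstoUniformlyOn_iff]
    intro ε hε
    have := (tendsto_iff_dist_tendsto_zero.1 hlim).eventually (gt_mem_nhds hε)
    filter_upwards [this] with k hk u hu
    rw [ext_of_mem _ (hVX hu), ← hΦ ⟨u, hVX hu⟩, dist_comm]
    exact (BoundedContinuousFunction.dist_coe_le_dist _).trans_lt hk
  exact hu.tendstoLocallyUniformlyOn.differentiableOn
    (Eventually.of_forall fun k => h1 _ (hb k)) hV

/-- The coordinate function on a compact set. -/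
noncomputable def idX {X : Set ℂ} (hX : IsCompact X) : X →ᵇ ℂ :=
  haveI : CompactSpace X := isCompact_iff_compactSpace.1 hX
  BoundedContinuousFunction.mkOfCompact ⟨fun x : X => (x : ℂ), continuous_subtype_val⟩

theorem idX_apply {X : Set ℂ} (hX : IsCompact X) (x : X) : idX hX x = x := rfl

theorem ext_idX {X V : Set ℂ} (hX : IsCompact X) (hVX : V ⊆ X) :
    DifferentiableOn ℂ (ext (idX hX)) V := by
  refine differentiableOn_id.congr fun u hu => ?_
  rw [ext_of_mem _ (hVX hu)]
  rfl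

/-- Restrictions of functions holomorphic on a larger disc are limits of polynomials. -/
theorem mem_closure_of_differentiableOn {X : Set ℂ} (hX : IsCompact X) {c : ℂ} {R₁ R₂ : ℝ}
    (h0 : 0 ≤ R₂) (h : R₂ < R₁)
    (hXs : X ⊆ closedBall c R₂) (S : Set (X →ᵇ ℂ)) (hS : idX hX ∈ S) (φ : X →ᵇ ℂ) (Φ : ℂ → ℂ)
    (hd : DifferentiableOn ℂ Φ (ball c R₁)) (he : ∀ x : X, φ x = Φ x) :
    φ ∈ (Algebra.adjoin ℂ S).topologicalClosure := by
  obtain ⟨R, hR2, hR1⟩ := exists_between h
  obtain ⟨R', hR'2, hR'1⟩ := exists_between hR2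
  have hR0 : 0 < R := h0.trans_lt hR2
  have hR'0 : 0 < R' := h0.trans_lt hR'2
  set p := cauchyPowerSeries Φ c R with hp
  let Rn : NNReal := ⟨R, hR0.le⟩
  let Rn' : NNReal := ⟨R', hR'0.le⟩
  have hps : HasFPowerSeriesOnBall Φ p c (Rn : ENNReal) :=
    DifferentiableOn.hasFPowerSeriesOnBall (R := Rn)
      (hd.mono (closedBall_subset_ball hR1)) hR0
  have htu := hps.tendstoUniformlyOn' (r' := Rn') (by
    rw [ENNReal.coe_lt_coe]
    exact hR'1)
  -- partial sums as elements
  let q : ℕ → (X →ᵇ ℂ) := fun n =>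
    ∑ k ∈ Finset.range n, (p.coeff k) • (idX hX - algebraMap ℂ _ c) ^ k
  have hq : ∀ n, q n ∈ Algebra.adjoin ℂ S := by
    intro n
    refine Subalgebra.sum_mem _ fun k _ => Subalgebra.smul_mem _ (Subalgebra.pow_mem _ ?_ _) _
    exact Subalgebra.sub_mem _ (Algebra.subset_adjoin hS) (Subalgebra.algebraMap_mem _ c)
  have hqe : ∀ n (x : X), q n x = p.partialSum n (x - c) := by
    intro n x
    simp only [q, FormalMultilinearSeries.partialSum, BoundedContinuousFunction.coe_sum,
      Finset.sum_apply, BoundedContinuousFunction.coe_smul, BoundedContinuousFunction.coe_pow,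
      Pi.pow_apply, smul_eq_mul]
    refine Finset.sum_congr rfl fun k _ => ?_
    rw [FormalMultilinearSeries.apply_eq_pow_smul_coeff, smul_eq_mul, mul_comm]
    rfl
  have hlim : Tendsto q atTop (𝓝 φ) := by
    rw [Metric.tendsto_nhds]
    intro ε hε
    rw [Metric.tendstoUniformlyOn_iff] at htu
    filter_upwards [htu (ε / 2) (by positivity)] with n hn
    have : dist (q n) φ ≤ ε / 2 := by
      rw [BoundedContinuousFunction.dist_le (by positivity)]
      intro x
      rw [hqe, he, dist_comm]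
      refine (hn x ?_).le
      have h1 : dist (x : ℂ) c ≤ R₂ := hXs x.2
      exact mem_ball.2 (h1.trans_lt hR'2)
    linarith
  exact mem_closure_of_tendsto hlim (Eventually.of_forall hq)

/-- A character of a closed algebra that contains the functions `1 / (z - lam)`, `lam ∉ X`, takes
the coordinate function to a point of `X`. -/
theorem char_id_mem {X : Set ℂ} (hX : IsCompact X) (A : Subalgebra ℂ (X →ᵇ ℂ))
    (hid : idX hX ∈ A)
    (hinv : ∀ lam : ℂ, lam ∉ X → ∀ ψ : X →ᵇ ℂ, (∀ x : X, ψ x = ((x : ℂ) - lam)⁻¹) → ψ ∈ A)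
    (χ : WeakDual.characterSpace ℂ A) : χ ⟨idX hX, hid⟩ ∈ X := by
  by_contra hlam
  set lam : ℂ := χ ⟨idX hX, hid⟩ with hlamdef
  have : CompactSpace X := isCompact_iff_compactSpace.1 hX
  have hne : ∀ x : X, (x : ℂ) - lam ≠ 0 := by
    intro x h
    rw [sub_eq_zero] at h
    exact hlam (h ▸ x.2)
  let ψ : X →ᵇ ℂ := BoundedContinuousFunction.mkOfCompact
    ⟨fun x : X => ((x : ℂ) - lam)⁻¹, (continuous_subtype_val.sub continuous_const).inv₀ hne⟩
  have hψ : ψ ∈ A := hinv lam hlam ψ fun x => rfl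
  have hmul : ((⟨idX hX, hid⟩ : A) - algebraMap ℂ A lam) * (⟨ψ, hψ⟩ : A) = 1 := by
    apply Subtype.ext
    apply BoundedContinuousFunction.ext
    intro x
    exact mul_inv_cancel₀ (hne x)
  have h1 := congrArg χ hmul
  rw [map_mul, map_sub, map_one, AlgHomClass.commutes, ← hlamdef] at h1
  simp at h1

/-- **Uniform corona constants for a disc inside a larger disc.** -/
theorem disc_corona {R₁ R₂ : ℝ} (h0 : 0 < R₂) (h : R₂ < R₁) (n : ℕ) (δ : ℝ) (hδ : 0 < δ) :
    ∃ C : ℝ, ∀ Φ : Fin n → ℂ → ℂ, (∀ j, DifferentiableOn ℂ (Φ j) (ball 0 R₁)) →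
      (∀ j, ∀ u ∈ ball (0 : ℂ) R₁, ‖Φ j u‖ ≤ 1) → (∀ u ∈ ball (0 : ℂ) R₁, ∃ j, δ ≤ ‖Φ j u‖) →
      ∃ h : Fin n → ℂ → ℂ, (∀ j, DifferentiableOn ℂ (h j) (ball 0 R₂)) ∧
        (∀ j, ∀ u ∈ ball (0 : ℂ) R₂, ‖h j u‖ ≤ C) ∧
        ∀ u ∈ ball (0 : ℂ) R₂, ∑ j, Φ j u * h j u = 1 := by
  have hX : IsCompact (closedBall (0 : ℂ) R₂) := isCompact_closedBall _ _
  refine uniform_corona isOpen_ball hX (closedBall_subset_ball h) ball_subset_closedBall
    (Algebra.adjoin ℂ {idX hX}).topologicalClosure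
    (Subalgebra.isClosed_topologicalClosure _) ?_ ?_ ?_ n δ hδ
  · intro φ Φ hd he
    exact mem_closure_of_differentiableOn hX h0.le h Subset.rfl {idX hX} (mem_singleton _) φ Φ
      hd he
  · refine hol_closure isOpen_ball ball_subset_closedBall _ ?_
    rintro s rfl
    exact ext_idX hX ball_subset_closedBall
  · intro χ
    have hmem : χ ⟨idX hX, (Algebra.adjoin ℂ {idX hX}).le_topologicalClosure
        (Algebra.subset_adjoin (mem_singleton _))⟩ ∈ closedBall (0 : ℂ) R₂ := by
      refine char_id_mem hX _ _ ?_ χ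
      intro lam hlam ψ hψ
      rw [mem_closedBall_zero_iff, not_le] at hlam
      refine mem_closure_of_differentiableOn hX h0.le hlam Subset.rfl {idX hX}
        (mem_singleton _) ψ (fun u => (u - lam)⁻¹) ?_ hψ
      intro u hu
      refine DifferentiableAt.differentiableWithinAt ?_
      refine (differentiableAt_id.sub_const lam).inv ?_
      intro hu0
      have : u = lam := sub_eq_zero.1 hu0
      rw [this, mem_ball_zero_iff] at hu
      exact lt_irrefl _ hu
    refine ⟨⟨_, hmem⟩, char_eval _ χ _ ?_⟩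
    rintro s hs
    obtain rfl : s = idX hX := hs
    rfl

end Pool.Corona91698f
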