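import Mathlib

/-!
# Laurent splitting on an annulus, with bounds
-/

open Complex Metric Set Filter Topology MeasureTheory
open scoped Real Interval

set_option autoImplicit false

namespace Pool.Corona91698f

/-- The Cauchy type integral of a continuous function on a circle is differentiable off the
circle. -/
theorem differentiableAt_cauchyInt {c : ℂ} {R : ℝ} (hR : 0 < R) {w : ℂ → ℂ}
    (hw : ContinuousOn w (sphere c R)) {z₀ : ℂ} (hz₀ : z₀ ∉ sphere c R) :
    DifferentiableAt ℂ (fun z => ∮ ζ in C(c, R), (ζ - z)⁻¹ • w ζ) z₀ := by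
  -- distance to the circle
  set d : ℝ := |dist z₀ c - R| with hd
  have hd0 : 0 < d := by
    rw [hd, abs_pos, sub_ne_zero]
    exact fun h => hz₀ (mem_sphere.2 h)
  have hfar : ∀ z ∈ ball z₀ (d / 2), ∀ ζ ∈ sphere c R, d / 2 ≤ ‖ζ - z‖ := by
    intro z hz ζ hζ
    have h1 : dist z z₀ < d / 2 := hz
    have h2 : dist ζ c = R := hζ
    have h3 : d ≤ dist z₀ ζ := by
      rw [hd, ← h2]
      rw [dist_comm ζ c, dist_comm z₀ c]
      have := abs_dist_sub_le z₀ ζ c
      rwa [dist_comm c z₀, dist_comm c ζ]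
    have h4 : dist z₀ ζ ≤ dist z₀ z + dist z ζ := dist_triangle _ _ _
    rw [dist_comm z₀ z] at h4
    have h5 : dist z ζ = ‖ζ - z‖ := by rw [dist_comm, dist_eq_norm]
    linarith
  obtain ⟨M, hM⟩ : ∃ M, ∀ ζ ∈ sphere c R, ‖w ζ‖ ≤ M :=
    (isCompact_sphere c R).exists_bound_of_continuousOn hw
  have hM0 : 0 ≤ M := by
    have := hM (c + R) (by simp [abs_of_pos hR])
    exact (norm_nonneg _).trans this
  have hcm : ∀ θ : ℝ, circleMap c R θ ∈ sphere c R := fun θ => circleMap_mem_sphere c hR.le θ
  have hwc : Continuous fun θ : ℝ => w (circleMap c R θ) :=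
    hw.comp_continuous (continuous_circleMap c R) hcm
  have hdc : Continuous fun θ : ℝ => deriv (circleMap c R) θ := by
    simp only [deriv_circleMap]
    exact (continuous_circleMap 0 R).mul continuous_const
  have hz₀mem : z₀ ∈ ball z₀ (d / 2) := mem_ball_self (by positivity)
  have hne : ∀ z ∈ ball z₀ (d / 2), ∀ θ : ℝ, circleMap c R θ - z ≠ 0 := by
    intro z hz θ h
    have := hfar z hz _ (hcm θ)
    rw [h, norm_zero] at this
    linarith
  let F : ℂ → ℝ → ℂ := fun z θ =>
    deriv (circleMap c R) θ • ((circleMap c R θ - z)⁻¹ • w (circleMap c R θ))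
  let F' : ℂ → ℝ → ℂ := fun z θ =>
    deriv (circleMap c R) θ • (((circleMap c R θ - z) ^ 2)⁻¹ • w (circleMap c R θ))
  have hFc : ∀ z ∈ ball z₀ (d / 2), Continuous (F z) := by
    intro z hz
    have hinv : Continuous fun θ => (circleMap c R θ - z)⁻¹ :=
      ((continuous_circleMap c R).sub continuous_const).inv₀ (hne z hz)
    exact hdc.smul (hinv.smul hwc)
  have hF'c : Continuous (F' z₀) := by
    have hinv : Continuous fun θ => ((circleMap c R θ - z₀) ^ 2)⁻¹ :=
      (((continuous_circleMap c R).sub continuous_const).pow 2).inv₀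
        (fun θ => pow_ne_zero 2 (hne z₀ hz₀mem θ))
    exact hdc.smul (hinv.smul hwc)
  have key := intervalIntegral.hasDerivAt_integral_of_dominated_loc_of_deriv_le
    (μ := volume) (a := 0) (b := 2 * π) (F := F) (F' := F') (x₀ := z₀)
    (s := ball z₀ (d / 2)) (bound := fun _ => R * (((d / 2) ^ 2)⁻¹ * M))
    (ball_mem_nhds _ (by positivity))
    (by
      filter_upwards [ball_mem_nhds z₀ (show 0 < d / 2 by positivity)] with z hz
      exact (hFc z hz).aestronglyMeasurable)
    ((hFc z₀ hz₀mem).intervalIntegrable _ _)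
    hF'c.aestronglyMeasurable
    (by
      refine Eventually.of_forall fun θ _ z hz => ?_
      have h1 : ‖deriv (circleMap c R) θ‖ = R := by
        simp [deriv_circleMap, abs_of_pos hR]
      have h2 := hfar z hz _ (hcm θ)
      have h3 := hM _ (hcm θ)
      simp only [F', norm_smul, norm_inv, norm_pow, h1]
      have h4 : (‖circleMap c R θ - z‖ ^ 2)⁻¹ ≤ ((d / 2) ^ 2)⁻¹ := by
        apply inv_anti₀ (by positivity)
        exact pow_le_pow_left₀ (by positivity) h2 2
      gcongr)
    (by simp)
    (by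
      refine Eventually.of_forall fun θ _ z hz => ?_
      have h1 : HasDerivAt (fun x : ℂ => circleMap c R θ - x) (-1) z := by
        simpa using (hasDerivAt_id z).const_sub (circleMap c R θ)
      have h2 := h1.inv (hne z hz θ)
      have h3 : HasDerivAt (fun x : ℂ => (circleMap c R θ - x)⁻¹ • w (circleMap c R θ))
          (((circleMap c R θ - z) ^ 2)⁻¹ • w (circleMap c R θ)) z := by
        have := h2.smul_const (w (circleMap c R θ))
        rw [neg_neg, one_div] at this
        exact this
      exact h3.const_smul (deriv (circleMap c R) θ))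
  exact key.2.differentiableAt

/-- Cauchy formula on an annulus. -/
theorem cauchy_annulus {c : ℂ} {r₁ ra rb r₂ : ℝ} (h0 : 0 < ra) (h1 : r₁ < ra) (h2 : rb < r₂)
    {w : ℂ → ℂ} (hw : DifferentiableOn ℂ w {z | r₁ < dist z c ∧ dist z c < r₂}) {z : ℂ}
    (hza : ra < dist z c) (hzb : dist z c < rb) :
    (∮ ζ in C(c, rb), (ζ - z)⁻¹ • w ζ) - (∮ ζ in C(c, ra), (ζ - z)⁻¹ • w ζ)
      = (2 * π * I : ℂ) • w z := by
  have hUo : IsOpen {z : ℂ | r₁ < dist z c ∧ dist z c < r₂} :=
    (isOpen_lt continuous_const (continuous_id.dist continuous_const)).inter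
      (isOpen_lt (continuous_id.dist continuous_const) continuous_const)
  have hab : ra < rb := hza.trans hzb
  have hzU : z ∈ {z : ℂ | r₁ < dist z c ∧ dist z c < r₂} :=
    ⟨h1.trans hza, hzb.trans h2⟩
  have hsub : closedBall c rb \ ball c ra ⊆ {z : ℂ | r₁ < dist z c ∧ dist z c < r₂} := by
    rintro x ⟨hx1, hx2⟩
    rw [mem_closedBall] at hx1
    rw [mem_ball, not_lt] at hx2
    exact ⟨h1.trans_le hx2, hx1.trans_lt h2⟩
  have hdz : DifferentiableAt ℂ w z := hw.differentiableAt (hUo.mem_nhds hzU)
  have hcont : ContinuousOn (dslope w z) (closedBall c rb \ ball c ra) := by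
    intro x hx
    rcases eq_or_ne x z with rfl | hne
    · exact (continuousAt_dslope_same.2 hdz).continuousWithinAt
    · have : ContinuousAt w x :=
        (hw.differentiableAt (hUo.mem_nhds (hsub hx))).continuousAt
      exact ((continuousAt_dslope_of_ne hne).2 this).continuousWithinAt
  have heq := circleIntegral_eq_of_differentiable_on_annulus_off_countable (c := c) h0 hab.le
    (f := dslope w z) (s := {z}) (countable_singleton z) hcont (by
      rintro x ⟨⟨hx1, hx2⟩, hx3⟩
      rw [mem_ball] at hx1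
      rw [mem_closedBall, not_le] at hx2
      have hxz : x ≠ z := by simpa using hx3
      have : DifferentiableAt ℂ w x :=
        hw.differentiableAt (hUo.mem_nhds ⟨h1.trans hx2, hx1.trans h2⟩)
      exact (differentiableAt_dslope_of_ne hxz).2 this)
  have hwb : ContinuousOn w (sphere c rb) := fun x hx =>
    (hw.differentiableAt (hUo.mem_nhds (by
      rw [mem_sphere] at hx
      exact ⟨by rw [hx]; exact h1.trans hab, by rw [hx]; exact h2⟩))).continuousAt.continuousWithinAt
  have hwa : ContinuousOn w (sphere c ra) := fun x hx =>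
    (hw.differentiableAt (hUo.mem_nhds (by
      rw [mem_sphere] at hx
      exact ⟨by rw [hx]; exact h1, by rw [hx]; exact hab.trans h2⟩))).continuousAt.continuousWithinAt
  have hneb : ∀ x ∈ sphere c rb, x - z ≠ 0 := by
    intro x hx h
    rw [sub_eq_zero] at h
    rw [mem_sphere, h] at hx
    linarith
  have hnea : ∀ x ∈ sphere c ra, x - z ≠ 0 := by
    intro x hx h
    rw [sub_eq_zero] at h
    rw [mem_sphere, h] at hx
    linarith
  have hrb : 0 < rb := h0.trans hab
  -- rewrite the integrals of the slope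
  have e1 : (∮ ζ in C(c, rb), dslope w z ζ)
      = (∮ ζ in C(c, rb), (ζ - z)⁻¹ • w ζ) - (2 * π * I : ℂ) • w z := by
    have hint1 : CircleIntegrable (fun ζ => (ζ - z)⁻¹ • w ζ) c rb := by
      refine ContinuousOn.circleIntegrable hrb.le ?_
      exact ((continuousOn_id.sub continuousOn_const).inv₀ hneb).smul hwb
    have hint2 : CircleIntegrable (fun ζ => (ζ - z)⁻¹ • w z) c rb := by
      refine ContinuousOn.circleIntegrable hrb.le ?_
      exact ((continuousOn_id.sub continuousOn_const).inv₀ hneb).smul continuousOn_const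
    have : (∮ ζ in C(c, rb), (ζ - z)⁻¹ • w z) = (2 * π * I : ℂ) • w z := by
      rw [circleIntegral.integral_smul_const, circleIntegral.integral_sub_inv_of_mem_ball
        (mem_ball.2 hzb)]
    rw [← this, ← circleIntegral.integral_sub hint1 hint2]
    refine circleIntegral.integral_congr hrb.le fun x hx => ?_
    have hxz : x ≠ z := fun h => hneb x hx (by rw [h, sub_self])
    simp only [dslope_of_ne _ hxz, slope_def_module, smul_sub]
  have e2 : (∮ ζ in C(c, ra), dslope w z ζ) = (∮ ζ in C(c, ra), (ζ - z)⁻¹ • w ζ) := by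
    have hint1 : CircleIntegrable (fun ζ => (ζ - z)⁻¹ • w ζ) c ra := by
      refine ContinuousOn.circleIntegrable h0.le ?_
      exact ((continuousOn_id.sub continuousOn_const).inv₀ hnea).smul hwa
    have hint2 : CircleIntegrable (fun ζ => (ζ - z)⁻¹ • w z) c ra := by
      refine ContinuousOn.circleIntegrable h0.le ?_
      exact ((continuousOn_id.sub continuousOn_const).inv₀ hnea).smul continuousOn_const
    have hzero : (∮ ζ in C(c, ra), (ζ - z)⁻¹ • w z) = 0 := by
      refine circleIntegral_eq_zero_of_differentiable_on_off_countable h0.le countable_empty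
        ?_ ?_
      · have hinv : ContinuousOn (fun ζ : ℂ => (ζ - z)⁻¹) (closedBall c ra) := by
          refine (continuousOn_id.sub continuousOn_const).inv₀ ?_
          intro x hx h
          have h' : x = z := sub_eq_zero.1 h
          rw [mem_closedBall, h'] at hx
          linarith
        exact hinv.smul continuousOn_const
      · rintro x ⟨hx, -⟩
        have : x - z ≠ 0 := by
          intro h
          rw [sub_eq_zero] at h
          rw [mem_ball, h] at hx
          linarith
        exact ((differentiableAt_id.sub_const z).inv this).smul_const _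
    have : (∮ ζ in C(c, ra), dslope w z ζ)
        = (∮ ζ in C(c, ra), (ζ - z)⁻¹ • w ζ) - (∮ ζ in C(c, ra), (ζ - z)⁻¹ • w z) := by
      rw [← circleIntegral.integral_sub hint1 hint2]
      refine circleIntegral.integral_congr h0.le fun x hx => ?_
      have hxz : x ≠ z := fun h => hnea x hx (by rw [h, sub_self])
      simp only [dslope_of_ne _ hxz, slope_def_module, smul_sub]
    rw [this, hzero, sub_zero]
  rw [e1, e2] at heq
  rw [sub_eq_iff_eq_add, add_comm]
  rw [sub_eq_iff_eq_add] at heq
  exact heq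

/-- **Laurent splitting.** A bounded holomorphic function on an annulus is the sum of a bounded
holomorphic function inside and a bounded holomorphic function outside. -/
theorem laurent_split {c : ℂ} {r₁ ra s₁ s₂ rb r₂ : ℝ} (h0 : 0 < ra) (h1 : r₁ < ra) (h2 : ra < s₁)
    (h3 : s₁ < s₂) (h4 : s₂ < rb) (h5 : rb < r₂) {w : ℂ → ℂ} {M : ℝ}
    (hw : DifferentiableOn ℂ w {z | r₁ < dist z c ∧ dist z c < r₂})
    (hM : ∀ z, r₁ < dist z c → dist z c < r₂ → ‖w z‖ ≤ M) :
    ∃ wp wm : ℂ → ℂ, DifferentiableOn ℂ wp (ball c rb) ∧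
      DifferentiableOn ℂ wm {z | ra < dist z c} ∧
      (∀ z, dist z c < s₂ → ‖wp z‖ ≤ rb / (rb - s₂) * M) ∧
      (∀ z, s₁ < dist z c → ‖wm z‖ ≤ ra / (s₁ - ra) * M) ∧
      (∀ z, ra < dist z c → dist z c < rb → w z = wp z + wm z) := by
  have hUo : IsOpen {z : ℂ | r₁ < dist z c ∧ dist z c < r₂} :=
    (isOpen_lt continuous_const (continuous_id.dist continuous_const)).inter
      (isOpen_lt (continuous_id.dist continuous_const) continuous_const)
  have hab : ra < rb := by linarith
  have hrb : 0 < rb := h0.trans hab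
  have hwb : ContinuousOn w (sphere c rb) := fun x hx =>
    (hw.differentiableAt (hUo.mem_nhds (by
      rw [mem_sphere] at hx
      exact ⟨by rw [hx]; exact h1.trans hab, by rw [hx]; exact h5⟩))).continuousAt.continuousWithinAt
  have hwa : ContinuousOn w (sphere c ra) := fun x hx =>
    (hw.differentiableAt (hUo.mem_nhds (by
      rw [mem_sphere] at hx
      exact ⟨by rw [hx]; exact h1, by rw [hx]; exact hab.trans h5⟩))).continuousAt.continuousWithinAt
  have hMb : ∀ ζ ∈ sphere c rb, ‖w ζ‖ ≤ M := fun ζ hζ => by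
    rw [mem_sphere] at hζ
    exact hM ζ (by rw [hζ]; exact h1.trans hab) (by rw [hζ]; exact h5)
  have hMa : ∀ ζ ∈ sphere c ra, ‖w ζ‖ ≤ M := fun ζ hζ => by
    rw [mem_sphere] at hζ
    exact hM ζ (by rw [hζ]; exact h1) (by rw [hζ]; exact hab.trans h5)
  have hM0 : 0 ≤ M := (norm_nonneg _).trans (hMb (c + rb) (by simp [abs_of_pos hrb]))
  refine ⟨fun z => (2 * π * I : ℂ)⁻¹ • ∮ ζ in C(c, rb), (ζ - z)⁻¹ • w ζ,
    fun z => -((2 * π * I : ℂ)⁻¹ • ∮ ζ in C(c, ra), (ζ - z)⁻¹ • w ζ), ?_, ?_, ?_, ?_, ?_⟩
  · intro z hz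
    refine DifferentiableAt.differentiableWithinAt ?_
    have hzs : z ∉ sphere c rb := by
      rw [mem_sphere]
      exact (mem_ball.1 hz).ne
    exact (differentiableAt_cauchyInt hrb hwb hzs).const_smul ((2 * π * I : ℂ)⁻¹)
  · intro z hz
    refine DifferentiableAt.differentiableWithinAt ?_
    have hzs : z ∉ sphere c ra := by
      rw [mem_sphere]
      exact (show ra < dist z c from hz).ne'
    exact ((differentiableAt_cauchyInt h0 hwa hzs).const_smul ((2 * π * I : ℂ)⁻¹)).neg
  · intro z hz
    have := circleIntegral.norm_two_pi_i_inv_smul_integral_le_of_norm_le_const (c := c)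
      (f := fun ζ => (ζ - z)⁻¹ • w ζ) (R := rb) (C := (rb - s₂)⁻¹ * M) hrb.le (by
        intro ζ hζ
        rw [norm_smul, norm_inv]
        have h6 : rb - s₂ ≤ ‖ζ - z‖ := by
          rw [mem_sphere] at hζ
          have : dist ζ c ≤ dist ζ z + dist z c := dist_triangle _ _ _
          rw [← dist_eq_norm]
          linarith
        have h7 : (‖ζ - z‖)⁻¹ ≤ (rb - s₂)⁻¹ := inv_anti₀ (by linarith) h6
        exact mul_le_mul h7 (hMb ζ hζ) (norm_nonneg _) (by
          have : 0 < rb - s₂ := by linarith
          positivity))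
    calc _ ≤ rb * ((rb - s₂)⁻¹ * M) := this
      _ = rb / (rb - s₂) * M := by ring
  · intro z hz
    rw [norm_neg]
    have := circleIntegral.norm_two_pi_i_inv_smul_integral_le_of_norm_le_const (c := c)
      (f := fun ζ => (ζ - z)⁻¹ • w ζ) (R := ra) (C := (s₁ - ra)⁻¹ * M) h0.le (by
        intro ζ hζ
        rw [norm_smul, norm_inv]
        have h6 : s₁ - ra ≤ ‖ζ - z‖ := by
          rw [mem_sphere] at hζ
          have : dist z c ≤ dist z ζ + dist ζ c := dist_triangle _ _ _
          rw [← dist_eq_norm, dist_comm]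
          linarith
        have h7 : (‖ζ - z‖)⁻¹ ≤ (s₁ - ra)⁻¹ := inv_anti₀ (by linarith) h6
        exact mul_le_mul h7 (hMa ζ hζ) (norm_nonneg _) (by
          have : 0 < s₁ - ra := by linarith
          positivity))
    calc _ ≤ ra * ((s₁ - ra)⁻¹ * M) := this
      _ = ra / (s₁ - ra) * M := by ring
  · intro z hz1 hz2
    have := cauchy_annulus h0 h1 h5 hw hz1 hz2
    have h2pi : (2 * π * I : ℂ) ≠ 0 := by
      simp [Real.pi_ne_zero]
    have h6 : w z = (2 * π * I : ℂ)⁻¹ • ((∮ ζ in C(c, rb), (ζ - z)⁻¹ • w ζ)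
        - (∮ ζ in C(c, ra), (ζ - z)⁻¹ • w ζ)) := by
      rw [this, smul_smul, inv_mul_cancel₀ h2pi, one_smul]
    rw [h6, smul_sub]
    rfl

end Pool.Corona91698f
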