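import Mathlib
import Pool.Agent.Corona91698f.Laurent
import Pool.Agent.Corona91698f.Alg

/-!
# Exterior discs and gluing of two local corona solutions
-/

open Complex Metric Set Filter Topology

set_option autoImplicit false

namespace Pool.Corona91698f

/-- A bounded holomorphic function on the exterior of a disc extends to infinity. -/
theorem exterior_ext {c : ℂ} {ρ : ℝ} (hρ : 0 < ρ) {f : ℂ → ℂ}
    (hf : DifferentiableOn ℂ f {z | ρ < dist z c}) (hb : ∀ z, ρ < dist z c → ‖f z‖ ≤ 1) :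
    ∃ Φ : ℂ → ℂ, DifferentiableOn ℂ Φ (ball 0 ρ⁻¹) ∧ (∀ u ∈ ball (0 : ℂ) ρ⁻¹, ‖Φ u‖ ≤ 1) ∧
      ∀ z, ρ < dist z c → Φ ((z - c)⁻¹) = f z := by
  have hmaps : ∀ u ∈ ball (0 : ℂ) ρ⁻¹ \ {0}, ρ < dist (c + u⁻¹) c := by
    rintro u ⟨hu, hu0⟩
    rw [mem_ball_zero_iff] at hu
    have hu0' : u ≠ 0 := by simpa using hu0
    have hpos : 0 < ‖u‖ := norm_pos_iff.2 hu0'
    rw [dist_eq_norm, add_sub_cancel_left, norm_inv]
    rw [lt_inv_comm₀ hρ hpos]
    exact hu
  have hopen : IsOpen {z : ℂ | ρ < dist z c} :=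
    isOpen_lt continuous_const (continuous_id.dist continuous_const)
  let g : ℂ → ℂ := fun u => f (c + u⁻¹)
  have hg : DifferentiableOn ℂ g (ball 0 ρ⁻¹ \ {0}) := by
    intro u hu
    refine DifferentiableAt.differentiableWithinAt ?_
    have hu0 : u ≠ 0 := by simpa using hu.2
    have h1 : DifferentiableAt ℂ f (c + u⁻¹) :=
      hf.differentiableAt (hopen.mem_nhds (hmaps u hu))
    have h2 : DifferentiableAt ℂ (fun u : ℂ => c + u⁻¹) u :=
      (differentiableAt_inv hu0).const_add c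
    exact DifferentiableAt.comp (g := f) (f := fun u : ℂ => c + u⁻¹) u h1 h2
  have hgb : BddAbove (norm ∘ g '' (ball (0 : ℂ) ρ⁻¹ \ {0})) := by
    refine ⟨1, ?_⟩
    rintro _ ⟨u, hu, rfl⟩
    exact hb _ (hmaps u hu)
  have hΦ := differentiableOn_update_limUnder_of_bddAbove
    (ball_mem_nhds (0 : ℂ) (inv_pos.2 hρ)) hg hgb
  set Φ : ℂ → ℂ := Function.update g 0 (limUnder (𝓝[≠] 0) g) with hΦdef
  have hΦne : ∀ u, u ≠ 0 → Φ u = g u := fun u hu => Function.update_of_ne hu _ _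
  have h0mem : (0 : ℂ) ∈ ball (0 : ℂ) ρ⁻¹ := mem_ball_self (inv_pos.2 hρ)
  refine ⟨Φ, hΦ, ?_, ?_⟩
  · intro u hu
    rcases eq_or_ne u 0 with rfl | hu0
    · have hc : ContinuousAt Φ 0 := (hΦ.differentiableAt (isOpen_ball.mem_nhds hu)).continuousAt
      have ht : Tendsto Φ (𝓝[≠] 0) (𝓝 (Φ 0)) := hc.mono_left nhdsWithin_le_nhds
      refine le_of_tendsto ht.norm ?_
      have : ∀ᶠ v in 𝓝[≠] (0 : ℂ), v ∈ ball (0 : ℂ) ρ⁻¹ \ {0} := by
        refine inter_mem (mem_nhdsWithin_of_mem_nhds (isOpen_ball.mem_nhds hu)) ?_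
        exact self_mem_nhdsWithin
      filter_upwards [this] with v hv
      have hv0 : v ≠ 0 := by simpa using hv.2
      rw [hΦne v hv0]
      exact hb _ (hmaps v hv)
    · rw [hΦne u hu0]
      exact hb _ (hmaps u ⟨hu, by simpa using hu0⟩)
  · intro z hz
    have hz0 : z - c ≠ 0 := by
      intro h
      rw [dist_eq_norm, h, norm_zero] at hz
      linarith
    rw [hΦne _ (inv_ne_zero hz0)]
    simp [g]

/-- Lipschitz estimate at infinity, for functions bounded by one outside of the disc of radius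
`3/4`. -/
theorem exterior_lip {c : ℂ} {f : ℂ → ℂ}
    (hf : DifferentiableOn ℂ f {z | (3 / 4 : ℝ) < dist z c})
    (hb : ∀ z, (3 / 4 : ℝ) < dist z c → ‖f z‖ ≤ 1) {z z' : ℂ} (hz : 1 ≤ dist z c)
    (hz' : 1 ≤ dist z' c) :
    ‖f z - f z'‖ ≤ 4 * ‖(z - c)⁻¹ - (z' - c)⁻¹‖ := by
  obtain ⟨Φ, hΦ, hΦb, hΦf⟩ := exterior_ext (by norm_num) hf hb
  have hz1 : (3 / 4 : ℝ) < dist z c := by linarith
  have hz1' : (3 / 4 : ℝ) < dist z' c := by linarith
  rw [← hΦf z hz1, ← hΦf z' hz1']
  have hmem : ∀ x : ℂ, 1 ≤ dist x c → (x - c)⁻¹ ∈ closedBall (0 : ℂ) 1 := by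
    intro x hx
    rw [mem_closedBall_zero_iff, norm_inv, ← dist_eq_norm]
    exact inv_le_one_of_one_le₀ hx
  have hd : ∀ u ∈ closedBall (0 : ℂ) 1, DifferentiableAt ℂ Φ u := by
    intro u hu
    refine hΦ.differentiableAt (isOpen_ball.mem_nhds ?_)
    rw [mem_closedBall_zero_iff] at hu
    rw [mem_ball_zero_iff]
    norm_num
    linarith
  refine Convex.norm_image_sub_le_of_norm_deriv_le (s := closedBall (0 : ℂ) 1) hd ?_
    (convex_closedBall _ _) (hmem z' hz') (hmem z hz)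
  intro u hu
  rw [mem_closedBall_zero_iff] at hu
  have hsub : closedBall u (1 / 4) ⊆ ball (0 : ℂ) (3 / 4 : ℝ)⁻¹ := by
    intro v hv
    rw [mem_closedBall, dist_eq_norm] at hv
    rw [mem_ball_zero_iff]
    have := norm_add_le (v - u) u
    rw [sub_add_cancel] at this
    norm_num
    linarith
  have := Complex.norm_deriv_le_of_forall_mem_sphere_norm_le (c := u) (R := 1 / 4) (C := 1)
    (f := Φ) (by norm_num) ((hΦ.mono hsub).diffContOnCl_ball (le_refl _)) (by
      intro v hv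
      exact hΦb v (hsub (sphere_subset_closedBall hv)))
  calc ‖deriv Φ u‖ ≤ 1 / (1 / 4) := this
    _ = 4 := by norm_num

/-- **Uniform corona constants for exteriors of discs.** -/
theorem exterior_corona {ρ ρ' : ℝ} (hρ : 0 < ρ) (hρ' : ρ < ρ') (n : ℕ) (δ : ℝ) (hδ : 0 < δ) :
    ∃ C : ℝ, ∀ (c : ℂ) (f : Fin n → ℂ → ℂ), (∀ j, DifferentiableOn ℂ (f j) {z | ρ < dist z c}) →
      (∀ j z, ρ < dist z c → ‖f j z‖ ≤ 1) → (∀ z, ρ < dist z c → ∃ j, δ ≤ ‖f j z‖) →
      ∃ h : Fin n → ℂ → ℂ, (∀ j, DifferentiableOn ℂ (h j) {z | ρ' < dist z c}) ∧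
        (∀ j z, ρ' < dist z c → ‖h j z‖ ≤ C) ∧
        ∀ z, ρ' < dist z c → ∑ j, f j z * h j z = 1 := by
  obtain ⟨C, hC⟩ := disc_corona (R₁ := ρ⁻¹) (R₂ := ρ'⁻¹) (inv_pos.2 (hρ.trans hρ'))
    (inv_strictAnti₀ hρ hρ') n δ hδ
  refine ⟨C, fun c f hf hb hl => ?_⟩
  choose Φ hΦ hΦb hΦf using fun j => exterior_ext hρ (hf j) (hb j)
  have hlow : ∀ u ∈ ball (0 : ℂ) ρ⁻¹, u ≠ 0 → ∃ j, δ ≤ ‖Φ j u‖ := by
    intro u hu hu0
    rw [mem_ball_zero_iff] at hu
    have hpos : 0 < ‖u‖ := norm_pos_iff.2 hu0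
    have hz : ρ < dist (c + u⁻¹) c := by
      rw [dist_eq_norm, add_sub_cancel_left, norm_inv, lt_inv_comm₀ hρ hpos]
      exact hu
    obtain ⟨j, hj⟩ := hl _ hz
    refine ⟨j, ?_⟩
    rw [← hΦf j _ hz] at hj
    simpa using hj
  have hlow0 : ∃ j, δ ≤ ‖Φ j 0‖ := by
    by_contra hcon
    push Not at hcon
    have h0mem : (0 : ℂ) ∈ ball (0 : ℂ) ρ⁻¹ := mem_ball_self (inv_pos.2 hρ)
    have hev : ∀ j, ∀ᶠ u in 𝓝 (0 : ℂ), ‖Φ j u‖ < δ := by
      intro j
      have hc : ContinuousAt (Φ j) 0 :=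
        ((hΦ j).differentiableAt (isOpen_ball.mem_nhds h0mem)).continuousAt
      exact hc.norm.eventually (gt_mem_nhds (hcon j))
    have hev2 : ∀ᶠ u in 𝓝[≠] (0 : ℂ), (∀ j, ‖Φ j u‖ < δ) ∧ u ∈ ball (0 : ℂ) ρ⁻¹ ∧ u ≠ 0 := by
      refine ((eventually_all.2 hev).filter_mono nhdsWithin_le_nhds).and ?_
      refine Eventually.and ?_ self_mem_nhdsWithin
      exact mem_nhdsWithin_of_mem_nhds (isOpen_ball.mem_nhds h0mem)
    obtain ⟨u, hu1, hu2, hu3⟩ := hev2.exists
    obtain ⟨j, hj⟩ := hlow u hu2 hu3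
    exact absurd (hu1 j) (not_lt.2 hj)
  obtain ⟨H, hH, hHb, hHs⟩ := hC Φ hΦ hΦb (by
    intro u hu
    rcases eq_or_ne u 0 with rfl | hu0
    · exact hlow0
    · exact hlow u hu hu0)
  have hmem : ∀ z, ρ' < dist z c → (z - c)⁻¹ ∈ ball (0 : ℂ) ρ'⁻¹ := by
    intro z hz
    rw [mem_ball_zero_iff, norm_inv, ← dist_eq_norm]
    exact inv_strictAnti₀ (hρ.trans hρ') hz
  refine ⟨fun j z => H j ((z - c)⁻¹), ?_, ?_, ?_⟩
  · intro j z hz
    refine DifferentiableAt.differentiableWithinAt ?_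
    have hz0 : z - c ≠ 0 := by
      intro h
      have hz' : ρ' < dist z c := hz
      rw [dist_eq_norm, h, norm_zero] at hz'
      linarith
    have h1 : DifferentiableAt ℂ (H j) ((z - c)⁻¹) :=
      (hH j).differentiableAt (isOpen_ball.mem_nhds (hmem z hz))
    have h2 : DifferentiableAt ℂ (fun z : ℂ => (z - c)⁻¹) z :=
      ((differentiableAt_id.sub_const c).inv hz0)
    exact DifferentiableAt.comp (g := H j) (f := fun z : ℂ => (z - c)⁻¹) z h1 h2
  · intro j z hz
    exact hHb j _ (hmem z hz)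
  · intro z hz
    rw [← hHs _ (hmem z hz)]
    refine Finset.sum_congr rfl fun j _ => ?_
    rw [hΦf j z (hρ'.trans hz)]

/-- **Gluing.** Corona solutions on a neighbourhood of `E` and on the exterior of a disc glue to a
corona solution on the complement of `E`, with bounds. -/
theorem glue {E : Set ℂ} {c : ℂ} (hEc : IsClosed E) (hE : ∀ z ∈ E, dist z c < 3 / 4)
    {n : ℕ} {f g h : Fin n → ℂ → ℂ} {M N : ℝ} (hM : 0 ≤ M) (hN : 0 ≤ N)
    (hf : ∀ j, DifferentiableOn ℂ (f j) Eᶜ) (hfb : ∀ j, ∀ z ∈ Eᶜ, ‖f j z‖ ≤ 1)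
    (hg : ∀ j, DifferentiableOn ℂ (g j) (ball c (3 / 2) ∩ Eᶜ))
    (hgb : ∀ j, ∀ z ∈ ball c (3 / 2) ∩ Eᶜ, ‖g j z‖ ≤ M)
    (hgs : ∀ z ∈ ball c (3 / 2) ∩ Eᶜ, ∑ j, f j z * g j z = 1)
    (hh : ∀ j, DifferentiableOn ℂ (h j) {z | (4 / 5 : ℝ) < dist z c})
    (hhb : ∀ j z, (4 / 5 : ℝ) < dist z c → ‖h j z‖ ≤ N)
    (hhs : ∀ z, (4 / 5 : ℝ) < dist z c → ∑ j, f j z * h j z = 1) :
    ∃ G : Fin n → ℂ → ℂ, (∀ j, DifferentiableOn ℂ (G j) Eᶜ) ∧
      (∀ j, ∀ z ∈ Eᶜ, ‖G j z‖ ≤ M + N + n * (26 * (M * N))) ∧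
      ∀ z ∈ Eᶜ, ∑ j, f j z * G j z = 1 := by
  classical
  have hannE : ∀ z, (3 / 4 : ℝ) ≤ dist z c → z ∈ Eᶜ := fun z hz hzE => by
    have := hE z hzE
    linarith
  let w : Fin n → Fin n → ℂ → ℂ := fun i j z => g i z * h j z - g j z * h i z
  have hopA : IsOpen {z : ℂ | (4 / 5 : ℝ) < dist z c ∧ dist z c < 3 / 2} :=
    (isOpen_lt continuous_const (continuous_id.dist continuous_const)).inter
      (isOpen_lt (continuous_id.dist continuous_const) continuous_const)
  have hsub1 : {z : ℂ | (4 / 5 : ℝ) < dist z c ∧ dist z c < 3 / 2} ⊆ ball c (3 / 2) ∩ Eᶜ := by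
    rintro z ⟨h1, h2⟩
    exact ⟨mem_ball.2 h2, hannE z (by linarith)⟩
  have hsub2 : {z : ℂ | (4 / 5 : ℝ) < dist z c ∧ dist z c < 3 / 2} ⊆
      {z | (4 / 5 : ℝ) < dist z c} := fun z hz => hz.1
  have hw : ∀ i j, DifferentiableOn ℂ (w i j)
      {z | (4 / 5 : ℝ) < dist z c ∧ dist z c < 3 / 2} := by
    intro i j
    exact (((hg i).mono hsub1).mul ((hh j).mono hsub2)).sub
      (((hg j).mono hsub1).mul ((hh i).mono hsub2))
  have hwb : ∀ i j z, (4 / 5 : ℝ) < dist z c → dist z c < 3 / 2 → ‖w i j z‖ ≤ 2 * (M * N) := by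
    intro i j z h1 h2
    have hz1 := hsub1 (show z ∈ {z : ℂ | (4 / 5 : ℝ) < dist z c ∧ dist z c < 3 / 2} from ⟨h1, h2⟩)
    have a1 : ‖g i z * h j z‖ ≤ M * N := by
      rw [norm_mul]
      exact mul_le_mul (hgb i z hz1) (hhb j z h1) (norm_nonneg _) hM
    have a2 : ‖g j z * h i z‖ ≤ M * N := by
      rw [norm_mul]
      exact mul_le_mul (hgb j z hz1) (hhb i z h1) (norm_nonneg _) hM
    calc ‖w i j z‖ ≤ ‖g i z * h j z‖ + ‖g j z * h i z‖ := norm_sub_le _ _
      _ ≤ 2 * (M * N) := by linarith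
  choose wp wm hwp hwm hwpb hwmb hwe using fun i j =>
    laurent_split (c := c) (r₁ := 4 / 5) (ra := 9 / 10) (s₁ := 1) (s₂ := 6 / 5) (rb := 13 / 10)
      (r₂ := 3 / 2) (by norm_num) (by norm_num) (by norm_num) (by norm_num) (by norm_num)
      (by norm_num) (hw i j) (hwb i j)
  -- antisymmetrise
  let P : Fin n → Fin n → ℂ → ℂ := fun i j z => (wp i j z - wp j i z) / 2
  let Q : Fin n → Fin n → ℂ → ℂ := fun i j z => (wm i j z - wm j i z) / 2
  have hPQ : ∀ i j z, (9 / 10 : ℝ) < dist z c → dist z c < 13 / 10 →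
      w i j z = P i j z + Q i j z := by
    intro i j z h1 h2
    have e1 := hwe i j z h1 h2
    have e2 := hwe j i z h1 h2
    have e3 : w j i z = - w i j z := by simp only [w]; ring
    simp only [P, Q]
    have : w i j z = (w i j z - w j i z) / 2 := by rw [e3]; ring
    rw [this, e1, e2]
    ring
  have hPb : ∀ i j z, dist z c < 6 / 5 → ‖P i j z‖ ≤ 26 * (M * N) := by
    intro i j z hz
    have a1 := hwpb i j z hz
    have a2 := hwpb j i z hz
    have e : (13 / 10 / (13 / 10 - 6 / 5) * (2 * (M * N)) : ℝ) = 26 * (M * N) := by ring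
    rw [e] at a1 a2
    simp only [P]
    rw [norm_div, Complex.norm_two, div_le_iff₀ (by norm_num)]
    calc ‖wp i j z - wp j i z‖ ≤ ‖wp i j z‖ + ‖wp j i z‖ := norm_sub_le _ _
      _ ≤ 26 * (M * N) * 2 := by linarith
  have hMN : 0 ≤ M * N := mul_nonneg hM hN
  have hQb : ∀ i j z, 1 < dist z c → ‖Q i j z‖ ≤ 26 * (M * N) := by
    intro i j z hz
    have a1 := hwmb i j z hz
    have a2 := hwmb j i z hz
    have e : (9 / 10 / (1 - 9 / 10) * (2 * (M * N)) : ℝ) = 18 * (M * N) := by ring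
    rw [e] at a1 a2
    simp only [Q]
    rw [norm_div, Complex.norm_two, div_le_iff₀ (by norm_num)]
    calc ‖wm i j z - wm j i z‖ ≤ ‖wm i j z‖ + ‖wm j i z‖ := norm_sub_le _ _
      _ ≤ 26 * (M * N) * 2 := by linarith
  have hPanti : ∀ i j z, P j i z = - P i j z := by intro i j z; simp only [P]; ring
  have hQanti : ∀ i j z, Q j i z = - Q i j z := by intro i j z; simp only [Q]; ring
  have hzero : ∀ (R : Fin n → Fin n → ℂ) (F : Fin n → ℂ), (∀ i j, R j i = - R i j) →
      ∑ i, F i * ∑ j, R i j * F j = 0 := by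
    intro R F hR
    have h1 : ∑ i, F i * ∑ j, R i j * F j = ∑ i, ∑ j, F i * R i j * F j := by
      refine Finset.sum_congr rfl fun i _ => ?_
      rw [Finset.mul_sum]
      refine Finset.sum_congr rfl fun j _ => ?_
      ring
    have h2 : ∑ i, ∑ j, F i * R i j * F j = - ∑ i, ∑ j, F i * R i j * F j := by
      conv_lhs => rw [Finset.sum_comm]
      rw [← Finset.sum_neg_distrib]
      refine Finset.sum_congr rfl fun i _ => ?_
      rw [← Finset.sum_neg_distrib]
      refine Finset.sum_congr rfl fun j _ => ?_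
      rw [hR i j]
      ring
    rw [h1]
    have h3 : (2 : ℂ) * ∑ i, ∑ j, F i * R i j * F j = 0 := by
      have := add_eq_zero_iff_eq_neg.2 h2
      rw [two_mul]
      exact this
    exact (mul_eq_zero.1 h3).resolve_left two_ne_zero
  let G1 : Fin n → ℂ → ℂ := fun i z => g i z - ∑ j, P i j z * f j z
  let G2 : Fin n → ℂ → ℂ := fun i z => h i z + ∑ j, Q i j z * f j z
  have hG12 : ∀ i z, (9 / 10 : ℝ) < dist z c → dist z c < 13 / 10 → G1 i z = G2 i z := by
    intro i z h1 h2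
    have hz1 : z ∈ ball c (3 / 2) ∩ Eᶜ := ⟨mem_ball.2 (by linarith), hannE z (by linarith)⟩
    have e1 := hgs z hz1
    have e2 := hhs z (by linarith)
    have e3 : g i z - h i z = ∑ j, w i j z * f j z := by
      have : ∑ j, w i j z * f j z = g i z * ∑ j, f j z * h j z - h i z * ∑ j, f j z * g j z := by
        rw [Finset.mul_sum, Finset.mul_sum, ← Finset.sum_sub_distrib]
        refine Finset.sum_congr rfl fun j _ => ?_
        simp only [w]
        ring
      rw [this, e1, e2]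
      ring
    have e4 : ∑ j, w i j z * f j z = ∑ j, P i j z * f j z + ∑ j, Q i j z * f j z := by
      rw [← Finset.sum_add_distrib]
      refine Finset.sum_congr rfl fun j _ => ?_
      rw [hPQ i j z h1 h2]
      ring
    simp only [G1, G2]
    rw [e4] at e3
    linear_combination e3
  let G : Fin n → ℂ → ℂ := fun i z => if dist z c < 11 / 10 then G1 i z else G2 i z
  have hGG1 : ∀ i z, dist z c < 13 / 10 → G i z = G1 i z := by
    intro i z hz
    simp only [G]
    split_ifs with h1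
    · rfl
    · exact (hG12 i z (by linarith) hz).symm
  have hGG2 : ∀ i z, (9 / 10 : ℝ) < dist z c → G i z = G2 i z := by
    intro i z hz
    simp only [G]
    split_ifs with h1
    · exact hG12 i z hz (by linarith)
    · rfl
  refine ⟨G, ?_, ?_, ?_⟩
  · intro i z hz
    rcases lt_or_ge (dist z c) (6 / 5) with hlt | hge
    · -- near
      have hop : IsOpen (ball c (13 / 10) ∩ Eᶜ) := isOpen_ball.inter hEc.isOpen_compl
      have hzm : z ∈ ball c (13 / 10) ∩ Eᶜ := ⟨mem_ball.2 (by linarith), hz⟩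
      have hd1 : DifferentiableOn ℂ (G1 i) (ball c (13 / 10) ∩ Eᶜ) := by
        have s1 : ball c (13 / 10) ∩ Eᶜ ⊆ ball c (3 / 2) ∩ Eᶜ :=
          inter_subset_inter_left _ (ball_subset_ball (by norm_num))
        have hsum : DifferentiableOn ℂ (fun z => ∑ j, P i j z * f j z)
            (ball c (13 / 10) ∩ Eᶜ) := by
          refine DifferentiableOn.fun_sum fun j _ => ?_
          refine DifferentiableOn.mul ?_ ((hf j).mono inter_subset_right)
          have : DifferentiableOn ℂ (fun z => (wp i j z - wp j i z) / 2)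
              (ball c (13 / 10) ∩ Eᶜ) :=
            (((hwp i j).mono inter_subset_left).sub ((hwp j i).mono inter_subset_left)).div_const 2
          exact this
        exact ((hg i).mono s1).sub hsum
      have := hd1.differentiableAt (hop.mem_nhds hzm)
      refine (this.congr_of_eventuallyEq ?_).differentiableWithinAt
      filter_upwards [hop.mem_nhds hzm] with y hy
      exact hGG1 i y (mem_ball.1 hy.1)
    · have hop : IsOpen {z : ℂ | (9 / 10 : ℝ) < dist z c} :=
        isOpen_lt continuous_const (continuous_id.dist continuous_const)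
      have hzm : z ∈ {z : ℂ | (9 / 10 : ℝ) < dist z c} := by
        show (9 / 10 : ℝ) < dist z c
        linarith
      have hd2 : DifferentiableOn ℂ (G2 i) {z : ℂ | (9 / 10 : ℝ) < dist z c} := by
        have s1 : {z : ℂ | (9 / 10 : ℝ) < dist z c} ⊆ {z : ℂ | (4 / 5 : ℝ) < dist z c} :=
          fun y hy => lt_trans (by norm_num) (show (9 / 10 : ℝ) < dist y c from hy)
        have s2 : {z : ℂ | (9 / 10 : ℝ) < dist z c} ⊆ Eᶜ := fun y hy =>
          hannE y (by have : (9 / 10 : ℝ) < dist y c := hy; linarith)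
        have hsum : DifferentiableOn ℂ (fun z => ∑ j, Q i j z * f j z)
            {z : ℂ | (9 / 10 : ℝ) < dist z c} := by
          refine DifferentiableOn.fun_sum fun j _ => ?_
          refine DifferentiableOn.mul ?_ ((hf j).mono s2)
          have : DifferentiableOn ℂ (fun z => (wm i j z - wm j i z) / 2)
              {z : ℂ | (9 / 10 : ℝ) < dist z c} :=
            ((hwm i j).sub (hwm j i)).div_const 2
          exact this
        exact ((hh i).mono s1).add hsum
      have := hd2.differentiableAt (hop.mem_nhds hzm)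
      refine (this.congr_of_eventuallyEq ?_).differentiableWithinAt
      filter_upwards [hop.mem_nhds hzm] with y hy
      exact hGG2 i y hy
  · intro i z hz
    have hn0 : (0 : ℝ) ≤ (n : ℝ) * (26 * (M * N)) := by positivity
    rcases lt_or_ge (dist z c) (11 / 10) with hlt | hge
    · rw [hGG1 i z (by linarith)]
      have hz1 : z ∈ ball c (3 / 2) ∩ Eᶜ := ⟨mem_ball.2 (by linarith), hz⟩
      have a1 := hgb i z hz1
      have a2 : ‖∑ j, P i j z * f j z‖ ≤ n * (26 * (M * N)) := by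
        calc ‖∑ j, P i j z * f j z‖ ≤ ∑ j : Fin n, ‖P i j z * f j z‖ := norm_sum_le _ _
          _ ≤ ∑ _j : Fin n, 26 * (M * N) := by
              refine Finset.sum_le_sum fun j _ => ?_
              rw [norm_mul]
              calc ‖P i j z‖ * ‖f j z‖ ≤ (26 * (M * N)) * 1 :=
                    mul_le_mul (hPb i j z (by linarith)) (hfb j z hz) (norm_nonneg _)
                      (by positivity)
                _ = _ := mul_one _
          _ = n * (26 * (M * N)) := by simp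
      calc ‖G1 i z‖ ≤ ‖g i z‖ + ‖∑ j, P i j z * f j z‖ := norm_sub_le _ _
        _ ≤ M + N + n * (26 * (M * N)) := by linarith
    · rw [hGG2 i z (by linarith)]
      have a1 := hhb i z (by linarith)
      have a2 : ‖∑ j, Q i j z * f j z‖ ≤ n * (26 * (M * N)) := by
        calc ‖∑ j, Q i j z * f j z‖ ≤ ∑ j : Fin n, ‖Q i j z * f j z‖ := norm_sum_le _ _
          _ ≤ ∑ _j : Fin n, 26 * (M * N) := by
              refine Finset.sum_le_sum fun j _ => ?_
              rw [norm_mul]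
              calc ‖Q i j z‖ * ‖f j z‖ ≤ (26 * (M * N)) * 1 :=
                    mul_le_mul (hQb i j z (by linarith)) (hfb j z hz) (norm_nonneg _)
                      (by positivity)
                _ = _ := mul_one _
          _ = n * (26 * (M * N)) := by simp
      calc ‖G2 i z‖ ≤ ‖h i z‖ + ‖∑ j, Q i j z * f j z‖ := norm_add_le _ _
        _ ≤ M + N + n * (26 * (M * N)) := by linarith
  · intro z hz
    rcases lt_or_ge (dist z c) (11 / 10) with hlt | hge
    · have hz1 : z ∈ ball c (3 / 2) ∩ Eᶜ := ⟨mem_ball.2 (by linarith), hz⟩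
      have e0 : ∑ j, f j z * G j z = ∑ j, f j z * g j z - ∑ i, f i z * ∑ j, P i j z * f j z := by
        rw [← Finset.sum_sub_distrib]
        refine Finset.sum_congr rfl fun i _ => ?_
        rw [hGG1 i z (by linarith)]
        simp only [G1]
        ring
      rw [e0, hgs z hz1, hzero (fun i j => P i j z) (fun i => f i z) (fun i j => hPanti i j z),
        sub_zero]
    · have e0 : ∑ j, f j z * G j z = ∑ j, f j z * h j z + ∑ i, f i z * ∑ j, Q i j z * f j z := by
        rw [← Finset.sum_add_distrib]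
        refine Finset.sum_congr rfl fun i _ => ?_
        rw [hGG2 i z (by linarith)]
        simp only [G2]
        ring
      rw [e0, hhs z (by linarith),
        hzero (fun i j => Q i j z) (fun i => f i z) (fun i j => hQanti i j z), add_zero]

end Pool.Corona91698f
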