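import Mathlib
import Pool.Agent.Corona91698f.Glue

/-!
# Small similar copies of a compact set converging to one of its points, and superposition of
corona data on the copies
-/

open Complex Metric Set Filter Topology

set_option autoImplicit false

namespace Pool.Corona91698f

/-- A sequence of small similar copies `t i + r i * E` of `E` inside `E`, converging to `p`. -/
structure Copies (E : Set ℂ) (c p : ℂ) where
  t : ℕ → ℂ
  r : ℕ → ℝ
  e : ℕ → ℝ
  hr : ∀ i, 0 < r i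
  he : ∀ i, 0 < e i
  hre : ∀ i, r i ≤ e i ^ 3
  he1 : ∀ i, e i ≤ 1 / 27 ^ (i + 1)
  hdec : ∀ i l, l < i → e i ≤ e l / 27
  hd1 : ∀ i, e i / 3 ≤ dist (t i + r i * c) p
  hd2 : ∀ i, dist (t i + r i * c) p ≤ 2 * e i
  h1 : ∀ i, ∀ z ∈ E, t i + r i * z ∈ E
  h2 : ∀ i, ∀ z, dist z c < 3 / 2 → t i + r i * z ∈ E → z ∈ E

namespace Copies

variable {E : Set ℂ} {c p : ℂ} (K : Copies E c p)

/-- centre of the copy -/
noncomputable def z0 (i : ℕ) : ℂ := K.t i + K.r i * c

/-- the inverse similarity -/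
noncomputable def inv (i : ℕ) (z : ℂ) : ℂ := (z - K.t i) / K.r i

theorem rne (i : ℕ) : (K.r i : ℂ) ≠ 0 := by
  exact_mod_cast (K.hr i).ne'

theorem phi_inv (i : ℕ) (z : ℂ) : K.t i + K.r i * K.inv i z = z := by
  unfold inv
  field_simp [K.rne i]
  ring

theorem inv_phi (i : ℕ) (z : ℂ) : K.inv i (K.t i + K.r i * z) = z := by
  unfold inv
  field_simp [K.rne i]
  ring

theorem inv_sub (i : ℕ) (z : ℂ) : K.inv i z - c = (z - K.z0 i) / K.r i := by
  unfold inv z0
  field_simp [K.rne i]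
  ring

theorem dist_inv (i : ℕ) (z : ℂ) : dist (K.inv i z) c = dist z (K.z0 i) / K.r i := by
  rw [dist_eq_norm, inv_sub, norm_div, dist_eq_norm]
  congr 1
  rw [Complex.norm_real, Real.norm_eq_abs, abs_of_pos (K.hr i)]

theorem dist_phi (i : ℕ) (z : ℂ) : dist (K.t i + K.r i * z) (K.z0 i) = K.r i * dist z c := by
  rw [dist_eq_norm, dist_eq_norm]
  have : K.t i + K.r i * z - K.z0 i = K.r i * (z - c) := by unfold z0; ring
  rw [this, norm_mul, Complex.norm_real, Real.norm_eq_abs, abs_of_pos (K.hr i)]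

theorem inv_notMem {i : ℕ} {z : ℂ} (hz : z ∈ Eᶜ) : K.inv i z ∈ Eᶜ := by
  intro h
  have := K.h1 i _ h
  rw [phi_inv] at this
  exact hz this

theorem e_le (i : ℕ) : K.e i ≤ 1 / 27 := by
  refine (K.he1 i).trans ?_
  rw [pow_succ]
  have : (1 : ℝ) ≤ 27 ^ i := one_le_pow₀ (by norm_num)
  rw [div_le_div_iff₀ (by positivity) (by norm_num)]
  nlinarith

/-- far from the copy, the rescaled point is far from the centre -/
theorem one_le_dist_inv {i : ℕ} {z : ℂ} (hz : K.e i / 10 ≤ dist z (K.z0 i)) :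
    1 ≤ dist (K.inv i z) c := by
  rw [dist_inv, le_div_iff₀ (K.hr i), one_mul]
  refine le_trans ?_ hz
  have h1 := K.hre i
  have h2 := K.e_le i
  have h3 := K.he i
  calc K.r i ≤ K.e i ^ 3 := h1
    _ = K.e i * (K.e i * K.e i) := by ring
    _ ≤ K.e i * ((1 / 27) * (1 / 27)) := by gcongr
    _ ≤ K.e i / 10 := by linarith

theorem dist_p (i : ℕ) : K.e i / 10 ≤ dist p (K.z0 i) := by
  have := K.hd1 i
  have h3 := K.he i
  rw [dist_comm]
  unfold z0
  linarith

/-- centres are separated -/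
theorem sep {i l : ℕ} (hil : l < i) : K.e l / 4 ≤ dist (K.z0 l) (K.z0 i) := by
  have h1 := K.hd1 l
  have h2 := K.hd2 i
  have h3 := K.hdec i l hil
  have h4 : dist (K.z0 l) p ≤ dist (K.z0 l) (K.z0 i) + dist (K.z0 i) p := dist_triangle _ _ _
  have h5 := K.he l
  have h1' : K.e l / 3 ≤ dist (K.z0 l) p := h1
  have h2' : dist (K.z0 i) p ≤ 2 * K.e i := h2
  linarith

theorem far_of_near {i l : ℕ} (hil : l ≠ i) {z : ℂ} (hz : dist z (K.z0 i) < K.e i / 10) :
    K.e l / 10 ≤ dist z (K.z0 l) := by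
  rcases lt_or_gt_of_ne hil with h | h
  · have h1 := K.sep h
    have h3 := K.hdec i l h
    have h4 : dist (K.z0 l) (K.z0 i) ≤ dist (K.z0 l) z + dist z (K.z0 i) := dist_triangle _ _ _
    rw [dist_comm (K.z0 l) z] at h4
    have h5 := K.he l
    linarith
  · have h1 := K.sep h
    have h3 := K.hdec l i h
    have h4 : dist (K.z0 i) (K.z0 l) ≤ dist (K.z0 i) z + dist z (K.z0 l) := dist_triangle _ _ _
    rw [dist_comm (K.z0 i) z] at h4
    have h5 := K.he l
    have h6 := K.he i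
    linarith

/-- The localised piece of `f` on the `i`-th copy. -/
noncomputable def U (f : ℂ → ℂ) (i : ℕ) (z : ℂ) : ℂ := f (K.inv i z) - f (K.inv i p)

variable {f : ℂ → ℂ}

theorem inv_p_mem (hE : ∀ z ∈ E, dist z c < 3 / 4) (i : ℕ) : K.inv i p ∈ Eᶜ := by
  intro h
  have h1 := hE _ h
  have h2 := K.one_le_dist_inv (K.dist_p i)
  linarith

theorem U_norm_le_two (hE : ∀ z ∈ E, dist z c < 3 / 4) (hfb : ∀ z ∈ Eᶜ, ‖f z‖ ≤ 1) (i : ℕ)
    {z : ℂ} (hz : z ∈ Eᶜ) : ‖K.U f i z‖ ≤ 2 := by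
  unfold U
  have h1 := hfb _ (K.inv_notMem (i := i) hz)
  have h2 := hfb _ (K.inv_p_mem hE i)
  have := norm_sub_le (f (K.inv i z)) (f (K.inv i p))
  linarith

theorem U_key (hE : ∀ z ∈ E, dist z c < 3 / 4) (hf : DifferentiableOn ℂ f Eᶜ)
    (hfb : ∀ z ∈ Eᶜ, ‖f z‖ ≤ 1) {i : ℕ} {z : ℂ} (hz : K.e i / 10 ≤ dist z (K.z0 i)) :
    ‖K.U f i z‖ ≤ 4 * (K.r i * dist z p / (dist z (K.z0 i) * dist p (K.z0 i))) := by
  have hsub : {z : ℂ | (3 / 4 : ℝ) < dist z c} ⊆ Eᶜ := by
    intro y hy hyE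
    have := hE y hyE
    have hy' : (3 / 4 : ℝ) < dist y c := hy
    linarith
  have hlip := exterior_lip (c := c) (hf.mono hsub) (fun y hy => hfb y (hsub hy))
    (K.one_le_dist_inv hz) (K.one_le_dist_inv (K.dist_p i))
  unfold U
  refine hlip.trans_eq ?_
  congr 1
  rw [inv_sub, inv_sub]
  have he := K.he i
  have hz0 : z - K.z0 i ≠ 0 := by
    intro h
    rw [dist_eq_norm, h, norm_zero] at hz
    linarith
  have hp0 : p - K.z0 i ≠ 0 := by
    intro h
    have := K.dist_p i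
    rw [dist_eq_norm, h, norm_zero] at this
    linarith
  have : ((z - K.z0 i) / K.r i)⁻¹ - ((p - K.z0 i) / K.r i)⁻¹
      = K.r i * (p - z) / ((z - K.z0 i) * (p - K.z0 i)) := by
    field_simp [K.rne i]
    ring
  rw [this, norm_div, norm_mul, norm_mul, Complex.norm_real, Real.norm_eq_abs,
    abs_of_pos (K.hr i), ← dist_eq_norm, ← dist_eq_norm, ← dist_eq_norm, dist_comm p z]

theorem U_small (hE : ∀ z ∈ E, dist z c < 3 / 4) (hf : DifferentiableOn ℂ f Eᶜ)
    (hfb : ∀ z ∈ Eᶜ, ‖f z‖ ≤ 1) {i : ℕ} {z : ℂ} (hz : K.e i / 10 ≤ dist z (K.z0 i)) :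
    ‖K.U f i z‖ ≤ 52 * K.e i ^ 2 := by
  refine (K.U_key hE hf hfb hz).trans ?_
  have he := K.he i
  have hr := K.hr i
  have hre := K.hre i
  set a := dist z (K.z0 i) with ha
  set b := dist p (K.z0 i) with hb
  have ha0 : 0 < a := by linarith
  have hb1 : K.e i / 3 ≤ b := by
    rw [hb, dist_comm]; exact K.hd1 i
  have hb0 : 0 < b := by linarith
  have hd : dist z p ≤ a + b := by
    have := dist_triangle z (K.z0 i) p
    rw [dist_comm (K.z0 i) p] at this
    exact this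
  have h1 : K.r i * dist z p / (a * b) ≤ K.r i * (1 / b + 1 / a) := by
    have : K.r i * (1 / b + 1 / a) = K.r i * (a + b) / (a * b) := by
      field_simp
    rw [this]
    gcongr
  have h2 : 1 / b ≤ 3 / K.e i := by
    rw [div_le_div_iff₀ hb0 he]; linarith
  have h3 : 1 / a ≤ 10 / K.e i := by
    rw [div_le_div_iff₀ ha0 he]; linarith
  calc 4 * (K.r i * dist z p / (a * b)) ≤ 4 * (K.r i * (1 / b + 1 / a)) := by gcongr
    _ ≤ 4 * (K.e i ^ 3 * (3 / K.e i + 10 / K.e i)) := by gcongr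
    _ = 52 * K.e i ^ 2 := by field_simp; ring

theorem U_near (hE : ∀ z ∈ E, dist z c < 3 / 4) (hf : DifferentiableOn ℂ f Eᶜ)
    (hfb : ∀ z ∈ Eᶜ, ‖f z‖ ≤ 1) {i : ℕ} {z : ℂ} (hz : K.e i / 10 ≤ dist z (K.z0 i)) :
    ‖K.U f i z‖ ≤ 120 * K.e i * dist z p := by
  refine (K.U_key hE hf hfb hz).trans ?_
  have he := K.he i
  have hr := K.hr i
  have hre := K.hre i
  set a := dist z (K.z0 i) with ha
  set b := dist p (K.z0 i) with hb
  have ha0 : 0 < a := by linarith
  have hb1 : K.e i / 3 ≤ b := by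
    rw [hb, dist_comm]; exact K.hd1 i
  have hb0 : 0 < b := by linarith
  have hab : K.e i / 10 * (K.e i / 3) ≤ a * b := mul_le_mul hz hb1 (by positivity) ha0.le
  calc 4 * (K.r i * dist z p / (a * b))
      ≤ 4 * (K.e i ^ 3 * dist z p / (K.e i / 10 * (K.e i / 3))) := by gcongr
    _ = 120 * K.e i * dist z p := by field_simp; ring

theorem U_diff (hEc : IsClosed E) (hf : DifferentiableOn ℂ f Eᶜ) (i : ℕ) :
    DifferentiableOn ℂ (K.U f i) Eᶜ := by
  intro z hz
  refine DifferentiableAt.differentiableWithinAt ?_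
  have h1 : DifferentiableAt ℂ f (K.inv i z) :=
    hf.differentiableAt (hEc.isOpen_compl.mem_nhds (K.inv_notMem hz))
  have h2 : DifferentiableAt ℂ (fun z => K.inv i z) z := by
    unfold inv
    exact (differentiableAt_id.sub_const _).div_const _
  exact (DifferentiableAt.comp (g := f) (f := fun z => K.inv i z) z h1 h2).sub_const _

end Copies

end Pool.Corona91698f
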