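import Mathlib
import Pool.Agent.Corona91698f.Copies

/-!
# Superposition of functions on small copies
-/

open Complex Metric Set Filter Topology

set_option autoImplicit false

namespace Pool.Corona91698f

namespace Copies

variable {E : Set ℂ} {c p : ℂ} (K : Copies E c p)

theorem hasSum_geo (r : ℝ) (h0 : 0 ≤ r) (h1 : r < 1) (C : ℝ) :
    HasSum (fun i : ℕ => C * r ^ (i + 1)) (C * (r / (1 - r))) := by
  have h2 := (hasSum_geometric_of_lt_one h0 h1).mul_left (C * r)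
  have e1 : (fun i : ℕ => C * r ^ (i + 1)) = fun i => C * r * r ^ i := by
    funext i
    rw [pow_succ]
    ring
  have e2 : C * (r / (1 - r)) = C * r * (1 - r)⁻¹ := by
    rw [div_eq_mul_inv]
    ring
  rw [e1, e2]
  exact h2

theorem e_sq_le {τ : ℝ} (hτ0 : 0 ≤ τ) (hτ1 : τ ≤ 1) (hτ : ∀ i, K.e i ≤ τ / 27 ^ (i + 1)) (i : ℕ) :
    52 * K.e i ^ 2 ≤ 52 * τ * (1 / 729) ^ (i + 1) := by
  have h1 := hτ i
  have h2 := K.he i
  have h3 : K.e i ^ 2 ≤ (τ / 27 ^ (i + 1)) ^ 2 := by gcongr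
  have h4 : (τ / 27 ^ (i + 1)) ^ 2 = τ * τ * (1 / 729) ^ (i + 1) := by
    rw [div_pow, ← pow_mul, mul_comm (i + 1) 2, pow_mul, one_div, inv_pow]
    norm_num
    ring
  have h5 : τ * τ * (1 / 729 : ℝ) ^ (i + 1) ≤ τ * 1 * (1 / 729) ^ (i + 1) := by gcongr
  nlinarith

theorem rest_bound1 {τ : ℝ} (hτ0 : 0 ≤ τ) (hτ1 : τ ≤ 1) (hτ : ∀ i, K.e i ≤ τ / 27 ^ (i + 1))
    {h : ℕ → ℂ} (hh : ∀ i, ‖h i‖ ≤ 52 * K.e i ^ 2) : ‖∑' i, h i‖ ≤ τ := by
  have h1 := hasSum_geo (1 / 729) (by norm_num) (by norm_num) (52 * τ)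
  refine (tsum_of_norm_bounded h1 fun i => (hh i).trans (K.e_sq_le hτ0 hτ1 hτ i)).trans ?_
  norm_num
  linarith

theorem rest_bound2 {h : ℕ → ℂ} {d : ℝ} (hd : 0 ≤ d)
    (hh : ∀ i, ‖h i‖ ≤ 120 * K.e i * d) : ‖∑' i, h i‖ ≤ 5 * d := by
  have h1 := hasSum_geo (1 / 27) (by norm_num) (by norm_num) (120 * d)
  refine (tsum_of_norm_bounded h1 fun i => (hh i).trans ?_).trans ?_
  · have := K.he1 i
    calc 120 * K.e i * d ≤ 120 * (1 / 27 ^ (i + 1)) * d := by gcongr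
      _ = 120 * d * (1 / 27) ^ (i + 1) := by rw [div_pow, one_pow]; ring
  · norm_num
    linarith

theorem summable_e : Summable fun i => 52 * K.e i ^ 2 := by
  have h1 := (hasSum_geo (1 / 729) (by norm_num) (by norm_num) (52 * 1)).summable
  refine Summable.of_nonneg_of_le (fun i => by positivity) (fun i => ?_) h1
  exact K.e_sq_le zero_le_one le_rfl (fun i => K.he1 i) i

theorem tendsto_e : Tendsto K.e atTop (𝓝 0) := by
  have h1 : Tendsto (fun i : ℕ => (1 / 27 : ℝ) ^ (i + 1)) atTop (𝓝 0) :=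
    (tendsto_pow_atTop_nhds_zero_of_lt_one (by norm_num) (by norm_num)).comp (tendsto_add_atTop_nat 1)
  refine squeeze_zero (fun i => (K.he i).le) (fun i => ?_) h1
  rw [div_pow, one_pow]
  exact K.he1 i

/-- The superposition. -/
noncomputable def F (a : ℂ) (f : ℕ → ℂ → ℂ) (z : ℂ) : ℂ := a + ∑' i, K.U (f i) i z

variable {f : ℕ → ℂ → ℂ}

theorem F_diff (hEc : IsClosed E) (hE : ∀ z ∈ E, dist z c < 3 / 4) (hp : p ∈ E)
    (hf : ∀ i, DifferentiableOn ℂ (f i) Eᶜ) (hfb : ∀ i, ∀ z ∈ Eᶜ, ‖f i z‖ ≤ 1) (a : ℂ) :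
    DifferentiableOn ℂ (K.F a f) Eᶜ := by
  intro z hz
  have hzp : z ≠ p := fun h => hz (h ▸ hp)
  set ρ := dist z p with hρ
  have hρ0 : 0 < ρ := dist_pos.2 hzp
  have hV : IsOpen (ball z (ρ / 2) ∩ Eᶜ) := isOpen_ball.inter hEc.isOpen_compl
  have hzV : z ∈ ball z (ρ / 2) ∩ Eᶜ := ⟨mem_ball_self (by positivity), hz⟩
  obtain ⟨N, hN⟩ := eventually_atTop.1 ((K.tendsto_e).eventually
    (gt_mem_nhds (show (0 : ℝ) < ρ / 6 by positivity)))
  let u : ℕ → ℝ := fun i => 52 * K.e i ^ 2 + if i < N then 2 else 0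
  have hu : Summable u := by
    refine K.summable_e.add ?_
    refine summable_of_ne_finset_zero (s := Finset.range N) fun i hi => ?_
    rw [Finset.mem_range] at hi
    exact if_neg hi
  have hd : DifferentiableOn ℂ (fun w => ∑' i, K.U (f i) i w) (ball z (ρ / 2) ∩ Eᶜ) := by
    refine differentiableOn_tsum_of_summable_norm hu
      (fun i => (K.U_diff hEc (hf i) i).mono inter_subset_right) hV ?_
    rintro i w ⟨hw1, hw2⟩
    by_cases hi : i < N
    · have := K.U_norm_le_two hE (hfb i) i hw2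
      simp only [u, if_pos hi]
      have := sq_nonneg (K.e i)
      linarith
    · simp only [u, if_neg hi, add_zero]
      refine K.U_small hE (hf i) (hfb i) ?_
      have h1 := hN i (not_lt.1 hi)
      have h2 := K.hd2 i
      have h3 : dist w z < ρ / 2 := hw1
      have h4 : dist z p ≤ dist z w + (dist w (K.z0 i) + dist (K.z0 i) p) :=
        (dist_triangle z w p).trans (by gcongr; exact dist_triangle _ _ _)
      rw [dist_comm z w] at h4
      have h2' : dist (K.z0 i) p ≤ 2 * K.e i := h2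
      have h5 := K.he i
      linarith
  have := (hd.differentiableAt (hV.mem_nhds hzV)).const_add a
  exact this.differentiableWithinAt

theorem F_split (hE : ∀ z ∈ E, dist z c < 3 / 4)
    (hf : ∀ i, DifferentiableOn ℂ (f i) Eᶜ) (hfb : ∀ i, ∀ z ∈ Eᶜ, ‖f i z‖ ≤ 1) (a : ℂ) {k : ℕ}
    {z : ℂ} (hk : dist z (K.z0 k) < K.e k / 10) :
    K.F a f z = a + (K.U (f k) k z + ∑' i, if i = k then 0 else K.U (f i) i z) := by
  have hs : Summable fun i => K.U (f i) i z := by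
    refine Summable.of_norm_bounded_eventually_nat K.summable_e ?_
    filter_upwards [eventually_gt_atTop k] with i hi
    exact K.U_small hE (hf i) (hfb i) (K.far_of_near hi.ne' hk)
  unfold F
  rw [hs.tsum_eq_add_tsum_ite k]

theorem F_near (hE : ∀ z ∈ E, dist z c < 3 / 4)
    (hf : ∀ i, DifferentiableOn ℂ (f i) Eᶜ) (hfb : ∀ i, ∀ z ∈ Eᶜ, ‖f i z‖ ≤ 1) (a : ℂ) {k : ℕ}
    {z : ℂ} (hk : dist z (K.z0 k) < K.e k / 10) :
    ‖K.F a f z - f k (K.inv k z)‖ ≤ ‖a - f k (K.inv k p)‖ + 5 * dist z p := by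
  rw [K.F_split hE hf hfb a hk]
  have h1 : ‖∑' i, (if i = k then 0 else K.U (f i) i z)‖ ≤ 5 * dist z p := by
    refine K.rest_bound2 dist_nonneg fun i => ?_
    split_ifs with hi
    · rw [norm_zero]
      have := K.he i
      positivity
    · exact K.U_near hE (hf i) (hfb i) (K.far_of_near hi hk)
  have h2 : a + (K.U (f k) k z + ∑' i, if i = k then 0 else K.U (f i) i z) - f k (K.inv k z)
      = (a - f k (K.inv k p)) + ∑' i, if i = k then 0 else K.U (f i) i z := by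
    unfold U
    ring
  rw [h2]
  exact (norm_add_le _ _).trans (by gcongr)

theorem F_near' {τ : ℝ} (hτ0 : 0 ≤ τ) (hτ1 : τ ≤ 1) (hτ : ∀ i, K.e i ≤ τ / 27 ^ (i + 1))
    (hE : ∀ z ∈ E, dist z c < 3 / 4)
    (hf : ∀ i, DifferentiableOn ℂ (f i) Eᶜ) (hfb : ∀ i, ∀ z ∈ Eᶜ, ‖f i z‖ ≤ 1) (a : ℂ) {k : ℕ}
    {z : ℂ} (hk : dist z (K.z0 k) < K.e k / 10) :
    ‖K.F a f z - f k (K.inv k z)‖ ≤ ‖a - f k (K.inv k p)‖ + τ := by
  rw [K.F_split hE hf hfb a hk]
  have h1 : ‖∑' i, (if i = k then 0 else K.U (f i) i z)‖ ≤ τ := by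
    refine K.rest_bound1 hτ0 hτ1 hτ fun i => ?_
    split_ifs with hi
    · rw [norm_zero]
      positivity
    · exact K.U_small hE (hf i) (hfb i) (K.far_of_near hi hk)
  have h2 : a + (K.U (f k) k z + ∑' i, if i = k then 0 else K.U (f i) i z) - f k (K.inv k z)
      = (a - f k (K.inv k p)) + ∑' i, if i = k then 0 else K.U (f i) i z := by
    unfold U
    ring
  rw [h2]
  exact (norm_add_le _ _).trans (by gcongr)

theorem F_far {τ : ℝ} (hτ0 : 0 ≤ τ) (hτ1 : τ ≤ 1) (hτ : ∀ i, K.e i ≤ τ / 27 ^ (i + 1))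
    (hE : ∀ z ∈ E, dist z c < 3 / 4)
    (hf : ∀ i, DifferentiableOn ℂ (f i) Eᶜ) (hfb : ∀ i, ∀ z ∈ Eᶜ, ‖f i z‖ ≤ 1) (a : ℂ)
    {z : ℂ} (hz : ∀ k, K.e k / 10 ≤ dist z (K.z0 k)) :
    ‖K.F a f z - a‖ ≤ τ := by
  unfold F
  rw [add_sub_cancel_left]
  exact K.rest_bound1 hτ0 hτ1 hτ fun i => K.U_small hE (hf i) (hfb i) (hz i)

/-- Subsequence of copies. -/
def comp (κ : ℕ → ℕ) (hκ : StrictMono κ) : Copies E c p where
  t := fun i => K.t (κ i)
  r := fun i => K.r (κ i)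
  e := fun i => K.e (κ i)
  hr := fun i => K.hr _
  he := fun i => K.he _
  hre := fun i => K.hre _
  he1 := fun i => by
    refine (K.he1 _).trans ?_
    have := hκ.id_le i
    have h2 : (27 : ℝ) ^ (i + 1) ≤ 27 ^ (κ i + 1) :=
      pow_le_pow_right₀ (by norm_num) (Nat.succ_le_succ this)
    exact one_div_le_one_div_of_le (by positivity) h2
  hdec := fun i l h => K.hdec _ _ (hκ h)
  hd1 := fun i => K.hd1 _
  hd2 := fun i => K.hd2 _
  h1 := fun i => K.h1 _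
  h2 := fun i => K.h2 _

end Copies

end Pool.Corona91698f
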