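import Mathlib
import Pool.Agent.Corona91698f.Superpose

/-!
# The local corona property at one point implies the quantitative corona theorem
-/

open Complex Metric Set Filter Topology

set_option autoImplicit false

namespace Pool.Corona91698f

/-- Local solvability at the point `p` of all corona problems on the complement of `E`. -/
def LocalCorona (E : Set ℂ) (p : ℂ) : Prop :=
  ∀ (n : ℕ) (f : Fin n → ℂ → ℂ) (δ : ℝ), 0 < δ →
    (∀ j, DifferentiableOn ℂ (f j) Eᶜ) →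
    (∀ j, ∃ M : ℝ, ∀ z ∈ Eᶜ, ‖f j z‖ ≤ M) →
    (∀ z ∈ Eᶜ, ∃ j, δ ≤ ‖f j z‖) →
    ∃ r : ℝ, 0 < r ∧ ∃ g : Fin n → ℂ → ℂ,
      (∀ j, DifferentiableOn ℂ (g j) (Eᶜ ∩ ball p r)) ∧
      (∀ j, ∃ M : ℝ, ∀ z ∈ Eᶜ ∩ ball p r, ‖g j z‖ ≤ M) ∧
      (∀ z ∈ Eᶜ ∩ ball p r, ∑ j, f j z * g j z = 1)

/-- The corona theorem on the complement of `E`, with uniform constants. -/
def QuantCorona (E : Set ℂ) : Prop :=
  ∀ (n : ℕ) (δ : ℝ), 0 < δ → ∃ C : ℝ, ∀ f : Fin n → ℂ → ℂ,
    (∀ j, DifferentiableOn ℂ (f j) Eᶜ) →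
    (∀ j, ∀ z ∈ Eᶜ, ‖f j z‖ ≤ 1) →
    (∀ z ∈ Eᶜ, ∃ j, δ ≤ ‖f j z‖) →
    ∃ g : Fin n → ℂ → ℂ,
      (∀ j, DifferentiableOn ℂ (g j) Eᶜ) ∧
      (∀ j, ∀ z ∈ Eᶜ, ‖g j z‖ ≤ C) ∧
      (∀ z ∈ Eᶜ, ∑ j, f j z * g j z = 1)

theorem quant_of_local {E : Set ℂ} {c p : ℂ} (K : Copies E c p) (hEc : IsClosed E)
    (hE : ∀ z ∈ E, dist z c < 3 / 4) (hp : p ∈ E) (hloc : LocalCorona E p) :
    QuantCorona E := by
  classical
  intro n δ hδ
  by_contra hcon
  push Not at hcon
  choose f hfd hfb hfl hno using fun m : ℕ => hcon (m : ℝ)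
  -- values at `p`
  let a : ℕ → Fin n → ℂ := fun m j => f m j (K.inv m p)
  have ha : ∀ m, a m ∈ Set.pi univ (fun _ : Fin n => closedBall (0 : ℂ) 1) := by
    intro m j _
    rw [mem_closedBall_zero_iff]
    exact hfb m j _ (K.inv_p_mem hE m)
  obtain ⟨b, -, κ₀, hκ₀, hlim⟩ :=
    (isCompact_univ_pi fun _ : Fin n => isCompact_closedBall (0 : ℂ) 1).tendsto_subseq ha
  have hlimj : ∀ j, Tendsto (fun i => ‖b j - a (κ₀ i) j‖) atTop (𝓝 0) := by
    intro j
    have h1 := tendsto_iff_norm_sub_tendsto_zero.1 ((tendsto_pi_nhds.1 hlim) j)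
    refine h1.congr fun i => ?_
    rw [norm_sub_rev]
    rfl
  set τ : ℝ := min (δ / 8) 1 with hτdef
  have hτ0 : 0 < τ := lt_min (by positivity) one_pos
  have hτ1 : τ ≤ 1 := min_le_right _ _
  have hτδ : τ ≤ δ / 8 := min_le_left _ _
  have hpow : Tendsto (fun i : ℕ => (1 / 27 : ℝ) ^ i) atTop (𝓝 0) :=
    tendsto_pow_atTop_nhds_zero_of_lt_one (by norm_num) (by norm_num)
  obtain ⟨N, hN⟩ := eventually_atTop.1 ((eventually_all.2 fun j =>
    (hlimj j).eventually (gt_mem_nhds (show (0 : ℝ) < δ / 8 by positivity))).and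
      (hpow.eventually (gt_mem_nhds hτ0)))
  let κ : ℕ → ℕ := fun i => κ₀ (i + N)
  have hκ : StrictMono κ := fun i l h => hκ₀ (by omega)
  have hκi : ∀ i, i + N ≤ κ i := fun i => hκ₀.id_le (i + N)
  let K' := K.comp κ hκ
  have hKe : ∀ i, K'.e i ≤ τ / 27 ^ (i + 1) := by
    intro i
    have h1 : K'.e i ≤ 1 / 27 ^ (κ i + 1) := K.he1 (κ i)
    have h2 : (27 : ℝ) ^ (N + (i + 1)) ≤ 27 ^ (κ i + 1) :=
      pow_le_pow_right₀ (by norm_num) (by have := hκi i; omega)
    have h3 : (1 / 27 : ℝ) ^ N < τ := (hN N le_rfl).2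
    calc K'.e i ≤ 1 / 27 ^ (κ i + 1) := h1
      _ ≤ 1 / 27 ^ (N + (i + 1)) := one_div_le_one_div_of_le (by positivity) h2
      _ = (1 / 27) ^ N / 27 ^ (i + 1) := by rw [pow_add, div_pow, one_pow]; field_simp
      _ ≤ τ / 27 ^ (i + 1) := by gcongr
  have hbd : ∀ i j, ‖b j - f (κ i) j (K'.inv i p)‖ ≤ δ / 8 := by
    intro i j
    exact ((hN (i + N) (by omega)).1 j).le
  let F : Fin n → ℂ → ℂ := fun j => K'.F (b j) (fun i => f (κ i) j)
  have hnear : ∀ j k z, dist z (K'.z0 k) < K'.e k / 10 →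
      ‖F j z - f (κ k) j (K'.inv k z)‖ ≤ δ / 4 := by
    intro j k z hz
    have := K'.F_near' hτ0.le hτ1 hKe hE (f := fun i => f (κ i) j) (fun i => hfd _ j)
      (fun i => hfb _ j) (b j) hz
    have h2 := hbd k j
    simp only [F]
    linarith
  have hfar : ∀ j z, (∀ k, K'.e k / 10 ≤ dist z (K'.z0 k)) → ‖F j z - b j‖ ≤ δ / 8 := by
    intro j z hz
    exact (K'.F_far hτ0.le hτ1 hKe hE (f := fun i => f (κ i) j) (fun i => hfd _ j)
      (fun i => hfb _ j) (b j) hz).trans hτδ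
  have hb1 : ∀ j, ‖b j‖ ≤ 1 + δ / 8 := by
    intro j
    have h1 := hbd 0 j
    have h2 := hfb (κ 0) j _ (K'.inv_p_mem hE 0)
    have h3 : ‖b j‖ ≤ ‖b j - f (κ 0) j (K'.inv 0 p)‖ + ‖f (κ 0) j (K'.inv 0 p)‖ := by
      have := norm_add_le (b j - f (κ 0) j (K'.inv 0 p)) (f (κ 0) j (K'.inv 0 p))
      rwa [sub_add_cancel] at this
    linarith
  -- apply the local hypothesis
  obtain ⟨r, hr, G, hGd, hGb, hGs⟩ := hloc n F (δ / 2) (by positivity)
    (fun j => K'.F_diff hEc hE hp (fun i => hfd _ j) (fun i => hfb _ j) (b j))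
    (fun j => ⟨2 + δ, fun z hz => by
      by_cases h : ∀ k, K'.e k / 10 ≤ dist z (K'.z0 k)
      · have h1 := hfar j z h
        have h2 := hb1 j
        have h3 : ‖F j z‖ ≤ ‖F j z - b j‖ + ‖b j‖ := by
          have := norm_add_le (F j z - b j) (b j)
          rwa [sub_add_cancel] at this
        linarith
      · push Not at h
        obtain ⟨k, hk⟩ := h
        have h1 := hnear j k z hk
        have h2 := hfb (κ k) j _ (K'.inv_notMem (i := k) hz)
        have h3 : ‖F j z‖ ≤ ‖F j z - f (κ k) j (K'.inv k z)‖ + ‖f (κ k) j (K'.inv k z)‖ := by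
          have := norm_add_le (F j z - f (κ k) j (K'.inv k z)) (f (κ k) j (K'.inv k z))
          rwa [sub_add_cancel] at this
        linarith⟩)
    (fun z hz => by
      by_cases h : ∀ k, K'.e k / 10 ≤ dist z (K'.z0 k)
      · obtain ⟨j, hj⟩ := hfl (κ 0) _ (K'.inv_p_mem hE 0)
        refine ⟨j, ?_⟩
        have h1 := hfar j z h
        have h2 := hbd 0 j
        have h3 : ‖f (κ 0) j (K'.inv 0 p)‖ ≤ ‖F j z‖ + ‖F j z - b j‖
            + ‖b j - f (κ 0) j (K'.inv 0 p)‖ := by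
          have e : f (κ 0) j (K'.inv 0 p) = F j z - (F j z - b j)
            - (b j - f (κ 0) j (K'.inv 0 p)) := by ring
          calc ‖f (κ 0) j (K'.inv 0 p)‖ = ‖F j z - (F j z - b j)
            - (b j - f (κ 0) j (K'.inv 0 p))‖ := by rw [← e]
            _ ≤ _ := (norm_sub_le _ _).trans (by gcongr; exact norm_sub_le _ _)
        linarith
      · push Not at h
        obtain ⟨k, hk⟩ := h
        obtain ⟨j, hj⟩ := hfl (κ k) _ (K'.inv_notMem (i := k) hz)
        refine ⟨j, ?_⟩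
        have h1 := hnear j k z hk
        have h3 : ‖f (κ k) j (K'.inv k z)‖ ≤ ‖F j z‖ + ‖F j z - f (κ k) j (K'.inv k z)‖ := by
          have e : f (κ k) j (K'.inv k z) = F j z - (F j z - f (κ k) j (K'.inv k z)) := by ring
          calc ‖f (κ k) j (K'.inv k z)‖ = ‖F j z - (F j z - f (κ k) j (K'.inv k z))‖ := by
                rw [← e]
            _ ≤ _ := norm_sub_le _ _
        linarith)
  choose M₀ hM₀ using hGb
  set M : ℝ := ∑ j, |M₀ j| with hMdef
  have hM0 : 0 ≤ M := Finset.sum_nonneg fun j _ => abs_nonneg _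
  have hGM : ∀ j, ∀ z ∈ Eᶜ ∩ ball p r, ‖G j z‖ ≤ M := by
    intro j z hz
    refine (hM₀ j z hz).trans ((le_abs_self _).trans ?_)
    exact Finset.single_le_sum (f := fun j => |M₀ j|) (fun i _ => abs_nonneg _)
      (Finset.mem_univ j)
  obtain ⟨C₀, hC₀⟩ := exterior_corona (ρ := 3 / 4) (ρ' := 4 / 5) (by norm_num) (by norm_num)
    n δ hδ
  set N₀ : ℝ := max C₀ 0 with hN₀
  have hN₀0 : 0 ≤ N₀ := le_max_right _ _
  -- choose a large index
  have herr : Tendsto (fun i => ∑ j, (‖b j - a (κ i) j‖ + 20 * K'.e i) * M) atTop (𝓝 0) := by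
    have h1 : ∀ j, Tendsto (fun i => (‖b j - a (κ i) j‖ + 20 * K'.e i) * M) atTop (𝓝 0) := by
      intro j
      have h2 : Tendsto (fun i => ‖b j - a (κ i) j‖) atTop (𝓝 0) :=
        (hlimj j).comp (tendsto_add_atTop_nat N)
      have h3 := (h2.add ((K'.tendsto_e).const_mul 20)).mul_const M
      simpa using h3
    have := tendsto_finsetSum (Finset.univ : Finset (Fin n)) (fun j _ => h1 j)
    simpa using this
  obtain ⟨i, ⟨hi1, hi2⟩, hi3⟩ := (((herr.eventually (gt_mem_nhds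
    (show (0 : ℝ) < 1 / 2 by norm_num))).and ((K'.tendsto_e).eventually (gt_mem_nhds
    (show (0 : ℝ) < r / 4 by positivity)))).and (hκ.tendsto_atTop.eventually
      (eventually_ge_atTop ⌈2 * M + N₀ + n * (26 * (2 * M * N₀))⌉₊))).exists
  have hi4 : 2 * M + N₀ + n * (26 * (2 * M * N₀)) ≤ (κ i : ℝ) :=
    (Nat.le_ceil _).trans (by exact_mod_cast hi3)
  have he := K'.he i
  have hele := K'.e_le i
  have hri := K'.hre i
  have hr0 := K'.hr i
  have hre2 : K'.r i ≤ K'.e i / 100 := by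
    calc K'.r i ≤ K'.e i ^ 3 := hri
      _ = K'.e i * (K'.e i * K'.e i) := by ring
      _ ≤ K'.e i * ((1 / 27) * (1 / 27)) := by gcongr
      _ ≤ K'.e i / 100 := by linarith
  let φ : ℂ → ℂ := fun z => K'.t i + K'.r i * z
  have hφE : ∀ z ∈ ball c (3 / 2) ∩ Eᶜ, φ z ∈ Eᶜ := by
    rintro z ⟨hz1, hz2⟩ h
    exact hz2 (K'.h2 i z hz1 h)
  have hφ0 : ∀ z ∈ ball c (3 / 2) ∩ Eᶜ, dist (φ z) (K'.z0 i) < K'.e i / 10 := by
    rintro z ⟨hz1, -⟩
    have h1 : dist z c < 3 / 2 := hz1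
    rw [show dist (φ z) (K'.z0 i) = K'.r i * dist z c from K'.dist_phi i z]
    calc K'.r i * dist z c ≤ K'.e i / 100 * (3 / 2) := by gcongr
      _ < K'.e i / 10 := by linarith
  have hφp : ∀ z ∈ ball c (3 / 2) ∩ Eᶜ, dist (φ z) p ≤ 4 * K'.e i := by
    intro z hz
    have h1 := hφ0 z hz
    have h2 : dist (K'.z0 i) p ≤ 2 * K'.e i := K'.hd2 i
    have := dist_triangle (φ z) (K'.z0 i) p
    linarith
  have hφb : ∀ z ∈ ball c (3 / 2) ∩ Eᶜ, φ z ∈ Eᶜ ∩ ball p r := by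
    intro z hz
    refine ⟨hφE z hz, ?_⟩
    have := hφp z hz
    rw [mem_ball]
    linarith
  have hφd : ∀ z, DifferentiableAt ℂ φ z := by
    intro z
    exact (differentiableAt_id.const_mul _).const_add _
  have hopen : IsOpen (ball c (3 / 2) ∩ Eᶜ) := isOpen_ball.inter hEc.isOpen_compl
  have hopenr : IsOpen (Eᶜ ∩ ball p r) := hEc.isOpen_compl.inter isOpen_ball
  let S : ℂ → ℂ := fun z => ∑ j, f (κ i) j z * G j (φ z)
  have hS : ∀ z ∈ ball c (3 / 2) ∩ Eᶜ, ‖S z - 1‖ ≤ 1 / 2 := by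
    intro z hz
    have h1 : S z - 1 = - ∑ j, (F j (φ z) - f (κ i) j z) * G j (φ z) := by
      rw [← hGs _ (hφb z hz)]
      simp only [S]
      rw [← Finset.sum_sub_distrib, ← Finset.sum_neg_distrib]
      refine Finset.sum_congr rfl fun j _ => ?_
      ring
    rw [h1, norm_neg]
    calc ‖∑ j, (F j (φ z) - f (κ i) j z) * G j (φ z)‖
        ≤ ∑ j, ‖(F j (φ z) - f (κ i) j z) * G j (φ z)‖ := norm_sum_le _ _
      _ ≤ ∑ j, (‖b j - a (κ i) j‖ + 20 * K'.e i) * M := by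
          refine Finset.sum_le_sum fun j _ => ?_
          rw [norm_mul]
          have h2 := K'.F_near hE (f := fun i => f (κ i) j) (fun i => hfd _ j)
            (fun i => hfb _ j) (b j) (hφ0 z hz)
          have h3 : K'.inv i (φ z) = z := K'.inv_phi i z
          have h4 := hφp z hz
          have h5 : ‖F j (φ z) - f (κ i) j z‖ ≤ ‖b j - a (κ i) j‖ + 20 * K'.e i := by
            rw [h3] at h2
            refine h2.trans ?_
            have : a (κ i) j = f (κ i) j (K'.inv i p) := rfl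
            rw [this]
            linarith
          exact mul_le_mul h5 (hGM j _ (hφb z hz)) (norm_nonneg _)
            (by positivity)
      _ ≤ 1 / 2 := hi1.le
  have hS2 : ∀ z ∈ ball c (3 / 2) ∩ Eᶜ, 1 / 2 ≤ ‖S z‖ := by
    intro z hz
    have h1 := hS z hz
    have h2 : ‖(1 : ℂ)‖ ≤ ‖S z‖ + ‖S z - 1‖ := by
      have := norm_sub_le (S z) (S z - 1)
      simpa using this
    rw [norm_one] at h2
    linarith
  have hS0 : ∀ z ∈ ball c (3 / 2) ∩ Eᶜ, S z ≠ 0 := by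
    intro z hz h
    have := hS2 z hz
    rw [h, norm_zero] at this
    linarith
  have hGφ : ∀ j, DifferentiableOn ℂ (fun z => G j (φ z)) (ball c (3 / 2) ∩ Eᶜ) := by
    intro j z hz
    have h1 : DifferentiableAt ℂ (G j) (φ z) :=
      (hGd j).differentiableAt (hopenr.mem_nhds (hφb z hz))
    exact (DifferentiableAt.comp (g := G j) (f := φ) z h1 (hφd z)).differentiableWithinAt
  have hSd : DifferentiableOn ℂ S (ball c (3 / 2) ∩ Eᶜ) := by
    refine DifferentiableOn.fun_sum fun j _ => ?_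
    exact ((hfd (κ i) j).mono inter_subset_right).mul (hGφ j)
  have hext : {z : ℂ | (3 / 4 : ℝ) < dist z c} ⊆ Eᶜ := by
    intro y hy hyE
    have h1 := hE y hyE
    have h2 : (3 / 4 : ℝ) < dist y c := hy
    linarith
  obtain ⟨h, hhd, hhb, hhs⟩ := hC₀ c (f (κ i)) (fun j => (hfd (κ i) j).mono hext)
    (fun j z hz => hfb (κ i) j z (hext hz)) (fun z hz => hfl (κ i) z (hext hz))
  obtain ⟨H, hHd, hHb, hHs⟩ := glue (c := c) (M := 2 * M) (N := N₀) hEc hE (by positivity) hN₀0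
    (f := f (κ i)) (g := fun j z => G j (φ z) / S z) (h := h) (hfd (κ i)) (hfb (κ i))
    (fun j => (hGφ j).div hSd hS0)
    (fun j z hz => by
      rw [norm_div]
      have h1 := hGM j _ (hφb z hz)
      have h2 := hS2 z hz
      rw [div_le_iff₀ (by linarith)]
      calc ‖G j (φ z)‖ ≤ M := h1
        _ = 2 * M * (1 / 2) := by ring
        _ ≤ 2 * M * ‖S z‖ := by gcongr)
    (fun z hz => by
      have h1 : ∑ j, f (κ i) j z * (G j (φ z) / S z) = S z / S z := by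
        simp only [S]
        rw [Finset.sum_div]
        refine Finset.sum_congr rfl fun j _ => ?_
        ring
      rw [h1]
      exact div_self (hS0 z hz))
    hhd (fun j z hz => (hhb j z hz).trans (le_max_left _ _)) hhs
  obtain ⟨z, hz, hne⟩ := hno (κ i) H hHd (fun j z hz => (hHb j z hz).trans hi4)
  exact hne (hHs z hz)

end Pool.Corona91698f
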