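import Mathlib
import Pool.Agent.Corona91698f.Main

/-!
# Geometry of the square Cantor set
-/

open Complex Metric Set Filter Topology

set_option autoImplicit false

namespace Pool.Corona91698f

/-- The square Cantor set `K × K`. -/
def squareCantor : Set ℂ := {z : ℂ | z.re ∈ cantorSet ∧ z.im ∈ cantorSet}

theorem isClosed_squareCantor : IsClosed squareCantor :=
  (isClosed_cantorSet.preimage Complex.continuous_re).inter
    (isClosed_cantorSet.preimage Complex.continuous_im)

/-- The centre of the unit square. -/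
noncomputable def ctr : ℂ := ⟨1 / 2, 1 / 2⟩

theorem dist_sq (z w : ℂ) : dist z w ^ 2 = (z.re - w.re) ^ 2 + (z.im - w.im) ^ 2 := by
  rw [dist_eq_norm, Complex.sq_norm, Complex.normSq_apply, Complex.sub_re, Complex.sub_im]
  ring

theorem squareCantor_dist {z : ℂ} (hz : z ∈ squareCantor) : dist z ctr < 3 / 4 := by
  have h1 := cantorSet_subset_unitInterval hz.1
  have h2 := cantorSet_subset_unitInterval hz.2
  rw [mem_Icc] at h1 h2
  refine lt_of_pow_lt_pow_left₀ 2 (by norm_num) ?_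
  rw [dist_sq]
  simp only [ctr]
  nlinarith

/-- left endpoints of the intervals of level `N` -/
inductive Lft : ℕ → ℝ → Prop
  | zero : Lft 0 0
  | left {N : ℕ} {a : ℝ} : Lft N a → Lft (N + 1) (a / 3)
  | right {N : ℕ} {a : ℝ} : Lft N a → Lft (N + 1) ((2 + a) / 3)

theorem div3_mem {x : ℝ} (hx : x ∈ cantorSet) : x / 3 ∈ cantorSet := by
  rw [cantorSet_eq_union_halves]
  exact Or.inl ⟨x, hx, rfl⟩

theorem div3_mem' {x : ℝ} (hx : x ∈ cantorSet) : (2 + x) / 3 ∈ cantorSet := by
  rw [cantorSet_eq_union_halves]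
  exact Or.inr ⟨x, hx, rfl⟩

theorem cantor_cases {x : ℝ} (hx : x ∈ cantorSet) :
    ∃ y ∈ cantorSet, x = y / 3 ∨ x = (2 + y) / 3 := by
  rw [cantorSet_eq_union_halves] at hx
  rcases hx with ⟨y, hy, rfl⟩ | ⟨y, hy, rfl⟩
  · exact ⟨y, hy, Or.inl rfl⟩
  · exact ⟨y, hy, Or.inr rfl⟩

theorem Lft.mem {N : ℕ} {a : ℝ} (h : Lft N a) {x : ℝ} (hx : x ∈ cantorSet) :
    a + x / 3 ^ N ∈ cantorSet := by
  induction h with
  | zero => simpa using hx
  | @left N a _ ih =>
    have := div3_mem ih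
    convert this using 1
    rw [pow_succ]; field_simp
  | @right N a _ ih =>
    have := div3_mem' ih
    convert this using 1
    rw [pow_succ]; field_simp; ring

theorem Lft.bounds {N : ℕ} {a : ℝ} (h : Lft N a) : 0 ≤ a ∧ a + 1 / 3 ^ N ≤ 1 := by
  induction h with
  | zero => norm_num
  | @left N a _ ih =>
    refine ⟨by linarith [ih.1], ?_⟩
    have e : a / 3 + 1 / 3 ^ (N + 1) = (a + 1 / 3 ^ N) / 3 := by
      rw [pow_succ]; field_simp
    rw [e]; linarith [ih.2]
  | @right N a _ ih =>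
    refine ⟨by linarith [ih.1], ?_⟩
    have e : (2 + a) / 3 + 1 / 3 ^ (N + 1) = (2 + (a + 1 / 3 ^ N)) / 3 := by
      rw [pow_succ]; field_simp; ring
    rw [e]; linarith [ih.2]

theorem Lft.local {N : ℕ} {a : ℝ} (h : Lft N a) {x : ℝ} (hx : x ∈ cantorSet)
    (h1 : a - 1 / 3 ^ N < x) (h2 : x < a + 2 / 3 ^ N) : ∃ y ∈ cantorSet, x = a + y / 3 ^ N := by
  induction h generalizing x with
  | zero => exact ⟨x, hx, by simp⟩
  | @left N a hN ih =>
    have hpos : (0 : ℝ) < 3 ^ N := by positivity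
    obtain ⟨x', hx', rfl | rfl⟩ := cantor_cases hx
    · obtain ⟨y, hy, hxy⟩ := ih hx' (by
        rw [pow_succ] at h1
        have : a / 3 - 1 / (3 ^ N * 3) = (a - 1 / 3 ^ N) / 3 := by field_simp
        rw [this] at h1
        linarith) (by
        rw [pow_succ] at h2
        have : a / 3 + 2 / (3 ^ N * 3) = (a + 2 / 3 ^ N) / 3 := by field_simp
        rw [this] at h2
        linarith)
      refine ⟨y, hy, ?_⟩
      rw [hxy, pow_succ]
      field_simp
    · exfalso
      have hb := hN.bounds.2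
      have hx0 := (cantorSet_subset_unitInterval hx').1
      have h3 : (1 : ℝ) / 3 ^ N ≤ 1 := by
        rw [div_le_one hpos]
        exact one_le_pow₀ (by norm_num)
      rw [pow_succ] at h2
      have : a / 3 + 2 / (3 ^ N * 3) = (a + 2 * (1 / 3 ^ N)) / 3 := by field_simp
      rw [this] at h2
      linarith
  | @right N a hN ih =>
    have hpos : (0 : ℝ) < 3 ^ N := by positivity
    obtain ⟨x', hx', rfl | rfl⟩ := cantor_cases hx
    · exfalso
      have hb := hN.bounds.1
      have hx0 := (cantorSet_subset_unitInterval hx').2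
      have h3 : (1 : ℝ) / 3 ^ N ≤ 1 := by
        rw [div_le_one hpos]
        exact one_le_pow₀ (by norm_num)
      rw [pow_succ] at h1
      have : (2 + a) / 3 - 1 / (3 ^ N * 3) = (2 + a - 1 / 3 ^ N) / 3 := by field_simp
      rw [this] at h1
      linarith
    · obtain ⟨y, hy, hxy⟩ := ih hx' (by
        rw [pow_succ] at h1
        have : (2 + a) / 3 - 1 / (3 ^ N * 3) = (2 + (a - 1 / 3 ^ N)) / 3 := by
          field_simp; ring
        rw [this] at h1
        linarith) (by
        rw [pow_succ] at h2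
        have : (2 + a) / 3 + 2 / (3 ^ N * 3) = (2 + (a + 2 / 3 ^ N)) / 3 := by
          field_simp; ring
        rw [this] at h2
        linarith)
      refine ⟨y, hy, ?_⟩
      rw [hxy, pow_succ]
      field_simp
      ring

theorem exists_Lft {x : ℝ} (hx : x ∈ cantorSet) (N : ℕ) :
    ∃ a, Lft N a ∧ ∃ y ∈ cantorSet, x = a + y / 3 ^ N := by
  induction N generalizing x with
  | zero => exact ⟨0, Lft.zero, x, hx, by simp⟩
  | succ N ih =>
    obtain ⟨x', hx', rfl | rfl⟩ := cantor_cases hx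
    · obtain ⟨a, ha, y, hy, hxy⟩ := ih hx'
      refine ⟨a / 3, ha.left, y, hy, ?_⟩
      rw [hxy, pow_succ]; field_simp
    · obtain ⟨a, ha, y, hy, hxy⟩ := ih hx'
      refine ⟨(2 + a) / 3, ha.right, y, hy, ?_⟩
      rw [hxy, pow_succ]; field_simp; ring

theorem Lft.succ {N : ℕ} {a : ℝ} (h : Lft N a) : Lft (N + 1) a := by
  induction h with
  | zero => simpa using Lft.zero.left
  | left _ ih => exact ih.left
  | right _ ih => exact ih.right

theorem Lft.add {N : ℕ} {a : ℝ} (h : Lft N a) (M : ℕ) : Lft (N + M) a := by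
  induction M with
  | zero => exact h
  | succ M ih => exact ih.succ

theorem Lft.succ' {N : ℕ} {a : ℝ} (h : Lft N a) : Lft (N + 1) (a + 2 / 3 ^ (N + 1)) := by
  induction h with
  | zero =>
    have := Lft.zero.right
    norm_num at this ⊢
    exact this
  | @left N a _ ih =>
    have := ih.left
    convert this using 1
    rw [pow_succ _ (N + 1)]; field_simp
  | @right N a _ ih =>
    have := ih.right
    convert this using 1
    rw [pow_succ _ (N + 1)]; field_simp; ring

/-- the sibling interval -/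
theorem sibling {x : ℝ} (hx : x ∈ cantorSet) (m : ℕ) :
    ∃ a, Lft (m + 1) a ∧ ∀ s, 0 ≤ s → s ≤ 1 / 3 ^ (m + 1) →
      1 / 3 ^ m / 3 ≤ |a + s - x| ∧ |a + s - x| ≤ 1 / 3 ^ m := by
  obtain ⟨a, ha, y, hy, hxy⟩ := exists_Lft hx m
  have hq : (0 : ℝ) < 1 / 3 ^ m := by positivity
  set q : ℝ := 1 / 3 ^ m with hqdef
  have hq3 : (1 : ℝ) / 3 ^ (m + 1) = q / 3 := by rw [hqdef, pow_succ]; field_simp
  have hxy' : x = a + y * q := by rw [hxy, hqdef]; ring
  obtain ⟨y', hy', rfl | rfl⟩ := cantor_cases hy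
  · have hb := cantorSet_subset_unitInterval hy'
    rw [mem_Icc] at hb
    refine ⟨a + 2 / 3 ^ (m + 1), ha.succ', fun s hs0 hs1 => ?_⟩
    have e : (2 : ℝ) / 3 ^ (m + 1) = 2 * (q / 3) := by rw [← hq3]; ring
    rw [hq3] at hs1
    have e2 : a + 2 / 3 ^ (m + 1) + s - x = 2 * (q / 3) + s - y' / 3 * q := by
      rw [hxy', e]; ring
    rw [e2]
    have h1 : y' / 3 * q ≤ q / 3 := by nlinarith
    have h2 : 0 ≤ y' / 3 * q := mul_nonneg (by linarith) hq.le
    constructor
    · rw [le_abs]; left; linarith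
    · rw [abs_le]; constructor <;> linarith
  · have hb := cantorSet_subset_unitInterval hy'
    rw [mem_Icc] at hb
    refine ⟨a, ha.succ, fun s hs0 hs1 => ?_⟩
    rw [hq3] at hs1
    have e2 : a + s - x = s - (2 + y') / 3 * q := by
      rw [hxy']; ring
    rw [e2]
    have h1 : (2 + y') / 3 * q ≤ q := by nlinarith
    have h2 : 2 * (q / 3) ≤ (2 + y') / 3 * q := by nlinarith
    constructor
    · rw [le_abs]; right; linarith
    · rw [abs_le]; constructor <;> linarith

/-- the interval of level `m` containing `x` -/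
theorem nearby {x : ℝ} (hx : x ∈ cantorSet) (m : ℕ) :
    ∃ a, Lft m a ∧ ∀ s, 0 ≤ s → s ≤ 1 / 3 ^ m → |a + s - x| ≤ 1 / 3 ^ m := by
  obtain ⟨a, ha, y, hy, hxy⟩ := exists_Lft hx m
  have hq : (0 : ℝ) < 1 / 3 ^ m := by positivity
  set q : ℝ := 1 / 3 ^ m with hqdef
  have hxy' : x = a + y * q := by rw [hxy, hqdef]; ring
  have hb := cantorSet_subset_unitInterval hy
  rw [mem_Icc] at hb
  refine ⟨a, ha, fun s hs0 hs1 => ?_⟩
  have e2 : a + s - x = s - y * q := by rw [hxy']; ring
  rw [e2]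
  have h1 : y * q ≤ q := by nlinarith
  have h2 : 0 ≤ y * q := mul_nonneg hb.1 hq.le
  rw [abs_le]; constructor <;> linarith

/-- The copies of the square Cantor set converging to a given point. -/
theorem exists_copies {p : ℂ} (hp : p ∈ squareCantor) :
    Nonempty (Copies squareCantor ctr p) := by
  choose a ha has using fun i : ℕ => sibling hp.1 (3 * (i + 1))
  choose b hb hbs using fun i : ℕ => nearby hp.2 (3 * (i + 1))
  have hLa : ∀ i : ℕ, Lft (9 * (i + 1)) (a i) := by
    intro i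
    have := (ha i).add (9 * (i + 1) - (3 * (i + 1) + 1))
    have e : 3 * (i + 1) + 1 + (9 * (i + 1) - (3 * (i + 1) + 1)) = 9 * (i + 1) := by omega
    rwa [e] at this
  have hLb : ∀ i : ℕ, Lft (9 * (i + 1)) (b i) := by
    intro i
    have := (hb i).add (9 * (i + 1) - 3 * (i + 1))
    have e : 3 * (i + 1) + (9 * (i + 1) - 3 * (i + 1)) = 9 * (i + 1) := by omega
    rwa [e] at this
  have he27 : ∀ i : ℕ, (1 : ℝ) / 3 ^ (3 * (i + 1)) = 1 / 27 ^ (i + 1) := by
    intro i
    rw [pow_mul]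
    norm_num
  have hr27 : ∀ i : ℕ, (1 : ℝ) / 3 ^ (9 * (i + 1)) = (1 / 27 ^ (i + 1)) ^ 3 := by
    intro i
    rw [← he27, div_pow, one_pow, ← pow_mul]
    congr 2
    ring
  have hhalf : ∀ i : ℕ, (1 : ℝ) / 3 ^ (9 * (i + 1)) / 2 ≤ 1 / 3 ^ (3 * (i + 1) + 1) := by
    intro i
    have h1 : (1 : ℝ) / 3 ^ (9 * (i + 1)) ≤ 1 / 3 ^ (3 * (i + 1) + 1) :=
      one_div_le_one_div_of_le (by positivity)
        (pow_le_pow_right₀ (by norm_num) (by omega))
    have h2 : (0 : ℝ) < 1 / 3 ^ (9 * (i + 1)) := by positivity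
    linarith
  have hhalf' : ∀ i : ℕ, (1 : ℝ) / 3 ^ (9 * (i + 1)) / 2 ≤ 1 / 3 ^ (3 * (i + 1)) := by
    intro i
    have h1 : (1 : ℝ) / 3 ^ (9 * (i + 1)) ≤ 1 / 3 ^ (3 * (i + 1)) :=
      one_div_le_one_div_of_le (by positivity)
        (pow_le_pow_right₀ (by norm_num) (by omega))
    have h2 : (0 : ℝ) < 1 / 3 ^ (9 * (i + 1)) := by positivity
    linarith
  have hre : ∀ (i : ℕ) (z : ℂ), ((⟨a i, b i⟩ : ℂ) + ((1 / 3 ^ (9 * (i + 1)) : ℝ) : ℂ) * z).re
      = a i + z.re / 3 ^ (9 * (i + 1)) := by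
    intro i z
    rw [Complex.add_re, Complex.re_ofReal_mul]
    ring
  have him : ∀ (i : ℕ) (z : ℂ), ((⟨a i, b i⟩ : ℂ) + ((1 / 3 ^ (9 * (i + 1)) : ℝ) : ℂ) * z).im
      = b i + z.im / 3 ^ (9 * (i + 1)) := by
    intro i z
    rw [Complex.add_im, Complex.im_ofReal_mul]
    ring
  refine ⟨{
    t := fun i => ⟨a i, b i⟩
    r := fun i => 1 / 3 ^ (9 * (i + 1))
    e := fun i => 1 / 27 ^ (i + 1)
    hr := fun i => by positivity
    he := fun i => by positivity
    hre := fun i => (hr27 i).le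
    he1 := fun i => le_rfl
    hdec := ?_
    hd1 := ?_
    hd2 := ?_
    h1 := ?_
    h2 := ?_ }⟩
  · intro i l hl
    have h1 : (27 : ℝ) ^ (l + 1) * 27 ≤ 27 ^ (i + 1) := by
      rw [← pow_succ]
      exact pow_le_pow_right₀ (by norm_num) (by omega)
    rw [div_div]
    exact one_div_le_one_div_of_le (by positivity) h1
  · intro i
    have h1 := (has i (1 / 3 ^ (9 * (i + 1)) / 2) (by positivity) (hhalf i)).1
    rw [he27] at h1
    refine h1.trans ?_
    rw [dist_eq_norm]
    refine le_trans (le_of_eq ?_) (Complex.abs_re_le_norm _)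
    rw [Complex.sub_re, hre]
    simp only [ctr]
    congr 1
    ring
  · intro i
    have h1 := (has i (1 / 3 ^ (9 * (i + 1)) / 2) (by positivity) (hhalf i)).2
    have h2 := hbs i (1 / 3 ^ (9 * (i + 1)) / 2) (by positivity) (hhalf' i)
    rw [he27] at h1 h2
    rw [dist_eq_norm]
    refine (Complex.norm_le_abs_re_add_abs_im _).trans ?_
    rw [Complex.sub_re, Complex.sub_im, hre, him]
    simp only [ctr]
    have e1 : a i + 1 / 2 / 3 ^ (9 * (i + 1)) - p.re
        = a i + 1 / 3 ^ (9 * (i + 1)) / 2 - p.re := by ring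
    have e2 : b i + 1 / 2 / 3 ^ (9 * (i + 1)) - p.im
        = b i + 1 / 3 ^ (9 * (i + 1)) / 2 - p.im := by ring
    rw [e1, e2]
    linarith
  · rintro i z ⟨hz1, hz2⟩
    refine ⟨?_, ?_⟩
    · rw [hre]
      exact (hLa i).mem hz1
    · rw [him]
      exact (hLb i).mem hz2
  · rintro i z hz ⟨h1, h2⟩
    rw [hre] at h1
    rw [him] at h2
    have hq : (0 : ℝ) < 1 / 3 ^ (9 * (i + 1)) := by positivity
    have hzre : |z.re - 1 / 2| < 3 / 2 := by
      have := Complex.abs_re_le_norm (z - ctr)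
      rw [← dist_eq_norm, Complex.sub_re] at this
      exact this.trans_lt hz
    have hzim : |z.im - 1 / 2| < 3 / 2 := by
      have := Complex.abs_im_le_norm (z - ctr)
      rw [← dist_eq_norm, Complex.sub_im] at this
      exact this.trans_lt hz
    rw [abs_lt] at hzre hzim
    have key : ∀ (α w : ℝ), Lft (9 * (i + 1)) α → α + w / 3 ^ (9 * (i + 1)) ∈ cantorSet →
        -1 < w → w < 2 → w ∈ cantorSet := by
      intro α w hα hm hw1 hw2
      have hP : (0 : ℝ) < 3 ^ (9 * (i + 1)) := by positivity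
      obtain ⟨y, hy, hxy⟩ := hα.local hm (by
        have : -1 / 3 ^ (9 * (i + 1)) < w / 3 ^ (9 * (i + 1)) := by gcongr
        have e : α - 1 / 3 ^ (9 * (i + 1)) = α + -1 / 3 ^ (9 * (i + 1)) := by ring
        rw [e]
        linarith) (by
        have : w / 3 ^ (9 * (i + 1)) < 2 / 3 ^ (9 * (i + 1)) := by gcongr
        linarith)
      have : w = y := by
        have h3 : w / 3 ^ (9 * (i + 1)) = y / 3 ^ (9 * (i + 1)) := by linarith
        field_simp at h3
        exact h3
      rw [this]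
      exact hy
    exact ⟨key _ _ (hLa i) h1 (by linarith) (by linarith),
      key _ _ (hLb i) h2 (by linarith) (by linarith)⟩

end Pool.Corona91698f
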