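import Mathlib
import Pool.Agent.Corona91698f.Cantor

/-!
# The tree of squares of the square Cantor set
-/

open Complex Metric Set Filter Topology

set_option autoImplicit false

namespace Pool.Corona91698f

/-- Digits. -/
abbrev D : Type := Bool × Bool

/-- corner of the unit square belonging to a digit -/
noncomputable def dig (d : D) : ℂ := ⟨if d.1 then 1 else 0, if d.2 then 1 else 0⟩

/-- contraction onto the square of the digit `d` -/
noncomputable def phi (d : D) (z : ℂ) : ℂ := (z + 2 * dig d) / 3

/-- inverse of `phi d` -/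
noncomputable def psi (d : D) (z : ℂ) : ℂ := 3 * z - 2 * dig d

theorem psi_phi (d : D) (z : ℂ) : psi d (phi d z) = z := by unfold psi phi; ring

theorem phi_psi (d : D) (z : ℂ) : phi d (psi d z) = z := by unfold psi phi; ring

theorem psi_sub (d : D) (z w : ℂ) : psi d z - psi d w = 3 * (z - w) := by unfold psi; ring

theorem phi_sub (d : D) (z w : ℂ) : phi d z - phi d w = (z - w) / 3 := by unfold phi; ring

theorem dist_psi (d : D) (z w : ℂ) : dist (psi d z) (psi d w) = 3 * dist z w := by
  rw [dist_eq_norm, psi_sub, norm_mul, dist_eq_norm]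
  norm_num

theorem dist_phi' (d : D) (z w : ℂ) : dist (phi d z) (phi d w) = dist z w / 3 := by
  rw [dist_eq_norm, phi_sub, norm_div, dist_eq_norm]
  norm_num

theorem dist_psi_ctr (d : D) (z : ℂ) : dist (psi d z) ctr = 3 * dist z (phi d ctr) := by
  conv_lhs => rw [← psi_phi d ctr]
  exact dist_psi d z _

theorem dist_phi_ctr (d : D) : dist (phi d ctr) ctr ≤ 4715 / 10000 := by
  refine le_of_lt (lt_of_pow_lt_pow_left₀ 2 (by norm_num) ?_)
  rw [dist_sq]
  have h3re : (phi d ctr).re = (1 / 2 + 2 * (if d.1 then 1 else 0)) / 3 := by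
    unfold phi dig ctr
    simp
  have h3im : (phi d ctr).im = (1 / 2 + 2 * (if d.2 then 1 else 0)) / 3 := by
    unfold phi dig ctr
    simp
  rw [h3re, h3im]
  simp only [ctr]
  rcases d with ⟨a, b⟩
  cases a <;> cases b <;> norm_num

theorem dist_phi_phi {d d' : D} (h : d ≠ d') : 2 / 3 ≤ dist (phi d ctr) (phi d' ctr) := by
  refine le_of_pow_le_pow_left₀ (n := 2) (by norm_num) dist_nonneg ?_
  rw [dist_sq]
  have h3re : ∀ d : D, (phi d ctr).re = (1 / 2 + 2 * (if d.1 then 1 else 0)) / 3 := by
    intro d
    unfold phi dig ctr
    simp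
  have h3im : ∀ d : D, (phi d ctr).im = (1 / 2 + 2 * (if d.2 then 1 else 0)) / 3 := by
    intro d
    unfold phi dig ctr
    simp
  rw [h3re, h3im, h3re, h3im]
  rcases d with ⟨a, b⟩
  rcases d' with ⟨a', b'⟩
  cases a <;> cases b <;> cases a' <;> cases b' <;> first | (exact absurd rfl h) | norm_num

/-- lower bound for the distance to the centre after one blow up -/
theorem dist_psi_ge (d : D) (z : ℂ) : 3 * (dist z ctr - 4715 / 10000) ≤ dist (psi d z) ctr := by
  rw [dist_psi_ctr]
  have h1 := dist_phi_ctr d
  have h2 := dist_triangle z (phi d ctr) ctr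
  linarith

theorem dist_psi_ge_q (d : D) (z : ℂ) :
    3 * (dist z ctr - 71 / 100) ≤ dist (psi d z) ctr - 71 / 100 := by
  have := dist_psi_ge d z
  linarith

/-- a point close to a child square is close to the square -/
theorem dist_le_of_psi (d : D) (z : ℂ) : dist z ctr ≤ dist (psi d z) ctr / 3 + 4715 / 10000 := by
  have := dist_psi_ge d z
  linarith

/-- at most one child square is near a given point -/
theorem exists_far (z : ℂ) : ∃ d₀ : D, ∀ d, d ≠ d₀ → 1 ≤ dist (psi d z) ctr := by
  by_cases h : ∃ d₀ : D, dist (psi d₀ z) ctr < 1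
  · obtain ⟨d₀, h0⟩ := h
    refine ⟨d₀, fun d hd => ?_⟩
    by_contra hlt
    push Not at hlt
    rw [dist_psi_ctr] at h0 hlt
    have h1 := dist_phi_phi hd
    have h2 := dist_triangle (phi d ctr) z (phi d₀ ctr)
    rw [dist_comm (phi d ctr) z] at h2
    linarith
  · push Not at h
    exact ⟨(true, true), fun d _ => h d⟩

theorem psi_disj {d d' : D} {z : ℂ} (h : dist (psi d z) ctr < 1) (h' : dist (psi d' z) ctr < 1) :
    d = d' := by
  by_contra hne
  rw [dist_psi_ctr] at h h'
  have h1 := dist_phi_phi hne
  have h2 := dist_triangle (phi d ctr) z (phi d' ctr)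
  rw [dist_comm (phi d ctr) z] at h2
  linarith

/-! ### self-similarity of the set -/

theorem phi_mem {d : D} {z : ℂ} (hz : z ∈ squareCantor) : phi d z ∈ squareCantor := by
  have hre : (phi d z).re = (z.re + 2 * (if d.1 then 1 else 0)) / 3 := by
    unfold phi dig; simp
  have him : (phi d z).im = (z.im + 2 * (if d.2 then 1 else 0)) / 3 := by
    unfold phi dig; simp
  refine ⟨?_, ?_⟩
  · rw [hre]
    rcases d with ⟨a, b⟩
    cases a
    · simpa using div3_mem hz.1
    · have := div3_mem' hz.1
      simp only [if_true, mul_one]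
      rwa [add_comm] at this
  · rw [him]
    rcases d with ⟨a, b⟩
    cases b
    · simpa using div3_mem hz.2
    · have := div3_mem' hz.2
      simp only [if_true, mul_one]
      rwa [add_comm] at this

theorem mem_of_psi_mem {d : D} {z : ℂ} (h : psi d z ∈ squareCantor) : z ∈ squareCantor := by
  rw [← phi_psi d z]
  exact phi_mem h

theorem exists_psi_mem {z : ℂ} (hz : z ∈ squareCantor) : ∃ d, psi d z ∈ squareCantor := by
  obtain ⟨x, hx, hx'⟩ := cantor_cases hz.1
  obtain ⟨y, hy, hy'⟩ := cantor_cases hz.2
  have hre : ∀ d : D, (psi d z).re = 3 * z.re - 2 * (if d.1 then 1 else 0) := by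
    intro d; unfold psi dig; simp
  have him : ∀ d : D, (psi d z).im = 3 * z.im - 2 * (if d.2 then 1 else 0) := by
    intro d; unfold psi dig; simp
  rcases hx' with hx' | hx' <;> rcases hy' with hy' | hy'
  · refine ⟨(false, false), ?_, ?_⟩
    · rw [hre, hx']; simpa [mul_div_cancel₀] using hx
    · rw [him, hy']; simpa [mul_div_cancel₀] using hy
  · refine ⟨(false, true), ?_, ?_⟩
    · rw [hre, hx']; simpa [mul_div_cancel₀] using hx
    · rw [him, hy']
      have e : 3 * ((2 + y) / 3) - 2 * (if ((false, true) : D).2 then 1 else 0) = y := by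
        simp
        ring
      rw [e]; exact hy
  · refine ⟨(true, false), ?_, ?_⟩
    · rw [hre, hx']
      have e : 3 * ((2 + x) / 3) - 2 * (if ((true, false) : D).1 then 1 else 0) = x := by
        simp
        ring
      rw [e]; exact hx
    · rw [him, hy']; simpa [mul_div_cancel₀] using hy
  · refine ⟨(true, true), ?_, ?_⟩
    · rw [hre, hx']
      have e : 3 * ((2 + x) / 3) - 2 * (if ((true, true) : D).1 then 1 else 0) = x := by
        simp
        ring
      rw [e]; exact hx
    · rw [him, hy']
      have e : 3 * ((2 + y) / 3) - 2 * (if ((true, true) : D).2 then 1 else 0) = y := by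
        simp
        ring
      rw [e]; exact hy

theorem squareCantor_dist' {z : ℂ} (hz : z ∈ squareCantor) : dist z ctr < 71 / 100 := by
  have h1 := cantorSet_subset_unitInterval hz.1
  have h2 := cantorSet_subset_unitInterval hz.2
  rw [mem_Icc] at h1 h2
  refine lt_of_pow_lt_pow_left₀ 2 (by norm_num) ?_
  rw [dist_sq]
  simp only [ctr]
  nlinarith

theorem zero_mem_squareCantor : (0 : ℂ) ∈ squareCantor :=
  ⟨by simpa using zero_mem_cantorSet, by simpa using zero_mem_cantorSet⟩

/-- locality: inside of the big disc, the rescaled set is the set itself -/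
theorem mem_of_phi_mem {d : D} {z : ℂ} (hz : dist z ctr < 3 / 2) (h : phi d z ∈ squareCantor) :
    z ∈ squareCantor := by
  obtain ⟨d', hd'⟩ := exists_psi_mem h
  by_cases hdd : d' = d
  · rw [hdd, psi_phi] at hd'
    exact hd'
  · exfalso
    have h1 := cantorSet_subset_unitInterval hd'.1
    have h2 := cantorSet_subset_unitInterval hd'.2
    rw [mem_Icc] at h1 h2
    have hre : (psi d' (phi d z)).re = z.re + 2 * (if d.1 then 1 else 0)
        - 2 * (if d'.1 then 1 else 0) := by
      unfold psi phi dig; simp; ring
    have him : (psi d' (phi d z)).im = z.im + 2 * (if d.2 then 1 else 0)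
        - 2 * (if d'.2 then 1 else 0) := by
      unfold psi phi dig; simp; ring
    rw [hre] at h1
    rw [him] at h2
    have hzre : |z.re - 1 / 2| < 3 / 2 := by
      have := Complex.abs_re_le_norm (z - ctr)
      rw [← dist_eq_norm, Complex.sub_re] at this
      exact this.trans_lt hz
    have hzim : |z.im - 1 / 2| < 3 / 2 := by
      have := Complex.abs_im_le_norm (z - ctr)
      rw [← dist_eq_norm, Complex.sub_im] at this
      exact this.trans_lt hz
    rw [abs_lt] at hzre hzim
    rcases d with ⟨a, b⟩
    rcases d' with ⟨a', b'⟩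
    cases a <;> cases a' <;> cases b <;> cases b' <;>
      first
        | exact hdd rfl
        | (norm_num at h1 h2; linarith [h1.1, h1.2, h2.1, h2.2, hzre.1, hzre.2, hzim.1, hzim.2])

/-! ### words -/

/-- `Psi v` is the inverse of the contraction onto the square of the word `v`. -/
noncomputable def Psi : List D → ℂ → ℂ
  | [], z => z
  | d :: v, z => Psi v (psi d z)

/-- the contraction onto the square of the word `v` -/
noncomputable def Phi : List D → ℂ → ℂ
  | [], z => z
  | d :: v, z => phi d (Phi v z)

@[simp] theorem Psi_nil (z : ℂ) : Psi [] z = z := rfl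
@[simp] theorem Psi_cons (d : D) (v : List D) (z : ℂ) : Psi (d :: v) z = Psi v (psi d z) := rfl
@[simp] theorem Phi_nil (z : ℂ) : Phi [] z = z := rfl
@[simp] theorem Phi_cons (d : D) (v : List D) (z : ℂ) : Phi (d :: v) z = phi d (Phi v z) := rfl

theorem Psi_append (u v : List D) (z : ℂ) : Psi (u ++ v) z = Psi v (Psi u z) := by
  induction u generalizing z with
  | nil => rfl
  | cons d u ih => simp [ih]

theorem Psi_snoc (v : List D) (d : D) (z : ℂ) : Psi (v ++ [d]) z = psi d (Psi v z) := by
  rw [Psi_append]; rfl

theorem Phi_append (u v : List D) (z : ℂ) : Phi (u ++ v) z = Phi u (Phi v z) := by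
  induction u generalizing z with
  | nil => rfl
  | cons d u ih => simp [ih]

theorem Phi_snoc (v : List D) (d : D) (z : ℂ) : Phi (v ++ [d]) z = Phi v (phi d z) := by
  rw [Phi_append]; rfl

theorem Psi_Phi (v : List D) (z : ℂ) : Psi v (Phi v z) = z := by
  induction v generalizing z with
  | nil => rfl
  | cons d v ih => simp [psi_phi, ih]

theorem Phi_Psi (v : List D) (z : ℂ) : Phi v (Psi v z) = z := by
  induction v generalizing z with
  | nil => rfl
  | cons d v ih => simp [phi_psi, ih]

theorem dist_Psi (v : List D) (z w : ℂ) : dist (Psi v z) (Psi v w) = 3 ^ v.length * dist z w := by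
  induction v generalizing z w with
  | nil => simp
  | cons d v ih =>
    rw [Psi_cons, Psi_cons, ih, dist_psi, List.length_cons, pow_succ]
    ring

theorem differentiable_psi (d : D) : Differentiable ℂ (psi d) := by
  unfold psi
  exact (differentiable_id.const_mul _).sub_const _

theorem differentiable_phi (d : D) : Differentiable ℂ (phi d) := by
  unfold phi
  exact (differentiable_id.add_const _).div_const _

theorem differentiable_Psi (v : List D) : Differentiable ℂ (Psi v) := by
  induction v with
  | nil => exact differentiable_id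
  | cons d v ih =>
    have : Psi (d :: v) = (Psi v) ∘ (psi d) := rfl
    rw [this]
    exact ih.comp (differentiable_psi d)

theorem differentiable_Phi (v : List D) : Differentiable ℂ (Phi v) := by
  induction v with
  | nil => exact differentiable_id
  | cons d v ih =>
    have : Phi (d :: v) = (phi d) ∘ (Phi v) := rfl
    rw [this]
    exact (differentiable_phi d).comp ih

theorem Psi_notMem {v : List D} {z : ℂ} (hz : z ∉ squareCantor) : Psi v z ∉ squareCantor := by
  induction v generalizing z with
  | nil => exact hz
  | cons d v ih => exact ih fun h => hz (mem_of_psi_mem h)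

theorem dist_Phi_lt {v : List D} {z : ℂ} (hz : dist z ctr < 3 / 2) :
    dist (Phi v z) ctr < 3 / 2 := by
  induction v with
  | nil => exact hz
  | cons d v ih =>
    rw [Phi_cons]
    have h1 := dist_le_of_psi d (phi d (Phi v z))
    rw [psi_phi] at h1
    linarith

theorem mem_of_Phi_mem {v : List D} {z : ℂ} (hz : dist z ctr < 3 / 2)
    (h : Phi v z ∈ squareCantor) : z ∈ squareCantor := by
  induction v with
  | nil => exact h
  | cons d v ih => exact ih (mem_of_phi_mem (dist_Phi_lt hz) h)

theorem Psi_mem_of_near {v : List D} {z : ℂ} (hz : z ∈ squareCantor)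
    (h : dist (Psi v z) ctr < 3 / 2) : Psi v z ∈ squareCantor := by
  refine mem_of_Phi_mem (v := v) h ?_
  rw [Phi_Psi]
  exact hz

/-! ### chains of near squares -/

/-- near a deep square implies near all squares containing it -/
theorem near_prefix {v : List D} {z : ℂ} (hv : v ≠ []) (h : dist (Psi v z) ctr ≤ 78 / 100) :
    dist z ctr < 76 / 100 := by
  induction v generalizing z with
  | nil => exact absurd rfl hv
  | cons d v ih =>
    rw [Psi_cons] at h
    have h1 : dist (psi d z) ctr ≤ 78 / 100 := by
      by_cases hv' : v = []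
      · subst hv'
        exact h
      · have := ih hv' h
        linarith
    have := dist_le_of_psi d z
    linarith

theorem near_append {u v : List D} {z : ℂ} (hv : v ≠ [])
    (h : dist (Psi (u ++ v) z) ctr ≤ 78 / 100) : dist (Psi u z) ctr < 76 / 100 := by
  rw [Psi_append] at h
  exact near_prefix hv h

theorem chain {v w : List D} {z : ℂ} (hv : dist (Psi v z) ctr ≤ 78 / 100)
    (hw : dist (Psi w z) ctr ≤ 78 / 100) : v <+: w ∨ w <+: v := by
  induction v generalizing w z with
  | nil => exact Or.inl List.nil_prefix
  | cons d v ih =>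
    cases w with
    | nil => exact Or.inr List.nil_prefix
    | cons d' w =>
      have h1 : dist (psi d z) ctr ≤ 78 / 100 := by
        by_cases h : v = []
        · subst h
          exact hv
        · have := near_prefix h (z := psi d z) hv
          linarith
      have h2 : dist (psi d' z) ctr ≤ 78 / 100 := by
        by_cases h : w = []
        · subst h
          exact hw
        · have := near_prefix h (z := psi d' z) hw
          linarith
      have hdd : d = d' := psi_disj (by linarith) (by linarith)
      subst hdd
      rcases ih hv hw with h | h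
      · exact Or.inl (List.cons_prefix_cons.2 ⟨rfl, h⟩)
      · exact Or.inr (List.cons_prefix_cons.2 ⟨rfl, h⟩)

/-! ### distance to the set -/

theorem nonempty_sC : squareCantor.Nonempty := ⟨0, zero_mem_squareCantor⟩

theorem infDist_psi (d : D) (z : ℂ) : 3 * infDist z squareCantor ≤ infDist (psi d z) squareCantor := by
  rw [le_infDist nonempty_sC]
  intro y hy
  have h1 : infDist z squareCantor ≤ dist z (phi d y) := infDist_le_dist_of_mem (phi_mem hy)
  have h2 : dist (psi d z) y = 3 * dist z (phi d y) := by
    conv_lhs => rw [← psi_phi d y]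
    exact dist_psi d z _
  rw [h2]
  linarith

theorem infDist_le_dist_ctr (z : ℂ) : infDist z squareCantor ≤ dist z ctr + 71 / 100 := by
  have h1 : infDist z squareCantor ≤ dist z 0 := infDist_le_dist_of_mem zero_mem_squareCantor
  have h2 := dist_triangle z ctr 0
  have h3 := squareCantor_dist' zero_mem_squareCantor
  rw [dist_comm] at h3
  linarith

theorem infDist_Psi (v : List D) (z : ℂ) :
    3 ^ v.length * infDist z squareCantor ≤ dist (Psi v z) ctr + 71 / 100 := by
  induction v generalizing z with
  | nil => simpa using infDist_le_dist_ctr z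
  | cons d v ih =>
    have h1 := ih (psi d z)
    have h2 := infDist_psi d z
    rw [Psi_cons, List.length_cons, pow_succ]
    refine le_trans ?_ h1
    rw [mul_assoc]
    gcongr

theorem infDist_pos' {z : ℂ} (hz : z ∉ squareCantor) : 0 < infDist z squareCantor :=
  (isClosed_squareCantor.notMem_iff_infDist_pos nonempty_sC).1 hz

end Pool.Corona91698f
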