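import Mathlib
import Pool.Agent.Corona91698f.Tree

/-!
# Sums over the tree of squares
-/

open Complex Metric Set Filter Topology

set_option autoImplicit false

namespace Pool.Corona91698f

/-- the weight of a square, in rescaled coordinates -/
noncomputable def th (z : ℂ) : ℝ := (1 + dist z ctr ^ 2)⁻¹

theorem th_pos (z : ℂ) : 0 < th z := by unfold th; positivity

theorem th_le_one (z : ℂ) : th z ≤ 1 := by
  unfold th
  apply inv_le_one_of_one_le₀
  have := sq_nonneg (dist z ctr)
  linarith

theorem th_le_far {z : ℂ} (hz : 71 / 100 < dist z ctr) :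
    th z ≤ 1 / (dist z ctr - 71 / 100) ^ 2 := by
  unfold th
  rw [one_div]
  apply inv_anti₀
  · have : 0 < dist z ctr - 71 / 100 := by linarith
    positivity
  · nlinarith

theorem inv_sq_le_th {z : ℂ} (hz : 1 ≤ dist z ctr) : 1 / dist z ctr ^ 2 ≤ 2 * th z := by
  unfold th
  rw [← div_eq_mul_inv, div_le_div_iff₀ (by positivity) (by positivity)]
  nlinarith

/-- sum of the weights of the squares of level `n` -/
noncomputable def Sg : ℕ → ℂ → ℝ
  | 0, z => th z
  | (n + 1), z => ∑ d : D, Sg n (psi d z)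

theorem Sg_nonneg (n : ℕ) (z : ℂ) : 0 ≤ Sg n z := by
  induction n generalizing z with
  | zero => exact (th_pos z).le
  | succ n ih => exact Finset.sum_nonneg fun d _ => ih _

theorem card_D : (Finset.univ : Finset D).card = 4 := rfl

theorem Sg_far (n : ℕ) {z : ℂ} (hz : 71 / 100 < dist z ctr) :
    Sg n z ≤ (4 / 9) ^ n * (1 / (dist z ctr - 71 / 100) ^ 2) := by
  induction n generalizing z with
  | zero => simpa [Sg] using th_le_far hz
  | succ n ih =>
    have hpos : 0 < dist z ctr - 71 / 100 := by linarith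
    have h1 : ∀ d : D, Sg n (psi d z) ≤
        (4 / 9) ^ n * (1 / (9 * (dist z ctr - 71 / 100) ^ 2)) := by
      intro d
      have h2 := dist_psi_ge_q d z
      have h3 : 71 / 100 < dist (psi d z) ctr := by linarith
      refine (ih h3).trans ?_
      gcongr
      calc 9 * (dist z ctr - 71 / 100) ^ 2 = (3 * (dist z ctr - 71 / 100)) ^ 2 := by ring
        _ ≤ (dist (psi d z) ctr - 71 / 100) ^ 2 := by gcongr
    calc Sg (n + 1) z = ∑ d : D, Sg n (psi d z) := rfl
      _ ≤ ∑ _d : D, (4 / 9) ^ n * (1 / (9 * (dist z ctr - 71 / 100) ^ 2)) :=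
          Finset.sum_le_sum fun d _ => h1 d
      _ = (4 / 9) ^ (n + 1) * (1 / (dist z ctr - 71 / 100) ^ 2) := by
          rw [Finset.sum_const, card_D, pow_succ (4 / 9 : ℝ) n]
          simp only [nsmul_eq_mul]
          generalize ((4 : ℝ) / 9) ^ n = P
          push_cast
          field_simp

theorem Sg_far_one (n : ℕ) {z : ℂ} (hz : 1 ≤ dist z ctr) : Sg n z ≤ 12 * (4 / 9) ^ n := by
  refine (Sg_far n (by linarith)).trans ?_
  have h1 : (29 / 100 : ℝ) ^ 2 ≤ (dist z ctr - 71 / 100) ^ 2 := by
    gcongr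
    linarith
  have h2 : 1 / (dist z ctr - 71 / 100) ^ 2 ≤ 12 := by
    rw [div_le_iff₀ (by nlinarith)]
    nlinarith
  have h3 : (0 : ℝ) < (4 / 9) ^ n := by positivity
  nlinarith

/-- split a sum over digits: one arbitrary digit and three far ones -/
theorem sum_D_le (F : D → ℝ) (d₀ : D) (B C : ℝ) (h0 : F d₀ ≤ B) (h1 : ∀ d, d ≠ d₀ → F d ≤ C) :
    ∑ d : D, F d ≤ B + 3 * C := by
  rw [← Finset.add_sum_erase _ _ (Finset.mem_univ d₀)]
  have h2 : ∑ d ∈ Finset.univ.erase d₀, F d ≤ ∑ _d ∈ Finset.univ.erase d₀, C :=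
    Finset.sum_le_sum fun d hd => h1 d (Finset.ne_of_mem_erase hd)
  rw [Finset.sum_const, Finset.card_erase_of_mem (Finset.mem_univ _), card_D,
    nsmul_eq_mul] at h2
  have h3 : ((4 - 1 : ℕ) : ℝ) = 3 := by norm_num
  rw [h3] at h2
  exact add_le_add h0 h2

theorem Sg_le (n : ℕ) (z : ℂ) : Sg n z ≤ 66 - 65 * (4 / 9) ^ n := by
  induction n generalizing z with
  | zero =>
    have := th_le_one z
    simp only [Sg, pow_zero]
    linarith
  | succ n ih =>
    obtain ⟨d₀, hd₀⟩ := exists_far z
    have h1 := sum_D_le (fun d => Sg n (psi d z)) d₀ (66 - 65 * (4 / 9) ^ n) (12 * (4 / 9) ^ n)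
      (ih _) (fun d hd => Sg_far_one n (hd₀ d hd))
    have h3 : (0 : ℝ) < (4 / 9) ^ n := by positivity
    calc Sg (n + 1) z = ∑ d : D, Sg n (psi d z) := rfl
      _ ≤ _ := h1
      _ ≤ 66 - 65 * (4 / 9) ^ (n + 1) := by rw [pow_succ]; linarith

theorem Sg_le' (n : ℕ) (z : ℂ) : Sg n z ≤ 66 := by
  have := Sg_le n z
  have h3 : (0 : ℝ) < (4 / 9) ^ n := by positivity
  linarith

/-! ### total sums -/

/-- sum of the weights of the squares of level at most `n` -/
noncomputable def Th : ℕ → ℂ → ℝ
  | 0, z => th z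
  | (n + 1), z => th z + ∑ d : D, Th n (psi d z)

theorem Th_nonneg (n : ℕ) (z : ℂ) : 0 ≤ Th n z := by
  induction n generalizing z with
  | zero => exact (th_pos z).le
  | succ n ih => exact add_nonneg (th_pos z).le (Finset.sum_nonneg fun d _ => ih _)

theorem Th_far (n : ℕ) {z : ℂ} (hz : 71 / 100 < dist z ctr) :
    Th n z ≤ 9 / 5 * (1 / (dist z ctr - 71 / 100) ^ 2) := by
  induction n generalizing z with
  | zero =>
    have h1 := th_le_far hz
    have h2 : 0 < 1 / (dist z ctr - 71 / 100) ^ 2 := by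
      have : 0 < dist z ctr - 71 / 100 := by linarith
      positivity
    simp only [Th]
    linarith
  | succ n ih =>
    have hpos : 0 < dist z ctr - 71 / 100 := by linarith
    have h1 : ∀ d : D, Th n (psi d z) ≤ 9 / 5 * (1 / (9 * (dist z ctr - 71 / 100) ^ 2)) := by
      intro d
      have h2 := dist_psi_ge_q d z
      have h3 : 71 / 100 < dist (psi d z) ctr := by linarith
      refine (ih h3).trans ?_
      gcongr
      calc 9 * (dist z ctr - 71 / 100) ^ 2 = (3 * (dist z ctr - 71 / 100)) ^ 2 := by ring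
        _ ≤ (dist (psi d z) ctr - 71 / 100) ^ 2 := by gcongr
    calc Th (n + 1) z = th z + ∑ d : D, Th n (psi d z) := rfl
      _ ≤ 1 / (dist z ctr - 71 / 100) ^ 2
          + ∑ _d : D, 9 / 5 * (1 / (9 * (dist z ctr - 71 / 100) ^ 2)) :=
          add_le_add (th_le_far hz) (Finset.sum_le_sum fun d _ => h1 d)
      _ = 9 / 5 * (1 / (dist z ctr - 71 / 100) ^ 2) := by
          rw [Finset.sum_const, card_D]
          simp only [nsmul_eq_mul]
          field_simp
          norm_num

/-- The total weight is at most logarithmic in the distance to the set. -/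
theorem Th_le (k : ℕ) : ∀ (n : ℕ) (z : ℂ), 151 / 100 < 3 ^ k * infDist z squareCantor →
    Th n z ≤ 300 * (k + 1) := by
  have hfar : ∀ (n : ℕ) (z : ℂ), 4 / 5 ≤ dist z ctr → Th n z ≤ 223 := by
    intro n z hz
    refine (Th_far n (by linarith)).trans ?_
    have h1 : (9 / 100 : ℝ) ^ 2 ≤ (dist z ctr - 71 / 100) ^ 2 := by
      gcongr
      linarith
    have h2 : 1 / (dist z ctr - 71 / 100) ^ 2 ≤ 123.5 := by
      rw [div_le_iff₀ (by nlinarith)]
      nlinarith
    linarith
  have hfar1 : ∀ (n : ℕ) (z : ℂ), 1 ≤ dist z ctr → Th n z ≤ 22 := by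
    intro n z hz
    refine (Th_far n (by linarith)).trans ?_
    have h1 : (29 / 100 : ℝ) ^ 2 ≤ (dist z ctr - 71 / 100) ^ 2 := by
      gcongr
      linarith
    have h2 : 1 / (dist z ctr - 71 / 100) ^ 2 ≤ 12 := by
      rw [div_le_iff₀ (by nlinarith)]
      nlinarith
    linarith
  induction k with
  | zero =>
    intro n z hz
    have h1 := infDist_le_dist_ctr z
    simp only [pow_zero, one_mul] at hz
    have := hfar n z (by linarith)
    norm_num
    linarith
  | succ k ih =>
    intro n z hz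
    cases n with
    | zero =>
      have := th_le_one z
      simp only [Th]
      push_cast
      nlinarith
    | succ n =>
      obtain ⟨d₀, hd₀⟩ := exists_far z
      have h0 : Th n (psi d₀ z) ≤ 300 * (k + 1) := by
        refine ih n _ ?_
        have h2 := infDist_psi d₀ z
        have h3 : (0 : ℝ) < 3 ^ k := by positivity
        rw [pow_succ] at hz
        nlinarith
      have h1 := sum_D_le (fun d => Th n (psi d z)) d₀ (300 * (k + 1)) 22 h0
        (fun d hd => hfar1 n _ (hd₀ d hd))
      have h2 := th_le_one z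
      simp only [Th]
      push_cast
      linarith

/-- all words of length at most `n` -/
noncomputable def wd : ℕ → Finset (List D)
  | 0 => {[]}
  | (n + 1) => insert [] ((Finset.univ ×ˢ wd n).image fun x : D × List D => x.1 :: x.2)

theorem mem_wd {n : ℕ} {v : List D} : v ∈ wd n ↔ v.length ≤ n := by
  induction n generalizing v with
  | zero => simp [wd, List.length_eq_zero_iff]
  | succ n ih =>
    cases v with
    | nil => simp [wd]
    | cons d v =>
      simp only [wd, Finset.mem_insert, List.cons_ne_nil, false_or, Finset.mem_image,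
        Finset.mem_product, Finset.mem_univ, true_and, List.length_cons, Nat.succ_le_succ_iff]
      constructor
      · rintro ⟨⟨d', v'⟩, h1, h2⟩
        have h3 := (List.cons.inj h2)
        rw [← h3.2]
        exact ih.1 h1
      · intro h
        exact ⟨(d, v), ih.2 h, rfl⟩

theorem sum_wd (n : ℕ) (z : ℂ) : ∑ v ∈ wd n, th (Psi v z) = Th n z := by
  induction n generalizing z with
  | zero => simp [wd, Th]
  | succ n ih =>
    simp only [wd]
    rw [Finset.sum_insert (by simp), Finset.sum_image (by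
      rintro ⟨d, v⟩ _ ⟨d', v'⟩ _ h
      have h3 := (List.cons.inj h)
      rw [Prod.mk.injEq]
      exact h3), Finset.sum_product]
    simp only [Psi_nil, Psi_cons, Th]
    congr 1
    exact Finset.sum_congr rfl fun d _ => ih _

theorem sum_le_Th (s : Finset (List D)) (z : ℂ) :
    ∃ n, ∑ v ∈ s, th (Psi v z) ≤ Th n z := by
  refine ⟨s.sup List.length, ?_⟩
  rw [← sum_wd]
  refine Finset.sum_le_sum_of_subset_of_nonneg ?_ fun v _ _ => (th_pos _).le
  intro v hv
  exact mem_wd.2 (Finset.le_sup (f := List.length) hv)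

theorem exists_k {z : ℂ} (hz : z ∉ squareCantor) :
    ∃ k : ℕ, 151 / 100 < 3 ^ k * infDist z squareCantor := by
  have h := infDist_pos' hz
  obtain ⟨k, hk⟩ := pow_unbounded_of_one_lt (151 / 100 / infDist z squareCantor)
    (show (1 : ℝ) < 3 by norm_num)
  refine ⟨k, ?_⟩
  rwa [div_lt_iff₀ h] at hk

theorem summable_th {z : ℂ} (hz : z ∉ squareCantor) : Summable fun v => th (Psi v z) := by
  obtain ⟨k, hk⟩ := exists_k hz
  refine summable_of_sum_le (c := 300 * (k + 1)) (fun v => (th_pos _).le) fun s => ?_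
  obtain ⟨n, hn⟩ := sum_le_Th s z
  exact hn.trans (Th_le k n z hk)

theorem tsum_th_le {z : ℂ} {k : ℕ} (hk : 151 / 100 < 3 ^ k * infDist z squareCantor) :
    ∑' v, th (Psi v z) ≤ 300 * (k + 1) := by
  refine Real.tsum_le_of_sum_le (fun v => (th_pos _).le) fun s => ?_
  obtain ⟨n, hn⟩ := sum_le_Th s z
  exact hn.trans (Th_le k n z hk)

/-- Harnack type estimate for the weights -/
theorem th_harnack {z z₀ : ℂ} (hz : dist z z₀ ≤ infDist z₀ squareCantor / 2) (v : List D) :
    th (Psi v z) ≤ 20 * th (Psi v z₀) := by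
  set a := dist (Psi v z₀) ctr with ha
  set b := dist (Psi v z) ctr with hb
  have h1 := infDist_Psi v z₀
  have h2 := dist_Psi v z z₀
  have h3 : dist (Psi v z) (Psi v z₀) ≤ (a + 71 / 100) / 2 := by
    rw [h2]
    have h4 : (0 : ℝ) < 3 ^ v.length := by positivity
    calc 3 ^ v.length * dist z z₀ ≤ 3 ^ v.length * (infDist z₀ squareCantor / 2) := by gcongr
      _ = (3 ^ v.length * infDist z₀ squareCantor) / 2 := by ring
      _ ≤ (a + 71 / 100) / 2 := by linarith
  have h5 : a ≤ dist (Psi v z) (Psi v z₀) + b := by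
    have := dist_triangle (Psi v z₀) (Psi v z) ctr
    rw [dist_comm (Psi v z₀) (Psi v z)] at this
    exact this
  have h6 : a / 2 - 71 / 200 ≤ b := by linarith
  have ha0 : 0 ≤ a := dist_nonneg
  have hb0 : 0 ≤ b := dist_nonneg
  unfold th
  rw [← ha, ← hb, ← div_eq_mul_inv, inv_eq_one_div, div_le_div_iff₀ (by positivity) (by positivity)]
  rcases le_or_gt a 2 with h | h
  · nlinarith
  · have h7 : 29 / 100 * a ≤ b := by linarith
    nlinarith

end Pool.Corona91698f
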