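import Mathlib
import Pool.Agent.Corona91698f.Count

/-!
# A bounded holomorphic function on the complement of the square Cantor set with a simple zero at
infinity
-/

open Complex Metric Set Filter Topology

set_option autoImplicit false

namespace Pool.Corona91698f

/-- regularised Cauchy kernel -/
noncomputable def k0 (z : ℂ) : ℂ :=
  (starRingEnd ℂ (z - ctr)) / ((max (dist z ctr ^ 2) ((71 / 100) ^ 2) : ℝ) : ℂ)

theorem k0_norm (z : ℂ) : ‖k0 z‖ ≤ 100 / 71 := by
  unfold k0
  have hpos : 0 < max (dist z ctr ^ 2) ((71 / 100 : ℝ) ^ 2) :=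
    lt_of_lt_of_le (by norm_num) (le_max_right _ _)
  rw [norm_div, Complex.norm_real, Real.norm_eq_abs, abs_of_pos hpos, RCLike.norm_conj,
    ← dist_eq_norm, div_le_iff₀ hpos]
  have h1 := le_max_left (dist z ctr ^ 2) ((71 / 100 : ℝ) ^ 2)
  have h2 := le_max_right (dist z ctr ^ 2) ((71 / 100 : ℝ) ^ 2)
  rcases le_total (dist z ctr) (71 / 100) with h | h
  · nlinarith
  · nlinarith

theorem k0_far {z : ℂ} (h : 71 / 100 ≤ dist z ctr) : k0 z = (z - ctr)⁻¹ := by
  unfold k0
  have h1 : max (dist z ctr ^ 2) ((71 / 100 : ℝ) ^ 2) = dist z ctr ^ 2 := by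
    apply max_eq_left
    gcongr
  rw [h1, Complex.inv_def, dist_eq_norm, Complex.normSq_eq_norm_sq]
  push_cast
  rw [div_eq_mul_inv]

theorem k0_continuous : Continuous k0 := by
  unfold k0
  refine Continuous.div ?_ ?_ ?_
  · exact Complex.continuous_conj.comp (continuous_id.sub continuous_const)
  · exact Complex.continuous_ofReal.comp
      (((continuous_id.dist continuous_const).pow 2).max continuous_const)
  · intro z
    have hpos : 0 < max (dist z ctr ^ 2) ((71 / 100 : ℝ) ^ 2) :=
      lt_of_lt_of_le (by norm_num) (le_max_right _ _)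
    exact_mod_cast hpos.ne'

/-- the first difference -/
noncomputable def D0 (z : ℂ) : ℂ := 3 / 4 * ∑ d : D, k0 (psi d z) - k0 z

theorem D0_norm (z : ℂ) : ‖D0 z‖ ≤ 30 * th z := by
  rcases le_or_gt (dist z ctr) 2 with h | h
  · have h1 : ‖D0 z‖ ≤ 3 / 4 * (4 * (100 / 71)) + 100 / 71 := by
      unfold D0
      refine (norm_sub_le _ _).trans (add_le_add ?_ (k0_norm z))
      rw [norm_mul]
      have e : ‖(3 / 4 : ℂ)‖ = 3 / 4 := by norm_num
      rw [e]
      gcongr
      refine (norm_sum_le _ _).trans ?_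
      calc ∑ d : D, ‖k0 (psi d z)‖ ≤ ∑ _d : D, (100 / 71 : ℝ) :=
            Finset.sum_le_sum fun d _ => k0_norm _
        _ = 4 * (100 / 71) := by rw [Finset.sum_const, card_D, nsmul_eq_mul]; norm_num
    have h2 : 1 / 5 ≤ th z := by
      unfold th
      rw [one_div]
      apply inv_anti₀ (by positivity)
      have := dist_nonneg (x := z) (y := ctr)
      nlinarith
    linarith
  · have hz0 : z - ctr ≠ 0 := by
      intro h0
      rw [dist_eq_norm, h0, norm_zero] at h
      linarith
    have hd : ∀ d : D, z - phi d ctr ≠ 0 := by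
      intro d h0
      have h1 := dist_phi_ctr d
      have h2 : z = phi d ctr := sub_eq_zero.1 h0
      rw [← h2] at h1
      linarith
    have e1 : ∀ d : D, k0 (psi d z) = (3 * (z - phi d ctr))⁻¹ := by
      intro d
      have h1 := dist_psi_ge d z
      rw [k0_far (by linarith)]
      congr 1
      conv_lhs => rw [← psi_phi d ctr]
      rw [psi_phi]
      have := psi_sub d z (phi d ctr)
      rw [psi_phi] at this
      exact this
    have e2 : D0 z = ∑ d : D, 1 / 4 * ((z - phi d ctr)⁻¹ - (z - ctr)⁻¹) := by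
      unfold D0
      rw [k0_far (by linarith)]
      simp only [e1]
      rw [← Finset.mul_sum, Finset.sum_sub_distrib, Finset.sum_const, card_D]
      simp only [mul_inv, ← Finset.mul_sum, nsmul_eq_mul]
      push_cast
      ring
    rw [e2]
    refine (norm_sum_le _ _).trans ?_
    have h3 : ∀ d : D, ‖1 / 4 * ((z - phi d ctr)⁻¹ - (z - ctr)⁻¹)‖ ≤
        1 / 4 * (2 * (1 / dist z ctr ^ 2)) := by
      intro d
      rw [norm_mul]
      have e : ‖(1 / 4 : ℂ)‖ = 1 / 4 := by norm_num
      rw [e]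
      gcongr
      have e3 : (z - phi d ctr)⁻¹ - (z - ctr)⁻¹ = (phi d ctr - ctr) * ((z - phi d ctr)⁻¹ *
          (z - ctr)⁻¹) := by
        field_simp [hz0, hd d]
        ring
      rw [e3, norm_mul, norm_mul, norm_inv, norm_inv, ← dist_eq_norm, ← dist_eq_norm,
        ← dist_eq_norm]
      have h4 := dist_phi_ctr d
      have h5 : dist z ctr / 2 ≤ dist z (phi d ctr) := by
        have := dist_triangle z (phi d ctr) ctr
        linarith
      have hpos : 0 < dist z ctr := by linarith
      have h6 : (dist z (phi d ctr))⁻¹ ≤ (dist z ctr / 2)⁻¹ := inv_anti₀ (by positivity) h5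
      calc dist (phi d ctr) ctr * ((dist z (phi d ctr))⁻¹ * (dist z ctr)⁻¹)
          ≤ 1 * ((dist z ctr / 2)⁻¹ * (dist z ctr)⁻¹) := by
            gcongr
            linarith
        _ = 2 * (1 / dist z ctr ^ 2) := by field_simp
    have h4 := inv_sq_le_th (z := z) (by linarith)
    have h5 := th_pos z
    calc ∑ d : D, ‖1 / 4 * ((z - phi d ctr)⁻¹ - (z - ctr)⁻¹)‖
        ≤ ∑ _d : D, 1 / 4 * (2 * (1 / dist z ctr ^ 2)) := Finset.sum_le_sum fun d _ => h3 d
      _ = 2 * (1 / dist z ctr ^ 2) := by rw [Finset.sum_const, card_D, nsmul_eq_mul]; push_cast; ring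
      _ ≤ 30 * th z := by linarith

/-- the approximating functions -/
noncomputable def Wn : ℕ → ℂ → ℂ
  | 0, z => k0 z
  | (n + 1), z => 3 / 4 * ∑ d : D, Wn n (psi d z)

theorem Wn_diff (n : ℕ) (z : ℂ) : ‖Wn (n + 1) z - Wn n z‖ ≤ 30 * (3 / 4) ^ n * Sg n z := by
  induction n generalizing z with
  | zero =>
    have := D0_norm z
    simpa [Wn, D0, Sg] using this
  | succ n ih =>
    have e : Wn (n + 1 + 1) z - Wn (n + 1) z =
        3 / 4 * ∑ d : D, (Wn (n + 1) (psi d z) - Wn n (psi d z)) := by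
      rw [Finset.sum_sub_distrib, mul_sub]
      rfl
    rw [e, norm_mul]
    have e' : ‖(3 / 4 : ℂ)‖ = 3 / 4 := by norm_num
    rw [e']
    calc 3 / 4 * ‖∑ d : D, (Wn (n + 1) (psi d z) - Wn n (psi d z))‖
        ≤ 3 / 4 * ∑ d : D, ‖Wn (n + 1) (psi d z) - Wn n (psi d z)‖ := by
          gcongr; exact norm_sum_le _ _
      _ ≤ 3 / 4 * ∑ d : D, 30 * (3 / 4) ^ n * Sg n (psi d z) := by
          gcongr with d _; exact ih _
      _ = 30 * (3 / 4) ^ (n + 1) * Sg (n + 1) z := by
          rw [← Finset.mul_sum, pow_succ]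
          simp only [Sg]
          ring

/-- the limit function -/
noncomputable def W (z : ℂ) : ℂ := k0 z + ∑' n, (Wn (n + 1) z - Wn n z)

theorem Wn_eq (n : ℕ) (z : ℂ) :
    Wn n z = k0 z + ∑ i ∈ Finset.range n, (Wn (i + 1) z - Wn i z) := by
  rw [Finset.sum_range_sub (fun i => Wn i z)]
  simp [Wn]

theorem Wn_diff' (n : ℕ) (z : ℂ) : ‖Wn (n + 1) z - Wn n z‖ ≤ 1980 * (3 / 4) ^ n := by
  have h1 := Wn_diff n z
  have h2 := Sg_le' n z
  have h3 : (0 : ℝ) < (3 / 4) ^ n := by positivity
  nlinarith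

theorem summable_Wn (z : ℂ) : Summable fun n => Wn (n + 1) z - Wn n z := by
  refine Summable.of_norm_bounded ?_ (fun n => Wn_diff' n z)
  exact (summable_geometric_of_lt_one (by norm_num) (by norm_num)).mul_left _

theorem W_norm (z : ℂ) : ‖W z‖ ≤ 7922 := by
  unfold W
  have h1 : HasSum (fun n : ℕ => (1980 : ℝ) * (3 / 4) ^ n) (1980 * (1 - 3 / 4)⁻¹) :=
    (hasSum_geometric_of_lt_one (by norm_num) (by norm_num)).mul_left _
  have h2 := tsum_of_norm_bounded h1 (fun n => Wn_diff' n z)
  refine (norm_add_le _ _).trans ?_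
  have h3 := k0_norm z
  norm_num at h2
  linarith

theorem Wn_tendsto : TendstoUniformly Wn W atTop := by
  rw [Metric.tendstoUniformly_iff]
  intro ε hε
  have hlim : Tendsto (fun n : ℕ => (1980 : ℝ) * (3 / 4) ^ n * 4) atTop (𝓝 0) := by
    have := ((tendsto_pow_atTop_nhds_zero_of_lt_one (r := (3 / 4 : ℝ)) (by norm_num)
      (by norm_num)).const_mul 1980).mul_const 4
    simpa using this
  filter_upwards [hlim.eventually (gt_mem_nhds hε)] with n hn z
  have e : W z - Wn n z = ∑' i, (Wn (i + n + 1) z - Wn (i + n) z) := by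
    have := (summable_Wn z).sum_add_tsum_nat_add n
    unfold W
    rw [← this, Wn_eq n z]
    ring
  rw [dist_eq_norm, e]
  refine lt_of_le_of_lt ?_ hn
  have h1 : HasSum (fun i : ℕ => (1980 : ℝ) * (3 / 4) ^ n * (3 / 4) ^ i)
      (1980 * (3 / 4) ^ n * (1 - 3 / 4)⁻¹) :=
    (hasSum_geometric_of_lt_one (by norm_num) (by norm_num)).mul_left _
  refine (tsum_of_norm_bounded h1 fun i => ?_).trans (le_of_eq ?_)
  · refine (Wn_diff' (i + n) z).trans (le_of_eq ?_)
    rw [pow_add]; ring
  · norm_num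

theorem Wn_continuous (n : ℕ) : Continuous (Wn n) := by
  induction n with
  | zero => exact k0_continuous
  | succ n ih =>
    have h : Continuous fun z => (3 / 4 : ℂ) * ∑ d : D, Wn n (psi d z) :=
      continuous_const.mul (continuous_finsetSum _ fun d _ =>
        ih.comp (differentiable_psi d).continuous)
    exact h

theorem W_continuous : Continuous W :=
  Wn_tendsto.continuous (Eventually.of_forall Wn_continuous).frequently

/-- region of holomorphy of the approximants -/
def farN : ℕ → ℂ → Prop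
  | 0, z => 71 / 100 < dist z ctr
  | (n + 1), z => ∀ d : D, farN n (psi d z)

theorem Wn_differentiableAt (n : ℕ) {z : ℂ} (h : farN n z) : DifferentiableAt ℂ (Wn n) z := by
  induction n generalizing z with
  | zero =>
    have hopen : IsOpen {z : ℂ | (71 / 100 : ℝ) < dist z ctr} :=
      isOpen_lt continuous_const (continuous_id.dist continuous_const)
    have hz : z ∈ {z : ℂ | (71 / 100 : ℝ) < dist z ctr} := h
    have hz0 : z - ctr ≠ 0 := by
      intro h0
      have h' : (71 / 100 : ℝ) < dist z ctr := h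
      rw [dist_eq_norm, h0, norm_zero] at h'
      linarith
    have h1 : DifferentiableAt ℂ (fun z : ℂ => (z - ctr)⁻¹) z :=
      (differentiableAt_id.sub_const ctr).inv hz0
    refine h1.congr_of_eventuallyEq ?_
    filter_upwards [hopen.mem_nhds hz] with y hy
    exact k0_far (le_of_lt hy)
  | succ n ih =>
    have h1 : ∀ d : D, DifferentiableAt ℂ (fun z => Wn n (psi d z)) z := by
      intro d
      exact DifferentiableAt.comp (g := Wn n) (f := psi d) z (ih (h d)) (differentiable_psi d z)
    have h2 : DifferentiableAt ℂ (fun z => 3 / 4 * ∑ d : D, Wn n (psi d z)) z :=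
      (DifferentiableAt.fun_sum fun d _ => h1 d).const_mul _
    exact h2

theorem farN_of_infDist (n : ℕ) {z : ℂ} (h : 3 / 2 < 3 ^ n * infDist z squareCantor) :
    farN n z := by
  induction n generalizing z with
  | zero =>
    have h1 := infDist_le_dist_ctr z
    simp only [pow_zero, one_mul] at h
    show 71 / 100 < dist z ctr
    linarith
  | succ n ih =>
    intro d
    refine ih ?_
    have h2 := infDist_psi d z
    have h3 : (0 : ℝ) < 3 ^ n := by positivity
    rw [pow_succ] at h
    nlinarith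

theorem W_differentiableAt {z : ℂ} (hz : z ∉ squareCantor) : DifferentiableAt ℂ W z := by
  have hη := infDist_pos' hz
  set η := infDist z squareCantor with hηdef
  obtain ⟨N, hN⟩ := pow_unbounded_of_one_lt (3 / 2 / (η / 2)) (show (1 : ℝ) < 3 by norm_num)
  rw [div_lt_iff₀ (by positivity)] at hN
  have hV : ∀ y ∈ ball z (η / 2), η / 2 ≤ infDist y squareCantor := by
    intro y hy
    have h1 : infDist z squareCantor ≤ infDist y squareCantor + dist z y :=
      infDist_le_infDist_add_dist
    rw [mem_ball, dist_comm] at hy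
    linarith
  have hu : TendstoLocallyUniformlyOn Wn W atTop (ball z (η / 2)) :=
    Wn_tendsto.tendstoUniformlyOn.tendstoLocallyUniformlyOn
  have hd := hu.differentiableOn (by
    filter_upwards [eventually_ge_atTop N] with n hn y hy
    refine (Wn_differentiableAt n (farN_of_infDist n ?_)).differentiableWithinAt
    have h1 := hV y hy
    have h2 : (3 : ℝ) ^ N ≤ 3 ^ n := pow_le_pow_right₀ (by norm_num) hn
    have h3 : (0 : ℝ) < 3 ^ N := by positivity
    calc 3 / 2 < 3 ^ N * (η / 2) := hN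
      _ ≤ 3 ^ n * infDist y squareCantor := by gcongr) isOpen_ball
  exact hd.differentiableAt (isOpen_ball.mem_nhds (mem_ball_self (by positivity)))

theorem W_far {z : ℂ} (hz : 1 ≤ dist z ctr) :
    ‖W z - (z - ctr)⁻¹‖ ≤ 540 * (1 / dist z ctr ^ 2) := by
  have e : W z - (z - ctr)⁻¹ = ∑' n, (Wn (n + 1) z - Wn n z) := by
    unfold W
    rw [k0_far (by linarith)]
    ring
  rw [e]
  have hpos : 0 < dist z ctr := by linarith
  have h0 : 1 / (dist z ctr - 71 / 100) ^ 2 ≤ 12 * (1 / dist z ctr ^ 2) := by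
    rw [mul_one_div, div_le_div_iff₀ (by nlinarith) (by positivity)]
    nlinarith
  have h1 : HasSum (fun n : ℕ => (30 * (12 * (1 / dist z ctr ^ 2))) * (1 / 3 : ℝ) ^ n)
      ((30 * (12 * (1 / dist z ctr ^ 2))) * (1 - 1 / 3)⁻¹) :=
    (hasSum_geometric_of_lt_one (by norm_num) (by norm_num)).mul_left _
  refine (tsum_of_norm_bounded h1 fun n => ?_).trans (le_of_eq ?_)
  · refine (Wn_diff n z).trans ?_
    have h2 := Sg_far n (z := z) (by linarith)
    have h3 : (0 : ℝ) < (3 / 4) ^ n := by positivity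
    have h4 : (0 : ℝ) < (4 / 9) ^ n := by positivity
    have e3 : (1 / 3 : ℝ) ^ n = (3 / 4) ^ n * (4 / 9) ^ n := by
      rw [← mul_pow]; norm_num
    calc 30 * (3 / 4) ^ n * Sg n z
        ≤ 30 * (3 / 4) ^ n * ((4 / 9) ^ n * (1 / (dist z ctr - 71 / 100) ^ 2)) := by gcongr
      _ ≤ 30 * (3 / 4) ^ n * ((4 / 9) ^ n * (12 * (1 / dist z ctr ^ 2))) := by gcongr
      _ = 30 * (12 * (1 / dist z ctr ^ 2)) * (1 / 3 : ℝ) ^ n := by rw [e3]; ring
  · norm_num
    ring

end Pool.Corona91698f
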