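import Mathlib
import Pool.Agent.Corona91698f.Capacity

/-!
# Splitting of a function on an annulus into an inner part and a quickly decreasing outer part
-/

open Complex Metric Set Filter Topology
open scoped Real

set_option autoImplicit false

namespace Pool.Corona91698f

/-- Laurent splitting with pointwise bounds. -/
theorem laurent_full {c : ℂ} {r₁ ra rb r₂ : ℝ} (h0 : 0 < ra) (h1 : r₁ < ra) (h2 : ra < rb)
    (h5 : rb < r₂) {w : ℂ → ℂ}
    (hw : DifferentiableOn ℂ w {z | r₁ < dist z c ∧ dist z c < r₂}) :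
    ∃ wp wm : ℂ → ℂ, DifferentiableOn ℂ wp (ball c rb) ∧
      DifferentiableOn ℂ wm {z | ra < dist z c} ∧
      (∀ z, ra < dist z c → dist z c < rb → w z = wp z + wm z) ∧
      (∃ M : ℝ, ∀ z, ra < dist z c → ‖wm z‖ ≤ ra / (dist z c - ra) * M) ∧
      ∀ M : ℝ, (∀ z, r₁ < dist z c → dist z c < r₂ → ‖w z‖ ≤ M) →
        (∀ z, dist z c < rb → ‖wp z‖ ≤ rb / (rb - dist z c) * M) ∧
        (∀ z, ra < dist z c → ‖wm z‖ ≤ ra / (dist z c - ra) * M) := by
  have hUo : IsOpen {z : ℂ | r₁ < dist z c ∧ dist z c < r₂} :=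
    (isOpen_lt continuous_const (continuous_id.dist continuous_const)).inter
      (isOpen_lt (continuous_id.dist continuous_const) continuous_const)
  have hrb : 0 < rb := h0.trans h2
  have hwb : ContinuousOn w (sphere c rb) := fun x hx =>
    (hw.differentiableAt (hUo.mem_nhds (by
      rw [mem_sphere] at hx
      exact ⟨by rw [hx]; exact h1.trans h2, by rw [hx]; exact h5⟩))).continuousAt.continuousWithinAt
  have hwa : ContinuousOn w (sphere c ra) := fun x hx =>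
    (hw.differentiableAt (hUo.mem_nhds (by
      rw [mem_sphere] at hx
      exact ⟨by rw [hx]; exact h1, by rw [hx]; exact h2.trans h5⟩))).continuousAt.continuousWithinAt
  have hwm : ∀ M : ℝ, (∀ ζ ∈ sphere c ra, ‖w ζ‖ ≤ M) → ∀ z, ra < dist z c →
      ‖-((2 * π * I : ℂ)⁻¹ • ∮ ζ in C(c, ra), (ζ - z)⁻¹ • w ζ)‖ ≤ ra / (dist z c - ra) * M := by
    intro M hMa z hz
    rw [norm_neg]
    have := circleIntegral.norm_two_pi_i_inv_smul_integral_le_of_norm_le_const (c := c)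
      (f := fun ζ => (ζ - z)⁻¹ • w ζ) (R := ra) (C := (dist z c - ra)⁻¹ * M) h0.le (by
        intro ζ hζ
        rw [norm_smul, norm_inv]
        have h6 : dist z c - ra ≤ ‖ζ - z‖ := by
          rw [mem_sphere] at hζ
          have : dist z c ≤ dist z ζ + dist ζ c := dist_triangle _ _ _
          rw [← dist_eq_norm, dist_comm ζ z]
          linarith
        have h7 : (‖ζ - z‖)⁻¹ ≤ (dist z c - ra)⁻¹ := inv_anti₀ (by linarith) h6
        exact mul_le_mul h7 (hMa ζ hζ) (norm_nonneg _) (by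
          have : 0 < dist z c - ra := by linarith
          positivity))
    calc _ ≤ ra * ((dist z c - ra)⁻¹ * M) := this
      _ = ra / (dist z c - ra) * M := by ring
  refine ⟨fun z => (2 * π * I : ℂ)⁻¹ • ∮ ζ in C(c, rb), (ζ - z)⁻¹ • w ζ,
    fun z => -((2 * π * I : ℂ)⁻¹ • ∮ ζ in C(c, ra), (ζ - z)⁻¹ • w ζ), ?_, ?_, ?_, ?_, ?_⟩
  · intro z hz
    refine DifferentiableAt.differentiableWithinAt ?_
    have hzs : z ∉ sphere c rb := by
      rw [mem_sphere]
      exact (mem_ball.1 hz).ne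
    exact (differentiableAt_cauchyInt hrb hwb hzs).const_smul ((2 * π * I : ℂ)⁻¹)
  · intro z hz
    refine DifferentiableAt.differentiableWithinAt ?_
    have hzs : z ∉ sphere c ra := by
      rw [mem_sphere]
      exact (show ra < dist z c from hz).ne'
    exact ((differentiableAt_cauchyInt h0 hwa hzs).const_smul ((2 * π * I : ℂ)⁻¹)).neg
  · intro z hz1 hz2
    have := cauchy_annulus h0 h1 h5 hw hz1 hz2
    have h2pi : (2 * π * I : ℂ) ≠ 0 := by
      simp [Real.pi_ne_zero]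
    have h6 : w z = (2 * π * I : ℂ)⁻¹ • ((∮ ζ in C(c, rb), (ζ - z)⁻¹ • w ζ)
        - (∮ ζ in C(c, ra), (ζ - z)⁻¹ • w ζ)) := by
      rw [this, smul_smul, inv_mul_cancel₀ h2pi, one_smul]
    rw [h6, smul_sub]
    rfl
  · obtain ⟨M, hM⟩ : ∃ M, ∀ ζ ∈ sphere c ra, ‖w ζ‖ ≤ M :=
      (isCompact_sphere c ra).exists_bound_of_continuousOn hwa
    exact ⟨M, hwm M hM⟩
  · intro M hM
    have hMb : ∀ ζ ∈ sphere c rb, ‖w ζ‖ ≤ M := fun ζ hζ => by
      rw [mem_sphere] at hζ
      exact hM ζ (by rw [hζ]; exact h1.trans h2) (by rw [hζ]; exact h5)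
    have hMa : ∀ ζ ∈ sphere c ra, ‖w ζ‖ ≤ M := fun ζ hζ => by
      rw [mem_sphere] at hζ
      exact hM ζ (by rw [hζ]; exact h1) (by rw [hζ]; exact h2.trans h5)
    refine ⟨?_, hwm M hMa⟩
    intro z hz
    have := circleIntegral.norm_two_pi_i_inv_smul_integral_le_of_norm_le_const (c := c)
      (f := fun ζ => (ζ - z)⁻¹ • w ζ) (R := rb) (C := (rb - dist z c)⁻¹ * M) hrb.le (by
        intro ζ hζ
        rw [norm_smul, norm_inv]
        have h6 : rb - dist z c ≤ ‖ζ - z‖ := by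
          rw [mem_sphere] at hζ
          have : dist ζ c ≤ dist ζ z + dist z c := dist_triangle _ _ _
          rw [← dist_eq_norm]
          linarith
        have h7 : (‖ζ - z‖)⁻¹ ≤ (rb - dist z c)⁻¹ := inv_anti₀ (by linarith) h6
        exact mul_le_mul h7 (hMb ζ hζ) (norm_nonneg _) (by
          have : 0 < rb - dist z c := by linarith
          positivity))
    calc _ ≤ rb * ((rb - dist z c)⁻¹ * M) := this
      _ = rb / (rb - dist z c) * M := by ring

/-- Second order Schwarz lemma. -/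
theorem schwarz2 {ρ : ℝ} (hρ : 0 < ρ) {Φ : ℂ → ℂ} (hΦ : DifferentiableOn ℂ Φ (ball 0 ρ))
    (hb : ∀ u ∈ ball (0 : ℂ) ρ, ‖Φ u‖ ≤ 1) (h0 : Φ 0 = 0) :
    ∃ a : ℂ, ‖a‖ ≤ 1 / ρ ∧ ∀ u ∈ ball (0 : ℂ) ρ, ‖Φ u - a * u‖ ≤ 2 / ρ ^ 2 * ‖u‖ ^ 2 := by
  have h0mem : (0 : ℂ) ∈ ball (0 : ℂ) ρ := mem_ball_self hρ
  have hmaps : MapsTo Φ (ball 0 ρ) (closedBall (Φ 0) 1) := by
    intro u hu
    rw [h0, mem_closedBall_zero_iff]
    exact hb u hu
  set Ψ : ℂ → ℂ := dslope Φ 0 with hΨ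
  have hΨd : DifferentiableOn ℂ Ψ (ball 0 ρ) :=
    (differentiableOn_dslope (isOpen_ball.mem_nhds h0mem)).2 hΦ
  have hΨb : ∀ u ∈ ball (0 : ℂ) ρ, ‖Ψ u‖ ≤ 1 / ρ := by
    intro u hu
    exact Complex.norm_dslope_le_div_of_mapsTo_ball hΦ hmaps hu
  refine ⟨Ψ 0, hΨb 0 h0mem, fun u hu => ?_⟩
  have hmaps2 : MapsTo Ψ (ball 0 ρ) (closedBall (Ψ 0) (2 / ρ)) := by
    intro v hv
    rw [mem_closedBall, dist_eq_norm]
    have h1 := hΨb v hv
    have h2 := hΨb 0 h0mem
    have h3 := norm_sub_le (Ψ v) (Ψ 0)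
    have h4 : 2 / ρ = 1 / ρ + 1 / ρ := by ring
    linarith
  have h3 := Complex.dist_le_div_mul_dist_of_mapsTo_ball hΨd hmaps2 hu
  rw [dist_eq_norm, dist_zero_right] at h3
  have h4 : Φ u = u * Ψ u := by
    have := sub_smul_dslope Φ 0 u
    rw [h0, sub_zero, sub_zero, smul_eq_mul] at this
    exact this.symm
  have h5 : Φ u - Ψ 0 * u = u * (Ψ u - Ψ 0) := by rw [h4]; ring
  rw [h5, norm_mul]
  calc ‖u‖ * ‖Ψ u - Ψ 0‖ ≤ ‖u‖ * (2 / ρ / ρ * ‖u‖) := by gcongr
    _ = 2 / ρ ^ 2 * ‖u‖ ^ 2 := by field_simp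

/-- Expansion at infinity. -/
theorem tail {c : ℂ} {ρ : ℝ} (hρ : 0 < ρ) {F : ℂ → ℂ} {B : ℝ} (hB : 0 < B)
    (hF : DifferentiableOn ℂ F {z | ρ < dist z c}) (hb : ∀ z, ρ < dist z c → ‖F z‖ ≤ B)
    (hlim : Tendsto F (cocompact ℂ) (𝓝 0)) :
    ∃ a : ℂ, ‖a‖ ≤ ρ * B ∧
      ∀ z, ρ < dist z c → ‖F z - a * (z - c)⁻¹‖ ≤ 2 * ρ ^ 2 * B * (1 / dist z c ^ 2) := by
  have hBc : (B : ℂ) ≠ 0 := by exact_mod_cast hB.ne'
  obtain ⟨Φ, hΦ, hΦb, hΦf⟩ := exterior_ext (c := c) (ρ := ρ) (f := fun z => F z / (B : ℂ)) hρ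
    (hF.div_const _) (fun z hz => by
      rw [norm_div, Complex.norm_real, Real.norm_eq_abs, abs_of_pos hB, div_le_one hB]
      exact hb z hz)
  have hρi : 0 < ρ⁻¹ := inv_pos.2 hρ
  have h0 : Φ 0 = 0 := by
    have h0mem : (0 : ℂ) ∈ ball (0 : ℂ) ρ⁻¹ := mem_ball_self hρi
    have hc : ContinuousAt Φ 0 := (hΦ.differentiableAt (isOpen_ball.mem_nhds h0mem)).continuousAt
    have ht : Tendsto Φ (𝓝[≠] 0) (𝓝 (Φ 0)) := hc.mono_left nhdsWithin_le_nhds
    have hinv : Tendsto (fun u : ℂ => c + u⁻¹) (𝓝[≠] 0) (cocompact ℂ) := by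
      have h1 : Tendsto (fun u : ℂ => u⁻¹) (𝓝[≠] 0) (cocompact ℂ) := by
        rw [← Metric.cobounded_eq_cocompact]
        exact Filter.tendsto_inv₀_nhdsNE_zero
      exact (Homeomorph.addLeft c).isClosedEmbedding.tendsto_cocompact.comp h1
    have h2 : Tendsto (fun u : ℂ => F (c + u⁻¹) / (B : ℂ)) (𝓝[≠] 0) (𝓝 (0 / (B : ℂ))) :=
      (hlim.comp hinv).div_const _
    rw [zero_div] at h2
    refine tendsto_nhds_unique ht (h2.congr' ?_)
    have hev : ∀ᶠ u in 𝓝[≠] (0 : ℂ), u ∈ ball (0 : ℂ) ρ⁻¹ ∧ u ≠ 0 := by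
      refine Eventually.and ?_ self_mem_nhdsWithin
      exact mem_nhdsWithin_of_mem_nhds (isOpen_ball.mem_nhds h0mem)
    filter_upwards [hev] with u hu
    have hu1 := mem_ball_zero_iff.1 hu.1
    have hpos : 0 < ‖u‖ := norm_pos_iff.2 hu.2
    have hz : ρ < dist (c + u⁻¹) c := by
      rw [dist_eq_norm, add_sub_cancel_left, norm_inv, lt_inv_comm₀ hρ hpos]
      exact hu1
    have := hΦf _ hz
    rw [add_sub_cancel_left, inv_inv] at this
    exact this.symm
  obtain ⟨a, ha, haΦ⟩ := schwarz2 hρi hΦ hΦb h0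
  refine ⟨B * a, ?_, fun z hz => ?_⟩
  · rw [norm_mul, Complex.norm_real, Real.norm_eq_abs, abs_of_pos hB]
    rw [one_div, inv_inv] at ha
    nlinarith
  · have hmem : (z - c)⁻¹ ∈ ball (0 : ℂ) ρ⁻¹ := by
      rw [mem_ball_zero_iff, norm_inv, ← dist_eq_norm]
      exact inv_strictAnti₀ hρ hz
    have h1 := haΦ _ hmem
    have h2 := hΦf z hz
    have h3 : F z - B * a * (z - c)⁻¹ = B * (Φ ((z - c)⁻¹) - a * (z - c)⁻¹) := by
      rw [h2]
      field_simp
    rw [h3, norm_mul, Complex.norm_real, Real.norm_eq_abs, abs_of_pos hB]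
    rw [norm_inv, ← dist_eq_norm z c] at h1
    calc B * ‖Φ ((z - c)⁻¹) - a * (z - c)⁻¹‖ ≤ B * (2 / ρ⁻¹ ^ 2 * (dist z c)⁻¹ ^ 2) := by gcongr
      _ = 2 * ρ ^ 2 * B * (1 / dist z c ^ 2) := by
        rw [inv_pow, inv_pow]
        field_simp

/-- **Splitting of a cocycle on the standard annulus.** -/
theorem split_node {w : ℂ → ℂ} {M : ℝ} (hM0 : 0 < M)
    (hw : DifferentiableOn ℂ w {z | (74 / 100 : ℝ) < dist z ctr ∧ dist z ctr < 80 / 100})
    (hM : ∀ z, (74 / 100 : ℝ) < dist z ctr → dist z ctr < 80 / 100 → ‖w z‖ ≤ M) :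
    ∃ win wout : ℂ → ℂ,
      DifferentiableOn ℂ win (ball ctr (79 / 100) ∩ squareCantorᶜ) ∧
      DifferentiableOn ℂ wout {z | (75 / 100 : ℝ) < dist z ctr} ∧
      (∀ z, (75 / 100 : ℝ) < dist z ctr → dist z ctr < 79 / 100 → w z = win z - wout z) ∧
      (∀ z, dist z ctr < 78 / 100 → ‖win z‖ ≤ 2000000 * M * th z) ∧
      (∀ z, (76 / 100 : ℝ) < dist z ctr → ‖wout z‖ ≤ 2000000 * M * th z) ∧
      ContinuousOn win (ball ctr (79 / 100)) := by
  obtain ⟨wp, wm, hwp, hwm, he, -, hbd⟩ := laurent_full (c := ctr) (r₁ := 74 / 100)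
    (ra := 75 / 100) (rb := 79 / 100) (r₂ := 80 / 100) (by norm_num) (by norm_num) (by norm_num)
    (by norm_num) hw
  obtain ⟨hbp, hbm⟩ := hbd M hM
  have hsub : {z : ℂ | (755 / 1000 : ℝ) < dist z ctr} ⊆ {z : ℂ | (75 / 100 : ℝ) < dist z ctr} :=
    fun z hz => lt_trans (by norm_num) (show (755 / 1000 : ℝ) < dist z ctr from hz)
  have hbm2 : ∀ z, (755 / 1000 : ℝ) < dist z ctr → ‖wm z‖ ≤ 150 * M := by
    intro z hz
    refine (hbm z (by linarith)).trans ?_
    have h1 : (75 / 100 : ℝ) / (dist z ctr - 75 / 100) ≤ 150 := by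
      rw [div_le_iff₀ (by linarith)]
      linarith
    gcongr
  have hlim : Tendsto wm (cocompact ℂ) (𝓝 0) := by
    rw [tendsto_zero_iff_norm_tendsto_zero]
    have hd : Tendsto (fun z : ℂ => dist z ctr) (cocompact ℂ) atTop := tendsto_dist_left_cocompact_atTop ctr |>.congr (fun z => dist_comm _ _)
    have h1 : Tendsto (fun z : ℂ => (75 / 100 : ℝ) / (dist z ctr - 75 / 100) * M) (cocompact ℂ)
        (𝓝 (0 * M)) := by
      refine Tendsto.mul_const _ ?_
      refine Tendsto.const_div_atTop ?_ _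
      exact tendsto_atTop_add_const_right _ _ hd
    rw [zero_mul] at h1
    refine squeeze_zero' (Eventually.of_forall fun z => norm_nonneg _) ?_ h1
    filter_upwards [hd.eventually (eventually_gt_atTop (75 / 100 : ℝ))] with z hz
    exact hbm z hz
  obtain ⟨a, ha, hat⟩ := tail (c := ctr) (ρ := 755 / 1000) (B := 150 * M) (by norm_num)
    (by positivity) (hwm.mono hsub) hbm2 hlim
  have ha' : ‖a‖ ≤ 114 * M := by nlinarith
  have haW : ∀ z, ‖a * W z‖ ≤ 903108 * M := by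
    intro z
    rw [norm_mul]
    have := W_norm z
    calc ‖a‖ * ‖W z‖ ≤ (114 * M) * 7922 := by gcongr
      _ = 903108 * M := by ring
  have hhalf : ∀ z, dist z ctr < 1 → 1 / 2 ≤ th z := by
    intro z hz
    unfold th
    rw [one_div]
    apply inv_anti₀ (by positivity)
    have := dist_nonneg (x := z) (y := ctr)
    nlinarith
  have hsub2 : {z : ℂ | (75 / 100 : ℝ) < dist z ctr} ⊆ squareCantorᶜ := by
    intro z hz hzE
    have h1 := squareCantor_dist' hzE
    have h2 : (75 / 100 : ℝ) < dist z ctr := hz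
    linarith
  have hWd : DifferentiableOn ℂ W squareCantorᶜ := fun z hz =>
    (W_differentiableAt hz).differentiableWithinAt
  refine ⟨fun z => wp z + a * W z, fun z => -wm z + a * W z, ?_, ?_, ?_, ?_, ?_,
    hwp.continuousOn.add (continuousOn_const.mul W_continuous.continuousOn)⟩
  · exact (hwp.mono inter_subset_left).add ((hWd.mono inter_subset_right).const_mul a)
  · exact hwm.neg.add ((hWd.mono hsub2).const_mul a)
  · intro z h1 h2
    rw [he z h1 h2]
    ring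
  · intro z hz
    have h1 := hbp z (by linarith)
    have h2 : (79 / 100 : ℝ) / (79 / 100 - dist z ctr) * M ≤ 79 * M := by
      have : (79 / 100 : ℝ) / (79 / 100 - dist z ctr) ≤ 79 := by
        rw [div_le_iff₀ (by linarith)]
        linarith
      gcongr
    have h3 := haW z
    have h4 := hhalf z (by linarith)
    have h5 : ‖wp z + a * W z‖ ≤ 79 * M + 903108 * M :=
      (norm_add_le _ _).trans (add_le_add (h1.trans h2) h3)
    nlinarith
  · intro z hz
    rcases lt_or_ge (dist z ctr) 1 with h | h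
    · have h1 := hbm z (by linarith)
      have h2 : (75 / 100 : ℝ) / (dist z ctr - 75 / 100) * M ≤ 75 * M := by
        have : (75 / 100 : ℝ) / (dist z ctr - 75 / 100) ≤ 75 := by
          rw [div_le_iff₀ (by linarith)]
          linarith
        gcongr
      have h3 := haW z
      have h4 := hhalf z h
      have h5 : ‖-wm z + a * W z‖ ≤ 75 * M + 903108 * M := by
        refine (norm_add_le _ _).trans (add_le_add ?_ h3)
        rw [norm_neg]
        exact h1.trans h2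
      nlinarith
    · have h1 := hat z (by linarith)
      have h2 := W_far h
      have h3 := inv_sq_le_th h
      have e : -wm z + a * W z = -(wm z - a * (z - ctr)⁻¹) + a * (W z - (z - ctr)⁻¹) := by ring
      have hq : 0 < 1 / dist z ctr ^ 2 := by positivity
      have h4 : ‖-wm z + a * W z‖ ≤ 2 * (755 / 1000) ^ 2 * (150 * M) * (1 / dist z ctr ^ 2)
          + (114 * M) * (540 * (1 / dist z ctr ^ 2)) := by
        rw [e]
        refine (norm_add_le _ _).trans (add_le_add ?_ ?_)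
        · rw [norm_neg]; exact h1
        · rw [norm_mul]
          gcongr
      have h5 := th_pos z
      have h6 : M * (1 / dist z ctr ^ 2) ≤ M * (2 * th z) := by gcongr
      have h7 : 0 < M * th z := by positivity
      nlinarith

end Pool.Corona91698f
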