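import Mathlib
import Pool.Agent.Corona91698f.Split

/-!
# Uniform corona constants on the standard node (a disc with four holes)
-/

open Complex Metric Set Filter Topology
open scoped BoundedContinuousFunction

set_option autoImplicit false

namespace Pool.Corona91698f

/-- Holomorphic functions of a generator belong to the closed algebra. -/
theorem mem_closure_comp {X : Set ℂ} {c : ℂ} {R₁ R₂ : ℝ} (h0 : 0 ≤ R₂) (h : R₂ < R₁)
    (S : Set (X →ᵇ ℂ)) (s : X →ᵇ ℂ) (hS : s ∈ S) (hs : ∀ x, s x ∈ closedBall c R₂)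
    (φ : X →ᵇ ℂ) (Φ : ℂ → ℂ)
    (hd : DifferentiableOn ℂ Φ (ball c R₁)) (he : ∀ x : X, φ x = Φ (s x)) :
    φ ∈ (Algebra.adjoin ℂ S).topologicalClosure := by
  obtain ⟨R, hR2, hR1⟩ := exists_between h
  obtain ⟨R', hR'2, hR'1⟩ := exists_between hR2
  have hR0 : 0 < R := h0.trans_lt hR2
  have hR'0 : 0 < R' := h0.trans_lt hR'2
  set p := cauchyPowerSeries Φ c R with hp
  let Rn : NNReal := ⟨R, hR0.le⟩
  let Rn' : NNReal := ⟨R', hR'0.le⟩
  have hps : HasFPowerSeriesOnBall Φ p c (Rn : ENNReal) :=
    DifferentiableOn.hasFPowerSeriesOnBall (R := Rn)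
      (hd.mono (closedBall_subset_ball hR1)) hR0
  have htu := hps.tendstoUniformlyOn' (r' := Rn') (by
    rw [ENNReal.coe_lt_coe]
    exact hR'1)
  let q : ℕ → (X →ᵇ ℂ) := fun n =>
    ∑ k ∈ Finset.range n, (p.coeff k) • (s - algebraMap ℂ _ c) ^ k
  have hq : ∀ n, q n ∈ Algebra.adjoin ℂ S := by
    intro n
    refine Subalgebra.sum_mem _ fun k _ => Subalgebra.smul_mem _ (Subalgebra.pow_mem _ ?_ _) _
    exact Subalgebra.sub_mem _ (Algebra.subset_adjoin hS) (Subalgebra.algebraMap_mem _ c)
  have hqe : ∀ n (x : X), q n x = p.partialSum n (s x - c) := by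
    intro n x
    simp only [q, FormalMultilinearSeries.partialSum, BoundedContinuousFunction.coe_sum,
      Finset.sum_apply, BoundedContinuousFunction.coe_smul, BoundedContinuousFunction.coe_pow,
      Pi.pow_apply, smul_eq_mul]
    refine Finset.sum_congr rfl fun k _ => ?_
    rw [FormalMultilinearSeries.apply_eq_pow_smul_coeff, smul_eq_mul, mul_comm]
    rfl
  have hlim : Tendsto q atTop (𝓝 φ) := by
    rw [Metric.tendsto_nhds]
    intro ε hε
    rw [Metric.tendstoUniformlyOn_iff] at htu
    filter_upwards [htu (ε / 2) (by positivity)] with n hn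
    have : dist (q n) φ ≤ ε / 2 := by
      rw [BoundedContinuousFunction.dist_le (by positivity)]
      intro x
      rw [hqe, he, dist_comm]
      refine (hn (s x) ?_).le
      have h1 : dist (s x) c ≤ R₂ := hs x
      exact mem_ball.2 (h1.trans_lt hR'2)
    linarith
  exact mem_closure_of_tendsto hlim (Eventually.of_forall hq)

/-- big open node -/
def nodeU : Set ℂ := {z | dist z ctr < 3 / 2 ∧ ∀ d : D, 72 / 100 < dist (psi d z) ctr}
/-- closed node -/
def nodeX : Set ℂ := {z | dist z ctr ≤ 80 / 100 ∧ ∀ d : D, 74 / 100 ≤ dist (psi d z) ctr}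
/-- open node -/
def nodeV : Set ℂ := {z | dist z ctr < 80 / 100 ∧ ∀ d : D, 74 / 100 < dist (psi d z) ctr}

theorem cont_dist_psi (d : D) : Continuous fun z => dist (psi d z) ctr :=
  (differentiable_psi d).continuous.dist continuous_const

theorem isOpen_nodeU : IsOpen nodeU := by
  refine (isOpen_lt (continuous_id.dist continuous_const) continuous_const).inter ?_
  have : {z : ℂ | ∀ d : D, 72 / 100 < dist (psi d z) ctr}
      = ⋂ d : D, {z : ℂ | 72 / 100 < dist (psi d z) ctr} := by ext; simp
  change IsOpen {z : ℂ | ∀ d : D, 72 / 100 < dist (psi d z) ctr}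
  rw [this]
  exact isOpen_iInter_of_finite fun d => isOpen_lt continuous_const (cont_dist_psi d)

theorem isOpen_nodeV : IsOpen nodeV := by
  refine (isOpen_lt (continuous_id.dist continuous_const) continuous_const).inter ?_
  have : {z : ℂ | ∀ d : D, 74 / 100 < dist (psi d z) ctr}
      = ⋂ d : D, {z : ℂ | 74 / 100 < dist (psi d z) ctr} := by ext; simp
  change IsOpen {z : ℂ | ∀ d : D, 74 / 100 < dist (psi d z) ctr}
  rw [this]
  exact isOpen_iInter_of_finite fun d => isOpen_lt continuous_const (cont_dist_psi d)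

theorem isCompact_nodeX : IsCompact nodeX := by
  have hcl : IsClosed {z : ℂ | ∀ d : D, 74 / 100 ≤ dist (psi d z) ctr} := by
    have : {z : ℂ | ∀ d : D, 74 / 100 ≤ dist (psi d z) ctr}
        = ⋂ d : D, {z : ℂ | 74 / 100 ≤ dist (psi d z) ctr} := by ext; simp
    rw [this]
    exact isClosed_iInter fun d => isClosed_le continuous_const (cont_dist_psi d)
  exact (isCompact_closedBall ctr (80 / 100)).inter_right hcl

theorem nodeX_subset : nodeX ⊆ nodeU := by
  rintro z ⟨h1, h2⟩
  exact ⟨by linarith, fun d => by have := h2 d; linarith⟩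

theorem nodeV_subset : nodeV ⊆ nodeX := by
  rintro z ⟨h1, h2⟩
  exact ⟨h1.le, fun d => (h2 d).le⟩

theorem psi_sub_ctr_ne {d : D} {z : ℂ} (h : 0 < dist (psi d z) ctr) : psi d z - ctr ≠ 0 := by
  intro h0
  rw [dist_eq_norm, h0, norm_zero] at h
  exact lt_irrefl _ h

/-- the generator belonging to the hole of the digit `d` -/
noncomputable def sd (d : D) : nodeX →ᵇ ℂ :=
  haveI : CompactSpace nodeX := isCompact_iff_compactSpace.1 isCompact_nodeX
  BoundedContinuousFunction.mkOfCompact ⟨fun x : nodeX => (psi d x - ctr)⁻¹, by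
    refine Continuous.inv₀ ?_ ?_
    · exact ((differentiable_psi d).continuous.comp continuous_subtype_val).sub continuous_const
    · intro x
      exact psi_sub_ctr_ne (by have := x.2.2 d; linarith)⟩

theorem sd_apply (d : D) (x : nodeX) : sd d x = (psi d x - ctr)⁻¹ := rfl

theorem sd_mem (d : D) (x : nodeX) : sd d x ∈ closedBall (0 : ℂ) (100 / 74) := by
  rw [mem_closedBall_zero_iff, sd_apply, norm_inv, ← dist_eq_norm]
  have h := x.2.2 d
  calc (dist (psi d (x : ℂ)) ctr)⁻¹ ≤ (74 / 100 : ℝ)⁻¹ := inv_anti₀ (by norm_num) h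
    _ = 100 / 74 := by norm_num

/-- the generators -/
noncomputable def gens : Set (nodeX →ᵇ ℂ) := insert (idX isCompact_nodeX) (range sd)

theorem other_far {d d' : D} {y : ℂ} (hdd : d' ≠ d) (hy : dist y ctr < 1) :
    1 < dist (psi d' (phi d y)) ctr := by
  by_contra hlt
  push Not at hlt
  have h1 : dist (psi d (phi d y)) ctr < 1 := by rw [psi_phi]; exact hy
  rw [dist_psi_ctr] at hlt h1
  have h2 := dist_phi_phi hdd
  have h3 := dist_triangle (phi d' ctr) (phi d y) (phi d ctr)
  rw [dist_comm (phi d' ctr) (phi d y)] at h3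
  linarith

theorem node_res (φ : nodeX →ᵇ ℂ) (Φ : ℂ → ℂ) (hΦ : DifferentiableOn ℂ Φ nodeU)
    (he : ∀ x : nodeX, φ x = Φ x) : φ ∈ (Algebra.adjoin ℂ gens).topologicalClosure := by
  classical
  have hmem : ∀ (d : D) (y : ℂ), 72 / 100 < dist y ctr → dist y ctr < 1 → phi d y ∈ nodeU := by
    intro d y h1 h2
    refine ⟨?_, fun d' => ?_⟩
    · have := dist_le_of_psi d (phi d y)
      rw [psi_phi] at this
      linarith
    · by_cases hdd : d' = d
      · rw [hdd, psi_phi]; exact h1
      · have := other_far hdd h2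
        linarith
  have hw : ∀ d : D, DifferentiableOn ℂ (fun y => Φ (phi d y))
      {y | 72 / 100 < dist y ctr ∧ dist y ctr < 1} := by
    intro d y hy
    have h1 : DifferentiableAt ℂ Φ (phi d y) :=
      hΦ.differentiableAt (isOpen_nodeU.mem_nhds (hmem d y hy.1 hy.2))
    exact (DifferentiableAt.comp (g := Φ) (f := phi d) y h1
      (differentiable_phi d y)).differentiableWithinAt
  choose wp wm hwp hwm hwe hwmb _ using fun d => laurent_full (c := ctr) (r₁ := 72 / 100)
    (ra := 73 / 100) (rb := 9 / 10) (r₂ := 1) (by norm_num) (by norm_num) (by norm_num)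
    (by norm_num) (hw d)
  let base : ℂ → ℂ := fun z => Φ z - ∑ d : D, wm d (psi d z)
  let inner : D → ℂ → ℂ := fun d z => wp d (psi d z) - ∑ d' ∈ Finset.univ.erase d, wm d' (psi d' z)
  have claim1 : ∀ (d : D) (z : ℂ), 73 / 100 < dist (psi d z) ctr → dist (psi d z) ctr < 9 / 10 →
      base z = inner d z := by
    intro d z h1 h2
    have e1 := hwe d (psi d z) h1 h2
    rw [phi_psi] at e1
    have e2 := Finset.add_sum_erase Finset.univ (fun d => wm d (psi d z)) (Finset.mem_univ d)
    simp only [base, inner]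
    rw [← e2, e1]
    ring
  let Φ₀ : ℂ → ℂ := fun z =>
    if h : ∃ d : D, dist (psi d z) ctr < 4 / 5 then inner h.choose z else base z
  have claim2 : ∀ (d : D) (z : ℂ), dist (psi d z) ctr < 9 / 10 → Φ₀ z = inner d z := by
    intro d z hz
    by_cases h : ∃ d : D, dist (psi d z) ctr < 4 / 5
    · have h1 := h.choose_spec
      have h2 : h.choose = d := psi_disj (by linarith) (by linarith)
      simp only [Φ₀]
      rw [dif_pos h, h2]
    · simp only [Φ₀]
      rw [dif_neg h]
      push Not at h
      exact claim1 d z (by have := h d; linarith) hz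
  have claim3 : ∀ z : ℂ, (∀ d : D, 73 / 100 < dist (psi d z) ctr) → Φ₀ z = base z := by
    intro z hz
    by_cases h : ∃ d : D, dist (psi d z) ctr < 4 / 5
    · have h1 := h.choose_spec
      simp only [Φ₀]
      rw [dif_pos h]
      exact (claim1 _ z (hz _) (by linarith)).symm
    · simp only [Φ₀]
      rw [dif_neg h]
  have hwmd : ∀ (d : D) (z : ℂ), 73 / 100 < dist (psi d z) ctr →
      DifferentiableAt ℂ (fun z => wm d (psi d z)) z := by
    intro d z hz
    have hop : IsOpen {z : ℂ | (73 / 100 : ℝ) < dist z ctr} :=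
      isOpen_lt continuous_const (continuous_id.dist continuous_const)
    have h1 : DifferentiableAt ℂ (wm d) (psi d z) := (hwm d).differentiableAt (hop.mem_nhds hz)
    exact DifferentiableAt.comp (g := wm d) (f := psi d) z h1 (differentiable_psi d z)
  have hΦ₀ : DifferentiableOn ℂ Φ₀ (ball ctr (3 / 2)) := by
    intro z hz
    refine DifferentiableAt.differentiableWithinAt ?_
    by_cases h : ∃ d : D, dist (psi d z) ctr < 9 / 10
    · obtain ⟨d, hd⟩ := h
      have hop : IsOpen {z : ℂ | dist (psi d z) ctr < 9 / 10} :=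
        isOpen_lt (cont_dist_psi d) continuous_const
      have h1 : DifferentiableAt ℂ (inner d) z := by
        have h2 : DifferentiableAt ℂ (wp d) (psi d z) :=
          (hwp d).differentiableAt (isOpen_ball.mem_nhds (mem_ball.2 hd))
        have h3 : DifferentiableAt ℂ (fun z => wp d (psi d z)) z :=
          DifferentiableAt.comp (g := wp d) (f := psi d) z h2 (differentiable_psi d z)
        have h4 : DifferentiableAt ℂ
            (fun z => ∑ d' ∈ Finset.univ.erase d, wm d' (psi d' z)) z := by
          refine DifferentiableAt.fun_sum fun d' hd' => hwmd d' z ?_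
          have hne := Finset.ne_of_mem_erase hd'
          by_contra hlt
          push Not at hlt
          exact hne (psi_disj (by linarith) (by linarith))
        exact h3.sub h4
      refine h1.congr_of_eventuallyEq ?_
      filter_upwards [hop.mem_nhds hd] with y hy
      exact claim2 d y hy
    · push Not at h
      have hop : IsOpen {z : ℂ | ∀ d : D, 73 / 100 < dist (psi d z) ctr} := by
        have : {z : ℂ | ∀ d : D, 73 / 100 < dist (psi d z) ctr}
            = ⋂ d : D, {z : ℂ | 73 / 100 < dist (psi d z) ctr} := by ext; simp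
        rw [this]
        exact isOpen_iInter_of_finite fun d => isOpen_lt continuous_const (cont_dist_psi d)
      have hzm : z ∈ {z : ℂ | ∀ d : D, 73 / 100 < dist (psi d z) ctr} := fun d => by
        have := h d; linarith
      have hzU : z ∈ nodeU := ⟨mem_ball.1 hz, fun d => by have := h d; linarith⟩
      have h1 : DifferentiableAt ℂ base z :=
        (hΦ.differentiableAt (isOpen_nodeU.mem_nhds hzU)).sub
          (DifferentiableAt.fun_sum fun d _ => hwmd d z (hzm d))
      refine h1.congr_of_eventuallyEq ?_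
      filter_upwards [hop.mem_nhds hzm] with y hy
      exact claim3 y hy
  -- the pieces as elements of the algebra
  have hX : ∀ x : nodeX, (∀ d : D, 73 / 100 < dist (psi d (x : ℂ)) ctr) := fun x d => by
    have := x.2.2 d; linarith
  have : CompactSpace nodeX := isCompact_iff_compactSpace.1 isCompact_nodeX
  have hc0 : Continuous fun x : nodeX => Φ₀ x := by
    refine (hΦ₀.continuousOn.comp_continuous continuous_subtype_val fun x => ?_)
    exact mem_ball.2 (by have := x.2.1; linarith)
  let φ₀ : nodeX →ᵇ ℂ := BoundedContinuousFunction.mkOfCompact ⟨fun x : nodeX => Φ₀ x, hc0⟩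
  have hφ₀ : φ₀ ∈ (Algebra.adjoin ℂ gens).topologicalClosure := by
    refine mem_closure_comp (c := ctr) (R₁ := 3 / 2) (R₂ := 80 / 100) (by norm_num) (by norm_num)
      gens (idX isCompact_nodeX) (mem_insert _ _) (fun x => ?_) φ₀ Φ₀ hΦ₀ (fun x => rfl)
    exact mem_closedBall.2 x.2.1
  have hcd : ∀ d : D, Continuous fun x : nodeX => wm d (psi d x) := by
    intro d
    refine ((hwm d).continuousOn.comp_continuous
      ((differentiable_psi d).continuous.comp continuous_subtype_val) fun x => ?_)
    exact hX x d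
  let φd : D → (nodeX →ᵇ ℂ) := fun d =>
    BoundedContinuousFunction.mkOfCompact ⟨fun x : nodeX => wm d (psi d x), hcd d⟩
  have hφd : ∀ d, φd d ∈ (Algebra.adjoin ℂ gens).topologicalClosure := by
    intro d
    obtain ⟨M, hM⟩ := hwmb d
    set B : ℝ := 1 + 73 / 100 / (735 / 1000 - 73 / 100) * |M| with hB
    have hB0 : 0 < B := by positivity
    have hbd : ∀ z, (735 / 1000 : ℝ) < dist z ctr → ‖wm d z‖ ≤ B := by
      intro z hz
      refine (hM z (by linarith)).trans ?_
      have h1 : (73 / 100 : ℝ) / (dist z ctr - 73 / 100) ≤ 73 / 100 / (735 / 1000 - 73 / 100) := by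
        apply div_le_div_of_nonneg_left (by norm_num) (by norm_num)
        linarith
      have h2 : 0 ≤ (73 / 100 : ℝ) / (dist z ctr - 73 / 100) := by
        have : 0 < dist z ctr - 73 / 100 := by linarith
        positivity
      calc (73 / 100 : ℝ) / (dist z ctr - 73 / 100) * M
          ≤ (73 / 100 : ℝ) / (dist z ctr - 73 / 100) * |M| := by
            gcongr; exact le_abs_self M
        _ ≤ 73 / 100 / (735 / 1000 - 73 / 100) * |M| := by gcongr
        _ ≤ B := by rw [hB]; linarith
    have hBc : (B : ℂ) ≠ 0 := by exact_mod_cast hB0.ne'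
    have hsub : {z : ℂ | (735 / 1000 : ℝ) < dist z ctr} ⊆ {z : ℂ | (73 / 100 : ℝ) < dist z ctr} :=
      fun z hz => lt_trans (by norm_num) (show (735 / 1000 : ℝ) < dist z ctr from hz)
    obtain ⟨Ψ, hΨ, -, hΨe⟩ := exterior_ext (c := ctr) (ρ := 735 / 1000)
      (f := fun z => wm d z / (B : ℂ)) (by norm_num) (((hwm d).mono hsub).div_const _)
      (fun z hz => by
        rw [norm_div, Complex.norm_real, Real.norm_eq_abs, abs_of_pos hB0, div_le_one hB0]
        exact hbd z hz)
    refine mem_closure_comp (c := 0) (R₁ := (735 / 1000)⁻¹) (R₂ := 100 / 74) (by norm_num)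
      (by norm_num) gens (sd d) (mem_insert_of_mem _ (mem_range_self d)) (sd_mem d) (φd d)
      (fun u => B * Ψ u) (hΨ.const_mul _) (fun x => ?_)
    have h1 := hΨe (psi d x) (by have := x.2.2 d; linarith)
    rw [sd_apply, h1]
    change wm d (psi d x) = _
    field_simp
  have hφ : φ = φ₀ + ∑ d : D, φd d := by
    apply BoundedContinuousFunction.ext
    intro x
    rw [BoundedContinuousFunction.add_apply, BoundedContinuousFunction.coe_sum,
      Finset.sum_apply, he]
    change Φ x = Φ₀ x + ∑ d : D, wm d (psi d x)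
    rw [claim3 x (hX x)]
    simp only [base]
    ring
  rw [hφ]
  exact Subalgebra.add_mem _ hφ₀ (Subalgebra.sum_mem _ fun d _ => hφd d)

theorem node_inv {lam : ℂ} (hlam : lam ∉ nodeX) (ψ : nodeX →ᵇ ℂ)
    (hψ : ∀ x : nodeX, ψ x = ((x : ℂ) - lam)⁻¹) :
    ψ ∈ (Algebra.adjoin ℂ gens).topologicalClosure := by
  by_cases h1 : dist lam ctr ≤ 80 / 100
  · have h2 : ∃ d : D, dist (psi d lam) ctr < 74 / 100 := by
      by_contra hcon
      push Not at hcon
      exact hlam ⟨h1, hcon⟩
    obtain ⟨d, hd⟩ := h2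
    set μ : ℂ := psi d lam - ctr with hμ
    have hμn : ‖μ‖ < 74 / 100 := by rwa [hμ, ← dist_eq_norm]
    set R : ℝ := 2 / (‖μ‖ + 74 / 100) with hR
    have hμ0 := norm_nonneg μ
    have hRgt : (100 / 74 : ℝ) < R := by
      rw [hR, lt_div_iff₀ (by positivity)]
      linarith
    have hRμ : ‖μ‖ * R < 1 := by
      rw [hR, mul_div_assoc', div_lt_one (by positivity)]
      linarith
    refine mem_closure_comp (c := 0) (R₁ := R) (R₂ := 100 / 74) (by norm_num) hRgt gens (sd d)
      (mem_insert_of_mem _ (mem_range_self d)) (sd_mem d) ψ (fun u => 3 * u / (1 - μ * u)) ?_ ?_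
    · intro u hu
      refine DifferentiableAt.differentiableWithinAt ?_
      refine (differentiableAt_id.const_mul (3 : ℂ)).div
        ((differentiableAt_id.const_mul μ).const_sub 1) ?_
      intro h0
      have h3 : μ * u = 1 := (sub_eq_zero.1 h0).symm
      have h4 : ‖μ * u‖ = 1 := by rw [h3, norm_one]
      rw [norm_mul] at h4
      rw [mem_ball_zero_iff] at hu
      have h5 : ‖μ‖ * ‖u‖ ≤ ‖μ‖ * R := by gcongr
      linarith
    · intro x
      rw [hψ, sd_apply]
      have hy : psi d x - ctr ≠ 0 := psi_sub_ctr_ne (by have := x.2.2 d; linarith)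
      have hne : psi d x - ctr - μ ≠ 0 := by
        intro h0
        have h3 : psi d x - ctr = μ := sub_eq_zero.1 h0
        have h4 : ‖psi d x - ctr‖ < 74 / 100 := by rw [h3]; exact hμn
        rw [← dist_eq_norm] at h4
        have := x.2.2 d
        linarith
      have e : (x : ℂ) - lam = (psi d x - ctr - μ) / 3 := by
        rw [hμ]
        have := psi_sub d x lam
        linear_combination (-1 / 3 : ℂ) * this
      rw [e]
      field_simp
  · push Not at h1
    refine mem_closure_comp (c := ctr) (R₁ := dist lam ctr) (R₂ := 80 / 100) (by norm_num) h1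
      gens (idX isCompact_nodeX) (mem_insert _ _) (fun x => mem_closedBall.2 x.2.1) ψ
      (fun u => (u - lam)⁻¹) ?_ hψ
    intro u hu
    refine DifferentiableAt.differentiableWithinAt ?_
    refine (differentiableAt_id.sub_const lam).inv ?_
    intro hu0
    have : u = lam := sub_eq_zero.1 hu0
    rw [this, mem_ball] at hu
    exact lt_irrefl _ hu

/-- **Uniform corona constants on the standard node.** -/
theorem node_corona (n : ℕ) (δ : ℝ) (hδ : 0 < δ) :
    ∃ C : ℝ, ∀ Φ : Fin n → ℂ → ℂ, (∀ j, DifferentiableOn ℂ (Φ j) nodeU) →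
      (∀ j, ∀ u ∈ nodeU, ‖Φ j u‖ ≤ 1) → (∀ u ∈ nodeU, ∃ j, δ ≤ ‖Φ j u‖) →
      ∃ h : Fin n → ℂ → ℂ, (∀ j, DifferentiableOn ℂ (h j) nodeV) ∧
        (∀ j, ∀ u ∈ nodeV, ‖h j u‖ ≤ C) ∧
        ∀ u ∈ nodeV, ∑ j, Φ j u * h j u = 1 := by
  refine uniform_corona isOpen_nodeU isCompact_nodeX nodeX_subset nodeV_subset
    (Algebra.adjoin ℂ gens).topologicalClosure
    (Subalgebra.isClosed_topologicalClosure _) node_res ?_ ?_ n δ hδ
  · refine hol_closure isOpen_nodeV nodeV_subset _ ?_
    rintro s (rfl | ⟨d, rfl⟩)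
    · exact ext_idX isCompact_nodeX nodeV_subset
    · have h1 : DifferentiableOn ℂ (fun z => (psi d z - ctr)⁻¹) nodeV := by
        intro z hz
        refine DifferentiableAt.differentiableWithinAt ?_
        refine ((differentiable_psi d z).sub_const ctr).inv ?_
        exact psi_sub_ctr_ne (by have := hz.2 d; linarith)
      refine h1.congr fun u hu => ?_
      rw [ext_of_mem _ (nodeV_subset hu)]
      rfl
  · intro χ
    have hidm : idX isCompact_nodeX ∈ (Algebra.adjoin ℂ gens).topologicalClosure :=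
      (Algebra.adjoin ℂ gens).le_topologicalClosure (Algebra.subset_adjoin (mem_insert _ _))
    have hmem : χ ⟨idX isCompact_nodeX, hidm⟩ ∈ nodeX :=
      char_id_mem isCompact_nodeX _ hidm (fun lam hlam ψ hψ => node_inv hlam ψ hψ) χ
    refine ⟨⟨_, hmem⟩, char_eval _ χ _ ?_⟩
    rintro s (rfl | ⟨d, rfl⟩)
    · rfl
    · set lam : ℂ := χ ⟨idX isCompact_nodeX, hidm⟩ with hlam
      have hsm : sd d ∈ (Algebra.adjoin ℂ gens).topologicalClosure :=
        (Algebra.adjoin ℂ gens).le_topologicalClosure
          (Algebra.subset_adjoin (mem_insert_of_mem _ (mem_range_self d)))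
      have hmul : ((3 : ℂ) • (⟨idX isCompact_nodeX, hidm⟩ :
          (Algebra.adjoin ℂ gens).topologicalClosure)
          - algebraMap ℂ _ (2 * dig d + ctr)) * ⟨sd d, hsm⟩ = 1 := by
        apply Subtype.ext
        apply BoundedContinuousFunction.ext
        intro x
        change ((3 : ℂ) * (x : ℂ) - (2 * dig d + ctr)) * (psi d x - ctr)⁻¹ = 1
        have hy : psi d x - ctr ≠ 0 := psi_sub_ctr_ne (by have := x.2.2 d; linarith)
        have e : (3 : ℂ) * (x : ℂ) - (2 * dig d + ctr) = psi d x - ctr := by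
          unfold psi; ring
        rw [e, mul_inv_cancel₀ hy]
      have h1 := congrArg χ hmul
      rw [map_mul, map_sub, map_one, map_smul, AlgHomClass.commutes, ← hlam] at h1
      have h2 : (psi d lam - ctr) * χ ⟨sd d, hsm⟩ = 1 := by
        rw [← h1]
        simp only [smul_eq_mul, Algebra.algebraMap_self, RingHom.id_apply]
        unfold psi
        ring
      have h3 : χ ⟨sd d, hsm⟩ = (psi d lam - ctr)⁻¹ := eq_inv_of_mul_eq_one_right h2
      exact h3

end Pool.Corona91698f
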