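import Mathlib
import Pool.Agent.Corona91698f.Node

/-!
# The additive Cousin problem on the tree of squares, with logarithmic bounds
-/

open Complex Metric Set Filter Topology

set_option autoImplicit false

namespace Pool.Corona91698f

/-- The nodes covering the complement of the square Cantor set. -/
def Nd : Option (List D) → Set ℂ
  | none => {z | 76 / 100 < dist z ctr}
  | some v => {z | dist (Psi v z) ctr < 78 / 100 ∧ ∀ d : D, 76 / 100 < dist (psi d (Psi v z)) ctr}

/-- the squares containing a node -/
def anc : Option (List D) → List D → Prop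
  | none, _ => False
  | some w, v => v <+: w

/-- the parent of a square -/
def par (v : List D) : Option (List D) := if v = [] then none else some v.dropLast

theorem par_nil : par [] = none := rfl

theorem par_snoc (v : List D) (d : D) : par (v ++ [d]) = some v := by
  unfold par
  rw [if_neg (by simp), List.dropLast_concat]

theorem anc_par (v₀ v : List D) : anc (some v₀) v ↔ anc (par v₀) v ∨ v = v₀ := by
  rcases List.eq_nil_or_concat v₀ with rfl | ⟨u, d, h₀⟩
  · rw [par_nil]
    simp [anc]
  · rw [List.concat_eq_append] at h₀
    subst h₀
    rw [par_snoc]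
    simp only [anc]
    rw [List.prefix_concat_iff]
    exact or_comm

theorem not_anc_par (v₀ : List D) : ¬ anc (par v₀) v₀ := by
  rcases List.eq_nil_or_concat v₀ with rfl | ⟨u, d, h₀⟩
  · rw [par_nil]
    simp [anc]
  · rw [List.concat_eq_append] at h₀
    subst h₀
    rw [par_snoc]
    simp only [anc]
    intro h
    have := h.length_le
    simp at this

theorem Nd_notMem {R : Option (List D)} {z : ℂ} (hz : z ∈ Nd R) : z ∉ squareCantor := by
  intro hE
  cases R with
  | none =>
    have h1 := squareCantor_dist' hE
    have h2 : 76 / 100 < dist z ctr := hz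
    linarith
  | some v =>
    obtain ⟨h1, h2⟩ := hz
    have h3 := Psi_mem_of_near (v := v) hE (by linarith)
    obtain ⟨d, hd⟩ := exists_psi_mem h3
    have h4 := squareCantor_dist' hd
    have h5 := h2 d
    linarith

theorem Nd_anc {R : Option (List D)} {v : List D} {z : ℂ} (hz : z ∈ Nd R) (h : anc R v) :
    dist (Psi v z) ctr < 78 / 100 := by
  cases R with
  | none => exact absurd h (by simp [anc])
  | some w =>
    obtain ⟨u, rfl⟩ : v <+: w := h
    by_cases hu : u = []
    · subst hu
      have h1 := hz.1
      rwa [List.append_nil] at h1
    · have := near_append hu (le_of_lt hz.1)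
      linarith

theorem Nd_not_anc {R : Option (List D)} {v : List D} {z : ℂ} (hz : z ∈ Nd R) (h : ¬ anc R v) :
    76 / 100 < dist (Psi v z) ctr := by
  by_contra hlt
  push Not at hlt
  cases R with
  | none =>
    have h2 : 76 / 100 < dist z ctr := hz
    by_cases hv : v = []
    · subst hv
      simp only [Psi_nil] at hlt
      linarith
    · have := near_prefix hv (z := z) (by linarith)
      linarith
  | some w =>
    obtain ⟨h1, h2⟩ := hz
    rcases chain (v := v) (w := w) (z := z) (by linarith) h1.le with hc | hc
    · exact h hc
    · obtain ⟨u, rfl⟩ := hc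
      cases u with
      | nil =>
        apply h
        simp only [anc, List.append_nil]
        exact List.prefix_refl _
      | cons d u =>
        have h3 := h2 d
        rw [Psi_append, Psi_cons] at hlt
        by_cases hu : u = []
        · subst hu
          simp only [Psi_nil] at hlt
          linarith
        · have := near_prefix hu (z := psi d (Psi w z)) (by linarith)
          linarith

theorem isOpen_Nd (R : Option (List D)) : IsOpen (Nd R) := by
  cases R with
  | none => exact isOpen_lt continuous_const (continuous_id.dist continuous_const)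
  | some v =>
    have hc : Continuous (Psi v) := (differentiable_Psi v).continuous
    refine (isOpen_lt (hc.dist continuous_const) continuous_const).inter ?_
    have : {z : ℂ | ∀ d : D, 76 / 100 < dist (psi d (Psi v z)) ctr}
        = ⋂ d : D, {z : ℂ | 76 / 100 < dist (psi d (Psi v z)) ctr} := by ext; simp
    change IsOpen {z : ℂ | ∀ d : D, 76 / 100 < dist (psi d (Psi v z)) ctr}
    rw [this]
    exact isOpen_iInter_of_finite fun d => isOpen_lt continuous_const ((cont_dist_psi d).comp hc)

theorem Nd_cover {z : ℂ} (hz : z ∉ squareCantor) : ∃ R, z ∈ Nd R := by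
  by_contra hcon
  push Not at hcon
  -- arbitrarily long near words
  have h : ∀ n : ℕ, ∃ v : List D, v.length = n ∧ dist (Psi v z) ctr ≤ 76 / 100 := by
    intro n
    induction n with
    | zero =>
      have := hcon none
      exact ⟨[], rfl, not_lt.1 this⟩
    | succ n ih =>
      obtain ⟨v, hv, hd⟩ := ih
      have h1 := hcon (some v)
      have h2 : ∃ d : D, dist (psi d (Psi v z)) ctr ≤ 76 / 100 := by
        by_contra hno
        push Not at hno
        exact h1 ⟨by linarith, hno⟩
      obtain ⟨d, hd'⟩ := h2
      refine ⟨v ++ [d], by simp [hv], ?_⟩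
      rw [Psi_snoc]
      exact hd'
  obtain ⟨k, hk⟩ := exists_k hz
  obtain ⟨v, hv, hd⟩ := h k
  have := infDist_Psi v z
  rw [hv] at this
  linarith

theorem Nd_overlap {R R' : Option (List D)} {z : ℂ} (hz : z ∈ Nd R) (hz' : z ∈ Nd R') :
    R = R' ∨ (∃ v, R = par v ∧ R' = some v) ∨ (∃ v, R' = par v ∧ R = some v) := by
  -- a general fact for two words
  have key : ∀ (v w : List D), z ∈ Nd (some v) → z ∈ Nd (some w) → v <+: w →
      v = w ∨ some v = par w := by
    rintro v w hv hw ⟨u, rfl⟩
    cases u with
    | nil => left; simp
    | cons d u =>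
      right
      have h1 := hv.2 d
      have h2 := hw.1
      rw [Psi_append, Psi_cons] at h2
      have hu : u = [] := by
        by_contra hu
        have := near_prefix hu (z := psi d (Psi v z)) h2.le
        linarith
      subst hu
      rw [par_snoc]
  have key0 : ∀ w : List D, z ∈ Nd none → z ∈ Nd (some w) → w = [] := by
    intro w h0 hw
    by_contra hne
    have h1 := near_prefix hne (z := z) hw.1.le
    have h2 : 76 / 100 < dist z ctr := h0
    linarith
  cases R with
  | none =>
    cases R' with
    | none => exact Or.inl rfl
    | some w =>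
      have := key0 w hz hz'
      subst this
      exact Or.inr (Or.inl ⟨[], rfl, rfl⟩)
  | some v =>
    cases R' with
    | none =>
      have := key0 v hz' hz
      subst this
      exact Or.inr (Or.inr ⟨[], rfl, rfl⟩)
    | some w =>
      rcases chain hz.1.le hz'.1.le with hc | hc
      · rcases key v w hz hz' hc with h | h
        · exact Or.inl (by rw [h])
        · exact Or.inr (Or.inl ⟨w, h, rfl⟩)
      · rcases key w v hz' hz hc with h | h
        · exact Or.inl (by rw [h])
        · exact Or.inr (Or.inr ⟨v, h, rfl⟩)

/-- **The additive Cousin problem on the tree, with logarithmic bounds.** -/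
theorem cousin (w : List D → ℂ → ℂ) {M : ℝ} (hM0 : 0 < M)
    (hw : ∀ v, DifferentiableOn ℂ (w v)
      {z | (74 / 100 : ℝ) < dist z ctr ∧ dist z ctr < 80 / 100})
    (hM : ∀ v z, (74 / 100 : ℝ) < dist z ctr → dist z ctr < 80 / 100 → ‖w v z‖ ≤ M) :
    ∃ S : Option (List D) → ℂ → ℂ, (∀ R, DifferentiableOn ℂ (S R) (Nd R)) ∧
      (∀ R, ∀ z ∈ Nd R, ∀ k : ℕ, 151 / 100 < 3 ^ k * infDist z squareCantor →
        ‖S R z‖ ≤ 600000000 * M * (k + 1)) ∧
      (∀ v₀, ∀ z ∈ Nd (par v₀), z ∈ Nd (some v₀) →
        S (some v₀) z - S (par v₀) z = w v₀ (Psi v₀ z)) := by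
  classical
  choose win wout hwin hwout hwe hwinb hwoutb _hwinc using fun v => split_node hM0 (hw v) (hM v)
  let term : Option (List D) → List D → ℂ → ℂ := fun R v z =>
    if anc R v then win v (Psi v z) else wout v (Psi v z)
  have hterm : ∀ R v z, z ∈ Nd R → ‖term R v z‖ ≤ 2000000 * M * th (Psi v z) := by
    intro R v z hz
    simp only [term]
    split_ifs with h
    · exact hwinb v _ (Nd_anc hz h)
    · exact hwoutb v _ (Nd_not_anc hz h)
  have hsum : ∀ R z, z ∈ Nd R → Summable fun v => term R v z := by
    intro R z hz
    exact Summable.of_norm_bounded ((summable_th (Nd_notMem hz)).mul_left (2000000 * M))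
      (fun v => hterm R v z hz)
  refine ⟨fun R z => ∑' v, term R v z, ?_, ?_, ?_⟩
  · intro R z₀ hz₀
    have hE := Nd_notMem hz₀
    have hη := infDist_pos' hE
    have hop : IsOpen (Nd R ∩ ball z₀ (infDist z₀ squareCantor / 2)) :=
      (isOpen_Nd R).inter isOpen_ball
    have hz₀V : z₀ ∈ Nd R ∩ ball z₀ (infDist z₀ squareCantor / 2) :=
      ⟨hz₀, mem_ball_self (by positivity)⟩
    have hd : DifferentiableOn ℂ (fun z => ∑' v, term R v z)
        (Nd R ∩ ball z₀ (infDist z₀ squareCantor / 2)) := by
      refine differentiableOn_tsum_of_summable_norm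
        (u := fun v => 2000000 * M * (20 * th (Psi v z₀)))
        (((summable_th hE).mul_left 20).mul_left _) (fun v => ?_) hop ?_
      · intro z hz
        have hzN := hz.1
        refine DifferentiableAt.differentiableWithinAt ?_
        have hPd := differentiable_Psi v z
        by_cases h : anc R v
        · have e : (term R v) = fun z => win v (Psi v z) := by
            funext y
            simp only [term]
            rw [if_pos h]
          rw [e]
          have hop2 : IsOpen (ball ctr (79 / 100) ∩ squareCantorᶜ) :=
            isOpen_ball.inter isClosed_squareCantor.isOpen_compl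
          have hm : Psi v z ∈ ball ctr (79 / 100) ∩ squareCantorᶜ := by
            refine ⟨?_, Psi_notMem (Nd_notMem hzN)⟩
            have := Nd_anc hzN h
            rw [mem_ball]
            linarith
          exact DifferentiableAt.comp (g := win v) (f := Psi v) z
            ((hwin v).differentiableAt (hop2.mem_nhds hm)) hPd
        · have e : (term R v) = fun z => wout v (Psi v z) := by
            funext y
            simp only [term]
            rw [if_neg h]
          rw [e]
          have hop2 : IsOpen {z : ℂ | (75 / 100 : ℝ) < dist z ctr} :=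
            isOpen_lt continuous_const (continuous_id.dist continuous_const)
          have hm : Psi v z ∈ {z : ℂ | (75 / 100 : ℝ) < dist z ctr} := by
            have := Nd_not_anc hzN h
            show (75 / 100 : ℝ) < dist (Psi v z) ctr
            linarith
          exact DifferentiableAt.comp (g := wout v) (f := Psi v) z
            ((hwout v).differentiableAt (hop2.mem_nhds hm)) hPd
      · intro v z hz
        refine (hterm R v z hz.1).trans ?_
        have := th_harnack (z := z) (z₀ := z₀) (le_of_lt hz.2) v
        gcongr
    exact (hd.differentiableAt (hop.mem_nhds hz₀V)).differentiableWithinAt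
  · intro R z hz k hk
    have h1 : HasSum (fun v => 2000000 * M * th (Psi v z)) (2000000 * M * ∑' v, th (Psi v z)) :=
      (summable_th (Nd_notMem hz)).hasSum.mul_left _
    refine (tsum_of_norm_bounded h1 (fun v => hterm R v z hz)).trans ?_
    have h2 := tsum_th_le hk
    calc 2000000 * M * ∑' v, th (Psi v z) ≤ 2000000 * M * (300 * (k + 1)) := by gcongr
      _ = 600000000 * M * (k + 1) := by ring
  · intro v₀ z hz hz'
    have h1 := (hsum (some v₀) z hz').tsum_sub (hsum (par v₀) z hz)
    rw [← h1, tsum_eq_single v₀]
    · simp only [term]
      have ha : anc (some v₀) v₀ := (anc_par v₀ v₀).2 (Or.inr rfl)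
      rw [if_pos ha, if_neg (not_anc_par v₀)]
      have h2 := Nd_anc hz' ha
      have h3 := Nd_not_anc hz (not_anc_par v₀)
      exact (hwe v₀ _ (by linarith) (by linarith)).symm
    · intro v hv
      simp only [term]
      have : anc (some v₀) v ↔ anc (par v₀) v := by
        rw [anc_par]
        exact ⟨fun h => h.resolve_right hv, Or.inl⟩
      by_cases h : anc (par v₀) v
      · rw [if_pos h, if_pos (this.2 h), sub_self]
      · rw [if_neg h, if_neg (fun h' => h (this.1 h')), sub_self]

end Pool.Corona91698f
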