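import Mathlib
import Pool.Agent.Corona91698f.Cousin

/-!
# Corona solutions with logarithmic growth
-/

open Complex Metric Set Filter Topology

set_option autoImplicit false

namespace Pool.Corona91698f

theorem antisymm_sum {n : ℕ} (R : Fin n → Fin n → ℂ) (F : Fin n → ℂ)
    (hR : ∀ i j, R j i = - R i j) : ∑ i, F i * ∑ j, R i j * F j = 0 := by
  have h1 : ∑ i, F i * ∑ j, R i j * F j = ∑ i, ∑ j, F i * R i j * F j := by
    refine Finset.sum_congr rfl fun i _ => ?_
    rw [Finset.mul_sum]
    refine Finset.sum_congr rfl fun j _ => ?_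
    ring
  have h2 : ∑ i, ∑ j, F i * R i j * F j = - ∑ i, ∑ j, F i * R i j * F j := by
    conv_lhs => rw [Finset.sum_comm]
    rw [← Finset.sum_neg_distrib]
    refine Finset.sum_congr rfl fun i _ => ?_
    rw [← Finset.sum_neg_distrib]
    refine Finset.sum_congr rfl fun j _ => ?_
    rw [hR i j]
    ring
  rw [h1]
  have h3 : (2 : ℂ) * ∑ i, ∑ j, F i * R i j * F j = 0 := by
    have := add_eq_zero_iff_eq_neg.2 h2
    rw [two_mul]
    exact this
  exact (mul_eq_zero.1 h3).resolve_left two_ne_zero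

/-- larger nodes -/
def NR : Option (List D) → Set ℂ
  | none => {z | 74 / 100 < dist z ctr}
  | some v => {z | Psi v z ∈ nodeV}

theorem isOpen_NR (R : Option (List D)) : IsOpen (NR R) := by
  cases R with
  | none => exact isOpen_lt continuous_const (continuous_id.dist continuous_const)
  | some v => exact isOpen_nodeV.preimage (differentiable_Psi v).continuous

theorem Nd_subset_NR (R : Option (List D)) : Nd R ⊆ NR R := by
  intro z hz
  cases R with
  | none =>
    have h : 76 / 100 < dist z ctr := hz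
    show 74 / 100 < dist z ctr
    linarith
  | some v =>
    obtain ⟨h1, h2⟩ := hz
    exact ⟨by linarith, fun d => by have := h2 d; linarith⟩

theorem nodeU_notMem {z : ℂ} (hz : z ∈ nodeU) : z ∉ squareCantor := by
  intro hE
  obtain ⟨d, hd⟩ := exists_psi_mem hE
  have h1 := squareCantor_dist' hd
  have h2 := hz.2 d
  linarith

theorem Phi_notMem {v : List D} {z : ℂ} (hz : z ∈ nodeU) : Phi v z ∉ squareCantor :=
  fun h => nodeU_notMem hz (mem_of_Phi_mem hz.1 h)

theorem nodeV_nodeU {z : ℂ} (hz : z ∈ nodeV) : z ∈ nodeU := nodeX_subset (nodeV_subset hz)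

theorem NR_notMem {R : Option (List D)} {z : ℂ} (hz : z ∈ NR R) : z ∉ squareCantor := by
  intro hE
  cases R with
  | none =>
    have h1 := squareCantor_dist' hE
    have h2 : 74 / 100 < dist z ctr := hz
    linarith
  | some v =>
    have h1 : Psi v z ∈ nodeV := hz
    have h2 := Phi_notMem (v := v) (nodeV_nodeU h1)
    rw [Phi_Psi] at h2
    exact h2 hE

theorem annulus_some {v : List D} {y : ℂ} (h1 : 74 / 100 < dist y ctr)
    (h2 : dist y ctr < 80 / 100) : Phi v y ∈ NR (some v) := by
  show Psi v (Phi v y) ∈ nodeV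
  rw [Psi_Phi]
  refine ⟨h2, fun d => ?_⟩
  have := dist_psi_ge d y
  linarith

theorem annulus_par {v : List D} {y : ℂ} (h1 : 74 / 100 < dist y ctr)
    (h2 : dist y ctr < 80 / 100) : Phi v y ∈ NR (par v) := by
  rcases List.eq_nil_or_concat v with rfl | ⟨u, d, h₀⟩
  · rw [par_nil]
    exact h1
  · rw [List.concat_eq_append] at h₀
    subst h₀
    rw [par_snoc]
    show Psi u (Phi (u ++ [d]) y) ∈ nodeV
    rw [Phi_snoc, Psi_Phi]
    refine ⟨?_, fun d' => ?_⟩
    · have := dist_le_of_psi d (phi d y)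
      rw [psi_phi] at this
      linarith
    · by_cases hdd : d' = d
      · rw [hdd, psi_phi]
        exact h1
      · have := other_far hdd (show dist y ctr < 1 by linarith)
        linarith

/-- **Corona solutions of logarithmic growth.** -/
theorem log_corona (n : ℕ) (δ : ℝ) (hδ : 0 < δ) :
    ∃ C : ℝ, 0 < C ∧ ∀ f : Fin n → ℂ → ℂ, (∀ j, DifferentiableOn ℂ (f j) squareCantorᶜ) →
      (∀ j, ∀ z ∈ squareCantorᶜ, ‖f j z‖ ≤ 1) →
      (∀ z ∈ squareCantorᶜ, ∃ j, δ ≤ ‖f j z‖) →
      ∃ G : Fin n → ℂ → ℂ, (∀ j, DifferentiableOn ℂ (G j) squareCantorᶜ) ∧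
        (∀ j, ∀ z ∈ squareCantorᶜ, ∀ k : ℕ, 151 / 100 < 3 ^ k * infDist z squareCantor →
          ‖G j z‖ ≤ C * (k + 1)) ∧
        ∀ z ∈ squareCantorᶜ, ∑ j, f j z * G j z = 1 := by
  classical
  obtain ⟨C1, hC1⟩ := node_corona n δ hδ
  obtain ⟨C2, hC2⟩ := exterior_corona (ρ := 72 / 100) (ρ' := 74 / 100) (by norm_num)
    (by norm_num) n δ hδ
  set B : ℝ := max (max C1 C2) 1 with hB
  have hB1 : 1 ≤ B := le_max_right _ _
  have hBC1 : C1 ≤ B := (le_max_left _ _).trans (le_max_left _ _)
  have hBC2 : C2 ≤ B := (le_max_right _ _).trans (le_max_left _ _)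
  have hB0 : 0 < B := by linarith
  refine ⟨B + n * (600000000 * (2 * B ^ 2)), by positivity, fun f hfd hfb hfl => ?_⟩
  -- local solutions
  have hopE : IsOpen squareCantorᶜ := isClosed_squareCantor.isOpen_compl
  have hloc := fun v : List D => hC1 (fun j z => f j (Phi v z))
    (fun j z hz => by
      have h1 : DifferentiableAt ℂ (f j) (Phi v z) :=
        (hfd j).differentiableAt (hopE.mem_nhds (Phi_notMem hz))
      exact (DifferentiableAt.comp (g := f j) (f := Phi v) z h1
        (differentiable_Phi v z)).differentiableWithinAt)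
    (fun j z hz => hfb j _ (Phi_notMem hz))
    (fun z hz => hfl _ (Phi_notMem hz))
  choose g hgd hgb hgs using hloc
  have hext : {z : ℂ | (72 / 100 : ℝ) < dist z ctr} ⊆ squareCantorᶜ := by
    intro z hz hE
    have h1 := squareCantor_dist' hE
    have h2 : (72 / 100 : ℝ) < dist z ctr := hz
    linarith
  obtain ⟨h, hhd, hhb, hhs⟩ := hC2 ctr f (fun j => (hfd j).mono hext)
    (fun j z hz => hfb j z (hext hz)) (fun z hz => hfl z (hext hz))
  let gR : Option (List D) → Fin n → ℂ → ℂ := fun R =>
    match R with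
    | none => h
    | some v => fun i z => g v i (Psi v z)
  have hgRd : ∀ R i, DifferentiableOn ℂ (gR R i) (NR R) := by
    intro R i
    cases R with
    | none => exact hhd i
    | some v =>
      intro z hz
      have h1 : DifferentiableAt ℂ (g v i) (Psi v z) :=
        (hgd v i).differentiableAt (isOpen_nodeV.mem_nhds hz)
      exact (DifferentiableAt.comp (g := g v i) (f := Psi v) z h1
        (differentiable_Psi v z)).differentiableWithinAt
  have hgRb : ∀ R i, ∀ z ∈ NR R, ‖gR R i z‖ ≤ B := by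
    intro R i z hz
    cases R with
    | none => exact (hhb i z hz).trans hBC2
    | some v => exact (hgb v i _ hz).trans hBC1
  have hgRs : ∀ R, ∀ z ∈ NR R, ∑ j, f j z * gR R j z = 1 := by
    intro R z hz
    cases R with
    | none => exact hhs z hz
    | some v =>
      have := hgs v _ hz
      simp only [Phi_Psi] at this
      exact this
  -- the cocycle
  let w : Fin n → Fin n → List D → ℂ → ℂ := fun i j v y =>
    gR (some v) i (Phi v y) * gR (par v) j (Phi v y)
      - gR (some v) j (Phi v y) * gR (par v) i (Phi v y)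
  have hcomp : ∀ R i (v : List D) y, Phi v y ∈ NR R →
      DifferentiableAt ℂ (fun y => gR R i (Phi v y)) y := by
    intro R i v y hy
    exact DifferentiableAt.comp (g := gR R i) (f := Phi v) y
      ((hgRd R i).differentiableAt ((isOpen_NR R).mem_nhds hy)) (differentiable_Phi v y)
  have hwd : ∀ i j v, DifferentiableOn ℂ (w i j v)
      {z | (74 / 100 : ℝ) < dist z ctr ∧ dist z ctr < 80 / 100} := by
    rintro i j v y ⟨h1, h2⟩
    have a1 := annulus_some (v := v) h1 h2
    have a2 := annulus_par (v := v) h1 h2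
    exact (((hcomp _ i v y a1).mul (hcomp _ j v y a2)).sub
      ((hcomp _ j v y a1).mul (hcomp _ i v y a2))).differentiableWithinAt
  have hwb : ∀ i j v z, (74 / 100 : ℝ) < dist z ctr → dist z ctr < 80 / 100 →
      ‖w i j v z‖ ≤ 2 * B ^ 2 := by
    intro i j v y h1 h2
    have a1 := annulus_some (v := v) h1 h2
    have a2 := annulus_par (v := v) h1 h2
    have b1 : ‖gR (some v) i (Phi v y) * gR (par v) j (Phi v y)‖ ≤ B * B := by
      rw [norm_mul]
      exact mul_le_mul (hgRb _ _ _ a1) (hgRb _ _ _ a2) (norm_nonneg _) hB0.le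
    have b2 : ‖gR (some v) j (Phi v y) * gR (par v) i (Phi v y)‖ ≤ B * B := by
      rw [norm_mul]
      exact mul_le_mul (hgRb _ _ _ a1) (hgRb _ _ _ a2) (norm_nonneg _) hB0.le
    refine (norm_sub_le _ _).trans ?_
    nlinarith
  choose S hSd hSb hSj using fun i j => cousin (w i j) (M := 2 * B ^ 2) (by positivity)
    (hwd i j) (hwb i j)
  let T : Fin n → Fin n → Option (List D) → ℂ → ℂ := fun i j R z => (S i j R z - S j i R z) / 2
  have hTanti : ∀ R z i j, T j i R z = - T i j R z := by
    intro R z i j; simp only [T]; ring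
  have hTd : ∀ i j R, DifferentiableOn ℂ (T i j R) (Nd R) := fun i j R =>
    ((hSd i j R).sub (hSd j i R)).div_const 2
  have hTb : ∀ i j R, ∀ z ∈ Nd R, ∀ k : ℕ, 151 / 100 < 3 ^ k * infDist z squareCantor →
      ‖T i j R z‖ ≤ 600000000 * (2 * B ^ 2) * (k + 1) := by
    intro i j R z hz k hk
    have a1 := hSb i j R z hz k hk
    have a2 := hSb j i R z hz k hk
    simp only [T]
    rw [norm_div, Complex.norm_two, div_le_iff₀ (by norm_num)]
    have := norm_sub_le (S i j R z) (S j i R z)
    linarith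
  have hTj : ∀ i j v₀, ∀ z ∈ Nd (par v₀), z ∈ Nd (some v₀) →
      T i j (some v₀) z - T i j (par v₀) z =
        gR (some v₀) i z * gR (par v₀) j z - gR (some v₀) j z * gR (par v₀) i z := by
    intro i j v₀ z hz hz'
    have e1 := hSj i j v₀ z hz hz'
    have e2 := hSj j i v₀ z hz hz'
    simp only [w, Phi_Psi] at e1 e2
    simp only [T]
    linear_combination e1 / 2 - e2 / 2
  let G : Option (List D) → Fin n → ℂ → ℂ := fun R i z => gR R i z - ∑ j, T i j R z * f j z
  have hGd : ∀ R i, DifferentiableOn ℂ (G R i) (Nd R) := by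
    intro R i
    have h1 : DifferentiableOn ℂ (fun z => ∑ j, T i j R z * f j z) (Nd R) := by
      refine DifferentiableOn.fun_sum fun j _ => ?_
      exact (hTd i j R).mul ((hfd j).mono fun z hz => Nd_notMem hz)
    exact ((hgRd R i).mono (Nd_subset_NR R)).sub h1
  have hGpar : ∀ v₀ i, ∀ z ∈ Nd (par v₀), z ∈ Nd (some v₀) → G (some v₀) i z = G (par v₀) i z := by
    intro v₀ i z hz hz'
    have s1 := hgRs (par v₀) z (Nd_subset_NR _ hz)
    have s2 := hgRs (some v₀) z (Nd_subset_NR _ hz')
    have e1 : ∑ j, T i j (some v₀) z * f j z - ∑ j, T i j (par v₀) z * f j z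
        = gR (some v₀) i z * ∑ j, f j z * gR (par v₀) j z
          - gR (par v₀) i z * ∑ j, f j z * gR (some v₀) j z := by
      rw [← Finset.sum_sub_distrib, Finset.mul_sum, Finset.mul_sum, ← Finset.sum_sub_distrib]
      refine Finset.sum_congr rfl fun j _ => ?_
      have := hTj i j v₀ z hz hz'
      linear_combination (f j z) * this
    rw [s1, s2] at e1
    simp only [G]
    linear_combination -e1
  have hGeq : ∀ R R' i z, z ∈ Nd R → z ∈ Nd R' → G R i z = G R' i z := by
    intro R R' i z hz hz'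
    rcases Nd_overlap hz hz' with rfl | ⟨v, rfl, rfl⟩ | ⟨v, rfl, rfl⟩
    · rfl
    · exact (hGpar v i z hz hz').symm
    · exact hGpar v i z hz' hz
  let F : Fin n → ℂ → ℂ := fun i z =>
    if hz : z ∉ squareCantor then G (Nd_cover hz).choose i z else 0
  have hFG : ∀ R i z, z ∈ Nd R → F i z = G R i z := by
    intro R i z hz
    have hE := Nd_notMem hz
    simp only [F]
    rw [dif_pos hE]
    exact hGeq _ _ i z (Nd_cover hE).choose_spec hz
  refine ⟨F, ?_, ?_, ?_⟩
  · intro i z hz
    obtain ⟨R, hR⟩ := Nd_cover hz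
    have h1 := (hGd R i).differentiableAt ((isOpen_Nd R).mem_nhds hR)
    refine (h1.congr_of_eventuallyEq ?_).differentiableWithinAt
    filter_upwards [(isOpen_Nd R).mem_nhds hR] with y hy
    exact hFG R i y hy
  · intro i z hz k hk
    obtain ⟨R, hR⟩ := Nd_cover hz
    rw [hFG R i z hR]
    have a1 := hgRb R i z (Nd_subset_NR R hR)
    have a2 : ‖∑ j, T i j R z * f j z‖ ≤ n * (600000000 * (2 * B ^ 2) * (k + 1)) := by
      calc ‖∑ j, T i j R z * f j z‖ ≤ ∑ j : Fin n, ‖T i j R z * f j z‖ := norm_sum_le _ _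
        _ ≤ ∑ _j : Fin n, 600000000 * (2 * B ^ 2) * ((k : ℝ) + 1) := by
            refine Finset.sum_le_sum fun j _ => ?_
            rw [norm_mul]
            calc ‖T i j R z‖ * ‖f j z‖ ≤ (600000000 * (2 * B ^ 2) * (k + 1)) * 1 :=
                  mul_le_mul (hTb i j R z hR k hk) (hfb j z hz) (norm_nonneg _)
                    (by positivity)
              _ = _ := mul_one _
        _ = n * (600000000 * (2 * B ^ 2) * (k + 1)) := by simp
    have hk0 : (0 : ℝ) ≤ k := Nat.cast_nonneg k
    calc ‖G R i z‖ ≤ ‖gR R i z‖ + ‖∑ j, T i j R z * f j z‖ := norm_sub_le _ _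
      _ ≤ B + n * (600000000 * (2 * B ^ 2) * (k + 1)) := by linarith
      _ ≤ (B + n * (600000000 * (2 * B ^ 2))) * (k + 1) := by nlinarith
  · intro z hz
    obtain ⟨R, hR⟩ := Nd_cover hz
    have e0 : ∑ i, f i z * F i z = ∑ i, f i z * gR R i z
        - ∑ i, f i z * ∑ j, T i j R z * f j z := by
      rw [← Finset.sum_sub_distrib]
      refine Finset.sum_congr rfl fun i _ => ?_
      rw [hFG R i z hR]
      simp only [G]
      ring
    rw [e0, hgRs R z (Nd_subset_NR R hR),
      antisymm_sum (fun i j => T i j R z) (fun i => f i z) (fun i j => hTanti R z i j), sub_zero]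

end Pool.Corona91698f
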