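import Mathlib
import Pool.Agent.Corona91698f.LogCorona

/-!
# Porous families of squares: shared definitions
-/

open Complex Metric Set Filter Topology

set_option autoImplicit false

namespace Pool.Corona91698f

/-- The Cauchy transform of the part of the natural measure in the square of the word `x`,
normalised to mass one; it is bounded, and holomorphic off the points `z` with
`Psi x z ∈ squareCantor`. -/
noncomputable def Wx (x : List D) (z : ℂ) : ℂ := 3 ^ x.length * W (Psi x z)

theorem Wx_norm (x : List D) (z : ℂ) : ‖Wx x z‖ ≤ 3 ^ x.length * 7922 := by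
  unfold Wx
  rw [norm_mul, norm_pow]
  have e : ‖(3 : ℂ)‖ = 3 := by norm_num
  rw [e]
  gcongr
  exact W_norm _

theorem Wx_differentiableAt {x : List D} {z : ℂ} (hz : Psi x z ∉ squareCantor) :
    DifferentiableAt ℂ (Wx x) z := by
  have h1 : DifferentiableAt ℂ (fun z => W (Psi x z)) z :=
    DifferentiableAt.comp (g := W) (f := Psi x) z (W_differentiableAt hz) (differentiable_Psi x z)
  exact h1.const_mul _

/-- the open disc about the square of the word `v` -/
def Dv (v : List D) : Set ℂ := {z | dist (Psi v z) ctr < 80 / 100}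

/-- the corona problem `f` has a solution bounded by `B` near the square of the word `v` -/
def LocSol {n : ℕ} (f : Fin n → ℂ → ℂ) (B : ℝ) (v : List D) : Prop :=
  ∃ g : Fin n → ℂ → ℂ, (∀ j, DifferentiableOn ℂ (g j) (Dv v ∩ squareCantorᶜ)) ∧
    (∀ j, ∀ z ∈ Dv v ∩ squareCantorᶜ, ‖g j z‖ ≤ B) ∧
    ∀ z ∈ Dv v ∩ squareCantorᶜ, ∑ j, f j z * g j z = 1

end Pool.Corona91698f
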