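import Mathlib
import Pool.Agent.Corona91698f.PorDefs

/-!
# Level sums for prefix closed families of squares
-/

open Complex Metric Set Filter Topology

set_option autoImplicit false

namespace Pool.Corona91698f

/-- words of length `n` -/
noncomputable def lv : ℕ → Finset (List D)
  | 0 => {[]}
  | (n + 1) => (Finset.univ ×ˢ lv n).image fun x : D × List D => x.1 :: x.2

theorem mem_lv {n : ℕ} {v : List D} : v ∈ lv n ↔ v.length = n := by
  induction n generalizing v with
  | zero => simp [lv, List.length_eq_zero_iff]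
  | succ n ih =>
    cases v with
    | nil => simp [lv]
    | cons d v =>
      simp only [lv, Finset.mem_image, Finset.mem_product, Finset.mem_univ, true_and,
        List.length_cons, Nat.add_right_cancel_iff]
      constructor
      · rintro ⟨⟨d', v'⟩, h1, h2⟩
        have h3 := (List.cons.inj h2)
        rw [← h3.2]
        exact ih.1 h1
      · intro h
        exact ⟨(d, v), ih.2 h, rfl⟩

theorem sum_lv_succ (n : ℕ) (F : List D → ℝ) :
    ∑ v ∈ lv (n + 1), F v = ∑ d : D, ∑ v ∈ lv n, F (d :: v) := by
  simp only [lv]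
  rw [Finset.sum_image (by
    rintro ⟨d, v⟩ _ ⟨d', v'⟩ _ h
    have h3 := (List.cons.inj h)
    rw [Prod.mk.injEq]
    exact h3), Finset.sum_product]

theorem sum_lv (n : ℕ) (z : ℂ) : ∑ v ∈ lv n, th (Psi v z) = Sg n z := by
  induction n generalizing z with
  | zero => simp [lv, Sg]
  | succ n ih =>
    rw [sum_lv_succ]
    simp only [Psi_cons, Sg]
    exact Finset.sum_congr rfl fun d _ => ih _

theorem sum_lv_add (a b : ℕ) (F : List D → ℝ) :
    ∑ v ∈ lv (a + b), F v = ∑ p ∈ lv a, ∑ q ∈ lv b, F (p ++ q) := by
  induction a generalizing F with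
  | zero => simp [lv]
  | succ a ih =>
    have e : a + 1 + b = (a + b) + 1 := by ring
    rw [e, sum_lv_succ, sum_lv_succ]
    refine Finset.sum_congr rfl fun d _ => ?_
    rw [ih]
    rfl

/-- the parent belongs to the family -/
def Tp (T : List D → Prop) (v : List D) : Prop := ∀ p d, v = p ++ [d] → T p

theorem Tp_of_T {T : List D → Prop} (hT : ∀ v u, T (v ++ u) → T v) {v : List D} (h : T v) :
    Tp T v := by
  rintro p d rfl
  exact hT _ _ h

theorem T_of_Tp {T : List D → Prop} (hT : ∀ v u, T (v ++ u) → T v) {p q : List D}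
    (hq : q ≠ []) (h : Tp T (p ++ q)) : T p := by
  rcases List.eq_nil_or_concat q with rfl | ⟨u, d, h₀⟩
  · exact absurd rfl hq
  · rw [List.concat_eq_append] at h₀
    subst h₀
    have := h (p ++ u) d (by simp)
    exact hT _ _ this

open Classical in
/-- weight of a level of the family -/
noncomputable def Lam (T : List D → Prop) (m : ℕ) (z : ℂ) : ℝ :=
  ∑ v ∈ lv m, if Tp T v then th (Psi v z) else 0

theorem Lam_nonneg (T : List D → Prop) (m : ℕ) (z : ℂ) : 0 ≤ Lam T m z := by
  classical
  refine Finset.sum_nonneg fun v _ => ?_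
  split_ifs
  · exact (th_pos _).le
  · exact le_rfl

theorem Lam_le (T : List D → Prop) (m : ℕ) (z : ℂ) : Lam T m z ≤ 66 := by
  classical
  refine le_trans ?_ (Sg_le' m z)
  rw [← sum_lv]
  refine Finset.sum_le_sum fun v _ => ?_
  split_ifs
  · exact le_rfl
  · exact (th_pos _).le

theorem far_th {z : ℂ} (hz : 76 / 100 < dist z ctr) :
    1 / (dist z ctr - 71 / 100) ^ 2 ≤ 1000 * th z := by
  unfold th
  set t := dist z ctr
  rw [← div_eq_mul_inv, div_le_div_iff₀ (by nlinarith) (by positivity)]
  nlinarith

/-- the family is far from `z` at level `a` -/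
def FarAt (T : List D → Prop) (a : ℕ) (z : ℂ) : Prop :=
  ∀ p : List D, p.length = a → T p → 76 / 100 < dist (Psi p z) ctr

theorem Lam_far {T : List D → Prop} (hT : ∀ v u, T (v ++ u) → T v) {a : ℕ} {z : ℂ}
    (hz : FarAt T a z) (m : ℕ) : Lam T m z ≤ 66000 * (4 / 9) ^ (m - a) := by
  classical
  rcases Nat.lt_or_ge a m with h | h
  · obtain ⟨b, rfl⟩ := Nat.exists_eq_add_of_lt h
    have e : a + b + 1 = a + (b + 1) := by ring
    have e2 : a + b + 1 - a = b + 1 := by omega
    rw [e2, e]
    unfold Lam
    rw [sum_lv_add]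
    have h1 : ∀ p ∈ lv a, ∑ q ∈ lv (b + 1), (if Tp T (p ++ q) then th (Psi (p ++ q) z) else 0)
        ≤ 1000 * (4 / 9) ^ (b + 1) * th (Psi p z) := by
      intro p hp
      rw [mem_lv] at hp
      by_cases hTp : T p
      · have h2 : ∑ q ∈ lv (b + 1), (if Tp T (p ++ q) then th (Psi (p ++ q) z) else 0)
            ≤ Sg (b + 1) (Psi p z) := by
          rw [← sum_lv]
          refine Finset.sum_le_sum fun q _ => ?_
          rw [Psi_append]
          split_ifs
          · exact le_rfl
          · exact (th_pos _).le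
        refine h2.trans ?_
        have h3 := hz p hp hTp
        refine (Sg_far (b + 1) (z := Psi p z) (by linarith)).trans ?_
        have h4 := far_th h3
        calc (4 / 9 : ℝ) ^ (b + 1) * (1 / (dist (Psi p z) ctr - 71 / 100) ^ 2)
            ≤ (4 / 9 : ℝ) ^ (b + 1) * (1000 * th (Psi p z)) := by gcongr
          _ = 1000 * (4 / 9) ^ (b + 1) * th (Psi p z) := by ring
      · rw [Finset.sum_eq_zero]
        · have := th_pos (Psi p z)
          positivity
        · intro q hq
          rw [mem_lv] at hq
          rw [if_neg]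
          intro h5
          refine hTp (T_of_Tp hT ?_ h5)
          intro h6
          rw [h6] at hq
          simp at hq
    refine (Finset.sum_le_sum h1).trans ?_
    rw [← Finset.mul_sum, sum_lv]
    have h2 := Sg_le' a z
    have h3 : (0 : ℝ) < (4 / 9) ^ (b + 1) := by positivity
    nlinarith
  · have e2 : m - a = 0 := by omega
    rw [e2, pow_zero]
    have := Lam_le T m z
    linarith

/-- every point off the set is far from the squares of some level, locally uniformly -/
theorem exists_farAt {z₀ : ℂ} (hz₀ : z₀ ∉ squareCantor) : ∃ a : ℕ, ∀ T : List D → Prop,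
    ∀ z ∈ ball z₀ (infDist z₀ squareCantor / 2), FarAt T a z := by
  have hη := infDist_pos' hz₀
  obtain ⟨a, ha⟩ := pow_unbounded_of_one_lt (151 / 100 / (infDist z₀ squareCantor / 2))
    (show (1 : ℝ) < 3 by norm_num)
  rw [div_lt_iff₀ (by positivity)] at ha
  refine ⟨a, fun T z hz p hp _ => ?_⟩
  have h1 : infDist z₀ squareCantor ≤ infDist z squareCantor + dist z₀ z :=
    infDist_le_infDist_add_dist
  rw [mem_ball, dist_comm] at hz
  have h2 := infDist_Psi p z
  rw [hp] at h2
  have h3 : (3 : ℝ) ^ a * (infDist z₀ squareCantor / 2) ≤ 3 ^ a * infDist z squareCantor := by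
    gcongr
    linarith
  linarith

theorem exists_farAt' {z : ℂ} (hz : z ∉ squareCantor) (T : List D → Prop) :
    ∃ a : ℕ, FarAt T a z := by
  obtain ⟨a, ha⟩ := exists_farAt hz
  exact ⟨a, ha T z (mem_ball_self (by have := infDist_pos' hz; positivity))⟩

theorem FarAt_iff {T : List D → Prop} (hT : ∀ v u, T (v ++ u) → T v) {a : ℕ} {z : ℂ}
    (h : ¬ FarAt T a z) {b : ℕ} (hb : b ≤ a) : ∃ x, x.length = b ∧ T x ∧
      dist (Psi x z) ctr ≤ 76 / 100 := by
  unfold FarAt at h
  push Not at h
  obtain ⟨p, hp, hTp, hd⟩ := h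
  refine ⟨p.take b, by rw [List.length_take, hp]; exact min_eq_left hb, ?_, ?_⟩
  · exact hT _ (p.drop b) (by rw [List.take_append_drop]; exact hTp)
  · rcases eq_or_ne (p.drop b) [] with h0 | h0
    · have : p.take b = p := by
        conv_rhs => rw [← List.take_append_drop b p, h0, List.append_nil]
      rw [this]
      exact hd
    · have := near_append (u := p.take b) (v := p.drop b) (z := z) h0 (by
        rw [List.take_append_drop]
        linarith)
      linarith

end Pool.Corona91698f
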