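import Mathlib
import Pool.Agent.Corona91698f.Split

/-!
# Approximation of bounded holomorphic functions on the complement of the square Cantor set by
functions that are continuous in the whole plane
-/

open Complex Metric Set Filter Topology

set_option autoImplicit false

namespace Pool.Corona91698f

/-- all words of length `n` -/
noncomputable def lw : ℕ → Finset (List D)
  | 0 => {[]}
  | (n + 1) => (Finset.univ ×ˢ lw n).image fun x : D × List D => x.1 :: x.2

theorem mem_lw {n : ℕ} {v : List D} : v ∈ lw n ↔ v.length = n := by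
  induction n generalizing v with
  | zero => simp [lw, List.length_eq_zero_iff]
  | succ n ih =>
    cases v with
    | nil => simp [lw]
    | cons d v =>
      simp only [lw, Finset.mem_image, Finset.mem_product, Finset.mem_univ, true_and,
        List.length_cons, Nat.succ_inj]
      constructor
      · rintro ⟨⟨d', v'⟩, h1, h2⟩
        have h3 := (List.cons.inj h2)
        rw [← h3.2]
        exact ih.1 h1
      · intro h
        exact ⟨(d, v), ih.2 h, rfl⟩

theorem sum_lw (n : ℕ) (z : ℂ) : ∑ v ∈ lw n, th (Psi v z) = Sg n z := by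
  induction n generalizing z with
  | zero => simp [lw, Sg]
  | succ n ih =>
    simp only [lw]
    rw [Finset.sum_image (by
      rintro ⟨d, v⟩ _ ⟨d', v'⟩ _ h
      have h3 := (List.cons.inj h)
      rw [Prod.mk.injEq]
      exact h3), Finset.sum_product]
    simp only [Psi_cons, Sg]
    exact Finset.sum_congr rfl fun d _ => ih _

/-- decay of the weights away from the set -/
theorem Sg_decay (k : ℕ) : ∀ (j : ℕ) (z : ℂ), 151 / 100 < 3 ^ k * infDist z squareCantor →
    Sg (k + j) z ≤ (189 - 65 * (4 / 9) ^ k) * (4 / 9) ^ j := by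
  induction k with
  | zero =>
    intro j z hz
    have h1 := infDist_le_dist_ctr z
    simp only [pow_zero, one_mul] at hz
    rw [zero_add]
    refine (Sg_far j (by linarith)).trans ?_
    have h1 : (9 / 100 : ℝ) ^ 2 ≤ (dist z ctr - 71 / 100) ^ 2 := by
      gcongr
      linarith
    have h2 : 1 / (dist z ctr - 71 / 100) ^ 2 ≤ 123.5 := by
      rw [div_le_iff₀ (by nlinarith)]
      nlinarith
    have h3 : (0 : ℝ) < (4 / 9) ^ j := by positivity
    norm_num at h2 ⊢
    nlinarith
  | succ k ih =>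
    intro j z hz
    obtain ⟨d₀, hd₀⟩ := exists_far z
    have h0 : Sg (k + j) (psi d₀ z) ≤ (189 - 65 * (4 / 9) ^ k) * (4 / 9) ^ j := by
      refine ih j _ ?_
      have h2 := infDist_psi d₀ z
      have h3 : (0 : ℝ) < 3 ^ k := by positivity
      rw [pow_succ] at hz
      nlinarith
    have h1 := sum_D_le (fun d => Sg (k + j) (psi d z)) d₀ _ (12 * (4 / 9) ^ (k + j)) h0
      (fun d hd => Sg_far_one _ (hd₀ d hd))
    have e : k + 1 + j = (k + j) + 1 := by omega
    rw [e]
    refine le_trans h1 ?_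
    have h2 : (0 : ℝ) < (4 / 9) ^ k := by positivity
    have h3 : (0 : ℝ) < (4 / 9) ^ j := by positivity
    rw [pow_add, pow_succ]
    have h4 : 0 < (4 / 9 : ℝ) ^ k * (4 / 9) ^ j := by positivity
    nlinarith

theorem Sg_decay' {k j : ℕ} {z : ℂ} (hz : 151 / 100 < 3 ^ k * infDist z squareCantor) :
    Sg (k + j) z ≤ 189 * (4 / 9) ^ j := by
  refine (Sg_decay k j z hz).trans ?_
  have h2 : (0 : ℝ) < (4 / 9) ^ k := by positivity
  have h3 : (0 : ℝ) < (4 / 9) ^ j := by positivity
  nlinarith

theorem Sg_tendsto {z : ℂ} (hz : z ∉ squareCantor) : Tendsto (fun n => Sg n z) atTop (𝓝 0) := by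
  obtain ⟨k, hk⟩ := exists_k hz
  have h1 : Tendsto (fun j : ℕ => (189 : ℝ) * (4 / 9) ^ j) atTop (𝓝 0) := by
    have := (tendsto_pow_atTop_nhds_zero_of_lt_one (r := (4 / 9 : ℝ)) (by norm_num)
      (by norm_num)).const_mul 189
    simpa using this
  have h2 : Tendsto (fun j => Sg (j + k) z) atTop (𝓝 0) := by
    refine squeeze_zero (fun j => Sg_nonneg _ _) (fun j => ?_) h1
    rw [add_comm]
    exact Sg_decay' hk
  exact (tendsto_add_atTop_iff_nat k).1 h2

theorem exists_lw_mem (n : ℕ) {z : ℂ} (hz : z ∈ squareCantor) :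
    ∃ v ∈ lw n, Psi v z ∈ squareCantor := by
  induction n generalizing z with
  | zero => exact ⟨[], mem_lw.2 rfl, hz⟩
  | succ n ih =>
    obtain ⟨d, hd⟩ := exists_psi_mem hz
    obtain ⟨v, hv, hv'⟩ := ih hd
    exact ⟨d :: v, mem_lw.2 (by rw [List.length_cons, mem_lw.1 hv]), hv'⟩

/-- two different squares of the same level are not both near a point -/
theorem other_far {n : ℕ} {v w : List D} (hv : v ∈ lw n) (hw : w ∈ lw n) (hne : w ≠ v) {z : ℂ}
    (hz : dist (Psi v z) ctr ≤ 78 / 100) : 78 / 100 < dist (Psi w z) ctr := by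
  by_contra hcon
  push Not at hcon
  have hl : v.length = w.length := by rw [mem_lw.1 hv, mem_lw.1 hw]
  rcases chain hz hcon with h | h
  · exact hne (h.eq_of_length hl).symm
  · exact hne (h.eq_of_length hl.symm)

theorem half_le_th {z : ℂ} (hz : dist z ctr < 1) : 1 / 2 ≤ th z := by
  unfold th
  rw [one_div]
  apply inv_anti₀ (by positivity)
  have := dist_nonneg (x := z) (y := ctr)
  nlinarith

/-- **Approximation by functions that are continuous in the whole plane.** -/
theorem approx (N : ℕ) {f : ℂ → ℂ} (hf : DifferentiableOn ℂ f squareCantorᶜ)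
    (hb : ∀ z ∈ squareCantorᶜ, ‖f z‖ ≤ 1) :
    ∃ F : ℂ → ℂ, Continuous F ∧ DifferentiableOn ℂ F squareCantorᶜ ∧
      ∀ z ∈ squareCantorᶜ, ‖F z - f z‖ ≤ 2000002 * Sg N z := by
  classical
  have hPhi : ∀ v : List D, ∀ z, (74 / 100 : ℝ) < dist z ctr → dist z ctr < 80 / 100 →
      Phi v z ∈ squareCantorᶜ := by
    intro v z h1 h2 hE
    have h3 := mem_of_Phi_mem (v := v) (by linarith) hE
    have h4 := squareCantor_dist' h3
    linarith
  have hw : ∀ v : List D, DifferentiableOn ℂ (fun z => f (Phi v z))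
      {z | (74 / 100 : ℝ) < dist z ctr ∧ dist z ctr < 80 / 100} := by
    rintro v z ⟨h1, h2⟩
    refine DifferentiableAt.differentiableWithinAt ?_
    have h3 := hf.differentiableAt (isClosed_squareCantor.isOpen_compl.mem_nhds (hPhi v z h1 h2))
    exact DifferentiableAt.comp (g := f) (f := Phi v) z h3 (differentiable_Phi v z)
  have hM : ∀ v : List D, ∀ z, (74 / 100 : ℝ) < dist z ctr → dist z ctr < 80 / 100 →
      ‖f (Phi v z)‖ ≤ 1 := fun v z h1 h2 => hb _ (hPhi v z h1 h2)
  choose win wout hwin hwout hwe hwinb hwoutb hwinc using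
    fun v : List D => split_node one_pos (hw v) (hM v)
  let t : List D → ℂ → ℂ := fun v z =>
    if dist (Psi v z) ctr < 77 / 100 then win v (Psi v z) else wout v (Psi v z)
  let F : ℂ → ℂ := fun z =>
    (if ∀ v ∈ lw N, 77 / 100 ≤ dist (Psi v z) ctr then f z else 0) + ∑ v ∈ lw N, t v z
  have hin : ∀ v₀ ∈ lw N, ∀ z, dist (Psi v₀ z) ctr < 77 / 100 →
      F z = win v₀ (Psi v₀ z) + ∑ v ∈ (lw N).erase v₀, wout v (Psi v z) := by
    intro v₀ hv₀ z hz
    have h1 : ¬ ∀ v ∈ lw N, 77 / 100 ≤ dist (Psi v z) ctr := by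
      intro h
      have := h v₀ hv₀
      linarith
    simp only [F]
    rw [if_neg h1, zero_add, ← Finset.add_sum_erase _ _ hv₀]
    congr 1
    · simp only [t]
      rw [if_pos hz]
    · refine Finset.sum_congr rfl fun v hv => ?_
      have h2 := other_far hv₀ (Finset.mem_of_mem_erase hv) (Finset.ne_of_mem_erase hv)
        (z := z) (by linarith)
      simp only [t]
      rw [if_neg (by linarith)]
  have hout : ∀ z, (∀ v ∈ lw N, 76 / 100 < dist (Psi v z) ctr) →
      F z = f z + ∑ v ∈ lw N, wout v (Psi v z) := by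
    intro z hz
    by_cases h : ∀ v ∈ lw N, 77 / 100 ≤ dist (Psi v z) ctr
    · simp only [F]
      rw [if_pos h]
      congr 1
      refine Finset.sum_congr rfl fun v hv => ?_
      simp only [t]
      rw [if_neg (not_lt.2 (h v hv))]
    · push Not at h
      obtain ⟨v₀, hv₀, h0⟩ := h
      rw [hin v₀ hv₀ z h0, ← Finset.add_sum_erase _ _ hv₀]
      have h1 := hwe v₀ (Psi v₀ z) (by have := hz v₀ hv₀; linarith) (by linarith)
      rw [Phi_Psi] at h1
      rw [h1]
      ring
  have hwoutd : ∀ v z, 76 / 100 < dist (Psi v z) ctr →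
      DifferentiableAt ℂ (fun z => wout v (Psi v z)) z := by
    intro v z hz
    have hop : IsOpen {z : ℂ | (75 / 100 : ℝ) < dist z ctr} :=
      isOpen_lt continuous_const (continuous_id.dist continuous_const)
    have hm : Psi v z ∈ {z : ℂ | (75 / 100 : ℝ) < dist z ctr} := by
      show (75 / 100 : ℝ) < dist (Psi v z) ctr
      linarith
    exact DifferentiableAt.comp (g := wout v) (f := Psi v) z
      ((hwout v).differentiableAt (hop.mem_nhds hm)) (differentiable_Psi v z)
  have hPc : ∀ v : List D, Continuous fun z => dist (Psi v z) ctr := fun v =>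
    (differentiable_Psi v).continuous.dist continuous_const
  -- local forms
  have evin : ∀ v₀ ∈ lw N, ∀ z₀, dist (Psi v₀ z₀) ctr < 77 / 100 →
      F =ᶠ[𝓝 z₀] fun z => win v₀ (Psi v₀ z) + ∑ v ∈ (lw N).erase v₀, wout v (Psi v z) := by
    intro v₀ hv₀ z₀ hz₀
    filter_upwards [(isOpen_lt (hPc v₀) continuous_const).mem_nhds hz₀] with z hz
    exact hin v₀ hv₀ z hz
  have evout : ∀ z₀, (∀ v ∈ lw N, 76 / 100 < dist (Psi v z₀) ctr) →
      F =ᶠ[𝓝 z₀] fun z => f z + ∑ v ∈ lw N, wout v (Psi v z) := by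
    intro z₀ hz₀
    have h1 : ∀ᶠ z in 𝓝 z₀, ∀ v ∈ lw N, 76 / 100 < dist (Psi v z) ctr := by
      rw [Filter.eventually_all_finset]
      intro v hv
      exact (isOpen_lt continuous_const (hPc v)).mem_nhds (hz₀ v hv)
    filter_upwards [h1] with z hz
    exact hout z hz
  have hsumd : ∀ v₀ ∈ lw N, ∀ z₀, dist (Psi v₀ z₀) ctr < 77 / 100 →
      DifferentiableAt ℂ (fun z => ∑ v ∈ (lw N).erase v₀, wout v (Psi v z)) z₀ := by
    intro v₀ hv₀ z₀ hz₀
    refine DifferentiableAt.fun_sum fun v hv => hwoutd v z₀ ?_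
    have h2 := other_far hv₀ (Finset.mem_of_mem_erase hv) (Finset.ne_of_mem_erase hv)
        (z := z₀) (by linarith)
    linarith
  refine ⟨F, ?_, ?_, ?_⟩
  · rw [continuous_iff_continuousAt]
    intro z₀
    by_cases h : ∃ v₀ ∈ lw N, dist (Psi v₀ z₀) ctr < 77 / 100
    · obtain ⟨v₀, hv₀, h0⟩ := h
      refine ContinuousAt.congr ?_ (evin v₀ hv₀ z₀ h0).symm
      refine ContinuousAt.add ?_ (hsumd v₀ hv₀ z₀ h0).continuousAt
      have h1 : ContinuousAt (win v₀) (Psi v₀ z₀) :=
        (hwinc v₀).continuousAt (isOpen_ball.mem_nhds (by rw [mem_ball]; linarith))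
      exact ContinuousAt.comp (g := win v₀) (f := Psi v₀) h1
        (differentiable_Psi v₀).continuous.continuousAt
    · push Not at h
      have h76 : ∀ v ∈ lw N, 76 / 100 < dist (Psi v z₀) ctr := fun v hv => by
        have := h v hv
        linarith
      refine ContinuousAt.congr ?_ (evout z₀ h76).symm
      have hz₀ : z₀ ∈ squareCantorᶜ := by
        intro hE
        obtain ⟨v, hv, hv'⟩ := exists_lw_mem N hE
        have h1 := squareCantor_dist' hv'
        have h2 := h v hv
        linarith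
      have h1 := hf.differentiableAt (isClosed_squareCantor.isOpen_compl.mem_nhds hz₀)
      refine h1.continuousAt.add ?_
      exact (DifferentiableAt.fun_sum fun v hv => hwoutd v z₀ (h76 v hv)).continuousAt
  · intro z₀ hz₀
    refine DifferentiableAt.differentiableWithinAt ?_
    by_cases h : ∃ v₀ ∈ lw N, dist (Psi v₀ z₀) ctr < 77 / 100
    · obtain ⟨v₀, hv₀, h0⟩ := h
      refine DifferentiableAt.congr_of_eventuallyEq ?_ (evin v₀ hv₀ z₀ h0)
      refine DifferentiableAt.fun_add ?_ (hsumd v₀ hv₀ z₀ h0)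
      have hop2 : IsOpen (ball ctr (79 / 100) ∩ squareCantorᶜ) :=
        isOpen_ball.inter isClosed_squareCantor.isOpen_compl
      have hm : Psi v₀ z₀ ∈ ball ctr (79 / 100) ∩ squareCantorᶜ := by
        refine ⟨?_, Psi_notMem hz₀⟩
        rw [mem_ball]
        linarith
      exact DifferentiableAt.comp (g := win v₀) (f := Psi v₀) z₀
        ((hwin v₀).differentiableAt (hop2.mem_nhds hm)) (differentiable_Psi v₀ z₀)
    · push Not at h
      have h76 : ∀ v ∈ lw N, 76 / 100 < dist (Psi v z₀) ctr := fun v hv => by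
        have := h v hv
        linarith
      refine DifferentiableAt.congr_of_eventuallyEq ?_ (evout z₀ h76)
      have h1 := hf.differentiableAt (isClosed_squareCantor.isOpen_compl.mem_nhds hz₀)
      exact h1.fun_add (DifferentiableAt.fun_sum fun v hv => hwoutd v z₀ (h76 v hv))
  · intro z hz
    have hwb : ∀ v, 76 / 100 < dist (Psi v z) ctr →
        ‖wout v (Psi v z)‖ ≤ 2000002 * th (Psi v z) := by
      intro v hv
      have h1 := hwoutb v _ hv
      have h2 := th_pos (Psi v z)
      linarith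
    by_cases h : ∃ v₀ ∈ lw N, dist (Psi v₀ z) ctr < 77 / 100
    · obtain ⟨v₀, hv₀, h0⟩ := h
      rw [hin v₀ hv₀ z h0, ← sum_lw, ← Finset.add_sum_erase _ _ hv₀, mul_add, Finset.mul_sum]
      have h1 := hwinb v₀ (Psi v₀ z) (by linarith)
      have h2 := hb z hz
      have h3 := half_le_th (z := Psi v₀ z) (by linarith)
      have h4 : ‖∑ v ∈ (lw N).erase v₀, wout v (Psi v z)‖
          ≤ ∑ v ∈ (lw N).erase v₀, 2000002 * th (Psi v z) := by
        refine (norm_sum_le _ _).trans (Finset.sum_le_sum fun v hv => hwb v ?_)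
        have h2 := other_far hv₀ (Finset.mem_of_mem_erase hv) (Finset.ne_of_mem_erase hv)
          (z := z) (by linarith)
        linarith
      have e : win v₀ (Psi v₀ z) + ∑ v ∈ (lw N).erase v₀, wout v (Psi v z) - f z
          = (win v₀ (Psi v₀ z) - f z) + ∑ v ∈ (lw N).erase v₀, wout v (Psi v z) := by ring
      rw [e]
      refine (norm_add_le _ _).trans (add_le_add ?_ h4)
      have h5 := norm_sub_le (win v₀ (Psi v₀ z)) (f z)
      linarith
    · push Not at h
      have h76 : ∀ v ∈ lw N, 76 / 100 < dist (Psi v z) ctr := fun v hv => by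
        have := h v hv
        linarith
      rw [hout z h76, add_sub_cancel_left, ← sum_lw, Finset.mul_sum]
      exact (norm_sum_le _ _).trans (Finset.sum_le_sum fun v hv => hwb v (h76 v hv))

end Pool.Corona91698f
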