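import Mathlib
import Pool.Agent.Corona91698f.PorCount

/-!
# The additive Cousin problem on porous families of squares: the recursion
-/

open Complex Metric Set Filter Topology

set_option autoImplicit false

namespace Pool.Corona91698f

theorem dist_Phi_eq (v : List D) (z w : ℂ) : dist (Phi v z) (Phi v w) = dist z w / 3 ^ v.length := by
  have h := dist_Psi v (Phi v z) (Phi v w)
  rw [Psi_Phi, Psi_Phi] at h
  rw [h]
  field_simp

theorem dist_Phi_ctr_lt (v : List D) : dist (Phi v ctr) ctr < 71 / 100 := by
  induction v with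
  | nil => rw [Phi_nil, dist_self]; norm_num
  | cons d v ih =>
    rw [Phi_cons]
    have h := dist_le_of_psi d (phi d (Phi v ctr))
    rw [psi_phi] at h
    linarith

/-- Data for the recursion. -/
structure CD where
  T : List D → Prop
  hT : ∀ v u, T (v ++ u) → T v
  J0 : ℕ
  dl : List D → List D
  hdl : ∀ v, T v → (dl v).length = J0
  hdl' : ∀ v, (dl v).length ≤ J0
  hdlT : ∀ v, ¬ T (v ++ dl v)
  win : List D → ℂ → ℂ
  wout : List D → ℂ → ℂ
  w : List D → ℂ → ℂ
  L : ℝ
  hL : 0 < L
  hwin : ∀ v z, dist z ctr < 79 / 100 → Psi (dl v) z ∉ squareCantor → DifferentiableAt ℂ (win v) z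
  hwout : ∀ v, DifferentiableOn ℂ (wout v) {z | (75 / 100 : ℝ) < dist z ctr}
  hw : ∀ v z, (75 / 100 : ℝ) < dist z ctr → dist z ctr < 79 / 100 → w v z = win v z - wout v z
  hwinb : ∀ v z, dist z ctr < 78 / 100 → ‖win v z‖ ≤ L * th z
  hwoutb : ∀ v z, 76 / 100 < dist z ctr → ‖wout v z‖ ≤ L * th z
  hwin0 : ∀ v, ¬ Tp T v → ∀ z, win v z = 0
  hwout0 : ∀ v, ¬ Tp T v → ∀ z, wout v z = 0
  ψ : List D → ℂ → ℂ
  M0 : ℝ
  hM0 : 0 ≤ M0
  hψd : ∀ x, x.length = J0 → ∀ z, Psi x z ∉ squareCantor → DifferentiableAt ℂ (ψ x) z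
  hψb : ∀ x, x.length = J0 → ∀ z, Psi x z ∉ squareCantor → ‖ψ x z‖ ≤ M0 * th z
  hψ1 : ∀ x, x.length = J0 → ∀ y, y.length = J0 → y ≠ x → ∀ z, dist (Psi y z) ctr ≤ 78 / 100 →
    ‖ψ x z - 1‖ ≤ 1 / 600
  hψ0 : ∀ x, x.length = J0 → ∀ z, 76 / 100 < dist z ctr → ‖ψ x z‖ ≤ 1 / 600 * th z

namespace CD

variable (K : CD)

/-- number of generations in one step -/
def J : ℕ := K.J0 + 5

theorem J_pos : 0 < K.J := by unfold J; omega

/-- bound for the partial sums -/
noncomputable def B : ℝ := 100 * K.J * K.L

theorem B_pos : 0 < K.B := by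
  unfold B
  have h1 : (0 : ℝ) < K.J := by exact_mod_cast K.J_pos
  have := K.hL
  positivity

open Classical in
/-- the contribution of the square `v` in the region `R` -/
noncomputable def term (R : Option (List D)) (v : List D) (z : ℂ) : ℂ :=
  if anc R v then K.win v (Psi v z) else K.wout v (Psi v z)

open Classical in
/-- the partial sums, corrected by the transfer functions -/
noncomputable def s : ℕ → Option (List D) → ℂ → ℂ
  | 0, _, _ => 0
  | (i + 1), R, z => s i R z + ((∑ k ∈ Finset.range K.J, ∑ v ∈ lv (i * K.J + k), K.term R v z)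
      - ∑ u ∈ lv ((i + 1) * K.J), if K.T u then s i (some u) (Phi u ctr) * K.ψ (K.dl u) (Psi u z)
        else 0)

open Classical in
/-- the increments -/
noncomputable def del (i : ℕ) (R : Option (List D)) (z : ℂ) : ℂ :=
  (∑ k ∈ Finset.range K.J, ∑ v ∈ lv (i * K.J + k), K.term R v z)
      - ∑ u ∈ lv ((i + 1) * K.J), if K.T u then K.s i (some u) (Phi u ctr) *
        K.ψ (K.dl u) (Psi u z) else 0

theorem s_succ (i : ℕ) (R : Option (List D)) (z : ℂ) : K.s (i + 1) R z = K.s i R z + K.del i R z :=
  rfl

theorem term_congr {R R' : Option (List D)} {v : List D} (h : anc R v ↔ anc R' v) (z : ℂ) :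
    K.term R v z = K.term R' v z := by
  unfold term
  by_cases h1 : anc R v
  · rw [if_pos h1, if_pos (h.1 h1)]
  · rw [if_neg h1, if_neg (fun h2 => h1 (h.2 h2))]

theorem s_congr (i : ℕ) {R R' : Option (List D)}
    (h : ∀ v : List D, v.length < i * K.J → (anc R v ↔ anc R' v)) (z : ℂ) :
    K.s i R z = K.s i R' z := by
  induction i with
  | zero => rfl
  | succ i ih =>
    have h1 : i * K.J ≤ (i + 1) * K.J := Nat.mul_le_mul_right _ (Nat.le_succ i)
    rw [s_succ, s_succ, ih (fun v hv => h v (lt_of_lt_of_le hv h1))]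
    unfold del
    congr 2
    refine Finset.sum_congr rfl fun k hk => Finset.sum_congr rfl fun v hv => ?_
    rw [mem_lv] at hv
    rw [Finset.mem_range] at hk
    refine K.term_congr (h v ?_) z
    rw [hv, Nat.succ_mul]
    omega

/-- geometric position of a point relative to all squares with at most `n` digits -/
def Good (R : Option (List D)) (z : ℂ) (n : ℕ) : Prop :=
  ∀ v : List D, v.length ≤ n → (anc R v → dist (Psi v z) ctr < 78 / 100) ∧
    (¬ anc R v → 76 / 100 < dist (Psi v z) ctr)

theorem good_Nd {R : Option (List D)} {z : ℂ} (hz : z ∈ Nd R) (n : ℕ) : Good R z n :=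
  fun _ _ => ⟨Nd_anc hz, Nd_not_anc hz⟩

theorem good_disc {x : List D} {z : ℂ} (hz : dist (Psi x z) ctr < 78 / 100) :
    Good (some x) z x.length := by
  intro v hv
  constructor
  · rintro ⟨u, rfl⟩
    rcases eq_or_ne u [] with rfl | hu
    · rwa [List.append_nil] at hz
    · have := near_append (u := v) (v := u) (z := z) hu hz.le
      linarith
  · intro h
    by_contra hlt
    push Not at hlt
    rcases chain (v := v) (w := x) (z := z) (by linarith) hz.le with hc | hc
    · exact h hc
    · have : x = v := hc.eq_of_length_le hv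
      subst this
      exact h (List.prefix_refl _)

theorem term_norm {R : Option (List D)} {z : ℂ} {n : ℕ} (hg : Good R z n) {v : List D}
    (hv : v.length ≤ n) [Decidable (Tp K.T v)] :
    ‖K.term R v z‖ ≤ K.L * if Tp K.T v then th (Psi v z) else 0 := by
  obtain ⟨h1, h2⟩ := hg v hv
  unfold term
  by_cases hp : Tp K.T v
  · rw [if_pos hp]
    split_ifs with h
    · exact K.hwinb v _ (h1 h)
    · exact K.hwoutb v _ (h2 h)
  · rw [if_neg hp]
    split_ifs with h
    · rw [K.hwin0 v hp, norm_zero, mul_zero]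
    · rw [K.hwout0 v hp, norm_zero, mul_zero]

theorem sum_term_norm {R : Option (List D)} {z : ℂ} {n i : ℕ} (hg : Good R z n)
    (hn : (i + 1) * K.J ≤ n + 1) :
    ‖∑ k ∈ Finset.range K.J, ∑ v ∈ lv (i * K.J + k), K.term R v z‖ ≤
      K.L * ∑ k ∈ Finset.range K.J, Lam K.T (i * K.J + k) z := by
  classical
  refine (norm_sum_le _ _).trans ?_
  rw [Finset.mul_sum]
  refine Finset.sum_le_sum fun k hk => ?_
  refine (norm_sum_le _ _).trans ?_
  unfold Lam
  rw [Finset.mul_sum]
  refine Finset.sum_le_sum fun v hv => ?_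
  rw [mem_lv] at hv
  rw [Finset.mem_range] at hk
  refine K.term_norm hg ?_
  rw [Nat.succ_mul] at hn
  omega

/-- points of small discs are off the dump squares -/
theorem notMem_dump {x : List D} (hx : K.T x) {z : ℂ} (hz : dist (Psi x z) ctr < 78 / 100)
    {v : List D} (hv : v.length + (K.dl v).length ≤ x.length) :
    Psi (K.dl v) (Psi v z) ∉ squareCantor := by
  intro hE
  rw [← Psi_append] at hE
  have h1 := squareCantor_dist' hE
  rcases chain (v := v ++ K.dl v) (w := x) (z := z) (by linarith) hz.le with hc | hc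
  · obtain ⟨u, hu⟩ := hc
    exact K.hdlT v (K.hT _ u (by rw [hu]; exact hx))
  · have : x = v ++ K.dl v := hc.eq_of_length_le (by rw [List.length_append]; exact hv)
    exact K.hdlT v (this ▸ hx)

theorem term_diff {R : Option (List D)} {z : ℂ} {v : List D}
    (h1 : anc R v → dist (Psi v z) ctr < 78 / 100) (h2 : ¬ anc R v → 76 / 100 < dist (Psi v z) ctr)
    (h3 : Psi (K.dl v) (Psi v z) ∉ squareCantor) : DifferentiableAt ℂ (K.term R v) z := by
  classical
  by_cases h : anc R v
  · have e : K.term R v = fun z => K.win v (Psi v z) := by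
      funext y
      unfold term
      rw [if_pos h]
    rw [e]
    exact DifferentiableAt.comp (g := K.win v) (f := Psi v) z
      (K.hwin v _ (by have := h1 h; linarith) h3) (differentiable_Psi v z)
  · have e : K.term R v = fun z => K.wout v (Psi v z) := by
      funext y
      unfold term
      rw [if_neg h]
    rw [e]
    have hop : IsOpen {z : ℂ | (75 / 100 : ℝ) < dist z ctr} :=
      isOpen_lt continuous_const (continuous_id.dist continuous_const)
    have hm : Psi v z ∈ {z : ℂ | (75 / 100 : ℝ) < dist z ctr} := by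
      have := h2 h
      show (75 / 100 : ℝ) < dist (Psi v z) ctr
      linarith
    exact DifferentiableAt.comp (g := K.wout v) (f := Psi v) z
      ((K.hwout v).differentiableAt (hop.mem_nhds hm)) (differentiable_Psi v z)

theorem del_diff (i : ℕ) {R : Option (List D)} {z : ℂ} {n : ℕ} (hg : Good R z n)
    (hn : (i + 1) * K.J ≤ n + 1)
    (hd : ∀ v : List D, v.length ≤ (i + 1) * K.J → Psi (K.dl v) (Psi v z) ∉ squareCantor) :
    DifferentiableAt ℂ (K.del i R) z := by
  classical
  unfold del
  refine DifferentiableAt.sub ?_ ?_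
  · refine DifferentiableAt.fun_sum fun k hk => DifferentiableAt.fun_sum fun v hv => ?_
    rw [mem_lv] at hv
    rw [Finset.mem_range] at hk
    rw [Nat.succ_mul] at hn
    have hv' : v.length ≤ n := by omega
    obtain ⟨h1, h2⟩ := hg v hv'
    refine K.term_diff h1 h2 (hd v ?_)
    rw [hv, Nat.succ_mul]
    omega
  · refine DifferentiableAt.fun_sum fun u hu => ?_
    rw [mem_lv] at hu
    by_cases hTu : K.T u
    · simp only [if_pos hTu]
      refine DifferentiableAt.const_mul ?_ _
      exact DifferentiableAt.comp (g := K.ψ (K.dl u)) (f := Psi u) z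
        (K.hψd _ (K.hdl u hTu) _ (hd u hu.le)) (differentiable_Psi u z)
    · simp only [if_neg hTu]
      exact differentiableAt_const _

/-- the invariant of the recursion -/
def Inv (i : ℕ) : Prop := ∀ x : List D, K.T x → x.length = i * K.J + K.J0 →
  (∀ z, dist (Psi x z) ctr < 78 / 100 → DifferentiableAt ℂ (K.s i (some x)) z) ∧
    ∀ z, dist (Psi x z) ctr < 78 / 100 → ‖K.s i (some x) z‖ ≤ K.B

theorem s_take (i : ℕ) {u : List D} {m : ℕ} (hm : i * K.J ≤ m) (z : ℂ) :
    K.s i (some u) z = K.s i (some (u.take m)) z := by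
  refine K.s_congr i (fun v hv => ?_) z
  simp only [anc]
  constructor
  · intro h
    have h1 := h.take m
    rwa [List.take_of_length_le (by omega)] at h1
  · intro h
    exact h.trans (List.take_prefix m u)

/-- oscillation of the partial sums five generations later -/
theorem osc {i : ℕ} (hI : K.Inv i) {u : List D} (hTu : K.T u) (hu : u.length = (i + 1) * K.J) :
    ‖K.s i (some u) (Phi u ctr)‖ ≤ K.B ∧
    ∀ z, dist (Psi u z) ctr < 78 / 100 →
      ‖K.s i (some u) z - K.s i (some u) (Phi u ctr)‖ ≤ K.B / 8 := by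
  have hlen : i * K.J + K.J0 + 5 = u.length := by
    rw [hu, Nat.succ_mul]; unfold J; ring
  set x := u.take (i * K.J + K.J0) with hx
  set y := u.drop (i * K.J + K.J0) with hy
  have hxy : x ++ y = u := List.take_append_drop _ _
  have hxl : x.length = i * K.J + K.J0 := by
    rw [hx, List.length_take]; omega
  have hyl : y.length = 5 := by
    rw [hy, List.length_drop]; omega
  have hTx : K.T x := K.hT x y (by rw [hxy]; exact hTu)
  obtain ⟨hd, hb⟩ := hI x hTx hxl
  have hs : ∀ z, K.s i (some u) z = K.s i (some x) z := fun z =>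
    K.s_take i (by omega) z
  have hc : dist (Psi x (Phi u ctr)) ctr < 71 / 100 := by
    rw [← hxy, Phi_append, Psi_Phi]
    exact dist_Phi_ctr_lt y
  have hB := K.B_pos
  have h3 : (0 : ℝ) < 3 ^ x.length := by positivity
  have hball : ∀ z ∈ ball (Phi u ctr) (7 / 100 / 3 ^ x.length), dist (Psi x z) ctr < 78 / 100 := by
    intro z hz
    rw [mem_ball, lt_div_iff₀ h3, mul_comm, ← dist_Psi] at hz
    have := dist_triangle (Psi x z) (Psi x (Phi u ctr)) ctr
    linarith
  have hcB : ‖K.s i (some u) (Phi u ctr)‖ ≤ K.B := by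
    rw [hs]
    exact hb _ (by linarith)
  refine ⟨hcB, fun z hz => ?_⟩
  have hzc : 3 ^ x.length * dist z (Phi u ctr) ≤ 78 / 100 / 243 := by
    have h1 : dist (Psi u z) ctr = 3 ^ u.length * dist z (Phi u ctr) := by
      conv_lhs => rw [← Psi_Phi u ctr]
      rw [Psi_Phi, ← dist_Psi u z (Phi u ctr), Psi_Phi]
    rw [h1, ← hxy, List.length_append, hyl, pow_add, hxy] at hz
    rw [le_div_iff₀ (by norm_num)]
    have e : (3 : ℝ) ^ x.length * dist z (Phi u ctr) * 243
        = 3 ^ x.length * 3 ^ 5 * dist z (Phi u ctr) := by ring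
    rw [e]
    exact hz.le
  have hzb : z ∈ ball (Phi u ctr) (7 / 100 / 3 ^ x.length) := by
    rw [mem_ball, lt_div_iff₀ h3, mul_comm]
    refine lt_of_le_of_lt hzc ?_
    norm_num
  rw [hs, hs]
  have key := Complex.dist_le_div_mul_dist_of_mapsTo_ball (f := K.s i (some x))
    (c := Phi u ctr) (z := z) (R₁ := 7 / 100 / 3 ^ x.length) (R₂ := 2 * K.B)
    (fun y hy => (hd y (hball y hy)).differentiableWithinAt) (by
      intro y hy
      rw [mem_closedBall, dist_eq_norm]
      have h1 := hb y (hball y hy)
      have h2 := hcB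
      rw [hs] at h2
      have h4 := norm_sub_le (K.s i (some x) y) (K.s i (some x) (Phi u ctr))
      linarith) hzb
  rw [dist_eq_norm] at key
  refine key.trans ?_
  have e : 2 * K.B / (7 / 100 / 3 ^ x.length) * dist z (Phi u ctr)
      = 2 * K.B * (100 / 7) * (3 ^ x.length * dist z (Phi u ctr)) := by
    field_simp
  rw [e]
  calc 2 * K.B * (100 / 7) * (3 ^ x.length * dist z (Phi u ctr))
      ≤ 2 * K.B * (100 / 7) * (78 / 100 / 243) := by gcongr
    _ ≤ K.B / 8 := by
      have : 2 * K.B * (100 / 7) * (78 / 100 / 243) = K.B * (2 * (100 / 7) * (78 / 100 / 243)) := by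
        ring
      rw [this]
      have h5 : (2 * (100 / 7) * (78 / 100 / 243) : ℝ) ≤ 1 / 8 := by norm_num
      nlinarith

theorem inv_zero : K.Inv 0 := by
  intro x _ _
  refine ⟨fun z _ => ?_, fun z _ => ?_⟩
  · have : K.s 0 (some x) = fun _ => 0 := rfl
    rw [this]
    exact differentiableAt_const _
  · have : K.s 0 (some x) z = 0 := rfl
    rw [this, norm_zero]
    exact K.B_pos.le

theorem inv_succ {i : ℕ} (hI : K.Inv i) : K.Inv (i + 1) := by
  classical
  intro x hTx hxl
  set u := x.take ((i + 1) * K.J) with hu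
  set t := x.drop ((i + 1) * K.J) with ht
  have hut : u ++ t = x := List.take_append_drop _ _
  have hul : u.length = (i + 1) * K.J := by
    rw [hu, List.length_take]; omega
  have htl : t.length = K.J0 := by
    rw [ht, List.length_drop]; omega
  have hTu : K.T u := K.hT u t (by rw [hut]; exact hTx)
  obtain ⟨hκ, hosc⟩ := K.osc hI hTu hul
  have hne : t ≠ K.dl u := by
    intro h
    apply K.hdlT u
    rw [← h, hut]
    exact hTx
  have hsx : ∀ z, K.s i (some x) z = K.s i (some u) z := fun z => by
    refine K.s_take i ?_ z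
    exact Nat.mul_le_mul_right _ (Nat.le_succ i)
  -- discs
  have hDu : ∀ z, dist (Psi x z) ctr < 78 / 100 → dist (Psi u z) ctr < 78 / 100 := by
    intro z hz
    have := (good_disc hz u (by rw [hxl, hul]; omega)).1 (by
      show u <+: x
      exact List.take_prefix _ _)
    exact this
  have hdump : ∀ z, dist (Psi x z) ctr < 78 / 100 → ∀ v : List D, v.length ≤ (i + 1) * K.J →
      Psi (K.dl v) (Psi v z) ∉ squareCantor := by
    intro z hz v hv
    refine K.notMem_dump hTx hz ?_
    have := K.hdl' v
    omega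
  have hgood : ∀ z, dist (Psi x z) ctr < 78 / 100 → Good (some x) z x.length :=
    fun z hz => good_disc hz
  constructor
  · intro z hz
    have h1 : DifferentiableAt ℂ (K.s i (some x)) z := by
      have h2 : K.s i (some x) = K.s i (some (x.take (i * K.J + K.J0))) := by
        funext y
        exact K.s_take i (by omega) y
      rw [h2]
      have hle : i * K.J + K.J0 ≤ x.length := by
        rw [hxl, Nat.succ_mul]; omega
      refine (hI (x.take (i * K.J + K.J0)) ?_ ?_).1 z ?_
      · exact K.hT _ (x.drop (i * K.J + K.J0)) (by rw [List.take_append_drop]; exact hTx)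
      · rw [List.length_take]; omega
      · refine (good_disc hz _ ?_).1 ?_
        · rw [List.length_take]; omega
        · exact List.take_prefix _ _
    have h2 : DifferentiableAt ℂ (K.del i (some x)) z :=
      K.del_diff i (hgood z hz) (by omega) (hdump z hz)
    exact h1.add h2
  · intro z hz
    have hB := K.B_pos
    have e : K.s (i + 1) (some x) z = (K.s i (some u) z - K.s i (some u) (Phi u ctr))
        + K.s i (some u) (Phi u ctr) * (1 - K.ψ (K.dl u) (Psi u z))
        + (∑ k ∈ Finset.range K.J, ∑ v ∈ lv (i * K.J + k), K.term (some x) v z)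
        - ∑ u' ∈ (lv ((i + 1) * K.J)).erase u, (if K.T u' then
            K.s i (some u') (Phi u' ctr) * K.ψ (K.dl u') (Psi u' z) else 0) := by
      rw [s_succ, hsx]
      unfold del
      rw [← Finset.add_sum_erase _ _ (mem_lv.2 hul), if_pos hTu]
      ring
    have b1 := hosc z (hDu z hz)
    have b2 : ‖K.s i (some u) (Phi u ctr) * (1 - K.ψ (K.dl u) (Psi u z))‖ ≤ K.B * (1 / 600) := by
      rw [norm_mul, norm_sub_rev]
      refine mul_le_mul hκ ?_ (norm_nonneg _) hB.le
      refine K.hψ1 _ (K.hdl u hTu) t htl hne _ ?_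
      rw [← Psi_append, hut]
      exact hz.le
    have b3 : ‖∑ k ∈ Finset.range K.J, ∑ v ∈ lv (i * K.J + k), K.term (some x) v z‖
        ≤ K.L * (K.J * 66) := by
      refine (K.sum_term_norm (hgood z hz) (by omega)).trans ?_
      have hL := K.hL
      gcongr
      refine (Finset.sum_le_sum fun k _ => Lam_le K.T _ z).trans ?_
      rw [Finset.sum_const, Finset.card_range, nsmul_eq_mul]
    have b4 : ‖∑ u' ∈ (lv ((i + 1) * K.J)).erase u, (if K.T u' then
            K.s i (some u') (Phi u' ctr) * K.ψ (K.dl u') (Psi u' z) else 0)‖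
        ≤ K.B * (1 / 600) * 66 := by
      have h0 : ∀ u' ∈ (lv ((i + 1) * K.J)).erase u, ‖(if K.T u' then
            K.s i (some u') (Phi u' ctr) * K.ψ (K.dl u') (Psi u' z) else 0)‖
          ≤ K.B * (1 / 600) * th (Psi u' z) := by
        intro u' hu'
        have hne' := Finset.ne_of_mem_erase hu'
        have hl' := mem_lv.1 (Finset.mem_of_mem_erase hu')
        have hth := th_pos (Psi u' z)
        split_ifs with hT'
        · obtain ⟨hκ', -⟩ := K.osc hI hT' hl'
          rw [norm_mul]
          have hfar : 76 / 100 < dist (Psi u' z) ctr := by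
            refine (good_disc hz u' (by rw [hxl, hl']; omega)).2 ?_
            intro hpre
            apply hne'
            have h5 : u' <+: x := hpre
            have h6 := h5.take ((i + 1) * K.J)
            rw [List.take_of_length_le (by omega)] at h6
            exact h6.eq_of_length (hl'.trans hul.symm)
          have h7 := K.hψ0 _ (K.hdl u' hT') _ hfar
          calc ‖K.s i (some u') (Phi u' ctr)‖ * ‖K.ψ (K.dl u') (Psi u' z)‖
              ≤ K.B * (1 / 600 * th (Psi u' z)) :=
                mul_le_mul hκ' h7 (norm_nonneg _) hB.le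
            _ = _ := by ring
        · rw [norm_zero]
          positivity
      refine (norm_sum_le _ _).trans ((Finset.sum_le_sum h0).trans ?_)
      rw [← Finset.mul_sum]
      have h8 : ∑ u' ∈ (lv ((i + 1) * K.J)).erase u, th (Psi u' z) ≤ 66 := by
        refine (Finset.sum_le_sum_of_subset_of_nonneg (Finset.erase_subset _ _)
          (fun _ _ _ => (th_pos _).le)).trans ?_
        rw [sum_lv]
        exact Sg_le' _ z
      gcongr
    rw [e]
    have n1 := norm_sub_le ((K.s i (some u) z - K.s i (some u) (Phi u ctr))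
        + K.s i (some u) (Phi u ctr) * (1 - K.ψ (K.dl u) (Psi u z))
        + (∑ k ∈ Finset.range K.J, ∑ v ∈ lv (i * K.J + k), K.term (some x) v z))
        (∑ u' ∈ (lv ((i + 1) * K.J)).erase u, (if K.T u' then
            K.s i (some u') (Phi u' ctr) * K.ψ (K.dl u') (Psi u' z) else 0))
    have n2 := norm_add₃_le (a := K.s i (some u) z - K.s i (some u) (Phi u ctr))
      (b := K.s i (some u) (Phi u ctr) * (1 - K.ψ (K.dl u) (Psi u z)))
      (c := ∑ k ∈ Finset.range K.J, ∑ v ∈ lv (i * K.J + k), K.term (some x) v z)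
    have hBe : K.L * (K.J * 66) = K.B * (66 / 100) := by unfold B; ring
    rw [hBe] at b3
    linarith

theorem inv (i : ℕ) : K.Inv i := by
  induction i with
  | zero => exact K.inv_zero
  | succ i ih => exact K.inv_succ ih

end CD

end Pool.Corona91698f
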