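import Mathlib
import Pool.Agent.Corona91698f.PorCousin

/-!
# The additive Cousin problem on porous families of squares: limit and bounds
-/

open Complex Metric Set Filter Topology

set_option autoImplicit false

namespace Pool.Corona91698f

namespace CD

variable (K : CD)

/-- bound for the increments -/
noncomputable def c1 : ℝ := (K.L + K.B * K.M0) * (K.J + 1) * 66000

theorem c1_nonneg : 0 ≤ K.c1 := by
  unfold c1
  have h1 := K.hL
  have h2 := K.B_pos
  have h3 := K.hM0
  positivity

theorem del_norm (i : ℕ) {R : Option (List D)} {z : ℂ} (hz : z ∈ Nd R) {a : ℕ}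
    (ha : FarAt K.T a z) : ‖K.del i R z‖ ≤ K.c1 * (4 / 9) ^ (i * K.J - a) := by
  classical
  have hL := K.hL
  have hB := K.B_pos
  have hM0 := K.hM0
  set q : ℝ := (4 / 9) ^ (i * K.J - a) with hq
  have hq0 : 0 < q := by positivity
  have hLam : ∀ m, i * K.J ≤ m → Lam K.T m z ≤ 66000 * q := by
    intro m hm
    refine (Lam_far K.hT ha m).trans ?_
    have : (4 / 9 : ℝ) ^ (m - a) ≤ q :=
      pow_le_pow_of_le_one (by norm_num) (by norm_num) (by omega)
    gcongr
  have h1 : ‖∑ k ∈ Finset.range K.J, ∑ v ∈ lv (i * K.J + k), K.term R v z‖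
      ≤ K.L * (K.J * (66000 * q)) := by
    refine (K.sum_term_norm (good_Nd hz ((i + 1) * K.J)) (by omega)).trans ?_
    gcongr
    refine (Finset.sum_le_sum fun k _ => hLam _ (Nat.le_add_right _ _)).trans ?_
    rw [Finset.sum_const, Finset.card_range, nsmul_eq_mul]
  have h2 : ‖∑ u ∈ lv ((i + 1) * K.J), (if K.T u then K.s i (some u) (Phi u ctr) *
        K.ψ (K.dl u) (Psi u z) else 0)‖ ≤ K.B * K.M0 * (66000 * q) := by
    refine (norm_sum_le _ _).trans ?_
    have h3 : ∀ u ∈ lv ((i + 1) * K.J), ‖(if K.T u then K.s i (some u) (Phi u ctr) *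
        K.ψ (K.dl u) (Psi u z) else 0)‖ ≤ K.B * K.M0 * (if Tp K.T u then th (Psi u z) else 0) := by
      intro u hu
      rw [mem_lv] at hu
      by_cases hTu : K.T u
      · rw [if_pos hTu, if_pos (Tp_of_T K.hT hTu), norm_mul, mul_assoc]
        refine mul_le_mul (K.osc (K.inv i) hTu hu).1 ?_ (norm_nonneg _) hB.le
        exact K.hψb _ (K.hdl u hTu) _ (Psi_notMem (Psi_notMem (Nd_notMem hz)))
      · rw [if_neg hTu, norm_zero]
        split_ifs
        · have := th_pos (Psi u z)
          positivity
        · rw [mul_zero]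
    refine (Finset.sum_le_sum h3).trans ?_
    rw [← Finset.mul_sum]
    have h4 : Lam K.T ((i + 1) * K.J) z ≤ 66000 * q :=
      hLam _ (Nat.mul_le_mul_right _ (Nat.le_succ i))
    unfold Lam at h4
    gcongr
  have h3 : ‖K.del i R z‖ ≤ K.L * (K.J * (66000 * q)) + K.B * K.M0 * (66000 * q) := by
    unfold del
    exact (norm_sub_le _ _).trans (add_le_add h1 h2)
  refine h3.trans ?_
  unfold c1
  have hJ : (0 : ℝ) ≤ K.J := Nat.cast_nonneg _
  have hBM : 0 ≤ K.B * K.M0 := by positivity
  have e : (K.L + K.B * K.M0) * (K.J + 1) * 66000 * q =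
      K.L * (K.J * (66000 * q)) + K.B * K.M0 * (66000 * q) +
      (K.L * (66000 * q) + K.B * K.M0 * K.J * (66000 * q)) := by ring
  rw [e]
  have : 0 ≤ K.L * (66000 * q) + K.B * K.M0 * K.J * (66000 * q) := by positivity
  linarith

theorem s_near {N : ℕ} {R : Option (List D)} {z : ℂ} (hz : z ∈ Nd R)
    (h : ¬ FarAt K.T (N * K.J + K.J0) z) : ‖K.s N R z‖ ≤ K.B := by
  obtain ⟨x, hxl, hTx, hxd⟩ := FarAt_iff K.hT h (le_refl _)
  have e : K.s N R z = K.s N (some x) z := by
    refine K.s_congr N (fun v hv => ?_) z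
    constructor
    · intro hv1
      have h1 := Nd_anc hz hv1
      rcases chain (v := v) (w := x) (z := z) h1.le (by linarith) with hc | hc
      · exact hc
      · have := hc.length_le
        omega
    · intro hv1
      by_contra h2
      have h3 := Nd_not_anc hz h2
      obtain ⟨u, hu⟩ : v <+: x := hv1
      rcases eq_or_ne u [] with h4 | h4
      · rw [h4, List.append_nil] at hu
        rw [hu] at h3
        linarith
      · have := near_append (u := v) (v := u) (z := z) h4 (by rw [hu]; linarith)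
        linarith
  rw [e]
  exact (K.inv N x hTx hxl).2 z (by linarith)

/-- final bound -/
noncomputable def c2 : ℝ := K.c1 * (9 / 4) ^ (K.J + K.J0)

theorem s_bound {R : Option (List D)} {z : ℂ} (hz : z ∈ Nd R) (N : ℕ) :
    ‖K.s N R z‖ ≤ K.B + 2 * K.c2 := by
  classical
  have hc1 := K.c1_nonneg
  have hc2 : 0 ≤ K.c2 := by unfold c2; positivity
  have hB := K.B_pos
  have hex := exists_farAt' (Nd_notMem hz) K.T
  set a := Nat.find hex with ha
  have hfar : FarAt K.T a z := Nat.find_spec hex
  have hnear : ∀ n, n < a → ¬ FarAt K.T n z := fun n hn => Nat.find_min hex hn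
  let P : ℕ → ℝ := fun n => if n < a then 0 else 2 - (4 / 9) ^ (n - a)
  have hP2 : ∀ n, P n ≤ 2 := by
    intro n
    simp only [P]
    split_ifs
    · norm_num
    · have : (0 : ℝ) ≤ (4 / 9) ^ (n - a) := by positivity
      linarith
  have hP0 : ∀ n, 0 ≤ P n := by
    intro n
    simp only [P]
    split_ifs
    · exact le_rfl
    · have : ((4 : ℝ) / 9) ^ (n - a) ≤ 1 := pow_le_one₀ (by norm_num) (by norm_num)
      linarith
  have main : ∀ N, ‖K.s N R z‖ ≤ K.B + K.c2 * P (N * K.J + K.J0) := by
    intro N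
    induction N with
    | zero =>
      have : K.s 0 R z = 0 := rfl
      rw [this, norm_zero]
      have := hP0 (0 * K.J + K.J0)
      positivity
    | succ N ih =>
      set n' := (N + 1) * K.J + K.J0 with hn'
      set n := N * K.J + K.J0 with hn
      have hnn : n + 1 ≤ n' := by
        rw [hn, hn', Nat.succ_mul]
        have := K.J_pos
        omega
      by_cases h : n' < a
      · have h1 := K.s_near hz (hnear n' h)
        have : P n' = 0 := by simp only [P, if_pos h]
        rw [this, mul_zero, add_zero]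
        exact h1
      · have hq : K.c1 * (4 / 9) ^ (N * K.J - a) ≤ K.c2 * (4 / 9) ^ (n' - a) := by
          unfold c2
          rw [mul_assoc]
          refine mul_le_mul_of_nonneg_left ?_ hc1
          have h1 : (4 / 9 : ℝ) ^ (N * K.J - a) * (4 / 9) ^ (K.J + K.J0) ≤ (4 / 9) ^ (n' - a) := by
            rw [← pow_add]
            refine pow_le_pow_of_le_one (by norm_num) (by norm_num) ?_
            rw [hn', Nat.succ_mul]
            omega
          have h2 : (9 / 4 : ℝ) ^ (K.J + K.J0) * (4 / 9) ^ (K.J + K.J0) = 1 := by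
            rw [← mul_pow]
            norm_num
          have h3 : (0 : ℝ) < (9 / 4) ^ (K.J + K.J0) := by positivity
          calc (4 / 9 : ℝ) ^ (N * K.J - a)
              = (9 / 4) ^ (K.J + K.J0) * ((4 / 9) ^ (N * K.J - a) * (4 / 9) ^ (K.J + K.J0)) := by
                rw [mul_comm ((4 / 9 : ℝ) ^ (N * K.J - a)), ← mul_assoc, h2, one_mul]
            _ ≤ (9 / 4) ^ (K.J + K.J0) * (4 / 9) ^ (n' - a) := by gcongr
        have hP : P n + (4 / 9) ^ (n' - a) ≤ P n' := by
          have hPn' : P n' = 2 - (4 / 9) ^ (n' - a) := by simp only [P, if_neg h]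
          rw [hPn']
          have hq1 : ((4 : ℝ) / 9) ^ (n' - a) ≤ 1 := pow_le_one₀ (by norm_num) (by norm_num)
          by_cases h4 : n < a
          · have : P n = 0 := by simp only [P, if_pos h4]
            rw [this]
            linarith
          · have : P n = 2 - (4 / 9) ^ (n - a) := by simp only [P, if_neg h4]
            rw [this]
            have h5 : ((4 : ℝ) / 9) ^ (n' - a) ≤ (4 / 9) ^ (n - a + 1) :=
              pow_le_pow_of_le_one (by norm_num) (by norm_num) (by omega)
            rw [pow_succ] at h5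
            have h6 : (0 : ℝ) < (4 / 9) ^ (n - a) := by positivity
            linarith
        rw [s_succ]
        have h5 := norm_add_le (K.s N R z) (K.del N R z)
        have h6 := K.del_norm N hz hfar
        have h7 := mul_le_mul_of_nonneg_left hP hc2
        rw [mul_add] at h7
        linarith
  refine (main N).trans ?_
  have := hP2 (N * K.J + K.J0)
  nlinarith

theorem pow_trunc (i a : ℕ) : ((4 : ℝ) / 9) ^ (i * K.J - a) ≤ (9 / 4) ^ a * (4 / 9) ^ i := by
  have hJ := K.J_pos
  have h0 : i ≤ i * K.J := Nat.le_mul_of_pos_right _ hJ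
  have h1 : ((4 : ℝ) / 9) ^ (i * K.J - a) * (4 / 9) ^ a ≤ (4 / 9) ^ i := by
    rw [← pow_add]
    exact pow_le_pow_of_le_one (by norm_num) (by norm_num) (by omega)
  have h2 : ((9 : ℝ) / 4) ^ a * (4 / 9) ^ a = 1 := by
    rw [← mul_pow]; norm_num
  have h3 : (0 : ℝ) < (9 / 4) ^ a := by positivity
  calc ((4 : ℝ) / 9) ^ (i * K.J - a)
      = (9 / 4) ^ a * ((4 / 9) ^ (i * K.J - a) * (4 / 9) ^ a) := by
        rw [mul_comm (((4 : ℝ) / 9) ^ (i * K.J - a)), ← mul_assoc, h2, one_mul]
    _ ≤ (9 / 4) ^ a * (4 / 9) ^ i := by gcongr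

theorem sum_del (N : ℕ) (R : Option (List D)) (z : ℂ) :
    ∑ i ∈ Finset.range N, K.del i R z = K.s N R z := by
  induction N with
  | zero => rfl
  | succ N ih => rw [Finset.sum_range_succ, ih, s_succ]

theorem summable_bound (a : ℕ) : Summable fun i : ℕ => K.c1 * ((9 / 4) ^ a * (4 / 9) ^ i) :=
  ((summable_geometric_of_lt_one (by norm_num) (by norm_num)).mul_left _).mul_left _

theorem summable_del {R : Option (List D)} {z : ℂ} (hz : z ∈ Nd R) :
    Summable fun i => K.del i R z := by
  obtain ⟨a, ha⟩ := exists_farAt' (Nd_notMem hz) K.T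
  refine Summable.of_norm_bounded (K.summable_bound a) fun i => ?_
  exact (K.del_norm i hz ha).trans (mul_le_mul_of_nonneg_left (K.pow_trunc i a) K.c1_nonneg)

/-- the solution -/
noncomputable def S (R : Option (List D)) (z : ℂ) : ℂ := ∑' i, K.del i R z

theorem s_tendsto {R : Option (List D)} {z : ℂ} (hz : z ∈ Nd R) :
    Tendsto (fun N => K.s N R z) atTop (𝓝 (K.S R z)) := by
  have := (K.summable_del hz).hasSum.tendsto_sum_nat
  refine this.congr fun N => K.sum_del N R z

theorem S_bound {R : Option (List D)} {z : ℂ} (hz : z ∈ Nd R) :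
    ‖K.S R z‖ ≤ K.B + 2 * K.c2 :=
  le_of_tendsto (K.s_tendsto hz).norm (Eventually.of_forall fun N => K.s_bound hz N)

theorem S_diff (R : Option (List D)) : DifferentiableOn ℂ (K.S R) (Nd R) := by
  intro z₀ hz₀
  have hE := Nd_notMem hz₀
  have hη := infDist_pos' hE
  obtain ⟨a, ha⟩ := exists_farAt hE
  have hop : IsOpen (Nd R ∩ ball z₀ (infDist z₀ squareCantor / 2)) :=
    (isOpen_Nd R).inter isOpen_ball
  have hz₀V : z₀ ∈ Nd R ∩ ball z₀ (infDist z₀ squareCantor / 2) :=
    ⟨hz₀, mem_ball_self (by positivity)⟩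
  have hd : DifferentiableOn ℂ (fun z => ∑' i, K.del i R z)
      (Nd R ∩ ball z₀ (infDist z₀ squareCantor / 2)) := by
    refine differentiableOn_tsum_of_summable_norm (K.summable_bound a) (fun i => ?_) hop ?_
    · intro z hz
      refine (K.del_diff i (good_Nd hz.1 ((i + 1) * K.J)) (by omega)
        fun v _ => ?_).differentiableWithinAt
      exact Psi_notMem (Psi_notMem (Nd_notMem hz.1))
    · intro i z hz
      exact (K.del_norm i hz.1 (ha K.T z hz.2)).trans
        (mul_le_mul_of_nonneg_left (K.pow_trunc i a) K.c1_nonneg)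
  exact (hd.differentiableAt (hop.mem_nhds hz₀V)).differentiableWithinAt

theorem sum_ite_range (J N l : ℕ) (a : ℂ) :
    ∑ k ∈ Finset.range J, (if N * J + k = l then a else 0)
      = if N * J ≤ l ∧ l < N * J + J then a else 0 := by
  by_cases h : N * J ≤ l ∧ l < N * J + J
  · rw [if_pos h, Finset.sum_eq_single (l - N * J)]
    · rw [if_pos (by omega)]
    · intro k _ hk
      rw [if_neg (by omega)]
    · intro hk
      rw [Finset.mem_range] at hk
      omega
  · rw [if_neg h]
    refine Finset.sum_eq_zero fun k hk => ?_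
    rw [Finset.mem_range] at hk
    rw [if_neg (by omega)]

theorem s_jump {v₀ : List D} {z : ℂ} (hz : z ∈ Nd (par v₀)) (hz' : z ∈ Nd (some v₀)) (N : ℕ) :
    K.s N (some v₀) z - K.s N (par v₀) z =
      if v₀.length < N * K.J then K.w v₀ (Psi v₀ z) else 0 := by
  classical
  have hdiff : ∀ v, K.term (some v₀) v z - K.term (par v₀) v z =
      if v = v₀ then K.w v₀ (Psi v₀ z) else 0 := by
    intro v
    by_cases hv : v = v₀
    · subst hv
      rw [if_pos rfl]
      have ha : anc (some v) v := (anc_par v v).2 (Or.inr rfl)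
      have h2 := Nd_anc hz' ha
      have h3 := Nd_not_anc hz (not_anc_par v)
      unfold term
      rw [if_pos ha, if_neg (not_anc_par v)]
      exact (K.hw v _ (by linarith) (by linarith)).symm
    · rw [if_neg hv]
      have : anc (some v₀) v ↔ anc (par v₀) v := by
        rw [anc_par]
        exact ⟨fun h => h.resolve_right hv, Or.inl⟩
      rw [K.term_congr this, sub_self]
  induction N with
  | zero =>
    have : ¬ v₀.length < 0 * K.J := by simp
    rw [if_neg this]
    exact sub_self _
  | succ N ih =>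
    rw [s_succ, s_succ]
    have e : K.del N (some v₀) z - K.del N (par v₀) z =
        if N * K.J ≤ v₀.length ∧ v₀.length < N * K.J + K.J then K.w v₀ (Psi v₀ z) else 0 := by
      unfold del
      rw [sub_sub_sub_cancel_right, ← Finset.sum_sub_distrib, ← sum_ite_range]
      refine Finset.sum_congr rfl fun k _ => ?_
      rw [← Finset.sum_sub_distrib]
      simp only [hdiff]
      rw [Finset.sum_ite_eq']
      simp only [mem_lv]
      by_cases h : N * K.J + k = v₀.length
      · rw [if_pos h.symm, if_pos h]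
      · rw [if_neg (fun h' => h h'.symm), if_neg h]
    have e2 : K.s N (some v₀) z + K.del N (some v₀) z - (K.s N (par v₀) z + K.del N (par v₀) z)
        = (K.s N (some v₀) z - K.s N (par v₀) z) + (K.del N (some v₀) z - K.del N (par v₀) z) := by
      ring
    rw [e2, ih, e]
    have hs : (N + 1) * K.J = N * K.J + K.J := by ring
    rw [hs]
    by_cases h1 : v₀.length < N * K.J
    · rw [if_pos h1, if_neg (by omega), if_pos (by omega), add_zero]
    · by_cases h2 : v₀.length < N * K.J + K.J
      · rw [if_neg h1, if_pos (by omega), if_pos (by omega), zero_add]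
      · rw [if_neg h1, if_neg (by omega), if_neg (by omega), zero_add]

theorem S_jump {v₀ : List D} {z : ℂ} (hz : z ∈ Nd (par v₀)) (hz' : z ∈ Nd (some v₀)) :
    K.S (some v₀) z - K.S (par v₀) z = K.w v₀ (Psi v₀ z) := by
  have h1 := (K.s_tendsto hz').sub (K.s_tendsto hz)
  refine tendsto_nhds_unique h1 ?_
  refine tendsto_const_nhds.congr' ?_
  filter_upwards [eventually_gt_atTop v₀.length] with N hN
  rw [K.s_jump hz hz' N, if_pos]
  have := K.J_pos
  nlinarith

end CD

/-- the Cousin problem for porous families is solvable with bounds -/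
def CousinPor (J0 : ℕ) : Prop := ∃ C : ℝ, 0 < C ∧ ∀ (T : List D → Prop),
    (∀ v u, T (v ++ u) → T v) →
    (∀ v, T v → ∃ x : List D, x.length = J0 ∧ ¬ T (v ++ x)) →
    ∀ (w : List D → ℂ → ℂ) (M : ℝ), 0 < M →
    (∀ v, DifferentiableOn ℂ (w v) {z | (74 / 100 : ℝ) < dist z ctr ∧ dist z ctr < 80 / 100}) →
    (∀ v z, (74 / 100 : ℝ) < dist z ctr → dist z ctr < 80 / 100 → ‖w v z‖ ≤ M) →
    (∀ v d, ¬ T v → ∀ z, w (v ++ [d]) z = 0) →
    ∃ S : Option (List D) → ℂ → ℂ, (∀ R, DifferentiableOn ℂ (S R) (Nd R)) ∧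
      (∀ R, ∀ z ∈ Nd R, ‖S R z‖ ≤ C * M) ∧
      (∀ v₀, ∀ z ∈ Nd (par v₀), z ∈ Nd (some v₀) →
        S (some v₀) z - S (par v₀) z = w v₀ (Psi v₀ z))

theorem cousin_por_aux (J0 : ℕ)
    (hsplit : ∃ C : ℝ, 0 < C ∧ ∀ x : List D, x.length ≤ J0 →
    ∀ (w : ℂ → ℂ) (M : ℝ), 0 < M →
    DifferentiableOn ℂ w {z | (74 / 100 : ℝ) < dist z ctr ∧ dist z ctr < 80 / 100} →
    (∀ z, (74 / 100 : ℝ) < dist z ctr → dist z ctr < 80 / 100 → ‖w z‖ ≤ M) →
    ∃ win wout : ℂ → ℂ,
      (∀ z, dist z ctr < 79 / 100 → Psi x z ∉ squareCantor → DifferentiableAt ℂ win z) ∧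
      DifferentiableOn ℂ wout {z | (75 / 100 : ℝ) < dist z ctr} ∧
      (∀ z, (75 / 100 : ℝ) < dist z ctr → dist z ctr < 79 / 100 → w z = win z - wout z) ∧
      (∀ z, dist z ctr < 78 / 100 → ‖win z‖ ≤ C * M * th z) ∧
      (∀ z, (76 / 100 : ℝ) < dist z ctr → ‖wout z‖ ≤ C * M * th z))
    (htrans : ∀ (x : List D) {eta : ℝ}, 0 < eta →
    ∃ (M0 : ℝ) (ψ : ℂ → ℂ),
      (∀ z, Psi x z ∉ squareCantor → DifferentiableAt ℂ ψ z) ∧
      (∀ z, Psi x z ∉ squareCantor → ‖ψ z‖ ≤ M0 * th z) ∧
      (∀ y : List D, y.length = x.length → y ≠ x → ∀ z, dist (Psi y z) ctr ≤ 78 / 100 →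
        ‖ψ z - 1‖ ≤ eta) ∧
      (∀ z, 76 / 100 < dist z ctr → ‖ψ z‖ ≤ eta * th z)) :
    CousinPor J0 := by
  classical
  obtain ⟨C, hC, hsp⟩ := hsplit
  choose M0 ψ hψd hψb hψ1 hψ0 using fun x : List D => htrans x (eta := 1 / 600) (by norm_num)
  set M : ℝ := ∑ x ∈ lv J0, |M0 x| with hM
  have hM0 : 0 ≤ M := Finset.sum_nonneg fun _ _ => abs_nonneg _
  refine ⟨C * (100 * ((J0 + 5 : ℕ) : ℝ) + 2 * ((1 + 100 * ((J0 + 5 : ℕ) : ℝ) * M) *
    (((J0 + 5 : ℕ) : ℝ) + 1) * 66000 * (9 / 4) ^ (J0 + 5 + J0))), by positivity, ?_⟩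
  intro T hT hpor w N hN hwd hwb hw0
  let dl : List D → List D := fun v => if h : T v then (hpor v h).choose else []
  have hdl : ∀ v, T v → (dl v).length = J0 := by
    intro v hv
    simp only [dl, dif_pos hv]
    exact (hpor v hv).choose_spec.1
  have hdl' : ∀ v, (dl v).length ≤ J0 := by
    intro v
    by_cases hv : T v
    · exact (hdl v hv).le
    · simp only [dl, dif_neg hv]
      simp
  have hdlT : ∀ v, ¬ T (v ++ dl v) := by
    intro v
    by_cases hv : T v
    · simp only [dl, dif_pos hv]
      exact (hpor v hv).choose_spec.2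
    · simp only [dl, dif_neg hv, List.append_nil]
      exact hv
  choose win wout h1 h2 h3 h4 h5 using fun v => hsp (dl v) (hdl' v) (w v) N hN (hwd v) (hwb v)
  have hwz : ∀ v, ¬ Tp T v → ∀ z, w v z = 0 := by
    intro v hv z
    unfold Tp at hv
    push Not at hv
    obtain ⟨p, d, rfl, hp⟩ := hv
    exact hw0 p d hp z
  have hL : 0 < C * N := by positivity
  let K : CD :=
    { T := T
      hT := hT
      J0 := J0
      dl := dl
      hdl := hdl
      hdl' := hdl'
      hdlT := hdlT
      win := fun v z => if Tp T v then win v z else 0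
      wout := fun v z => if Tp T v then wout v z else 0
      w := w
      L := C * N
      hL := hL
      hwin := by
        intro v z hz1 hz2
        by_cases hp : Tp T v
        · simp only [if_pos hp]
          exact h1 v z hz1 hz2
        · simp only [if_neg hp]
          exact differentiableAt_const _
      hwout := by
        intro v
        by_cases hp : Tp T v
        · simp only [if_pos hp]
          exact h2 v
        · simp only [if_neg hp]
          exact differentiableOn_const _
      hw := by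
        intro v z hz1 hz2
        by_cases hp : Tp T v
        · simp only [if_pos hp]
          exact h3 v z hz1 hz2
        · simp only [if_neg hp]
          rw [hwz v hp z, sub_zero]
      hwinb := by
        intro v z hz
        by_cases hp : Tp T v
        · simp only [if_pos hp]
          exact h4 v z hz
        · simp only [if_neg hp, norm_zero]
          have := th_pos z
          positivity
      hwoutb := by
        intro v z hz
        by_cases hp : Tp T v
        · simp only [if_pos hp]
          exact h5 v z hz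
        · simp only [if_neg hp, norm_zero]
          have := th_pos z
          positivity
      hwin0 := fun v hp z => by simp only [if_neg hp]
      hwout0 := fun v hp z => by simp only [if_neg hp]
      ψ := ψ
      M0 := M
      hM0 := hM0
      hψd := fun x _ => hψd x
      hψb := by
        intro x hx z hz
        refine (hψb x z hz).trans ?_
        have h6 := th_pos z
        have h7 : M0 x ≤ M := by
          refine (le_abs_self _).trans ?_
          exact Finset.single_le_sum (f := fun x => |M0 x|) (fun _ _ => abs_nonneg _)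
            (mem_lv.2 hx)
        gcongr
      hψ1 := fun x hx y hy hne z hz => hψ1 x y (by rw [hx, hy]) hne z hz
      hψ0 := fun x _ z hz => hψ0 x z hz }
  refine ⟨K.S, K.S_diff, fun R z hz => ?_, fun v₀ z hz hz' => K.S_jump hz hz'⟩
  refine (K.S_bound hz).trans (le_of_eq ?_)
  have hKJ : K.J = J0 + 5 := rfl
  have hKL : K.L = C * N := rfl
  have hKM : K.M0 = M := rfl
  have hKJ0 : K.J0 = J0 := rfl
  unfold CD.c2 CD.c1 CD.B
  rw [hKJ, hKL, hKM, hKJ0]
  ring

end Pool.Corona91698f
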