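import Mathlib
import Pool.Agent.Corona91698f.PorDefs

/-!
# Splitting with a dump square
-/

open Complex Metric Set Filter Topology
open scoped Real

set_option autoImplicit false

namespace Pool.Corona91698f

theorem Psi_sub (x : List D) (z w : ℂ) : Psi x z - Psi x w = 3 ^ x.length * (z - w) := by
  induction x generalizing z w with
  | nil => simp
  | cons d x ih =>
    rw [Psi_cons, Psi_cons, ih, List.length_cons, pow_succ]
    unfold psi
    ring

theorem dist_Phi_ctr (x : List D) : dist (Phi x ctr) ctr ≤ 71 / 100 := by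
  induction x with
  | nil =>
    rw [Phi_nil, dist_self]
    norm_num
  | cons d x ih =>
    rw [Phi_cons]
    have h1 := dist_triangle (phi d (Phi x ctr)) (phi d ctr) ctr
    have h2 := dist_phi' d (Phi x ctr) ctr
    have h3 := dist_phi_ctr d
    linarith

theorem dist_Psi_ge (x : List D) {z : ℂ} (hz : 1 ≤ dist z ctr) :
    dist z ctr ≤ dist (Psi x z) ctr := by
  induction x generalizing z with
  | nil => simp
  | cons d x ih =>
    rw [Psi_cons]
    have h1 := dist_psi_ge d z
    have h2 : dist z ctr ≤ dist (psi d z) ctr := by linarith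
    exact h2.trans (ih (hz.trans h2))

theorem not_mem_of_far (x : List D) {z : ℂ} (hz : (75 / 100 : ℝ) < dist z ctr) :
    Psi x z ∉ squareCantor := by
  intro h
  have h1 : ∀ (x : List D) (y : ℂ), y ∈ squareCantor → Phi x y ∈ squareCantor := by
    intro x y hy
    induction x with
    | nil => simpa using hy
    | cons d x ih =>
      rw [Phi_cons]
      exact phi_mem ih
  have h2 := h1 x _ h
  rw [Phi_Psi] at h2
  have h3 := squareCantor_dist' h2
  linarith

theorem Wx_far (x : List D) {z : ℂ} (hz : 1 ≤ dist z ctr) :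
    ‖Wx x z - (z - ctr)⁻¹‖ ≤ (3 ^ x.length * 540 + 3) * (1 / dist z ctr ^ 2) := by
  set N := x.length with hN
  set p := Phi x ctr with hp
  have hD : 0 < dist z ctr := by linarith
  have h3N : (0 : ℝ) < 3 ^ N := by positivity
  have hge := dist_Psi_ge x hz
  have hpc : dist p ctr ≤ 71 / 100 := dist_Phi_ctr x
  have hzp : 29 / 100 * dist z ctr ≤ dist z p := by
    have := dist_triangle z p ctr
    linarith
  have e1 : Psi x z - ctr = 3 ^ N * (z - p) := by
    have := Psi_sub x z p
    rw [hp, Psi_Phi] at this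
    exact this
  have hzp0 : z - p ≠ 0 := by
    rw [sub_ne_zero, ← dist_pos]
    nlinarith
  have hzc0 : z - ctr ≠ 0 := by
    rw [sub_ne_zero, ← dist_pos]
    exact hD
  have h3c : (3 : ℂ) ^ N ≠ 0 := pow_ne_zero _ (by norm_num)
  have e2 : (3 : ℂ) ^ N * (Psi x z - ctr)⁻¹ = (z - p)⁻¹ := by
    rw [e1, mul_inv, ← mul_assoc, mul_inv_cancel₀ h3c, one_mul]
  have e3 : Wx x z - (z - ctr)⁻¹ = 3 ^ N * (W (Psi x z) - (Psi x z - ctr)⁻¹) +
      (p - ctr) * ((z - p)⁻¹ * (z - ctr)⁻¹) := by
    have e4 : (p - ctr) * ((z - p)⁻¹ * (z - ctr)⁻¹) = (z - p)⁻¹ - (z - ctr)⁻¹ := by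
      field_simp
      ring
    rw [e4, mul_sub, e2]
    unfold Wx
    ring
  have n3 : ‖(3 : ℂ) ^ N‖ = 3 ^ N := by
    rw [norm_pow]
    norm_num
  have b1 : ‖(3 : ℂ) ^ N * (W (Psi x z) - (Psi x z - ctr)⁻¹)‖ ≤
      3 ^ N * (540 * (1 / dist z ctr ^ 2)) := by
    rw [norm_mul, n3]
    have h1 := W_far (z := Psi x z) (hz.trans hge)
    have h2 : 1 / dist (Psi x z) ctr ^ 2 ≤ 1 / dist z ctr ^ 2 := by
      apply one_div_le_one_div_of_le (by positivity)
      gcongr
    calc (3 : ℝ) ^ N * ‖W (Psi x z) - (Psi x z - ctr)⁻¹‖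
        ≤ 3 ^ N * (540 * (1 / dist (Psi x z) ctr ^ 2)) := by gcongr
      _ ≤ 3 ^ N * (540 * (1 / dist z ctr ^ 2)) := by gcongr
  have b2 : ‖(p - ctr) * ((z - p)⁻¹ * (z - ctr)⁻¹)‖ ≤ 3 * (1 / dist z ctr ^ 2) := by
    rw [norm_mul, norm_mul, norm_inv, norm_inv, ← dist_eq_norm, ← dist_eq_norm, ← dist_eq_norm]
    have h1 : (dist z p)⁻¹ ≤ (29 / 100 * dist z ctr)⁻¹ := inv_anti₀ (by positivity) hzp
    calc dist p ctr * ((dist z p)⁻¹ * (dist z ctr)⁻¹)
        ≤ 71 / 100 * ((29 / 100 * dist z ctr)⁻¹ * (dist z ctr)⁻¹) := by gcongr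
      _ = 71 / 29 * (1 / dist z ctr ^ 2) := by field_simp
      _ ≤ 3 * (1 / dist z ctr ^ 2) := by
        gcongr
        norm_num
  rw [e3]
  refine (norm_add_le _ _).trans ((add_le_add b1 b2).trans (le_of_eq ?_))
  ring

/-- Splitting of a cocycle on the standard annulus; the charge is dumped in the square of `x`. -/
theorem split_dump (J0 : ℕ) : ∃ C : ℝ, 0 < C ∧ ∀ x : List D, x.length ≤ J0 →
    ∀ (w : ℂ → ℂ) (M : ℝ), 0 < M →
    DifferentiableOn ℂ w {z | (74 / 100 : ℝ) < dist z ctr ∧ dist z ctr < 80 / 100} →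
    (∀ z, (74 / 100 : ℝ) < dist z ctr → dist z ctr < 80 / 100 → ‖w z‖ ≤ M) →
    ∃ win wout : ℂ → ℂ,
      (∀ z, dist z ctr < 79 / 100 → Psi x z ∉ squareCantor → DifferentiableAt ℂ win z) ∧
      DifferentiableOn ℂ wout {z | (75 / 100 : ℝ) < dist z ctr} ∧
      (∀ z, (75 / 100 : ℝ) < dist z ctr → dist z ctr < 79 / 100 → w z = win z - wout z) ∧
      (∀ z, dist z ctr < 78 / 100 → ‖win z‖ ≤ C * M * th z) ∧
      (∀ z, (76 / 100 : ℝ) < dist z ctr → ‖wout z‖ ≤ C * M * th z) := by
  refine ⟨2000000 * 3 ^ J0, by positivity, ?_⟩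
  intro x hx w M hM0 hw hM
  obtain ⟨K, hK⟩ : ∃ K : ℝ, K = 3 ^ J0 := ⟨_, rfl⟩
  have hK1 : 1 ≤ K := by rw [hK]; exact one_le_pow₀ (by norm_num)
  have hxK : (3 : ℝ) ^ x.length ≤ K := by
    rw [hK]
    exact pow_le_pow_right₀ (by norm_num) hx
  rw [← hK]
  have hMK : M ≤ K * M := by nlinarith
  obtain ⟨wp, wm, hwp, hwm, he, -, hbd⟩ := laurent_full (c := ctr) (r₁ := 74 / 100)
    (ra := 75 / 100) (rb := 79 / 100) (r₂ := 80 / 100) (by norm_num) (by norm_num) (by norm_num)
    (by norm_num) hw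
  obtain ⟨hbp, hbm⟩ := hbd M hM
  have hsub : {z : ℂ | (755 / 1000 : ℝ) < dist z ctr} ⊆ {z : ℂ | (75 / 100 : ℝ) < dist z ctr} :=
    fun z hz => lt_trans (by norm_num) (show (755 / 1000 : ℝ) < dist z ctr from hz)
  have hbm2 : ∀ z, (755 / 1000 : ℝ) < dist z ctr → ‖wm z‖ ≤ 150 * M := by
    intro z hz
    refine (hbm z (by linarith)).trans ?_
    have h1 : (75 / 100 : ℝ) / (dist z ctr - 75 / 100) ≤ 150 := by
      rw [div_le_iff₀ (by linarith)]
      linarith
    gcongr
  have hlim : Tendsto wm (cocompact ℂ) (𝓝 0) := by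
    rw [tendsto_zero_iff_norm_tendsto_zero]
    have hd : Tendsto (fun z : ℂ => dist z ctr) (cocompact ℂ) atTop :=
      tendsto_dist_left_cocompact_atTop ctr |>.congr (fun z => dist_comm _ _)
    have h1 : Tendsto (fun z : ℂ => (75 / 100 : ℝ) / (dist z ctr - 75 / 100) * M) (cocompact ℂ)
        (𝓝 (0 * M)) := by
      refine Tendsto.mul_const _ ?_
      refine Tendsto.const_div_atTop ?_ _
      exact tendsto_atTop_add_const_right _ _ hd
    rw [zero_mul] at h1
    refine squeeze_zero' (Eventually.of_forall fun z => norm_nonneg _) ?_ h1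
    filter_upwards [hd.eventually (eventually_gt_atTop (75 / 100 : ℝ))] with z hz
    exact hbm z hz
  obtain ⟨a, ha, hat⟩ := tail (c := ctr) (ρ := 755 / 1000) (B := 150 * M) (by norm_num)
    (by positivity) (hwm.mono hsub) hbm2 hlim
  have ha' : ‖a‖ ≤ 114 * M := by nlinarith
  have haW : ∀ z, ‖a * Wx x z‖ ≤ 903108 * (K * M) := by
    intro z
    rw [norm_mul]
    have := Wx_norm x z
    calc ‖a‖ * ‖Wx x z‖ ≤ (114 * M) * (K * 7922) := by
          refine mul_le_mul ha' (this.trans ?_) (norm_nonneg _) (by positivity)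
          gcongr
      _ = 903108 * (K * M) := by ring
  have hhalf : ∀ z, dist z ctr < 1 → 1 / 2 ≤ th z := by
    intro z hz
    unfold th
    rw [one_div]
    apply inv_anti₀ (by positivity)
    have := dist_nonneg (x := z) (y := ctr)
    nlinarith
  have hKM : 0 < K * M := by positivity
  refine ⟨fun z => wp z + a * Wx x z, fun z => -wm z + a * Wx x z, ?_, ?_, ?_, ?_, ?_⟩
  · intro z hz hzx
    have h1 : DifferentiableAt ℂ wp z :=
      hwp.differentiableAt (isOpen_ball.mem_nhds (mem_ball.2 hz))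
    exact h1.add ((Wx_differentiableAt hzx).const_mul a)
  · refine hwm.neg.add fun z hz => ?_
    exact ((Wx_differentiableAt (not_mem_of_far x hz)).const_mul a).differentiableWithinAt
  · intro z h1 h2
    rw [he z h1 h2]
    ring
  · intro z hz
    have h1 := hbp z (by linarith)
    have h2 : (79 / 100 : ℝ) / (79 / 100 - dist z ctr) * M ≤ 79 * M := by
      have : (79 / 100 : ℝ) / (79 / 100 - dist z ctr) ≤ 79 := by
        rw [div_le_iff₀ (by linarith)]
        linarith
      gcongr
    have h3 := haW z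
    have h4 := hhalf z (by linarith)
    have h5 : ‖wp z + a * Wx x z‖ ≤ 79 * M + 903108 * (K * M) :=
      (norm_add_le _ _).trans (add_le_add (h1.trans h2) h3)
    have h6 : K * M * (1 / 2) ≤ K * M * th z := by gcongr
    show ‖wp z + a * Wx x z‖ ≤ 2000000 * K * M * th z
    have e : 2000000 * K * M * th z = 2000000 * (K * M * th z) := by ring
    rw [e]
    linarith
  · intro z hz
    show ‖-wm z + a * Wx x z‖ ≤ 2000000 * K * M * th z
    have e0 : 2000000 * K * M * th z = 2000000 * (K * M * th z) := by ring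
    rw [e0]
    rcases lt_or_ge (dist z ctr) 1 with h | h
    · have h1 := hbm z (by linarith)
      have h2 : (75 / 100 : ℝ) / (dist z ctr - 75 / 100) * M ≤ 75 * M := by
        have : (75 / 100 : ℝ) / (dist z ctr - 75 / 100) ≤ 75 := by
          rw [div_le_iff₀ (by linarith)]
          linarith
        gcongr
      have h3 := haW z
      have h4 := hhalf z h
      have h5 : ‖-wm z + a * Wx x z‖ ≤ 75 * M + 903108 * (K * M) := by
        refine (norm_add_le _ _).trans (add_le_add ?_ h3)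
        rw [norm_neg]
        exact h1.trans h2
      have h6 : K * M * (1 / 2) ≤ K * M * th z := by gcongr
      linarith
    · have h1 := hat z (by linarith)
      have h2 := Wx_far x h
      have h3 := inv_sq_le_th h
      have e : -wm z + a * Wx x z = -(wm z - a * (z - ctr)⁻¹) + a * (Wx x z - (z - ctr)⁻¹) := by
        ring
      have hq : 0 < 1 / dist z ctr ^ 2 := by positivity
      have h2' : ‖Wx x z - (z - ctr)⁻¹‖ ≤ (543 * K) * (1 / dist z ctr ^ 2) := by
        refine h2.trans ?_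
        gcongr
        linarith
      have h4 : ‖-wm z + a * Wx x z‖ ≤ 2 * (755 / 1000) ^ 2 * (150 * M) * (1 / dist z ctr ^ 2)
          + (114 * M) * ((543 * K) * (1 / dist z ctr ^ 2)) := by
        rw [e]
        refine (norm_add_le _ _).trans (add_le_add ?_ ?_)
        · rw [norm_neg]; exact h1
        · rw [norm_mul]
          gcongr
      have h5 := th_pos z
      have h6 : (K * M) * (1 / dist z ctr ^ 2) ≤ (K * M) * (2 * th z) := by gcongr
      have h7 : M * (1 / dist z ctr ^ 2) ≤ (K * M) * (1 / dist z ctr ^ 2) := by gcongr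
      have h8 : 0 < (K * M) * th z := by positivity
      have h9 : (114 * M) * ((543 * K) * (1 / dist z ctr ^ 2)) =
          61902 * ((K * M) * (1 / dist z ctr ^ 2)) := by ring
      have h10 : 2 * (755 / 1000) ^ 2 * (150 * M) * (1 / dist z ctr ^ 2) ≤
          172 * (M * (1 / dist z ctr ^ 2)) := by
        have : 0 < M * (1 / dist z ctr ^ 2) := by positivity
        nlinarith
      rw [h9] at h4
      nlinarith

end Pool.Corona91698f
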