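import Mathlib
import Pool.Agent.Corona91698f.PorDefs

/-!
# The transfer function of a word
-/

open Complex Metric Set Filter Topology

set_option autoImplicit false

namespace Pool.Corona91698f

namespace Trf

/-- the closed set on which functions are approximated -/
def XX (x : List D) : Set ℂ :=
  {z | (76 / 100 : ℝ) ≤ dist z ctr} ∪
    ⋃ y ∈ {y : List D | y.length = x.length ∧ y ≠ x}, {z | dist (Psi y z) ctr ≤ 78 / 100}

theorem isClosed_XX (x : List D) : IsClosed (XX x) := by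
  refine IsClosed.union ?_ ?_
  · exact isClosed_le continuous_const (continuous_id.dist continuous_const)
  · refine Set.Finite.isClosed_biUnion ?_ fun y _ => ?_
    · exact (List.finite_length_eq D x.length).subset fun y hy => hy.1
    · exact isClosed_le ((differentiable_Psi y).continuous.dist continuous_const) continuous_const

theorem mem_XX_ext {x : List D} {z : ℂ} (h : (76 / 100 : ℝ) ≤ dist z ctr) : z ∈ XX x := Or.inl h

theorem mem_XX_disc {x y : List D} {z : ℂ} (h1 : y.length = x.length) (h2 : y ≠ x)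
    (h : dist (Psi y z) ctr ≤ 78 / 100) : z ∈ XX x := by
  refine Or.inr ?_
  simp only [mem_iUnion]
  exact ⟨y, ⟨h1, h2⟩, h⟩

theorem notMem_XX {x : List D} {z : ℂ} (h : dist z ctr < 76 / 100)
    (h' : ∀ y : List D, y.length = x.length → y ≠ x → 78 / 100 < dist (Psi y z) ctr) :
    z ∉ XX x := by
  rintro (h1 | h1)
  · have : (76 / 100 : ℝ) ≤ dist z ctr := h1
    linarith
  · simp only [mem_iUnion] at h1
    obtain ⟨y, ⟨h2, h3⟩, h4⟩ := h1
    have h5 := h' y h2 h3
    have h6 : dist (Psi y z) ctr ≤ 78 / 100 := h4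
    linarith

/-- near a nonempty word, sharper -/
theorem near_prefix' {v : List D} {z : ℂ} (hv : v ≠ []) (h : dist (Psi v z) ctr ≤ 78 / 100) :
    dist z ctr ≤ 7315 / 10000 := by
  cases v with
  | nil => exact absurd rfl hv
  | cons d v =>
    rw [Psi_cons] at h
    have h1 : dist (psi d z) ctr ≤ 78 / 100 := by
      by_cases hv' : v = []
      · subst hv'
        exact h
      · have := near_prefix hv' h
        linarith
    have := dist_le_of_psi d z
    linarith

/-- the class of the approximating functions -/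
def Cls (x : List D) (h : ℂ → ℂ) : Prop :=
  (∀ z, Psi x z ∉ squareCantor → DifferentiableAt ℂ h z) ∧
    (∃ B : ℝ, ∀ z, Psi x z ∉ squareCantor → ‖h z‖ ≤ B) ∧ Tendsto h (cocompact ℂ) (𝓝 0)

theorem Cls.zero (x : List D) : Cls x 0 :=
  ⟨fun z _ => differentiableAt_const (0 : ℂ), ⟨0, fun z _ => by simp⟩, tendsto_const_nhds⟩

theorem Cls.add {x : List D} {h k : ℂ → ℂ} (hh : Cls x h) (hk : Cls x k) : Cls x (h + k) := by
  obtain ⟨h1, ⟨B, hB⟩, h3⟩ := hh
  obtain ⟨k1, ⟨C, hC⟩, k3⟩ := hk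
  refine ⟨fun z hz => (h1 z hz).add (k1 z hz), ⟨B + C, fun z hz => ?_⟩, ?_⟩
  · exact (norm_add_le _ _).trans (add_le_add (hB z hz) (hC z hz))
  · have := h3.add k3
    rw [add_zero] at this
    exact this

theorem Cls.mul {x : List D} {h k : ℂ → ℂ} (hh : Cls x h) (hk : Cls x k) : Cls x (h * k) := by
  obtain ⟨h1, ⟨B, hB⟩, h3⟩ := hh
  obtain ⟨k1, ⟨C, hC⟩, k3⟩ := hk
  refine ⟨fun z hz => (h1 z hz).mul (k1 z hz), ⟨B * C, fun z hz => ?_⟩, ?_⟩
  · rw [Pi.mul_apply, norm_mul]
    exact mul_le_mul (hB z hz) (hC z hz) (norm_nonneg _) ((norm_nonneg _).trans (hB z hz))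
  · have := h3.mul k3
    rw [mul_zero] at this
    exact this

theorem Cls.smul {x : List D} {h : ℂ → ℂ} (hh : Cls x h) (c : ℂ) :
    Cls x (fun z => c * h z) := by
  obtain ⟨h1, ⟨B, hB⟩, h3⟩ := hh
  refine ⟨fun z hz => (h1 z hz).const_mul c, ⟨‖c‖ * B, fun z hz => ?_⟩, ?_⟩
  · rw [norm_mul]
    exact mul_le_mul_of_nonneg_left (hB z hz) (norm_nonneg _)
  · have := h3.const_mul c
    rw [mul_zero] at this
    exact this

/-- uniform limits, on the set `XX x`, of functions of the class; bounded on `XX x` -/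
def Appr (x : List D) (F : ℂ → ℂ) : Prop :=
  (∃ B : ℝ, 0 ≤ B ∧ ∀ z ∈ XX x, ‖F z‖ ≤ B) ∧
    ∀ ε : ℝ, 0 < ε → ∃ h, Cls x h ∧ ∀ z ∈ XX x, ‖F z - h z‖ ≤ ε

theorem Appr.zero (x : List D) : Appr x 0 :=
  ⟨⟨0, le_rfl, fun z _ => by simp⟩, fun ε hε => ⟨0, Cls.zero x, fun z _ => by simpa using hε.le⟩⟩

theorem Appr.add {x : List D} {F G : ℂ → ℂ} (hF : Appr x F) (hG : Appr x G) :
    Appr x (F + G) := by
  obtain ⟨⟨B, hB0, hB⟩, hF⟩ := hF
  obtain ⟨⟨C, hC0, hC⟩, hG⟩ := hG
  refine ⟨⟨B + C, by positivity, fun z hz => ?_⟩, fun ε hε => ?_⟩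
  · exact (norm_add_le _ _).trans (add_le_add (hB z hz) (hC z hz))
  · obtain ⟨h, h1, h2⟩ := hF (ε / 2) (by positivity)
    obtain ⟨k, k1, k2⟩ := hG (ε / 2) (by positivity)
    refine ⟨h + k, h1.add k1, fun z hz => ?_⟩
    have e : (F + G) z - (h + k) z = (F z - h z) + (G z - k z) := by
      simp only [Pi.add_apply]; ring
    rw [e]
    refine (norm_add_le _ _).trans ?_
    have := h2 z hz
    have := k2 z hz
    linarith

theorem Appr.mul {x : List D} {F G : ℂ → ℂ} (hF : Appr x F) (hG : Appr x G) :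
    Appr x (F * G) := by
  obtain ⟨⟨B, hB0, hB⟩, hF⟩ := hF
  obtain ⟨⟨C, hC0, hC⟩, hG⟩ := hG
  refine ⟨⟨B * C, by positivity, fun z hz => ?_⟩, fun ε hε => ?_⟩
  · rw [Pi.mul_apply, norm_mul]
    exact mul_le_mul (hB z hz) (hC z hz) (norm_nonneg _) hB0
  · set τ : ℝ := min 1 (ε / (B + C + 1)) with hτ
    have hτ0 : 0 < τ := lt_min one_pos (by positivity)
    have hτ1 : τ ≤ 1 := min_le_left _ _
    have hτ2 : τ * (B + C + 1) ≤ ε := by
      have := min_le_right 1 (ε / (B + C + 1))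
      rw [← hτ, le_div_iff₀ (by positivity)] at this
      exact this
    obtain ⟨h, h1, h2⟩ := hF τ hτ0
    obtain ⟨k, k1, k2⟩ := hG τ hτ0
    refine ⟨h * k, h1.mul k1, fun z hz => ?_⟩
    have e : (F * G) z - (h * k) z = F z * (G z - k z) + (F z - h z) * k z := by
      simp only [Pi.mul_apply]; ring
    rw [e]
    refine (norm_add_le _ _).trans ?_
    rw [norm_mul, norm_mul]
    have a1 := hB z hz
    have a2 := hC z hz
    have a3 := h2 z hz
    have a4 := k2 z hz
    have a5 : ‖k z‖ ≤ C + 1 := by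
      have e2 : k z = G z - (G z - k z) := by ring
      rw [e2]
      refine (norm_sub_le _ _).trans ?_
      linarith
    calc ‖F z‖ * ‖G z - k z‖ + ‖F z - h z‖ * ‖k z‖ ≤ B * τ + τ * (C + 1) := by gcongr
      _ = τ * (B + C + 1) := by ring
      _ ≤ ε := hτ2

theorem Appr.smul {x : List D} {F : ℂ → ℂ} (hF : Appr x F) (c : ℂ) :
    Appr x (fun z => c * F z) := by
  obtain ⟨⟨B, hB0, hB⟩, hF⟩ := hF
  refine ⟨⟨‖c‖ * B, by positivity, fun z hz => ?_⟩, fun ε hε => ?_⟩
  · rw [norm_mul]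
    exact mul_le_mul_of_nonneg_left (hB z hz) (norm_nonneg _)
  · obtain ⟨h, h1, h2⟩ := hF (ε / (‖c‖ + 1)) (by positivity)
    refine ⟨fun z => c * h z, h1.smul c, fun z hz => ?_⟩
    rw [← mul_sub, norm_mul]
    have h3 := h2 z hz
    rw [le_div_iff₀ (by positivity)] at h3
    nlinarith [norm_nonneg c, norm_nonneg (F z - h z)]

/-- closed under uniform limits -/
theorem Appr.limit {x : List D} {F : ℂ → ℂ}
    (hF : ∀ ε : ℝ, 0 < ε → ∃ G, Appr x G ∧ ∀ z ∈ XX x, ‖F z - G z‖ ≤ ε) : Appr x F := by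
  refine ⟨?_, fun ε hε => ?_⟩
  · obtain ⟨G, ⟨⟨B, hB0, hB⟩, -⟩, hG⟩ := hF 1 one_pos
    refine ⟨1 + B, by positivity, fun z hz => ?_⟩
    have e : F z = (F z - G z) + G z := by ring
    rw [e]
    exact (norm_add_le _ _).trans (add_le_add (hG z hz) (hB z hz))
  · obtain ⟨G, ⟨-, hG1⟩, hG⟩ := hF (ε / 2) (by positivity)
    obtain ⟨h, h1, h2⟩ := hG1 (ε / 2) (by positivity)
    refine ⟨h, h1, fun z hz => ?_⟩
    have e : F z - h z = (F z - G z) + (G z - h z) := by ring
    rw [e]
    refine (norm_add_le _ _).trans ?_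
    have := hG z hz
    have := h2 z hz
    linarith

/-- moving the pole -/
theorem Appr.move {x : List D} {a a' : ℂ} {r : ℝ} (hr : 0 < r)
    (ha : Appr x fun z => (z - a)⁻¹) (hX : ∀ z ∈ XX x, r ≤ dist z a) (h : dist a' a ≤ r / 2) :
    Appr x fun z => (z - a')⁻¹ := by
  refine Appr.limit fun ε hε => ?_
  obtain ⟨n, hn⟩ : ∃ n : ℕ, (1 / 2 : ℝ) ^ n * (2 / r) ≤ ε := by
    obtain ⟨n, hn⟩ := exists_pow_lt_of_lt_one (show 0 < ε * r / 2 by positivity)
      (show (1 / 2 : ℝ) < 1 by norm_num)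
    refine ⟨n, ?_⟩
    rw [mul_div_assoc', div_le_iff₀ hr]
    linarith
  have hpow : ∀ i : ℕ, Appr x fun z => ((z - a)⁻¹) ^ (i + 1) := by
    intro i
    induction i with
    | zero => simpa using ha
    | succ i ih =>
      have h1 := ih.mul ha
      have e : (fun z => ((z - a)⁻¹) ^ (i + 1 + 1)) =
          (fun z => ((z - a)⁻¹) ^ (i + 1)) * fun z => (z - a)⁻¹ := by
        funext z
        rw [Pi.mul_apply, pow_succ]
      rw [e]
      exact h1
  have hsum : ∀ n : ℕ, Appr x fun z =>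
      ∑ i ∈ Finset.range n, (a' - a) ^ i * ((z - a)⁻¹) ^ (i + 1) := by
    intro n
    induction n with
    | zero =>
      simp only [Finset.range_zero, Finset.sum_empty]
      exact Appr.zero x
    | succ n ih =>
      have h1 := ih.add ((hpow n).smul ((a' - a) ^ n))
      have e : (fun z => ∑ i ∈ Finset.range (n + 1), (a' - a) ^ i * ((z - a)⁻¹) ^ (i + 1)) =
          (fun z => ∑ i ∈ Finset.range n, (a' - a) ^ i * ((z - a)⁻¹) ^ (i + 1)) +
            fun z => (a' - a) ^ n * ((z - a)⁻¹) ^ (n + 1) := by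
        funext z
        rw [Pi.add_apply, Finset.sum_range_succ]
      rw [e]
      exact h1
  refine ⟨_, hsum n, fun z hz => ?_⟩
  have h1 := hX z hz
  have h2 : r / 2 ≤ dist z a' := by
    have := dist_triangle z a' a
    linarith
  have hza : z - a ≠ 0 := by
    intro h0
    rw [dist_eq_norm, h0, norm_zero] at h1
    linarith
  have hza' : z - a' ≠ 0 := by
    intro h0
    rw [dist_eq_norm, h0, norm_zero] at h2
    linarith
  have key : ∀ n : ℕ, (z - a')⁻¹ - ∑ i ∈ Finset.range n, (a' - a) ^ i * ((z - a)⁻¹) ^ (i + 1) =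
      ((a' - a) * (z - a)⁻¹) ^ n * (z - a')⁻¹ := by
    intro n
    induction n with
    | zero => simp
    | succ n ih =>
      have hw : (z - a')⁻¹ - (z - a)⁻¹ = (a' - a) * (z - a)⁻¹ * (z - a')⁻¹ := by
        field_simp
        ring
      rw [Finset.sum_range_succ, ← sub_sub, ih, mul_pow, mul_pow]
      linear_combination (a' - a) ^ n * ((z - a)⁻¹) ^ n * hw
  rw [key n, norm_mul, norm_pow]
  have h3 : ‖(a' - a) * (z - a)⁻¹‖ ≤ 1 / 2 := by
    rw [norm_mul, norm_inv, ← dist_eq_norm, ← dist_eq_norm, ← div_eq_mul_inv,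
      div_le_iff₀ (by linarith)]
    linarith
  have h4 : ‖(z - a')⁻¹‖ ≤ 2 / r := by
    rw [norm_inv, ← dist_eq_norm, inv_le_comm₀ (by linarith) (by positivity), inv_div]
    exact h2
  calc ‖(a' - a) * (z - a)⁻¹‖ ^ n * ‖(z - a')⁻¹‖ ≤ (1 / 2) ^ n * (2 / r) := by gcongr
    _ ≤ ε := hn

theorem XX_nonempty (x : List D) : (XX x).Nonempty := by
  refine ⟨ctr + 1, mem_XX_ext ?_⟩
  rw [dist_eq_norm]
  simp
  norm_num

/-- the poles of the approximable functions are constant on preconnected sets off `XX x` -/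
theorem Appr.connected {x : List D} {P : Set ℂ} (hP : IsPreconnected P) (hPX : P ⊆ (XX x)ᶜ)
    {b : ℂ} (hb : b ∈ P) (hAb : Appr x fun z => (z - b)⁻¹) {a : ℂ} (ha : a ∈ P) :
    Appr x fun z => (z - a)⁻¹ := by
  have hpos : ∀ c ∈ (XX x)ᶜ, 0 < infDist c (XX x) := fun c hc =>
    ((isClosed_XX x).notMem_iff_infDist_pos (XX_nonempty x)).1 hc
  have hdist : ∀ c : ℂ, ∀ z ∈ XX x, infDist c (XX x) ≤ dist z c := fun c z hz => by
    rw [dist_comm]
    exact infDist_le_dist_of_mem hz
  have hlip : ∀ c c' : ℂ, infDist c (XX x) ≤ infDist c' (XX x) + dist c c' := fun c c' =>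
    infDist_le_infDist_add_dist
  set u : Set ℂ := {c | c ∈ (XX x)ᶜ ∧ Appr x fun z => (z - c)⁻¹} with hu
  set v : Set ℂ := {c | c ∈ (XX x)ᶜ ∧ ¬ Appr x fun z => (z - c)⁻¹} with hv
  have hopX : IsOpen (XX x)ᶜ := (isClosed_XX x).isOpen_compl
  have huo : IsOpen u := by
    rw [isOpen_iff_mem_nhds]
    rintro c ⟨hc1, hc2⟩
    filter_upwards [hopX.mem_nhds hc1, ball_mem_nhds c (half_pos (hpos c hc1))] with c' h1 h2
    exact ⟨h1, hc2.move (hpos c hc1) (hdist c) (mem_ball.1 h2).le⟩
  have hvo : IsOpen v := by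
    rw [isOpen_iff_mem_nhds]
    rintro c ⟨hc1, hc2⟩
    have hr := hpos c hc1
    filter_upwards [hopX.mem_nhds hc1,
      ball_mem_nhds c (show 0 < infDist c (XX x) / 4 by positivity)] with c' h1 h2
    refine ⟨h1, fun h3 => hc2 ?_⟩
    have h4 := hlip c c'
    rw [mem_ball, dist_comm] at h2
    refine h3.move (hpos c' h1) (hdist c') ?_
    linarith
  have hdisj : Disjoint u v := by
    rw [Set.disjoint_left]
    rintro c ⟨-, h1⟩ ⟨-, h2⟩
    exact h2 h1
  have hsub : P ⊆ u ∪ v := fun c hc => by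
    by_cases h : Appr x fun z => (z - c)⁻¹
    · exact Or.inl ⟨hPX hc, h⟩
    · exact Or.inr ⟨hPX hc, h⟩
  have := hP.subset_left_of_subset_union huo hvo hdisj hsub ⟨b, hb, hPX hb, hAb⟩
  exact (this ha).2

/-- the contraction of a word: centres -/
theorem norm_c (d : D) : ‖phi d ctr - ctr‖ ^ 2 = 2 / 9 := by
  rw [← dist_eq_norm, dist_sq]
  have h3re : (phi d ctr).re = (1 / 2 + 2 * (if d.1 then 1 else 0)) / 3 := by
    unfold phi dig ctr
    simp
  have h3im : (phi d ctr).im = (1 / 2 + 2 * (if d.2 then 1 else 0)) / 3 := by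
    unfold phi dig ctr
    simp
  rw [h3re, h3im]
  simp only [ctr]
  rcases d with ⟨a, b⟩
  cases a <;> cases b <;> norm_num

/-- a connected set joining the square of the word `x` to the big circle -/
theorem exists_path (x : List D) : ∃ P : Set ℂ, IsPreconnected P ∧ P ⊆ (XX x)ᶜ ∧
    (∃ b ∈ P, Psi x b ∈ squareCantor) ∧ sphere ctr (3 / 4) ⊆ P := by
  induction x with
  | nil =>
    refine ⟨closedBall ctr (3 / 4), (convex_closedBall _ _).isPreconnected, fun z hz => ?_,
      ⟨0, ?_, zero_mem_squareCantor⟩, sphere_subset_closedBall⟩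
    · refine notMem_XX ?_ fun y hy hy' => ?_
      · have : dist z ctr ≤ 3 / 4 := hz
        linarith
      · exact absurd (List.length_eq_zero_iff.1 hy) hy'
    · have := squareCantor_dist zero_mem_squareCantor
      exact this.le
  | cons d x ih =>
    obtain ⟨P, hP, hPX, ⟨b, hbP, hb⟩, hS⟩ := ih
    set c : ℂ := phi d ctr - ctr with hc
    have hc2 := norm_c d
    have hc1 : (47 / 100 : ℝ) < ‖c‖ := by
      refine lt_of_pow_lt_pow_left₀ 2 (norm_nonneg _) ?_
      rw [hc, hc2]
      norm_num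
    have hc3 : ‖c‖ ≤ 4715 / 10000 := by
      rw [hc, ← dist_eq_norm]
      exact dist_phi_ctr d
    have hc0 : (‖c‖ : ℂ) ≠ 0 := by
      have : (0 : ℝ) < ‖c‖ := by linarith
      exact_mod_cast this.ne'
    set e : ℂ := c / ‖c‖ with he
    have he1 : ‖e‖ = 1 := by
      rw [he, norm_div, Complex.norm_real, norm_norm, div_self]
      linarith
    have hce : c = ‖c‖ * e := by
      rw [he]
      field_simp
    have hphic : phi d ctr = ctr + ‖c‖ * e := by
      rw [← hce, hc]
      ring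
    set seg : Set ℂ := (fun s : ℝ => ctr + (s : ℂ) * e) '' Icc (‖c‖ + 1 / 4) (3 / 4) with hseg
    have hsegp : IsPreconnected seg := by
      refine isPreconnected_Icc.image _ (Continuous.continuousOn ?_)
      fun_prop
    have hsph : IsPreconnected (sphere ctr (3 / 4)) :=
      isPreconnected_sphere (by rw [Complex.rank_real_complex]; norm_num) _ _
    have hphiP : IsPreconnected (phi d '' P) :=
      hP.image _ (differentiable_phi d).continuous.continuousOn
    have hI1 : ‖c‖ + 1 / 4 ≤ 3 / 4 := by linarith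
    -- first junction
    have j1 : phi d (ctr + ((3 / 4 : ℝ) : ℂ) * e) ∈ phi d '' P := by
      refine mem_image_of_mem _ (hS ?_)
      rw [mem_sphere, dist_eq_norm, add_sub_cancel_left, norm_mul, he1, Complex.norm_real]
      norm_num
    have j1' : phi d (ctr + ((3 / 4 : ℝ) : ℂ) * e) ∈ seg := by
      refine ⟨‖c‖ + 1 / 4, ⟨le_rfl, hI1⟩, ?_⟩
      have h1 := phi_sub d (ctr + ((3 / 4 : ℝ) : ℂ) * e) ctr
      rw [add_sub_cancel_left] at h1
      have h2 : phi d (ctr + ((3 / 4 : ℝ) : ℂ) * e) =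
          phi d ctr + ((3 / 4 : ℝ) : ℂ) * e / 3 := by
        rw [← h1]; ring
      rw [h2, hphic]
      push_cast
      ring
    have j2 : ctr + ((3 / 4 : ℝ) : ℂ) * e ∈ seg := ⟨3 / 4, ⟨hI1, le_rfl⟩, rfl⟩
    have j2' : ctr + ((3 / 4 : ℝ) : ℂ) * e ∈ sphere ctr (3 / 4) := by
      rw [mem_sphere, dist_eq_norm, add_sub_cancel_left, norm_mul, he1, Complex.norm_real]
      norm_num
    have hU : IsPreconnected (phi d '' P ∪ seg ∪ sphere ctr (3 / 4)) :=
      IsPreconnected.union _ (Or.inr j2) j2' (IsPreconnected.union _ j1 j1' hphiP hsegp) hsph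
    refine ⟨_, hU, ?_, ⟨phi d b, Or.inl (Or.inl (mem_image_of_mem _ hbP)), ?_⟩,
      subset_union_right⟩
    · -- the set avoids `XX (d :: x)`
      have hother : ∀ z : ℂ, dist (psi d z) ctr < 1 → ∀ y : List D, y.length = (d :: x).length →
          y ≠ d :: x → (∀ y' : List D, y'.length = x.length → y' ≠ x →
            78 / 100 < dist (Psi y' (psi d z)) ctr) → 78 / 100 < dist (Psi y z) ctr := by
        intro z hz y hy hyx hself
        cases y with
        | nil => simp at hy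
        | cons d' y' =>
          simp only [List.length_cons, Nat.add_right_cancel_iff] at hy
          rw [Psi_cons]
          by_cases hdd : d' = d
          · subst hdd
            exact hself y' hy fun h => hyx (by rw [h])
          · by_contra hcon
            push Not at hcon
            have h1 : dist (psi d' z) ctr < 1 := by
              by_cases hy' : y' = []
              · subst hy'
                rw [Psi_nil] at hcon
                linarith
              · have := near_prefix hy' hcon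
                linarith
            exact hdd (psi_disj h1 hz)
      rintro z ((⟨p, hp, rfl⟩ | ⟨s, hs, rfl⟩) | hz)
      · have hp1 : p ∉ XX x := hPX hp
        have hp2 : dist p ctr < 76 / 100 := by
          by_contra hcon
          push Not at hcon
          exact hp1 (mem_XX_ext hcon)
        refine notMem_XX ?_ fun y hy hyx => ?_
        · have := dist_le_of_psi d (phi d p)
          rw [psi_phi] at this
          linarith
        · refine hother _ (by rw [psi_phi]; linarith) y hy hyx fun y' h1 h2 => ?_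
          rw [psi_phi]
          by_contra hcon
          push Not at hcon
          exact hp1 (mem_XX_disc h1 h2 hcon)
      · have h1 : dist (ctr + (s : ℂ) * e) ctr = s := by
          rw [dist_eq_norm, add_sub_cancel_left, norm_mul, he1, Complex.norm_real, mul_one,
            Real.norm_of_nonneg]
          have := hs.1
          linarith
        have h2 : dist (psi d (ctr + (s : ℂ) * e)) ctr = 3 * (s - ‖c‖) := by
          rw [dist_psi_ctr, hphic, dist_eq_norm]
          have e2 : ctr + (s : ℂ) * e - (ctr + ‖c‖ * e) = ((s - ‖c‖ : ℝ) : ℂ) * e := by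
            push_cast; ring
          rw [e2, norm_mul, he1, Complex.norm_real, mul_one, Real.norm_of_nonneg]
          have := hs.1
          linarith
        have hs1 := hs.1
        have hs2 := hs.2
        refine notMem_XX ?_ fun y hy hyx => ?_
        · simp only [h1]
          linarith
        · refine hother _ (by rw [h2]; linarith) y hy hyx fun y' h3 h4 => ?_
          by_contra hcon
          push Not at hcon
          have hy' : y' ≠ [] := by
            rintro rfl
            exact h4 (List.length_eq_zero_iff.1 h3.symm).symm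
          have := near_prefix' hy' hcon
          rw [h2] at this
          linarith
      · have h1 : dist z ctr = 3 / 4 := hz
        refine notMem_XX (by rw [h1]; norm_num) fun y hy hyx => ?_
        by_contra hcon
        push Not at hcon
        have hy' : y ≠ [] := by
          rintro rfl
          simp at hy
        have := near_prefix' hy' hcon
        rw [h1] at this
        linarith
    · rw [Psi_cons, psi_phi]
      exact hb

/-- The functions `Wx` of deep words near `b` approximate `1 / (z - b)`. -/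
theorem W_tendsto : Tendsto W (cocompact ℂ) (𝓝 0) := by
  rw [tendsto_zero_iff_norm_tendsto_zero]
  have hd : Tendsto (fun z : ℂ => dist z ctr) (cocompact ℂ) atTop :=
    tendsto_dist_left_cocompact_atTop ctr |>.congr (fun z => dist_comm _ _)
  have h1 : Tendsto (fun z : ℂ => (541 : ℝ) / dist z ctr) (cocompact ℂ) (𝓝 0) :=
    Tendsto.const_div_atTop hd _
  refine squeeze_zero' (Eventually.of_forall fun z => norm_nonneg _) ?_ h1
  filter_upwards [hd.eventually (eventually_ge_atTop (1 : ℝ))] with z hz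
  have h2 := W_far hz
  have e : W z = (W z - (z - ctr)⁻¹) + (z - ctr)⁻¹ := by ring
  rw [e]
  refine (norm_add_le _ _).trans ?_
  rw [norm_inv, ← dist_eq_norm z ctr]
  have h3 : 0 < dist z ctr := by linarith
  have h4 : 1 / dist z ctr ^ 2 ≤ 1 / dist z ctr := by
    apply one_div_le_one_div_of_le h3
    nlinarith
  calc ‖W z - (z - ctr)⁻¹‖ + (dist z ctr)⁻¹ ≤ 540 * (1 / dist z ctr) + 1 / dist z ctr := by
        have h5 : (dist z ctr)⁻¹ = 1 / dist z ctr := (one_div _).symm
        rw [h5]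
        linarith
    _ = 541 / dist z ctr := by ring

theorem Psi_tendsto (v : List D) : Tendsto (Psi v) (cocompact ℂ) (cocompact ℂ) := by
  have hd : Tendsto (fun z : ℂ => dist z (Phi v ctr)) (cocompact ℂ) atTop :=
    tendsto_dist_left_cocompact_atTop (Phi v ctr) |>.congr (fun z => dist_comm _ _)
  have h2 : Tendsto (fun z : ℂ => dist (Psi v z) ctr) (cocompact ℂ) atTop := by
    refine tendsto_atTop_mono (fun z => ?_) hd
    have h3 := dist_Psi v z (Phi v ctr)
    rw [Psi_Phi] at h3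
    rw [h3]
    have h4 : (1 : ℝ) ≤ 3 ^ v.length := one_le_pow₀ (by norm_num)
    have h5 := dist_nonneg (x := z) (y := Phi v ctr)
    nlinarith
  rw [← Metric.cobounded_eq_cocompact, ← tendsto_dist_right_atTop_iff ctr]
  rw [Metric.cobounded_eq_cocompact]
  exact h2

theorem Wx_Cls (x k : List D) : Cls x (Wx (x ++ k)) := by
  refine ⟨fun z hz => Wx_differentiableAt ?_, ⟨_, fun z _ => Wx_norm _ z⟩, ?_⟩
  · rw [Psi_append]
    exact Psi_notMem hz
  · have h1 := (W_tendsto.comp (Psi_tendsto (x ++ k))).const_mul ((3 : ℂ) ^ (x ++ k).length)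
    rw [mul_zero] at h1
    exact h1

theorem exists_deep {w : ℂ} (hw : w ∈ squareCantor) (N : ℕ) :
    ∃ k : List D, k.length = N ∧ Psi k w ∈ squareCantor := by
  induction N with
  | zero => exact ⟨[], rfl, hw⟩
  | succ N ih =>
    obtain ⟨k, h1, h2⟩ := ih
    obtain ⟨d, hd⟩ := exists_psi_mem h2
    exact ⟨k ++ [d], by simp [h1], by rw [Psi_snoc]; exact hd⟩

/-- distance of `Wx v` to the Cauchy kernel -/
theorem Wx_far {v : List D} {z : ℂ} (h : 1 ≤ dist (Psi v z) ctr) :
    ‖Wx v z - (z - Phi v ctr)⁻¹‖ ≤ 540 / 3 ^ v.length * (1 / dist z (Phi v ctr) ^ 2) := by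
  have h1 := W_far h
  have h2 : Psi v z - ctr = 3 ^ v.length * (z - Phi v ctr) := by
    have : ∀ (v : List D) (z w : ℂ), Psi v z - Psi v w = 3 ^ v.length * (z - w) := by
      intro v
      induction v with
      | nil => intro z w; simp
      | cons d v ih =>
        intro z w
        rw [Psi_cons, Psi_cons, ih, psi_sub, List.length_cons, pow_succ]
        ring
    have h3 := this v z (Phi v ctr)
    rw [Psi_Phi] at h3
    exact h3
  have h3 : dist (Psi v z) ctr = 3 ^ v.length * dist z (Phi v ctr) := by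
    have h3 := dist_Psi v z (Phi v ctr)
    rw [Psi_Phi] at h3
    exact h3
  have hp : (0 : ℝ) < 3 ^ v.length := by positivity
  have hpc : (3 : ℂ) ^ v.length ≠ 0 := pow_ne_zero _ (by norm_num)
  have e : Wx v z - (z - Phi v ctr)⁻¹ = 3 ^ v.length * (W (Psi v z) - (Psi v z - ctr)⁻¹) := by
    unfold Wx
    rw [h2, mul_inv, mul_sub, ← mul_assoc, mul_inv_cancel₀ hpc, one_mul]
  have hd0 : dist z (Phi v ctr) ≠ 0 := by
    intro h0
    rw [h3, h0] at h
    linarith
  rw [e, norm_mul, norm_pow]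
  have e3 : ‖(3 : ℂ)‖ = 3 := by norm_num
  rw [e3]
  calc (3 : ℝ) ^ v.length * ‖W (Psi v z) - (Psi v z - ctr)⁻¹‖
      ≤ 3 ^ v.length * (540 * (1 / dist (Psi v z) ctr ^ 2)) := by gcongr
    _ = 540 / 3 ^ v.length * (1 / dist z (Phi v ctr) ^ 2) := by
        rw [h3]
        field_simp

theorem Appr.base {x : List D} {b : ℂ} (hb : Psi x b ∈ squareCantor) (hbX : b ∉ XX x) :
    Appr x fun z => (z - b)⁻¹ := by
  have hρ : 0 < infDist b (XX x) :=
    ((isClosed_XX x).notMem_iff_infDist_pos (XX_nonempty x)).1 hbX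
  set ρ := infDist b (XX x) with hρd
  have hd : ∀ z ∈ XX x, ρ ≤ dist z b := fun z hz => by
    rw [dist_comm]
    exact infDist_le_dist_of_mem hz
  refine ⟨⟨ρ⁻¹, by positivity, fun z hz => ?_⟩, fun ε hε => ?_⟩
  · rw [norm_inv, ← dist_eq_norm]
    exact inv_anti₀ hρ (hd z hz)
  · -- a deep word
    obtain ⟨N, hN⟩ := pow_unbounded_of_one_lt (max (2 / ρ) (2162 / ρ ^ 2 / ε))
      (show (1 : ℝ) < 3 by norm_num)
    obtain ⟨k, hk1, hk2⟩ := exists_deep hb N
    have hlen : (3 : ℝ) ^ N ≤ 3 ^ (x ++ k).length :=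
      pow_le_pow_right₀ (by norm_num) (by rw [List.length_append, hk1]; omega)
    set L : ℝ := 3 ^ (x ++ k).length with hL
    have hL1 : 2 / ρ < L := (le_max_left _ _).trans_lt (hN.trans_le hlen)
    have hL2 : 2162 / ρ ^ 2 / ε < L := (le_max_right _ _).trans_lt (hN.trans_le hlen)
    have hL0 : 0 < L := by positivity
    refine ⟨_, Wx_Cls x k, fun z hz => ?_⟩
    set c : ℂ := Phi (x ++ k) ctr with hc
    have hcb : dist c b ≤ 1 / L := by
      have h1 := dist_Psi (x ++ k) c b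
      rw [hc, Psi_Phi, ← hc, ← hL, Psi_append x k b] at h1
      have h2 := squareCantor_dist' hk2
      rw [dist_comm] at h2
      rw [le_div_iff₀ hL0]
      linarith
    have hLρ : 1 / L ≤ ρ / 2 := by
      rw [div_lt_iff₀ hρ] at hL1
      rw [div_le_iff₀ hL0]
      linarith
    have h1 := hd z hz
    have h2 : ρ / 2 ≤ dist z c := by
      have := dist_triangle z c b
      linarith
    have h3 : 1 ≤ dist (Psi (x ++ k) z) ctr := by
      have h3 := dist_Psi (x ++ k) z c
      rw [hc, Psi_Phi, ← hc, ← hL] at h3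
      rw [h3]
      rw [div_lt_iff₀ hρ] at hL1
      nlinarith
    have h4 := Wx_far h3
    rw [← hc, ← hL] at h4
    have hzc : z - c ≠ 0 := by
      intro h0
      rw [dist_eq_norm, h0, norm_zero] at h2
      linarith
    have hzb : z - b ≠ 0 := by
      intro h0
      rw [dist_eq_norm, h0, norm_zero] at h1
      linarith
    have e1 : (z - b)⁻¹ - Wx (x ++ k) z =
        (b - c) * ((z - c)⁻¹ * (z - b)⁻¹) - (Wx (x ++ k) z - (z - c)⁻¹) := by
      have : (z - b)⁻¹ - (z - c)⁻¹ = (b - c) * ((z - c)⁻¹ * (z - b)⁻¹) := by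
        field_simp
        ring
      rw [← this]
      ring
    rw [e1]
    refine (norm_sub_le _ _).trans ?_
    rw [norm_mul, norm_mul, norm_inv, norm_inv, ← dist_eq_norm, ← dist_eq_norm, ← dist_eq_norm]
    have i1 : (dist z c)⁻¹ ≤ (ρ / 2)⁻¹ := inv_anti₀ (by positivity) h2
    have i2 : (dist z b)⁻¹ ≤ ρ⁻¹ := inv_anti₀ hρ h1
    have i3 : 1 / dist z c ^ 2 ≤ 1 / (ρ / 2) ^ 2 :=
      one_div_le_one_div_of_le (by positivity) (pow_le_pow_left₀ (by positivity) h2 2)
    rw [dist_comm b c]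
    calc dist c b * ((dist z c)⁻¹ * (dist z b)⁻¹) + ‖Wx (x ++ k) z - (z - c)⁻¹‖
        ≤ 1 / L * ((ρ / 2)⁻¹ * ρ⁻¹) + 540 / L * (1 / (ρ / 2) ^ 2) := by
          refine add_le_add ?_ ?_
          · gcongr
          · refine h4.trans ?_
            gcongr
      _ = 2162 / ρ ^ 2 / L := by field_simp; norm_num
      _ ≤ ε := by
          rw [div_lt_iff₀ hε] at hL2
          rw [div_le_iff₀ hL0]
          linarith

/-- the poles on the big circle -/
theorem Appr.circle (x : List D) {a : ℂ} (ha : dist a ctr = 3 / 4) :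
    Appr x fun z => (z - a)⁻¹ := by
  obtain ⟨P, hP, hPX, ⟨b, hbP, hb⟩, hS⟩ := exists_path x
  exact Appr.connected hP hPX hbP (Appr.base hb (hPX hbP)) (hS ha)

/-- `1 / (1 - w ^ N)` with `w = (z - ctr) / (3 / 4)` -/
theorem Appr.ratio (x : List D) {N : ℕ} (hN : 0 < N) :
    Appr x fun z => (1 - ((z - ctr) / (3 / 4 : ℝ)) ^ N)⁻¹ := by
  have hprim := Complex.isPrimitiveRoot_exp N hN.ne'
  have hprod := Polynomial.X_pow_sub_one_eq_prod hN hprim
  set s := Polynomial.nthRootsFinset N (1 : ℂ) with hs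
  have hsne : s.Nonempty := ⟨1, by
    rw [hs, Polynomial.mem_nthRootsFinset hN]; simp⟩
  have hroot : ∀ ζ ∈ s, ‖ζ‖ = 1 := by
    intro ζ hζ
    rw [hs, Polynomial.mem_nthRootsFinset hN] at hζ
    exact Complex.norm_eq_one_of_pow_eq_one hζ hN.ne'
  have h1 : ∀ ζ ∈ s, Appr x fun z => ((3 / 4 : ℝ) : ℂ) *
      (z - (ctr + ((3 / 4 : ℝ) : ℂ) * ζ))⁻¹ := by
    intro ζ hζ
    refine Appr.smul (Appr.circle x ?_) _
    rw [dist_eq_norm, add_sub_cancel_left, norm_mul, hroot ζ hζ, Complex.norm_real]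
    norm_num
  have h2 : Appr x (∏ ζ ∈ s, fun z => ((3 / 4 : ℝ) : ℂ) *
      (z - (ctr + ((3 / 4 : ℝ) : ℂ) * ζ))⁻¹) :=
    Finset.prod_induction_nonempty _ (Appr x) (fun _ _ => Appr.mul) hsne h1
  have h3 := h2.smul (-1)
  have e : (fun z : ℂ => (1 - ((z - ctr) / (3 / 4 : ℝ)) ^ N)⁻¹) = fun z => -1 *
      (∏ ζ ∈ s, fun z => ((3 / 4 : ℝ) : ℂ) * (z - (ctr + ((3 / 4 : ℝ) : ℂ) * ζ))⁻¹) z := by
    funext z
    rw [Finset.prod_apply]
    set w : ℂ := (z - ctr) / (3 / 4 : ℝ) with hw
    have h4 := congrArg (Polynomial.eval w) hprod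
    rw [Polynomial.eval_prod] at h4
    simp only [Polynomial.eval_sub, Polynomial.eval_pow, Polynomial.eval_X, Polynomial.eval_one,
      Polynomial.eval_C] at h4
    have h5 : ∀ ζ : ℂ, ((3 / 4 : ℝ) : ℂ) * (z - (ctr + ((3 / 4 : ℝ) : ℂ) * ζ))⁻¹ =
        (w - ζ)⁻¹ := by
      intro ζ
      have h34 : ((3 / 4 : ℝ) : ℂ) ≠ 0 := by norm_num
      have h6 : z - (ctr + ((3 / 4 : ℝ) : ℂ) * ζ) = ((3 / 4 : ℝ) : ℂ) * (w - ζ) := by
        rw [hw, mul_sub, mul_div_cancel₀ _ h34]
        ring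
      rw [h6, mul_inv, ← mul_assoc, mul_inv_cancel₀ h34, one_mul]
    simp only [h5]
    rw [Finset.prod_inv_distrib, ← h4, ← inv_neg_one, ← mul_inv]
    congr 1
    ring
  rw [e]
  exact h3

theorem norm_ratio_far {w : ℂ} {N : ℕ} {ε : ℝ} (hw : 100 / 99 ≤ ‖w‖)
    (h1 : (99 / 100 : ℝ) ^ N ≤ 1 / 2) (h2 : (99 / 100 : ℝ) ^ N ≤ ε / 2) :
    ‖(1 - w ^ N)⁻¹‖ ≤ ε := by
  have hq : (0 : ℝ) < (99 / 100) ^ N := by positivity
  have h3 : ((99 / 100 : ℝ) ^ N)⁻¹ ≤ ‖w‖ ^ N := by
    rw [← inv_pow]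
    refine pow_le_pow_left₀ (by positivity) ?_ N
    refine le_trans (le_of_eq ?_) hw
    norm_num
  have h4 : ‖w‖ ^ N - 1 ≤ ‖1 - w ^ N‖ := by
    have := norm_sub_norm_le (w ^ N) 1
    rw [norm_one, norm_pow, norm_sub_rev] at this
    exact this
  set q : ℝ := (99 / 100 : ℝ) ^ N with hqd
  have h5 : q⁻¹ / 2 ≤ ‖1 - w ^ N‖ := by
    have h6 : 2 ≤ q⁻¹ := by
      rw [le_inv_comm₀ (by norm_num) hq]
      linarith
    linarith
  rw [norm_inv]
  calc ‖1 - w ^ N‖⁻¹ ≤ (q⁻¹ / 2)⁻¹ := inv_anti₀ (by positivity) h5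
    _ = 2 * q := by field_simp
    _ ≤ ε := by linarith

theorem norm_ratio_near {w : ℂ} {N : ℕ} {ε : ℝ} (hw : ‖w‖ ≤ 99 / 100)
    (h1 : (99 / 100 : ℝ) ^ N ≤ 1 / 2) (h2 : (99 / 100 : ℝ) ^ N ≤ ε / 2) :
    ‖(1 - w ^ N)⁻¹ - 1‖ ≤ ε := by
  have hq : (0 : ℝ) < (99 / 100) ^ N := by positivity
  have h3 : ‖w ^ N‖ ≤ (99 / 100) ^ N := by
    rw [norm_pow]
    exact pow_le_pow_left₀ (norm_nonneg _) hw N
  have h4 : 1 / 2 ≤ ‖1 - w ^ N‖ := by
    have := norm_sub_norm_le 1 (w ^ N)
    rw [norm_one] at this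
    linarith
  have hne : 1 - w ^ N ≠ 0 := by
    intro h0
    rw [h0, norm_zero] at h4
    linarith
  have e : (1 - w ^ N)⁻¹ - 1 = w ^ N * (1 - w ^ N)⁻¹ := by
    field_simp
    ring
  rw [e, norm_mul, norm_inv]
  calc ‖w ^ N‖ * ‖1 - w ^ N‖⁻¹ ≤ (99 / 100) ^ N * (1 / 2)⁻¹ := by
        gcongr
    _ ≤ ε := by linarith

/-- a function of the class which is close to one on the discs of the other words and close to
zero on the exterior -/
theorem exists_step {x : List D} (hx : x ≠ []) {ε : ℝ} (hε : 0 < ε) : ∃ h, Cls x h ∧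
    (∀ y : List D, y.length = x.length → y ≠ x → ∀ z, dist (Psi y z) ctr ≤ 78 / 100 →
      ‖h z - 1‖ ≤ ε) ∧ ∀ z, (76 / 100 : ℝ) ≤ dist z ctr → ‖h z‖ ≤ ε := by
  obtain ⟨N, hN⟩ := exists_pow_lt_of_lt_one (show 0 < min (1 / 2) (ε / 4) by positivity)
    (show (99 / 100 : ℝ) < 1 by norm_num)
  have hN1 : (99 / 100 : ℝ) ^ N ≤ 1 / 2 := hN.le.trans (min_le_left _ _)
  have hN2 : (99 / 100 : ℝ) ^ N ≤ ε / 2 / 2 := by
    have := hN.le.trans (min_le_right _ _)
    linarith
  have hN0 : 0 < N := by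
    rcases Nat.eq_zero_or_pos N with h | h
    · rw [h] at hN1
      norm_num at hN1
    · exact h
  obtain ⟨-, hA⟩ := Appr.ratio x hN0
  obtain ⟨h, h1, h2⟩ := hA (ε / 2) (by positivity)
  have hnorm : ∀ z : ℂ, ‖(z - ctr) / ((3 / 4 : ℝ) : ℂ)‖ = dist z ctr / (3 / 4) := by
    intro z
    rw [norm_div, Complex.norm_real, ← dist_eq_norm, Real.norm_of_nonneg (by norm_num)]
  refine ⟨h, h1, fun y hy hyx z hz => ?_, fun z hz => ?_⟩
  · have hy0 : y ≠ [] := by
      rintro rfl
      exact hx (List.length_eq_zero_iff.1 hy.symm)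
    have h3 := near_prefix' hy0 hz
    have h4 := norm_ratio_near (w := (z - ctr) / ((3 / 4 : ℝ) : ℂ)) (N := N) (ε := ε / 2)
      (by rw [hnorm]; linarith) hN1 hN2
    have h5 := h2 z (mem_XX_disc hy hyx hz)
    have e : h z - 1 = ((1 - ((z - ctr) / ((3 / 4 : ℝ) : ℂ)) ^ N)⁻¹ - 1) -
        ((1 - ((z - ctr) / ((3 / 4 : ℝ) : ℂ)) ^ N)⁻¹ - h z) := by ring
    rw [e]
    refine (norm_sub_le _ _).trans ?_
    linarith
  · have h4 := norm_ratio_far (w := (z - ctr) / ((3 / 4 : ℝ) : ℂ)) (N := N) (ε := ε / 2)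
      (by rw [hnorm]; linarith) hN1 hN2
    have h5 := h2 z (mem_XX_ext hz)
    have e : h z = (1 - ((z - ctr) / ((3 / 4 : ℝ) : ℂ)) ^ N)⁻¹ -
        ((1 - ((z - ctr) / ((3 / 4 : ℝ) : ℂ)) ^ N)⁻¹ - h z) := by ring
    rw [e]
    refine (norm_sub_le _ _).trans ?_
    linarith

theorem dist_Phi_ctr (v : List D) : dist (Phi v ctr) ctr ≤ 74 / 100 := by
  induction v with
  | nil =>
    rw [Phi_nil, dist_self]
    norm_num
  | cons d v ih =>
    rw [Phi_cons]
    have h1 := dist_le_of_psi d (phi d (Phi v ctr))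
    rw [psi_phi] at h1
    linarith

/-- second order decay of the difference of `Wx x` and the Cauchy kernel of the centre -/
theorem Wx_ext (x : List D) : ∃ C : ℝ, 0 ≤ C ∧ ∀ z, (76 / 100 : ℝ) ≤ dist z ctr →
    ‖Wx x z - (z - ctr)⁻¹‖ ≤ C * th z := by
  set L : ℝ := 3 ^ x.length with hL
  have hL1 : 1 ≤ L := one_le_pow₀ (by norm_num)
  refine ⟨10 * (L * 7922 + 2) + 20000, by positivity, fun z hz => ?_⟩
  have hth := th_pos z
  have hd0 : 0 < dist z ctr := by linarith
  rcases lt_or_ge (dist z ctr) 3 with h | h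
  · have h1 := Wx_norm x z
    rw [← hL] at h1
    have h2 : ‖(z - ctr)⁻¹‖ ≤ 2 := by
      rw [norm_inv, ← dist_eq_norm, inv_le_comm₀ hd0 (by norm_num)]
      linarith
    have h3 : 1 / 10 ≤ th z := by
      unfold th
      rw [one_div]
      apply inv_anti₀ (by positivity)
      nlinarith
    have h4 := norm_sub_le (Wx x z) (z - ctr)⁻¹
    nlinarith
  · have h1 := dist_Phi_ctr x
    set c : ℂ := Phi x ctr with hc
    have h2 : dist z ctr / 2 ≤ dist z c := by
      have := dist_triangle z c ctr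
      linarith
    have h3 : 1 ≤ dist (Psi x z) ctr := by
      have h3 := dist_Psi x z c
      rw [hc, Psi_Phi, ← hc, ← hL] at h3
      rw [h3]
      nlinarith
    have h4 := Wx_far h3
    rw [← hc, ← hL] at h4
    have hzc : z - c ≠ 0 := by
      intro h0
      rw [dist_eq_norm z c, h0, norm_zero] at h2
      linarith
    have hzb : z - ctr ≠ 0 := by
      intro h0
      rw [dist_eq_norm, h0, norm_zero] at h
      linarith
    have e1 : Wx x z - (z - ctr)⁻¹ =
        (Wx x z - (z - c)⁻¹) + (c - ctr) * ((z - c)⁻¹ * (z - ctr)⁻¹) := by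
      have : (z - c)⁻¹ - (z - ctr)⁻¹ = (c - ctr) * ((z - c)⁻¹ * (z - ctr)⁻¹) := by
        field_simp
        ring
      rw [← this]
      ring
    rw [e1]
    refine (norm_add_le _ _).trans ?_
    rw [norm_mul, norm_mul, norm_inv, norm_inv, ← dist_eq_norm c ctr, ← dist_eq_norm z c,
      ← dist_eq_norm z ctr]
    have i1 : (dist z c)⁻¹ ≤ (dist z ctr / 2)⁻¹ := inv_anti₀ (by positivity) h2
    have i3 : 1 / dist z c ^ 2 ≤ 1 / (dist z ctr / 2) ^ 2 :=
      one_div_le_one_div_of_le (by positivity) (pow_le_pow_left₀ (by positivity) h2 2)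
    have i4 : 540 / L ≤ 540 := div_le_self (by norm_num) hL1
    have h6 := inv_sq_le_th (z := z) (by linarith)
    calc ‖Wx x z - (z - c)⁻¹‖ + dist c ctr * ((dist z c)⁻¹ * (dist z ctr)⁻¹)
        ≤ 540 * (1 / (dist z ctr / 2) ^ 2) + 1 * ((dist z ctr / 2)⁻¹ * (dist z ctr)⁻¹) := by
          refine add_le_add ?_ ?_
          · refine h4.trans ?_
            gcongr
          · gcongr
            linarith
      _ = 2162 * (1 / dist z ctr ^ 2) := by field_simp; norm_num
      _ ≤ 2162 * (2 * th z) := by gcongr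
      _ ≤ (10 * (L * 7922 + 2) + 20000) * th z := by nlinarith

end Trf

open Trf in
/-- **The transfer function of a word.** -/
theorem transfer (x : List D) {eta : ℝ} (heta : 0 < eta) :
    ∃ (M0 : ℝ) (ψ : ℂ → ℂ),
      (∀ z, Psi x z ∉ squareCantor → DifferentiableAt ℂ ψ z) ∧
      (∀ z, Psi x z ∉ squareCantor → ‖ψ z‖ ≤ M0 * th z) ∧
      (∀ y : List D, y.length = x.length → y ≠ x → ∀ z, dist (Psi y z) ctr ≤ 78 / 100 →
        ‖ψ z - 1‖ ≤ eta) ∧
      (∀ z, 76 / 100 < dist z ctr → ‖ψ z‖ ≤ eta * th z) := by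
  by_cases hx : x = []
  · subst hx
    refine ⟨0, fun _ => 0, fun z _ => differentiableAt_const _, fun z _ => by simp,
      fun y hy hy' => ?_, fun z _ => ?_⟩
    · exact absurd (List.length_eq_zero_iff.1 hy) hy'
    · rw [norm_zero]
      exact (mul_pos heta (th_pos z)).le
  obtain ⟨C, hC0, hC⟩ := Wx_ext x
  set L : ℝ := 3 ^ x.length * 7922 with hL
  have hL0 : 0 < L := by positivity
  set ε : ℝ := eta / (1 + L + C + 4) with hε
  have hden : 0 < 1 + L + C + 4 := by positivity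
  have hε0 : 0 < ε := by positivity
  have hεe : ε * (1 + L + C + 4) = eta := by
    rw [hε]
    field_simp
  obtain ⟨h, ⟨h1, ⟨B, hB⟩, h3⟩, h4, h5⟩ := exists_step hx hε0
  have hfar : ∀ z, (76 / 100 : ℝ) < dist z ctr → Psi x z ∉ squareCantor := by
    intro z hz
    refine Psi_notMem fun hE => ?_
    have := squareCantor_dist' hE
    linarith
  obtain ⟨a, ha, hat⟩ := tail (c := ctr) (ρ := 76 / 100) (B := ε) (F := h) (by norm_num) hε0
    (fun z hz => (h1 z (hfar z hz)).differentiableWithinAt) (fun z hz => h5 z (le_of_lt hz)) h3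
  have haε : ‖a‖ ≤ ε := by linarith
  have hWL : ∀ z, ‖Wx x z‖ ≤ L := fun z => Wx_norm x z
  have hext : ∀ z, (76 / 100 : ℝ) < dist z ctr → ‖h z - a * Wx x z‖ ≤ eta * th z := by
    intro z hz
    have i1 := hat z hz
    have i2 := hC z hz.le
    have hth := th_pos z
    have hd0 : 0 < dist z ctr := by linarith
    have i3 : 1 / dist z ctr ^ 2 ≤ 3 * th z := by
      unfold th
      rw [← div_eq_mul_inv, div_le_div_iff₀ (by positivity) (by positivity)]
      nlinarith
    have e : h z - a * Wx x z = (h z - a * (z - ctr)⁻¹) - a * (Wx x z - (z - ctr)⁻¹) := by ring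
    rw [e]
    refine (norm_sub_le _ _).trans ?_
    rw [norm_mul]
    calc ‖h z - a * (z - ctr)⁻¹‖ + ‖a‖ * ‖Wx x z - (z - ctr)⁻¹‖
        ≤ 2 * (76 / 100) ^ 2 * ε * (3 * th z) + ε * (C * th z) := by
          refine add_le_add ?_ ?_
          · refine i1.trans ?_
            gcongr
          · gcongr
      _ ≤ ε * (1 + L + C + 4) * th z := by
          have : 0 < ε * th z := by positivity
          nlinarith
      _ = eta * th z := by rw [hεe]
  have hBnd : ∀ z, Psi x z ∉ squareCantor → ‖h z - a * Wx x z‖ ≤ |B| + ε * L := by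
    intro z hz
    refine (norm_sub_le _ _).trans ?_
    rw [norm_mul]
    refine add_le_add ((hB z hz).trans (le_abs_self B)) ?_
    exact mul_le_mul haε (hWL z) (norm_nonneg _) hε0.le
  refine ⟨2 * (|B| + ε * L) + eta, fun z => h z - a * Wx x z, fun z hz => ?_, fun z hz => ?_,
    fun y hy hyx z hz => ?_, hext⟩
  · exact (h1 z hz).sub ((Wx_differentiableAt hz).const_mul a)
  · have hth := th_pos z
    rcases lt_or_ge (76 / 100 : ℝ) (dist z ctr) with h6 | h6
    · refine (hext z h6).trans ?_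
      have : 0 ≤ 2 * (|B| + ε * L) * th z := by positivity
      linarith
    · have h7 : 1 / 2 ≤ th z := by
        unfold th
        rw [one_div]
        apply inv_anti₀ (by positivity)
        have := dist_nonneg (x := z) (y := ctr)
        nlinarith
      have h8 := hBnd z hz
      have h9 : 0 ≤ |B| + ε * L := by positivity
      have h10 : 0 < eta * th z := by positivity
      nlinarith
  · have h6 := h4 y hy hyx z hz
    have e : h z - a * Wx x z - 1 = (h z - 1) - a * Wx x z := by ring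
    rw [e]
    refine (norm_sub_le _ _).trans ?_
    rw [norm_mul]
    have h7 : ‖a‖ * ‖Wx x z‖ ≤ ε * L := mul_le_mul haε (hWL z) (norm_nonneg _) hε0.le
    have h8 : ε * (1 + L + C + 4) = ε + ε * L + ε * (C + 4) := by ring
    have h9 : 0 ≤ ε * (C + 4) := by positivity
    linarith

end Pool.Corona91698f
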