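import Mathlib
import Pool.Agent.Corona91698f.PorCousin2
import Pool.Agent.Corona91698f.Transfer
import Pool.Agent.Corona91698f.SplitDump

/-!
# The additive Cousin problem on porous families of squares is solvable with bounds
-/

set_option autoImplicit false

namespace Pool.Corona91698f

theorem cousin_por (J0 : ℕ) : CousinPor J0 :=
  cousin_por_aux J0 (split_dump J0) (fun x _ h => transfer x h)

end Pool.Corona91698f
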