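import Mathlib
import Pool.Agent.Corona91698f.Approx

/-!
# Finitely many functions, continuous in the plane, that are small away from the square Cantor set
and not simultaneously small near it
-/

open Complex Metric Set Filter Topology

set_option autoImplicit false

namespace Pool.Corona91698f

/-- the pattern functions -/
noncomputable def pat (x : List D) (M : ℕ) (z : ℂ) : ℂ := ∑ w ∈ lw M, W (Psi x (Psi w z)) ^ 2

theorem pat_continuous (x : List D) (M : ℕ) : Continuous (pat x M) := by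
  have h : Continuous fun z => ∑ w ∈ lw M, W (Psi x (Psi w z)) ^ 2 :=
    continuous_finsetSum _ fun w _ => (W_continuous.comp
      ((differentiable_Psi x).continuous.comp (differentiable_Psi w).continuous)).pow 2
  exact h

theorem pat_differentiableOn (x : List D) (M : ℕ) :
    DifferentiableOn ℂ (pat x M) squareCantorᶜ := by
  intro z hz
  refine DifferentiableAt.differentiableWithinAt ?_
  have h : DifferentiableAt ℂ (fun z => ∑ w ∈ lw M, W (Psi x (Psi w z)) ^ 2) z := by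
    refine DifferentiableAt.fun_sum fun w _ => DifferentiableAt.fun_pow ?_ 2
    have h1 : DifferentiableAt ℂ (fun z => Psi x (Psi w z)) z :=
      DifferentiableAt.comp (g := Psi x) (f := Psi w) z (differentiable_Psi x _)
        (differentiable_Psi w z)
    exact DifferentiableAt.comp (g := W) (f := fun z => Psi x (Psi w z)) z
      (W_differentiableAt (Psi_notMem (Psi_notMem hz))) h1
  exact h

theorem dist_Psi_lower (x : List D) (z : ℂ) :
    3 ^ x.length * (dist z ctr - 70725 / 100000) ≤ dist (Psi x z) ctr - 70725 / 100000 := by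
  induction x generalizing z with
  | nil => simp
  | cons d x ih =>
    have h1 := ih (psi d z)
    have h2 := dist_psi_ge d z
    have h3 : (0 : ℝ) < 3 ^ x.length := by positivity
    rw [Psi_cons, List.length_cons, pow_succ]
    refine le_trans ?_ h1
    rw [mul_assoc]
    have h4 : 3 * (dist z ctr - 70725 / 100000) ≤ dist (psi d z) ctr - 70725 / 100000 := by
      linarith
    exact mul_le_mul_of_nonneg_left h4 h3.le

theorem dist_psi_le (d : D) (z : ℂ) : dist (psi d z) ctr ≤ 3 * (dist z ctr + 4715 / 10000) := by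
  rw [dist_psi_ctr]
  have h1 := dist_phi_ctr d
  have h2 := dist_triangle z ctr (phi d ctr)
  rw [dist_comm ctr (phi d ctr)] at h2
  linarith

theorem dist_Psi_upper (x : List D) (z : ℂ) :
    dist (Psi x z) ctr + 70725 / 100000 ≤ 3 ^ x.length * (dist z ctr + 70725 / 100000) := by
  induction x generalizing z with
  | nil => simp
  | cons d x ih =>
    have h1 := ih (psi d z)
    have h2 := dist_psi_le d z
    have h3 : (0 : ℝ) < 3 ^ x.length := by positivity
    rw [Psi_cons, List.length_cons, pow_succ]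
    refine le_trans h1 ?_
    rw [mul_assoc]
    have h4 : dist (psi d z) ctr + 70725 / 100000 ≤ 3 * (dist z ctr + 70725 / 100000) := by
      linarith
    exact mul_le_mul_of_nonneg_left h4 h3.le

theorem W_upper_far {z : ℂ} (hz : 1 ≤ dist z ctr) : ‖W z‖ ≤ 541 / dist z ctr := by
  have h1 := W_far hz
  have hpos : 0 < dist z ctr := by linarith
  have h2 : ‖W z‖ ≤ ‖W z - (z - ctr)⁻¹‖ + ‖(z - ctr)⁻¹‖ := by
    have := norm_add_le (W z - (z - ctr)⁻¹) ((z - ctr)⁻¹)
    rwa [sub_add_cancel] at this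
  rw [norm_inv, ← dist_eq_norm z ctr] at h2
  have h3 : 1 / dist z ctr ^ 2 ≤ 1 / dist z ctr := by
    apply one_div_le_one_div_of_le hpos
    nlinarith
  calc ‖W z‖ ≤ 540 * (1 / dist z ctr ^ 2) + (dist z ctr)⁻¹ := by linarith
    _ ≤ 540 * (1 / dist z ctr) + 1 / dist z ctr := by rw [← one_div]; gcongr
    _ = 541 / dist z ctr := by ring

theorem W_lower_far {z : ℂ} (h1 : 600 ≤ dist z ctr) (h2 : dist z ctr ≤ 10000) :
    9 / 100000 ≤ ‖W z‖ := by
  have h3 := W_far (z := z) (by linarith)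
  have hpos : 0 < dist z ctr := by linarith
  have h4 : ‖(z - ctr)⁻¹‖ ≤ ‖W z‖ + ‖W z - (z - ctr)⁻¹‖ := by
    have := norm_sub_le (W z) (W z - (z - ctr)⁻¹)
    rwa [sub_sub_cancel] at this
  rw [norm_inv, ← dist_eq_norm z ctr] at h4
  have h5 : 9 / 100000 + 540 * (1 / dist z ctr ^ 2) ≤ (dist z ctr)⁻¹ := by
    rw [← sub_nonneg]
    have e : (dist z ctr)⁻¹ - (9 / 100000 + 540 * (1 / dist z ctr ^ 2))
        = (dist z ctr - 9 / 100000 * dist z ctr ^ 2 - 540) / dist z ctr ^ 2 := by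
      field_simp
      ring
    rw [e]
    apply div_nonneg _ (by positivity)
    nlinarith
  linarith

theorem W_sq_le (x : List D) (y : ℂ) : ‖W (Psi x y) ^ 2‖ ≤ 130000000 * th y := by
  rw [norm_pow]
  rcases lt_or_ge (dist y ctr) 1 with h | h
  · have h1 := W_norm (Psi x y)
    have h2 := half_le_th h
    have h3 := norm_nonneg (W (Psi x y))
    nlinarith
  · have h1 := dist_Psi_lower x y
    have h2 : (1 : ℝ) ≤ 3 ^ x.length := one_le_pow₀ (by norm_num)
    have h3 : dist y ctr ≤ dist (Psi x y) ctr := by nlinarith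
    have h4 := W_upper_far (z := Psi x y) (by linarith)
    have hpos : 0 < dist y ctr := by linarith
    have h5 : ‖W (Psi x y)‖ ≤ 541 / dist y ctr := h4.trans (by gcongr)
    have h6 := inv_sq_le_th h
    have h7 := th_pos y
    calc ‖W (Psi x y)‖ ^ 2 ≤ (541 / dist y ctr) ^ 2 := by gcongr
      _ = 541 ^ 2 * (1 / dist y ctr ^ 2) := by rw [div_pow]; ring
      _ ≤ 541 ^ 2 * (2 * th y) := by gcongr
      _ ≤ 130000000 * th y := by linarith

theorem pat_le (x : List D) (M : ℕ) (z : ℂ) : ‖pat x M z‖ ≤ 130000000 * Sg M z := by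
  unfold pat
  rw [← sum_lw, Finset.mul_sum]
  exact (norm_sum_le _ _).trans (Finset.sum_le_sum fun w _ => W_sq_le x _)

theorem W_sq_other {x : List D} (hx : x.length = 20) {y : ℂ} (hy : 78 / 100 < dist y ctr) :
    ‖W (Psi x y) ^ 2‖ ≤ 1 / 10 ^ 11 * th y := by
  have h1 := dist_Psi_lower x y
  rw [hx] at h1
  have h0 : 0 < dist y ctr - 70725 / 100000 := by linarith
  have h2 : 3 ^ 20 * (dist y ctr - 70725 / 100000) ≤ dist (Psi x y) ctr := by linarith
  have h3 : 1 ≤ dist (Psi x y) ctr := by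
    refine le_trans ?_ h2
    nlinarith
  have h4 := W_upper_far h3
  have h5 : ‖W (Psi x y)‖ ≤ 541 / (3 ^ 20 * (dist y ctr - 70725 / 100000)) :=
    h4.trans (by gcongr)
  have h6 : 1 / (dist y ctr - 70725 / 100000) ^ 2 ≤ 400 * th y := by
    unfold th
    rw [← div_eq_mul_inv, div_le_div_iff₀ (by positivity) (by positivity)]
    nlinarith
  have h7 := th_pos y
  rw [norm_pow]
  calc ‖W (Psi x y)‖ ^ 2 ≤ (541 / (3 ^ 20 * (dist y ctr - 70725 / 100000))) ^ 2 := by gcongr
    _ = 541 ^ 2 / 3 ^ 40 * (1 / (dist y ctr - 70725 / 100000) ^ 2) := by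
        rw [div_pow, mul_pow, mul_one_div, div_div, ← pow_mul]
    _ ≤ 541 ^ 2 / 3 ^ 40 * (400 * th y) := by gcongr
    _ ≤ 1 / 10 ^ 11 * th y := by
        rw [← mul_assoc]
        gcongr
        norm_num

theorem exists_far_word {y : ℂ} (hy : dist y ctr ≤ 76 / 100) :
    ∃ u ∈ lw 8, 600 ≤ dist (Psi u y) ctr ∧ dist (Psi u y) ctr ≤ 10000 := by
  obtain ⟨d₀, hd₀⟩ := exists_far y
  obtain ⟨d, hd⟩ : ∃ d : D, d ≠ d₀ := exists_ne d₀
  have h1 := hd₀ d hd
  have h2 := dist_psi_le d y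
  set x : List D := List.replicate 7 d with hx
  have hxl : x.length = 7 := List.length_replicate
  refine ⟨d :: x, mem_lw.2 (by rw [List.length_cons, hxl]), ?_, ?_⟩
  · have h3 := dist_Psi_lower x (psi d y)
    rw [hxl] at h3
    rw [Psi_cons]
    nlinarith
  · have h3 := dist_Psi_upper x (psi d y)
    rw [hxl] at h3
    rw [Psi_cons]
    nlinarith

theorem exists_near_word (k : ℕ) {z : ℂ} (hz : 3 ^ (k + 4) * infDist z squareCantor ≤ 151 / 100) :
    ∃ v ∈ lw k, dist (Psi v z) ctr ≤ 76 / 100 := by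
  obtain ⟨e, he, hde⟩ := isClosed_squareCantor.exists_infDist_eq_dist nonempty_sC z
  obtain ⟨v, hv, hv'⟩ := exists_lw_mem k he
  refine ⟨v, hv, ?_⟩
  have h1 := squareCantor_dist' hv'
  have h2 := dist_Psi v z e
  rw [mem_lw.1 hv] at h2
  have h3 := dist_triangle (Psi v z) (Psi v e) ctr
  rw [hde, pow_add] at hz
  have h4 : (3 : ℝ) ^ k * dist z e ≤ 151 / 8100 := by
    have : (3 : ℝ) ^ k * 3 ^ 4 * dist z e = 81 * (3 ^ k * dist z e) := by ring
    rw [this] at hz
    linarith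
  linarith

/-- **The pattern functions are not simultaneously small near the set.** -/
theorem pat_lower (M : ℕ) {z : ℂ} (hz : 3 ^ (M + 16) * infDist z squareCantor ≤ 151 / 100) :
    ∃ x ∈ lw 20, 4 / 10 ^ 9 ≤ ‖pat x M z‖ := by
  classical
  obtain ⟨v, hv, hvz⟩ := exists_near_word (M + 12) (z := z) (by
    have : M + 12 + 4 = M + 16 := by omega
    rw [this]; exact hz)
  have hvl := mem_lw.1 hv
  set w := v.take M with hw
  set x' := v.drop M with hx'
  have hwx : w ++ x' = v := List.take_append_drop M v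
  have hwl : w.length = M := by rw [hw, List.length_take, hvl]; omega
  have hxl : x'.length = 12 := by rw [hx', List.length_drop, hvl]; omega
  have hwm : w ∈ lw M := mem_lw.2 hwl
  have hxne : x' ≠ [] := by
    intro h
    rw [h] at hxl
    simp at hxl
  have hwz : dist (Psi w z) ctr < 76 / 100 := by
    refine near_append hxne (z := z) ?_
    rw [hwx]
    linarith
  obtain ⟨u, hu, hu1, hu2⟩ := exists_far_word hvz
  have hul := mem_lw.1 hu
  have hxul : (x' ++ u).length = 20 := by rw [List.length_append, hxl, hul]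
  refine ⟨x' ++ u, mem_lw.2 hxul, ?_⟩
  have hmain : Psi (x' ++ u) (Psi w z) = Psi u (Psi v z) := by
    rw [Psi_append, ← Psi_append w x' z, hwx]
  have h1 := W_lower_far hu1 hu2
  have h2 : 81 / 10 ^ 10 ≤ ‖W (Psi (x' ++ u) (Psi w z)) ^ 2‖ := by
    rw [hmain, norm_pow]
    calc (81 / 10 ^ 10 : ℝ) = (9 / 100000) ^ 2 := by norm_num
      _ ≤ _ := by gcongr
  have h3 : ‖∑ w' ∈ (lw M).erase w, W (Psi (x' ++ u) (Psi w' z)) ^ 2‖ ≤ 1 / 10 ^ 11 * 66 := by
    calc ‖∑ w' ∈ (lw M).erase w, W (Psi (x' ++ u) (Psi w' z)) ^ 2‖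
        ≤ ∑ w' ∈ (lw M).erase w, ‖W (Psi (x' ++ u) (Psi w' z)) ^ 2‖ := norm_sum_le _ _
      _ ≤ ∑ w' ∈ (lw M).erase w, 1 / 10 ^ 11 * th (Psi w' z) := by
          refine Finset.sum_le_sum fun w' hw' => W_sq_other hxul ?_
          exact other_far hwm (Finset.mem_of_mem_erase hw') (Finset.ne_of_mem_erase hw')
            (by linarith)
      _ ≤ ∑ w' ∈ lw M, 1 / 10 ^ 11 * th (Psi w' z) :=
          Finset.sum_le_sum_of_subset_of_nonneg (Finset.erase_subset _ _)
            fun i _ _ => mul_nonneg (by norm_num) (th_pos _).le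
      _ = 1 / 10 ^ 11 * Sg M z := by rw [← Finset.mul_sum, sum_lw]
      _ ≤ 1 / 10 ^ 11 * 66 := by
          have := Sg_le' M z
          gcongr
  have h4 : pat (x' ++ u) M z = W (Psi (x' ++ u) (Psi w z)) ^ 2
      + ∑ w' ∈ (lw M).erase w, W (Psi (x' ++ u) (Psi w' z)) ^ 2 := by
    unfold pat
    rw [← Finset.add_sum_erase _ _ hwm]
  have h5 : ‖W (Psi (x' ++ u) (Psi w z)) ^ 2‖ ≤ ‖pat (x' ++ u) M z‖
      + ‖∑ w' ∈ (lw M).erase w, W (Psi (x' ++ u) (Psi w' z)) ^ 2‖ := by
    have := norm_sub_le (pat (x' ++ u) M z)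
      (∑ w' ∈ (lw M).erase w, W (Psi (x' ++ u) (Psi w' z)) ^ 2)
    rw [h4] at this ⊢
    rwa [add_sub_cancel_right] at this
  have h6 : (4 / 10 ^ 9 : ℝ) ≤ 81 / 10 ^ 10 - 1 / 10 ^ 11 * 66 := by norm_num
  linarith

/-- the pattern functions, as a finite family -/
theorem exists_patterns : ∃ (m : ℕ) (P : Fin m → ℕ → ℂ → ℂ), (∀ i M, Continuous (P i M)) ∧
    (∀ i M, DifferentiableOn ℂ (P i M) squareCantorᶜ) ∧
    (∀ i M z, ‖P i M z‖ ≤ 130000000 * Sg M z) ∧
    ∀ (M : ℕ) (z : ℂ), 3 ^ (M + 16) * infDist z squareCantor ≤ 151 / 100 →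
      ∃ i, 4 / 10 ^ 9 ≤ ‖P i M z‖ := by
  have key : ∀ S : Finset (List D), (∀ (M : ℕ) (z : ℂ),
      3 ^ (M + 16) * infDist z squareCantor ≤ 151 / 100 →
      ∃ x ∈ S, 4 / 10 ^ 9 ≤ ‖pat x M z‖) → ∃ (m : ℕ) (P : Fin m → ℕ → ℂ → ℂ),
    (∀ i M, Continuous (P i M)) ∧
    (∀ i M, DifferentiableOn ℂ (P i M) squareCantorᶜ) ∧
    (∀ i M z, ‖P i M z‖ ≤ 130000000 * Sg M z) ∧
    ∀ (M : ℕ) (z : ℂ), 3 ^ (M + 16) * infDist z squareCantor ≤ 151 / 100 →
      ∃ i, 4 / 10 ^ 9 ≤ ‖P i M z‖ := by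
    intro S hS
    refine ⟨S.card, fun i => pat (S.equivFin.symm i).1, fun i M => pat_continuous _ M,
      fun i M => pat_differentiableOn _ M, fun i M z => pat_le _ M z, fun M z hz => ?_⟩
    obtain ⟨x, hx, hx'⟩ := hS M z hz
    refine ⟨S.equivFin ⟨x, hx⟩, ?_⟩
    show 4 / 10 ^ 9 ≤ ‖pat (S.equivFin.symm (S.equivFin ⟨x, hx⟩)).1 M z‖
    rw [Equiv.symm_apply_apply]
    exact hx'
  exact key (lw 20) fun M z hz => pat_lower M hz

end Pool.Corona91698f
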