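import Mathlib
import Pool.Agent.Corona91698f.Pattern
import Pool.Agent.Corona91698f.Main

/-!
# Uniform constants for data that are continuous in the plane imply uniform constants for all data
-/

open Complex Metric Set Filter Topology
open scoped BoundedContinuousFunction

set_option autoImplicit false

namespace Pool.Corona91698f

/-- Limits of bounded holomorphic functions along an ultrafilter are holomorphic. -/
theorem ultra_limit {U : Set ℂ} (hU : IsOpen U) (φ : Ultrafilter ℕ) {g : ℕ → ℂ → ℂ}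
    (hd : ∀ m, DifferentiableOn ℂ (g m) U) (hb : ∀ m, ∀ z ∈ U, ‖g m z‖ ≤ 1) :
    ∃ G : ℂ → ℂ, DifferentiableOn ℂ G U ∧
      ∀ z ∈ U, Tendsto (fun m => g m z) (φ : Filter ℕ) (𝓝 (G z)) := by
  classical
  have key : ∀ z₀ ∈ U, ∃ (H : ℂ → ℂ) (ρ : ℝ), 0 < ρ ∧ DifferentiableOn ℂ H (ball z₀ ρ) ∧
      ∀ z ∈ ball z₀ ρ, Tendsto (fun m => g m z) (φ : Filter ℕ) (𝓝 (H z)) := by
    intro z₀ hz₀
    obtain ⟨r, hr, hrU⟩ := Metric.isOpen_iff.1 hU z₀ hz₀
    have hX : IsCompact (closedBall z₀ (r / 2)) := isCompact_closedBall _ _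
    have hXU : closedBall z₀ (r / 2) ⊆ U :=
      (closedBall_subset_ball (by linarith)).trans hrU
    have : CompactSpace (closedBall z₀ (r / 2)) := isCompact_iff_compactSpace.1 hX
    have hc := isCompact_restrict hU hX hXU
    have hcont : ∀ m, Continuous fun x : closedBall z₀ (r / 2) => g m x := fun m =>
      ((hd m).continuousOn.mono hXU).comp_continuous continuous_subtype_val (fun x => x.2)
    let R : ℕ → (closedBall z₀ (r / 2) →ᵇ ℂ) := fun m =>
      BoundedContinuousFunction.mkOfCompact ⟨fun x => g m x, hcont m⟩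
    obtain ⟨h, -, hh⟩ := hc.ultrafilter_le_nhds' (φ.map R) (by
      refine Ultrafilter.mem_map.2 (Filter.univ_mem' fun m => ?_)
      exact subset_closure ⟨g m, hd m, hb m, fun x => rfl⟩)
    have ht : Tendsto R (φ : Filter ℕ) (𝓝 h) := hh
    rw [BoundedContinuousFunction.tendsto_iff_tendstoUniformly] at ht
    let H : ℂ → ℂ := fun z => if hz : z ∈ closedBall z₀ (r / 2) then h ⟨z, hz⟩ else 0
    have hu : TendstoUniformlyOn g H (φ : Filter ℕ) (closedBall z₀ (r / 2)) := by
      rw [tendstoUniformlyOn_iff_tendstoUniformly_comp_coe]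
      have e : (H ∘ fun x : closedBall z₀ (r / 2) => (x : ℂ)) = h := by
        funext x
        simp only [H, Function.comp]
        rw [dif_pos x.2]
      rw [e]
      exact ht
    refine ⟨H, r / 2, by positivity, ?_, ?_⟩
    · exact (hu.mono ball_subset_closedBall).tendstoLocallyUniformlyOn.differentiableOn
        (Eventually.of_forall fun m => (hd m).mono (ball_subset_closedBall.trans hXU)) isOpen_ball
    · intro z hz
      exact hu.tendsto_at (ball_subset_closedBall hz)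
  let G : ℂ → ℂ := fun z =>
    if h : ∃ L, Tendsto (fun m => g m z) (φ : Filter ℕ) (𝓝 L) then h.choose else 0
  have hG : ∀ z ∈ U, Tendsto (fun m => g m z) (φ : Filter ℕ) (𝓝 (G z)) := by
    intro z hz
    obtain ⟨H, ρ, hρ, -, hH⟩ := key z hz
    have h : ∃ L, Tendsto (fun m => g m z) (φ : Filter ℕ) (𝓝 L) :=
      ⟨H z, hH z (mem_ball_self hρ)⟩
    simp only [G]
    rw [dif_pos h]
    exact h.choose_spec
  refine ⟨G, ?_, hG⟩
  intro z hz
  obtain ⟨H, ρ, hρ, hHd, hH⟩ := key z hz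
  have h1 : DifferentiableAt ℂ H z := hHd.differentiableAt (isOpen_ball.mem_nhds (mem_ball_self hρ))
  refine (h1.congr_of_eventuallyEq ?_).differentiableWithinAt
  filter_upwards [isOpen_ball.mem_nhds (mem_ball_self hρ), hU.mem_nhds hz] with y hy hyU
  exact tendsto_nhds_unique (hG y hyU) (hH y hy)

/-- Uniform constants for corona data that are continuous in the whole plane. -/
def QuantCoronaC : Prop :=
  ∀ (n : ℕ) (δ : ℝ), 0 < δ → ∃ C : ℝ, ∀ f : Fin n → ℂ → ℂ,
    (∀ j, Continuous (f j)) →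
    (∀ j, DifferentiableOn ℂ (f j) squareCantorᶜ) →
    (∀ j, ∀ z ∈ squareCantorᶜ, ‖f j z‖ ≤ 1) →
    (∀ z ∈ squareCantorᶜ, ∃ j, δ ≤ ‖f j z‖) →
    ∃ g : Fin n → ℂ → ℂ,
      (∀ j, DifferentiableOn ℂ (g j) squareCantorᶜ) ∧
      (∀ j, ∀ z ∈ squareCantorᶜ, ‖g j z‖ ≤ C) ∧
      (∀ z ∈ squareCantorᶜ, ∑ j, f j z * g j z = 1)

theorem quantC_fintype (hC : QuantCoronaC) (ι : Type) [Fintype ι] (δ : ℝ) (hδ : 0 < δ) :
    ∃ C : ℝ, ∀ f : ι → ℂ → ℂ,
    (∀ j, Continuous (f j)) →
    (∀ j, DifferentiableOn ℂ (f j) squareCantorᶜ) →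
    (∀ j, ∀ z ∈ squareCantorᶜ, ‖f j z‖ ≤ 1) →
    (∀ z ∈ squareCantorᶜ, ∃ j, δ ≤ ‖f j z‖) →
    ∃ g : ι → ℂ → ℂ,
      (∀ j, DifferentiableOn ℂ (g j) squareCantorᶜ) ∧
      (∀ j, ∀ z ∈ squareCantorᶜ, ‖g j z‖ ≤ C) ∧
      (∀ z ∈ squareCantorᶜ, ∑ j, f j z * g j z = 1) := by
  classical
  obtain ⟨C, h⟩ := hC (Fintype.card ι) δ hδ
  let e : ι ≃ Fin (Fintype.card ι) := Fintype.equivFin ι
  refine ⟨C, fun f h1 h2 h3 h4 => ?_⟩
  obtain ⟨g, g1, g2, g3⟩ := h (fun i => f (e.symm i)) (fun i => h1 _) (fun i => h2 _)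
    (fun i => h3 _) (fun z hz => by
      obtain ⟨j, hj⟩ := h4 z hz
      exact ⟨e j, by simpa using hj⟩)
  refine ⟨fun j => g (e j), fun j => g1 _, fun j => g2 _, fun z hz => ?_⟩
  rw [← g3 z hz, ← e.sum_comp]
  simp

/-- **Uniform constants for continuous data imply uniform constants for all data.** -/
theorem quant_of_quantC (hC : QuantCoronaC) : QuantCorona squareCantor := by
  classical
  intro n δ hδ
  obtain ⟨j₀, hj₀⟩ := exists_pow_lt_of_lt_one (show 0 < δ / (2 * (2000002 * 189)) by positivity)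
    (show (4 / 9 : ℝ) < 1 by norm_num)
  rw [lt_div_iff₀ (by norm_num)] at hj₀
  obtain ⟨m, P, hPc, hPd, hPle, hPlow⟩ := exists_patterns
  obtain ⟨C, hC'⟩ := quantC_fintype hC (Fin n ⊕ Fin m)
    (min (δ / 2) (4 / 10 ^ 9) / 10 ^ 11) (by positivity)
  set C₁ : ℝ := max C 1 with hC₁
  have hC₁0 : 0 < C₁ := lt_of_lt_of_le one_pos (le_max_right _ _)
  have hCC : C ≤ C₁ := le_max_left _ _
  refine ⟨C₁, fun f hd hb hl => ?_⟩
  choose F hFc hFd hFe using fun (M : ℕ) (j : Fin n) => approx (M + 16 + j₀) (hd j) (hb j)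
  have hFb : ∀ M j, ∀ z ∈ squareCantorᶜ, ‖F M j z‖ ≤ 10 ^ 11 := by
    intro M j z hz
    have h1 := hFe M j z hz
    have h2 := Sg_le' (M + 16 + j₀) z
    have h3 := hb j z hz
    have h4 : ‖F M j z‖ ≤ ‖F M j z - f j z‖ + ‖f j z‖ := by
      have := norm_add_le (F M j z - f j z) (f j z)
      rwa [sub_add_cancel] at this
    norm_num
    linarith
  have hPb : ∀ (x : Fin m) (M : ℕ) (z : ℂ), ‖P x M z‖ ≤ 10 ^ 11 := by
    intro x M z
    have h1 := hPle x M z
    have h2 := Sg_le' M z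
    norm_num
    linarith
  let Φ : ℕ → Fin n ⊕ Fin m → ℂ → ℂ := fun M i z =>
    Sum.elim (fun j => F M j z) (fun x => P x M z) i / 10 ^ 11
  have hsolve : ∀ M, ∃ g : Fin n ⊕ Fin m → ℂ → ℂ,
      (∀ j, DifferentiableOn ℂ (g j) squareCantorᶜ) ∧
      (∀ j, ∀ z ∈ squareCantorᶜ, ‖g j z‖ ≤ C) ∧
      (∀ z ∈ squareCantorᶜ, ∑ j, Φ M j z * g j z = 1) := by
    intro M
    have hn11 : ‖(10 ^ 11 : ℂ)‖ = 10 ^ 11 := by norm_num
    refine hC' (Φ M) ?_ ?_ ?_ ?_
    · rintro (j | x)
      · exact (hFc M j).div_const _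
      · exact (hPc x M).div_const _
    · rintro (j | x)
      · exact (hFd M j).div_const _
      · exact (hPd x M).div_const _
    · rintro (j | x) z hz
      · simp only [Φ, Sum.elim_inl]
        rw [norm_div, hn11, div_le_one (by norm_num)]
        exact hFb M j z hz
      · simp only [Φ, Sum.elim_inr]
        rw [norm_div, hn11, div_le_one (by norm_num)]
        exact hPb x M z
    · intro z hz
      by_cases h : 151 / 100 < 3 ^ (M + 16) * infDist z squareCantor
      · obtain ⟨j, hj⟩ := hl z hz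
        refine ⟨Sum.inl j, ?_⟩
        simp only [Φ, Sum.elim_inl]
        rw [norm_div, hn11]
        have h1 := hFe M j z hz
        have h2 := Sg_decay' (k := M + 16) (j := j₀) h
        have h3 : ‖f j z‖ ≤ ‖F M j z‖ + ‖F M j z - f j z‖ := by
          have := norm_sub_le (F M j z) (F M j z - f j z)
          rwa [sub_sub_cancel] at this
        have h4 : δ / 2 ≤ ‖F M j z‖ := by linarith
        gcongr
        exact (min_le_left _ _).trans h4
      · push Not at h
        obtain ⟨x, hx'⟩ := hPlow M z h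
        refine ⟨Sum.inr x, ?_⟩
        simp only [Φ, Sum.elim_inr]
        rw [norm_div, hn11]
        gcongr
        exact (min_le_right _ _).trans hx'
  choose g hgd hgb hgs using hsolve
  have hC₁c : (C₁ : ℂ) ≠ 0 := by exact_mod_cast hC₁0.ne'
  have hnC : ‖(C₁ : ℂ)‖ = C₁ := by
    rw [Complex.norm_real, Real.norm_eq_abs, abs_of_pos hC₁0]
  have hopen : IsOpen squareCantorᶜ := isClosed_squareCantor.isOpen_compl
  have hlim : ∀ i, ∃ G : ℂ → ℂ, DifferentiableOn ℂ G squareCantorᶜ ∧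
      ∀ z ∈ squareCantorᶜ, Tendsto (fun M => g M i z / (C₁ : ℂ)) (hyperfilter ℕ : Filter ℕ)
        (𝓝 (G z)) := by
    intro i
    refine ultra_limit hopen (hyperfilter ℕ) (g := fun M z => g M i z / (C₁ : ℂ))
      (fun M => (hgd M i).div_const _) (fun M z hz => ?_)
    rw [norm_div, hnC, div_le_one hC₁0]
    exact (hgb M i z hz).trans hCC
  choose G hGd hGt using hlim
  have hGb : ∀ i, ∀ z ∈ squareCantorᶜ, ‖G i z‖ ≤ 1 := by
    intro i z hz
    refine le_of_tendsto (hGt i z hz).norm (Eventually.of_forall fun M => ?_)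
    rw [norm_div, hnC, div_le_one hC₁0]
    exact (hgb M i z hz).trans hCC
  have hle : (hyperfilter ℕ : Filter ℕ) ≤ atTop := by
    rw [← Nat.cofinite_eq_atTop]
    exact hyperfilter_le_cofinite
  refine ⟨fun j z => (C₁ : ℂ) * G (Sum.inl j) z / 10 ^ 11, ?_, ?_, ?_⟩
  · intro j
    exact ((hGd (Sum.inl j)).const_mul _).div_const _
  · intro j z hz
    rw [norm_div, norm_mul, hnC]
    have h1 := hGb (Sum.inl j) z hz
    have hn11 : ‖(10 ^ 11 : ℂ)‖ = 10 ^ 11 := by norm_num
    rw [hn11, div_le_iff₀ (by norm_num)]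
    nlinarith [norm_nonneg (G (Sum.inl j) z)]
  · intro z hz
    -- convergence of the data
    have hF : ∀ j, Tendsto (fun M => F M j z) (hyperfilter ℕ : Filter ℕ) (𝓝 (f j z)) := by
      intro j
      rw [tendsto_iff_norm_sub_tendsto_zero]
      have h1 : Tendsto (fun M : ℕ => (2000002 : ℝ) * Sg (M + 16 + j₀) z)
          (hyperfilter ℕ : Filter ℕ) (𝓝 0) := by
        have h2 : Tendsto (fun M : ℕ => Sg (M + (16 + j₀)) z) atTop (𝓝 0) :=
          (tendsto_add_atTop_iff_nat (f := fun n => Sg n z) (16 + j₀)).2 (Sg_tendsto hz)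
        have h3 := (h2.mono_left hle).const_mul (2000002 : ℝ)
        rw [mul_zero] at h3
        exact h3.congr fun M => by rw [add_assoc]
      exact squeeze_zero (fun M => norm_nonneg _) (fun M => hFe M j z hz) h1
    have hP : ∀ x : Fin m, Tendsto (fun M => P x M z)
        (hyperfilter ℕ : Filter ℕ) (𝓝 0) := by
      intro x
      rw [tendsto_zero_iff_norm_tendsto_zero]
      have h1 : Tendsto (fun M : ℕ => (130000000 : ℝ) * Sg M z)
          (hyperfilter ℕ : Filter ℕ) (𝓝 0) := by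
        have h3 := ((Sg_tendsto hz).mono_left hle).const_mul (130000000 : ℝ)
        rwa [mul_zero] at h3
      exact squeeze_zero (fun M => norm_nonneg _) (fun M => hPle x M z) h1
    have hg : ∀ i, Tendsto (fun M => g M i z) (hyperfilter ℕ : Filter ℕ)
        (𝓝 ((C₁ : ℂ) * G i z)) := by
      intro i
      refine ((hGt i z hz).const_mul (C₁ : ℂ)).congr fun M => ?_
      rw [mul_div_cancel₀ _ hC₁c]
    have hsum : Tendsto (fun M => ∑ i, Φ M i z * g M i z) (hyperfilter ℕ : Filter ℕ)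
        (𝓝 (∑ j, f j z / 10 ^ 11 * ((C₁ : ℂ) * G (Sum.inl j) z)
          + ∑ x : Fin m, 0 / 10 ^ 11 * ((C₁ : ℂ) * G (Sum.inr x) z))) := by
      simp only [Fintype.sum_sum_type]
      refine Tendsto.add ?_ ?_
      · refine tendsto_finsetSum _ fun j _ => ?_
        exact ((hF j).div_const _).mul (hg (Sum.inl j))
      · refine tendsto_finsetSum _ fun x _ => ?_
        exact ((hP x).div_const _).mul (hg (Sum.inr x))
    have h1 : Tendsto (fun M => ∑ i, Φ M i z * g M i z) (hyperfilter ℕ : Filter ℕ) (𝓝 1) := by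
      refine tendsto_const_nhds.congr fun M => ?_
      exact (hgs M z hz).symm
    have h2 := tendsto_nhds_unique h1 hsum
    rw [h2]
    simp only [zero_div, zero_mul, Finset.sum_const_zero, add_zero]
    refine Finset.sum_congr rfl fun j _ => ?_
    ring

end Pool.Corona91698f
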