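import Mathlib
import Pool.Agent.Corona91698f.Cantor

/-!
# One point suffices for the corona theorem on the complement of the square Cantor set
-/

open Metric Set

set_option autoImplicit false

namespace Pool.Agent.Corona91698f.OnePointOld

/-- The complement in the plane of the product `K × K`, where `K` is the middle-thirds Cantor
set. -/
def Omega : Set ℂ := {z : ℂ | ¬ (z.re ∈ cantorSet ∧ z.im ∈ cantorSet)}

/-- `CoronaData f δ`: the functions `f j` are bounded and holomorphic on `Omega`, and at every point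
of `Omega` one of them has modulus at least `δ`. -/
def CoronaData {n : ℕ} (f : Fin n → ℂ → ℂ) (δ : ℝ) : Prop :=
  (∀ j, DifferentiableOn ℂ (f j) Omega) ∧ (∀ j, ∃ M : ℝ, ∀ z ∈ Omega, ‖f j z‖ ≤ M) ∧
    ∀ z ∈ Omega, ∃ j, δ ≤ ‖f j z‖

/-- `SolvedOn f g U`: the functions `g j` are bounded and holomorphic on `U`, and
`∑ j, f j * g j = 1` on `U`. -/
def SolvedOn {n : ℕ} (f g : Fin n → ℂ → ℂ) (U : Set ℂ) : Prop :=
  (∀ j, DifferentiableOn ℂ (g j) U) ∧ (∀ j, ∃ M : ℝ, ∀ z ∈ U, ‖g j z‖ ≤ M) ∧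
    ∀ z ∈ U, ∑ j, f j z * g j z = 1

/-- The corona theorem for `Omega`. -/
def Corona : Prop :=
  ∀ (n : ℕ) (f : Fin n → ℂ → ℂ) (δ : ℝ), 0 < δ → CoronaData f δ → ∃ g, SolvedOn f g Omega

/-- The corona theorem for `Omega`, localised at the point `p`: every corona problem on `Omega` has a
bounded solution on the intersection of `Omega` with some disc about `p`. -/
def LocalCorona (p : ℂ) : Prop :=
  ∀ (n : ℕ) (f : Fin n → ℂ → ℂ) (δ : ℝ), 0 < δ → CoronaData f δ →
    ∃ r : ℝ, 0 < r ∧ ∃ g, SolvedOn f g (Omega ∩ ball p r)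

/-- The corona theorem for `Omega` with a bound for the solutions that depends only on the number of
functions and on the lower bound `δ` of the data. -/
def UniformCorona : Prop :=
  ∀ (n : ℕ) (δ : ℝ), 0 < δ → ∃ C : ℝ, ∀ f : Fin n → ℂ → ℂ, CoronaData f δ →
    (∀ j, ∀ z ∈ Omega, ‖f j z‖ ≤ 1) →
      ∃ g, SolvedOn f g Omega ∧ ∀ j, ∀ z ∈ Omega, ‖g j z‖ ≤ C

theorem omega_eq : Omega = Pool.Corona91698f.squareCantorᶜ := rfl

/-- For every point `p` of `K × K`, the local corona property at the single point `p` is equivalent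
to the corona theorem for the complement of `K × K`, and also to its uniform version. -/
theorem result :
    ∀ p : ℂ, p.re ∈ cantorSet → p.im ∈ cantorSet →
      (LocalCorona p ↔ Corona) ∧ (LocalCorona p ↔ UniformCorona) := by
  intro p hp1 hp2
  have hp : p ∈ Pool.Corona91698f.squareCantor := ⟨hp1, hp2⟩
  have hLU : LocalCorona p → UniformCorona := by
    intro hloc
    obtain ⟨K⟩ := Pool.Corona91698f.exists_copies hp
    have hq : Pool.Corona91698f.QuantCorona Pool.Corona91698f.squareCantor := by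
      refine Pool.Corona91698f.quant_of_local K Pool.Corona91698f.isClosed_squareCantor
        (fun z hz => Pool.Corona91698f.squareCantor_dist hz) hp ?_
      intro n f δ hδ hf hb hl
      obtain ⟨r, hr, g, hg1, hg2, hg3⟩ := hloc n f δ hδ ⟨hf, hb, hl⟩
      exact ⟨r, hr, g, hg1, hg2, hg3⟩
    intro n δ hδ
    obtain ⟨C, hC⟩ := hq n δ hδ
    refine ⟨C, fun f hf hb => ?_⟩
    obtain ⟨g, hg1, hg2, hg3⟩ := hC f hf.1 hb hf.2.2
    exact ⟨g, ⟨hg1, fun j => ⟨C, hg2 j⟩, hg3⟩, hg2⟩
  have hUC : UniformCorona → Corona := by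
    intro hu n f δ hδ hf
    -- normalise the data
    obtain ⟨hf1, hf2, hf3⟩ := hf
    choose M hM using hf2
    set B : ℝ := 1 + ∑ j, |M j| with hB
    have hB1 : 1 ≤ B := by
      have : 0 ≤ ∑ j, |M j| := Finset.sum_nonneg fun j _ => abs_nonneg _
      linarith
    have hB0 : 0 < B := by linarith
    have hMB : ∀ j, M j ≤ B := by
      intro j
      have h1 := Finset.single_le_sum (f := fun j => |M j|) (fun i _ => abs_nonneg _)
        (Finset.mem_univ j)
      have h2 := le_abs_self (M j)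
      linarith
    have hBc : (B : ℂ) ≠ 0 := by exact_mod_cast hB0.ne'
    have hnorm : ∀ j z, ‖f j z / (B : ℂ)‖ = ‖f j z‖ / B := by
      intro j z
      rw [norm_div, Complex.norm_real, Real.norm_eq_abs, abs_of_pos hB0]
    obtain ⟨C, hC⟩ := hu n (δ / B) (by positivity)
    have hb1 : ∀ j, ∀ z ∈ Omega, ‖f j z / (B : ℂ)‖ ≤ 1 := by
      intro j z hz
      rw [hnorm, div_le_one hB0]
      exact (hM j z hz).trans (hMB j)
    obtain ⟨g, ⟨hg1, hg2, hg3⟩, -⟩ := hC (fun j z => f j z / (B : ℂ))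
      ⟨fun j => (hf1 j).div_const _, fun j => ⟨1, hb1 j⟩, fun z hz => by
        obtain ⟨j, hj⟩ := hf3 z hz
        refine ⟨j, ?_⟩
        rw [hnorm]
        gcongr⟩ hb1
    refine ⟨fun j z => g j z / (B : ℂ), fun j => (hg1 j).div_const _, ?_, ?_⟩
    · intro j
      obtain ⟨N, hN⟩ := hg2 j
      refine ⟨N / B, fun z hz => ?_⟩
      rw [norm_div, Complex.norm_real, Real.norm_eq_abs, abs_of_pos hB0]
      have := hN z hz
      gcongr
    · intro z hz
      rw [← hg3 z hz]
      refine Finset.sum_congr rfl fun j _ => ?_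
      ring
  have hCL : Corona → LocalCorona p := by
    intro hc n f δ hδ hf
    obtain ⟨g, hg1, hg2, hg3⟩ := hc n f δ hδ hf
    refine ⟨1, one_pos, g, fun j => (hg1 j).mono inter_subset_left, fun j => ?_, ?_⟩
    · obtain ⟨N, hN⟩ := hg2 j
      exact ⟨N, fun z hz => hN z hz.1⟩
    · intro z hz
      exact hg3 z hz.1
  exact ⟨⟨fun h => hUC (hLU h), hCL⟩, ⟨hLU, fun h => hCL (hUC h)⟩⟩

end Pool.Agent.Corona91698f.OnePointOld
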