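import Mathlib
import Pool.Agent.Corona91698f.PorCousin2

/-!
# The corona theorem for porous families of local solutions
-/

open Complex Metric Set Filter Topology

set_option autoImplicit false

namespace Pool.Corona91698f

theorem Dv_append (v u : List D) : Dv (v ++ u) ⊆ Dv v := by
  intro z hz
  have h : dist (Psi (v ++ u) z) ctr < 80 / 100 := hz
  rw [Psi_append] at h
  show dist (Psi v z) ctr < 80 / 100
  clear hz
  generalize Psi v z = y at h ⊢
  induction u generalizing y with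
  | nil => exact h
  | cons d u ih =>
    have h1 := ih _ h
    have h2 := dist_le_of_psi d y
    linarith

theorem Dv_take (v : List D) (k : ℕ) : Dv v ⊆ Dv (v.take k) := by
  have h := Dv_append (v.take k) (v.drop k)
  rwa [List.take_append_drop] at h

theorem LocSol.mono {n : ℕ} {f : Fin n → ℂ → ℂ} {B : ℝ} {v u : List D} (h : LocSol f B v) :
    LocSol f B (v ++ u) := by
  obtain ⟨g, h1, h2, h3⟩ := h
  have hs : Dv (v ++ u) ∩ squareCantorᶜ ⊆ Dv v ∩ squareCantorᶜ :=
    inter_subset_inter_left _ (Dv_append v u)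
  exact ⟨g, fun j => (h1 j).mono hs, fun j z hz => h2 j z (hs hz), fun z hz => h3 z (hs hz)⟩

/-- Coherent local solutions: a word with a local solution passes it on to its children. -/
theorem coherent {n : ℕ} (f : Fin n → ℂ → ℂ) (B : ℝ) :
    ∃ g : List D → Fin n → ℂ → ℂ, (∀ v d, LocSol f B v → g (v ++ [d]) = g v) ∧
      ∀ v, LocSol f B v → (∀ j, DifferentiableOn ℂ (g v j) (Dv v ∩ squareCantorᶜ)) ∧
        (∀ j, ∀ z ∈ Dv v ∩ squareCantorᶜ, ‖g v j z‖ ≤ B) ∧
        ∀ z ∈ Dv v ∩ squareCantorᶜ, ∑ j, f j z * g v j z = 1 := by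
  classical
  let s : List D → Fin n → ℂ → ℂ := fun v => if h : LocSol f B v then h.choose else 0
  have hs : ∀ v, LocSol f B v → (∀ j, DifferentiableOn ℂ (s v j) (Dv v ∩ squareCantorᶜ)) ∧
        (∀ j, ∀ z ∈ Dv v ∩ squareCantorᶜ, ‖s v j z‖ ≤ B) ∧
        ∀ z ∈ Dv v ∩ squareCantorᶜ, ∑ j, f j z * s v j z = 1 := by
    intro v h
    simp only [s, dif_pos h]
    exact h.choose_spec
  let k : List D → ℕ := fun v =>
    if h : ∃ k, LocSol f B (v.take k) then Nat.find h else 0
  have hex : ∀ v, LocSol f B v → ∃ k, LocSol f B (v.take k) := fun v h =>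
    ⟨v.length, by rwa [List.take_length]⟩
  have hk : ∀ v, LocSol f B v → LocSol f B (v.take (k v)) ∧ k v ≤ v.length ∧
      ∀ j < k v, ¬ LocSol f B (v.take j) := by
    intro v h
    have e : k v = Nat.find (hex v h) := by
      simp only [k, dif_pos (hex v h)]
    rw [e]
    refine ⟨Nat.find_spec (hex v h), ?_, fun j hj => Nat.find_min (hex v h) hj⟩
    exact Nat.find_min' (hex v h) (by rwa [List.take_length])
  refine ⟨fun v => s (v.take (k v)), ?_, ?_⟩
  · intro v d h
    obtain ⟨a1, a2, a3⟩ := hk v h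
    obtain ⟨b1, b2, b3⟩ := hk (v ++ [d]) h.mono
    have e1 : ∀ j ≤ v.length, (v ++ [d]).take j = v.take j := by
      intro j hj
      rw [List.take_append_of_le_length hj]
    have e : k (v ++ [d]) = k v := by
      apply le_antisymm
      · by_contra hlt
        push Not at hlt
        have := b3 _ hlt
        rw [e1 _ a2] at this
        exact this a1
      · by_contra hlt
        push Not at hlt
        have := a3 _ hlt
        rw [e1 _ (by omega)] at b1
        exact this b1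
    show s ((v ++ [d]).take (k (v ++ [d]))) = s (v.take (k v))
    rw [e, e1 _ a2]
  · intro v h
    obtain ⟨a1, -, -⟩ := hk v h
    obtain ⟨h1, h2, h3⟩ := hs _ a1
    have hsub : Dv v ∩ squareCantorᶜ ⊆ Dv (v.take (k v)) ∩ squareCantorᶜ :=
      inter_subset_inter_left _ (Dv_take v (k v))
    exact ⟨fun j => (h1 j).mono hsub, fun j z hz => h2 j z (hsub hz), fun z hz => h3 z (hsub hz)⟩

theorem NR_Dv {v : List D} {z : ℂ} (hz : z ∈ NR (some v)) : z ∈ Dv v ∩ squareCantorᶜ := by
  have h1 : Psi v z ∈ nodeV := hz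
  exact ⟨h1.1, NR_notMem hz⟩

/-- **Porous localisation.** If near every square there is a smaller one (by `J0` generations)
with a bounded local solution, then there is a bounded global solution. -/
theorem porous_corona (n : ℕ) (δ : ℝ) (hδ : 0 < δ) (J0 : ℕ) (hC : CousinPor J0) (B : ℝ) :
    ∃ C : ℝ, 0 < C ∧ ∀ f : Fin n → ℂ → ℂ, (∀ j, DifferentiableOn ℂ (f j) squareCantorᶜ) →
      (∀ j, ∀ z ∈ squareCantorᶜ, ‖f j z‖ ≤ 1) →
      (∀ z ∈ squareCantorᶜ, ∃ j, δ ≤ ‖f j z‖) →
      (∀ v : List D, ∃ x : List D, x.length = J0 ∧ LocSol f B (v ++ x)) →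
      ∃ G : Fin n → ℂ → ℂ, (∀ j, DifferentiableOn ℂ (G j) squareCantorᶜ) ∧
        (∀ j, ∀ z ∈ squareCantorᶜ, ‖G j z‖ ≤ C) ∧
        ∀ z ∈ squareCantorᶜ, ∑ j, f j z * G j z = 1 := by
  classical
  obtain ⟨Cc, hCc, hcousin⟩ := hC
  obtain ⟨C1, hC1⟩ := node_corona n δ hδ
  obtain ⟨C2, hC2⟩ := exterior_corona (ρ := 72 / 100) (ρ' := 74 / 100) (by norm_num)
    (by norm_num) n δ hδ
  obtain ⟨A, hA1, hAC1, hAC2, hAB⟩ : ∃ A : ℝ, 1 ≤ A ∧ C1 ≤ A ∧ C2 ≤ A ∧ B ≤ A :=
    ⟨max (max C1 C2) (max B 1), (le_max_right _ _).trans (le_max_right _ _),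
      (le_max_left _ _).trans (le_max_left _ _), (le_max_right _ _).trans (le_max_left _ _),
      (le_max_left _ _).trans (le_max_right _ _)⟩
  have hA0 : 0 < A := by linarith
  refine ⟨A + n * (Cc * (2 * A ^ 2)), by positivity, fun f hfd hfb hfl hpor => ?_⟩
  -- local solutions
  have hopE : IsOpen squareCantorᶜ := isClosed_squareCantor.isOpen_compl
  have hloc := fun v : List D => hC1 (fun j z => f j (Phi v z))
    (fun j z hz => by
      have h1 : DifferentiableAt ℂ (f j) (Phi v z) :=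
        (hfd j).differentiableAt (hopE.mem_nhds (Phi_notMem hz))
      exact (DifferentiableAt.comp (g := f j) (f := Phi v) z h1
        (differentiable_Phi v z)).differentiableWithinAt)
    (fun j z hz => hfb j _ (Phi_notMem hz))
    (fun z hz => hfl _ (Phi_notMem hz))
  choose g hgd hgb hgs using hloc
  have hext : {z : ℂ | (72 / 100 : ℝ) < dist z ctr} ⊆ squareCantorᶜ := by
    intro z hz hE
    have h1 := squareCantor_dist' hE
    have h2 : (72 / 100 : ℝ) < dist z ctr := hz
    linarith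
  obtain ⟨h, hhd, hhb, hhs⟩ := hC2 ctr f (fun j => (hfd j).mono hext)
    (fun j z hz => hfb j z (hext hz)) (fun z hz => hfl z (hext hz))
  obtain ⟨l, hl1, hl2⟩ := coherent f B
  let gR : Option (List D) → Fin n → ℂ → ℂ := fun R =>
    match R with
    | none => h
    | some v => if LocSol f B v then l v else fun i z => g v i (Psi v z)
  have hgRd : ∀ R i, DifferentiableOn ℂ (gR R i) (NR R) := by
    intro R i
    cases R with
    | none => exact hhd i
    | some v =>
      by_cases hv : LocSol f B v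
      · simp only [gR, if_pos hv]
        exact ((hl2 v hv).1 i).mono fun z hz => NR_Dv hz
      · simp only [gR, if_neg hv]
        intro z hz
        have h1 : DifferentiableAt ℂ (g v i) (Psi v z) :=
          (hgd v i).differentiableAt (isOpen_nodeV.mem_nhds hz)
        exact (DifferentiableAt.comp (g := g v i) (f := Psi v) z h1
          (differentiable_Psi v z)).differentiableWithinAt
  have hgRb : ∀ R i, ∀ z ∈ NR R, ‖gR R i z‖ ≤ A := by
    intro R i z hz
    cases R with
    | none => exact (hhb i z hz).trans hAC2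
    | some v =>
      by_cases hv : LocSol f B v
      · simp only [gR, if_pos hv]
        exact ((hl2 v hv).2.1 i z (NR_Dv hz)).trans hAB
      · simp only [gR, if_neg hv]
        exact (hgb v i _ hz).trans hAC1
  have hgRs : ∀ R, ∀ z ∈ NR R, ∑ j, f j z * gR R j z = 1 := by
    intro R z hz
    cases R with
    | none => exact hhs z hz
    | some v =>
      by_cases hv : LocSol f B v
      · simp only [gR, if_pos hv]
        exact (hl2 v hv).2.2 z (NR_Dv hz)
      · simp only [gR, if_neg hv]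
        have := hgs v _ hz
        simp only [Phi_Psi] at this
        exact this
  have hgRc : ∀ v d, LocSol f B v → gR (some (v ++ [d])) = gR (some v) := by
    intro v d hv
    simp only [gR, if_pos hv, if_pos (hv.mono (u := [d]))]
    exact hl1 v d hv
  -- the cocycle
  let w : Fin n → Fin n → List D → ℂ → ℂ := fun i j v y =>
    gR (some v) i (Phi v y) * gR (par v) j (Phi v y)
      - gR (some v) j (Phi v y) * gR (par v) i (Phi v y)
  have hcomp : ∀ R i (v : List D) y, Phi v y ∈ NR R →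
      DifferentiableAt ℂ (fun y => gR R i (Phi v y)) y := by
    intro R i v y hy
    exact DifferentiableAt.comp (g := gR R i) (f := Phi v) y
      ((hgRd R i).differentiableAt ((isOpen_NR R).mem_nhds hy)) (differentiable_Phi v y)
  have hwd : ∀ i j v, DifferentiableOn ℂ (w i j v)
      {z | (74 / 100 : ℝ) < dist z ctr ∧ dist z ctr < 80 / 100} := by
    rintro i j v y ⟨h1, h2⟩
    have a1 := annulus_some (v := v) h1 h2
    have a2 := annulus_par (v := v) h1 h2
    exact (((hcomp _ i v y a1).mul (hcomp _ j v y a2)).sub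
      ((hcomp _ j v y a1).mul (hcomp _ i v y a2))).differentiableWithinAt
  have hwb : ∀ i j v z, (74 / 100 : ℝ) < dist z ctr → dist z ctr < 80 / 100 →
      ‖w i j v z‖ ≤ 2 * A ^ 2 := by
    intro i j v y h1 h2
    have a1 := annulus_some (v := v) h1 h2
    have a2 := annulus_par (v := v) h1 h2
    have b1 : ‖gR (some v) i (Phi v y) * gR (par v) j (Phi v y)‖ ≤ A * A := by
      rw [norm_mul]
      exact mul_le_mul (hgRb _ _ _ a1) (hgRb _ _ _ a2) (norm_nonneg _) hA0.le
    have b2 : ‖gR (some v) j (Phi v y) * gR (par v) i (Phi v y)‖ ≤ A * A := by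
      rw [norm_mul]
      exact mul_le_mul (hgRb _ _ _ a1) (hgRb _ _ _ a2) (norm_nonneg _) hA0.le
    refine (norm_sub_le _ _).trans ?_
    nlinarith
  have hw0 : ∀ i j v d, ¬ ¬ LocSol f B v → ∀ z, w i j (v ++ [d]) z = 0 := by
    intro i j v d hv z
    rw [not_not] at hv
    simp only [w]
    rw [par_snoc, hgRc v d hv]
    ring
  choose S hSd hSb hSj using fun i j => hcousin (fun v => ¬ LocSol f B v)
    (fun v u hvu hv => hvu hv.mono)
    (fun v _ => by
      obtain ⟨x, hx, hL⟩ := hpor v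
      exact ⟨x, hx, fun hn => hn hL⟩)
    (w i j) (2 * A ^ 2) (by positivity) (hwd i j) (hwb i j) (hw0 i j)
  let T : Fin n → Fin n → Option (List D) → ℂ → ℂ := fun i j R z => (S i j R z - S j i R z) / 2
  have hTanti : ∀ R z i j, T j i R z = - T i j R z := by
    intro R z i j; simp only [T]; ring
  have hTd : ∀ i j R, DifferentiableOn ℂ (T i j R) (Nd R) := fun i j R =>
    ((hSd i j R).sub (hSd j i R)).div_const 2
  have hTb : ∀ i j R, ∀ z ∈ Nd R, ‖T i j R z‖ ≤ Cc * (2 * A ^ 2) := by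
    intro i j R z hz
    have a1 := hSb i j R z hz
    have a2 := hSb j i R z hz
    simp only [T]
    rw [norm_div, Complex.norm_two, div_le_iff₀ (by norm_num)]
    have := norm_sub_le (S i j R z) (S j i R z)
    linarith
  have hTj : ∀ i j v₀, ∀ z ∈ Nd (par v₀), z ∈ Nd (some v₀) →
      T i j (some v₀) z - T i j (par v₀) z =
        gR (some v₀) i z * gR (par v₀) j z - gR (some v₀) j z * gR (par v₀) i z := by
    intro i j v₀ z hz hz'
    have e1 := hSj i j v₀ z hz hz'
    have e2 := hSj j i v₀ z hz hz'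
    simp only [w, Phi_Psi] at e1 e2
    simp only [T]
    linear_combination e1 / 2 - e2 / 2
  let G : Option (List D) → Fin n → ℂ → ℂ := fun R i z => gR R i z - ∑ j, T i j R z * f j z
  have hGd : ∀ R i, DifferentiableOn ℂ (G R i) (Nd R) := by
    intro R i
    have h1 : DifferentiableOn ℂ (fun z => ∑ j, T i j R z * f j z) (Nd R) := by
      refine DifferentiableOn.fun_sum fun j _ => ?_
      exact (hTd i j R).mul ((hfd j).mono fun z hz => Nd_notMem hz)
    exact ((hgRd R i).mono (Nd_subset_NR R)).sub h1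
  have hGpar : ∀ v₀ i, ∀ z ∈ Nd (par v₀), z ∈ Nd (some v₀) → G (some v₀) i z = G (par v₀) i z := by
    intro v₀ i z hz hz'
    have s1 := hgRs (par v₀) z (Nd_subset_NR _ hz)
    have s2 := hgRs (some v₀) z (Nd_subset_NR _ hz')
    have e1 : ∑ j, T i j (some v₀) z * f j z - ∑ j, T i j (par v₀) z * f j z
        = gR (some v₀) i z * ∑ j, f j z * gR (par v₀) j z
          - gR (par v₀) i z * ∑ j, f j z * gR (some v₀) j z := by
      rw [← Finset.sum_sub_distrib, Finset.mul_sum, Finset.mul_sum, ← Finset.sum_sub_distrib]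
      refine Finset.sum_congr rfl fun j _ => ?_
      have := hTj i j v₀ z hz hz'
      linear_combination (f j z) * this
    rw [s1, s2] at e1
    simp only [G]
    linear_combination -e1
  have hGeq : ∀ R R' i z, z ∈ Nd R → z ∈ Nd R' → G R i z = G R' i z := by
    intro R R' i z hz hz'
    rcases Nd_overlap hz hz' with rfl | ⟨v, rfl, rfl⟩ | ⟨v, rfl, rfl⟩
    · rfl
    · exact (hGpar v i z hz hz').symm
    · exact hGpar v i z hz' hz
  let F : Fin n → ℂ → ℂ := fun i z =>
    if hz : z ∉ squareCantor then G (Nd_cover hz).choose i z else 0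
  have hFG : ∀ R i z, z ∈ Nd R → F i z = G R i z := by
    intro R i z hz
    have hE := Nd_notMem hz
    simp only [F]
    rw [dif_pos hE]
    exact hGeq _ _ i z (Nd_cover hE).choose_spec hz
  refine ⟨F, ?_, ?_, ?_⟩
  · intro i z hz
    obtain ⟨R, hR⟩ := Nd_cover hz
    have h1 := (hGd R i).differentiableAt ((isOpen_Nd R).mem_nhds hR)
    refine (h1.congr_of_eventuallyEq ?_).differentiableWithinAt
    filter_upwards [(isOpen_Nd R).mem_nhds hR] with y hy
    exact hFG R i y hy
  · intro i z hz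
    obtain ⟨R, hR⟩ := Nd_cover hz
    rw [hFG R i z hR]
    have a1 := hgRb R i z (Nd_subset_NR R hR)
    have a2 : ‖∑ j, T i j R z * f j z‖ ≤ n * (Cc * (2 * A ^ 2)) := by
      calc ‖∑ j, T i j R z * f j z‖ ≤ ∑ j : Fin n, ‖T i j R z * f j z‖ := norm_sum_le _ _
        _ ≤ ∑ _j : Fin n, Cc * (2 * A ^ 2) := by
            refine Finset.sum_le_sum fun j _ => ?_
            rw [norm_mul]
            calc ‖T i j R z‖ * ‖f j z‖ ≤ (Cc * (2 * A ^ 2)) * 1 :=
                  mul_le_mul (hTb i j R z hR) (hfb j z hz) (norm_nonneg _) (by positivity)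
              _ = _ := mul_one _
        _ = n * (Cc * (2 * A ^ 2)) := by simp
    calc ‖G R i z‖ ≤ ‖gR R i z‖ + ‖∑ j, T i j R z * f j z‖ := norm_sub_le _ _
      _ ≤ A + n * (Cc * (2 * A ^ 2)) := by linarith
  · intro z hz
    obtain ⟨R, hR⟩ := Nd_cover hz
    have e0 : ∑ i, f i z * F i z = ∑ i, f i z * gR R i z
        - ∑ i, f i z * ∑ j, T i j R z * f j z := by
      rw [← Finset.sum_sub_distrib]
      refine Finset.sum_congr rfl fun i _ => ?_
      rw [hFG R i z hR]
      simp only [G]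
      ring
    rw [e0, hgRs R z (Nd_subset_NR R hR),
      antisymm_sum (fun i j => T i j R z) (fun i => f i z) (fun i j => hTanti R z i j), sub_zero]

/-- Data of small oscillation have the frozen solution. -/
theorem locSol_of_osc {n : ℕ} {δ ε : ℝ} (hδ : 0 < δ) (hε : n * ε ≤ δ ^ 2 / 2) (hε0 : 0 ≤ ε)
    (f : Fin n → ℂ → ℂ) (V : Set ℂ) (hV : V.Nonempty)
    (hd : ∀ j, DifferentiableOn ℂ (f j) V) (h1 : ∀ j, ∀ z ∈ V, ‖f j z‖ ≤ 1)
    (hl : ∀ z ∈ V, ∃ j, δ ≤ ‖f j z‖) (hosc : ∀ j, ∀ z ∈ V, ∀ z' ∈ V, ‖f j z - f j z'‖ ≤ ε) :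
    ∃ g : Fin n → ℂ → ℂ, (∀ j, DifferentiableOn ℂ (g j) V) ∧
      (∀ j, ∀ z ∈ V, ‖g j z‖ ≤ 2 / δ ^ 2) ∧ ∀ z ∈ V, ∑ j, f j z * g j z = 1 := by
  obtain ⟨z₀, hz₀⟩ := hV
  let a : Fin n → ℂ := fun j => f j z₀
  let q : ℂ → ℂ := fun z => ∑ j, f j z * (starRingEnd ℂ) (a j)
  have ha : δ ^ 2 ≤ ∑ j, ‖a j‖ ^ 2 := by
    obtain ⟨j, hj⟩ := hl z₀ hz₀
    calc δ ^ 2 ≤ ‖a j‖ ^ 2 := pow_le_pow_left₀ hδ.le hj 2
      _ ≤ _ := Finset.single_le_sum (f := fun j => ‖a j‖ ^ 2) (fun i _ => by positivity)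
        (Finset.mem_univ j)
  have hq : ∀ z ∈ V, δ ^ 2 / 2 ≤ ‖q z‖ := by
    intro z hz
    have e1 : q z = ((∑ j, ‖a j‖ ^ 2 : ℝ) : ℂ)
        + ∑ j, (f j z - a j) * (starRingEnd ℂ) (a j) := by
      simp only [q]
      push_cast
      rw [← Finset.sum_add_distrib]
      refine Finset.sum_congr rfl fun j _ => ?_
      have e2 : ((‖a j‖ : ℂ)) ^ 2 = a j * (starRingEnd ℂ) (a j) := by
        rw [Complex.mul_conj, Complex.normSq_eq_norm_sq]
        push_cast
        rfl
      rw [e2]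
      ring
    have e3 : ‖∑ j, (f j z - a j) * (starRingEnd ℂ) (a j)‖ ≤ n * ε := by
      calc ‖∑ j, (f j z - a j) * (starRingEnd ℂ) (a j)‖
          ≤ ∑ j : Fin n, ‖(f j z - a j) * (starRingEnd ℂ) (a j)‖ := norm_sum_le _ _
        _ ≤ ∑ _j : Fin n, ε := by
            refine Finset.sum_le_sum fun j _ => ?_
            rw [norm_mul, RCLike.norm_conj]
            calc ‖f j z - a j‖ * ‖a j‖ ≤ ε * 1 :=
                  mul_le_mul (hosc j z hz z₀ hz₀) (h1 j z₀ hz₀) (norm_nonneg _) hε0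
              _ = ε := mul_one _
        _ = n * ε := by simp
    have e4 : ‖((∑ j, ‖a j‖ ^ 2 : ℝ) : ℂ)‖ = ∑ j, ‖a j‖ ^ 2 := by
      rw [Complex.norm_real, Real.norm_of_nonneg]
      positivity
    have e5 := norm_sub_le (q z) (∑ j, (f j z - a j) * (starRingEnd ℂ) (a j))
    have e6 : q z - ∑ j, (f j z - a j) * (starRingEnd ℂ) (a j) = ((∑ j, ‖a j‖ ^ 2 : ℝ) : ℂ) := by
      rw [e1]
      ring
    rw [e6, e4] at e5
    linarith
  have hδ2 : 0 < δ ^ 2 / 2 := by positivity
  have hq0 : ∀ z ∈ V, q z ≠ 0 := fun z hz h0 => by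
    have := hq z hz
    rw [h0, norm_zero] at this
    linarith
  have hqd : DifferentiableOn ℂ q V := by
    refine DifferentiableOn.fun_sum fun j _ => ?_
    exact (hd j).mul_const _
  refine ⟨fun j z => (starRingEnd ℂ) (a j) / q z, ?_, ?_, ?_⟩
  · intro j
    exact (differentiableOn_const _).div hqd hq0
  · intro j z hz
    rw [norm_div, RCLike.norm_conj]
    have b1 : ‖a j‖ ≤ 1 := h1 j z₀ hz₀
    calc ‖a j‖ / ‖q z‖ ≤ 1 / (δ ^ 2 / 2) :=
          div_le_div₀ (by norm_num) b1 hδ2 (hq z hz)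
      _ = 2 / δ ^ 2 := by field_simp
  · intro z hz
    have : ∑ j, f j z * ((starRingEnd ℂ) (a j) / q z) = q z / q z := by
      simp only [q]
      rw [Finset.sum_div]
      refine Finset.sum_congr rfl fun j _ => ?_
      rw [mul_div_assoc]
    rw [this, div_self (hq0 z hz)]

/-- The frozen case on a disc about a square: a local solution bounded by `2 / δ ^ 2`. -/
theorem locSol_frozen {n : ℕ} {δ ε : ℝ} (hδ : 0 < δ) (hε : n * ε ≤ δ ^ 2 / 2) (hε0 : 0 ≤ ε)
    (f : Fin n → ℂ → ℂ) (v : List D) (hfd : ∀ j, DifferentiableOn ℂ (f j) squareCantorᶜ)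
    (hfb : ∀ j, ∀ z ∈ squareCantorᶜ, ‖f j z‖ ≤ 1)
    (hfl : ∀ z ∈ squareCantorᶜ, ∃ j, δ ≤ ‖f j z‖)
    (hosc : ∀ j, ∀ z ∈ Dv v ∩ squareCantorᶜ, ∀ z' ∈ Dv v ∩ squareCantorᶜ,
      ‖f j z - f j z'‖ ≤ ε) : LocSol f (2 / δ ^ 2) v := by
  refine locSol_of_osc hδ hε hε0 f (Dv v ∩ squareCantorᶜ) ?_
    (fun j => (hfd j).mono inter_subset_right) (fun j z hz => hfb j z hz.2)
    (fun z hz => hfl z hz.2) hosc
  have h1 : dist (ctr + (3 / 4 : ℝ)) ctr = 3 / 4 := by
    rw [dist_eq_norm, add_sub_cancel_left, Complex.norm_real]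
    norm_num
  refine ⟨Phi v (ctr + (3 / 4 : ℝ)), NR_Dv (annulus_some ?_ ?_)⟩ <;> rw [h1] <;> norm_num

end Pool.Corona91698f
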