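import Mathlib
import Pool.Agent.Corona91698f.MainC

/-!
# Local solutions near some point of the set, with uniform size and bounds, suffice
-/

open Complex Metric Set Filter Topology

set_option autoImplicit false

namespace Pool.Corona91698f

/-- Uniform local solvability near some point, which may depend on the data. -/
def SomePointC : Prop :=
  ∀ (n : ℕ) (δ : ℝ), 0 < δ → ∃ r : ℝ, 0 < r ∧ ∃ B : ℝ, ∀ f : Fin n → ℂ → ℂ,
    (∀ j, Continuous (f j)) →
    (∀ j, DifferentiableOn ℂ (f j) squareCantorᶜ) →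
    (∀ j, ∀ z ∈ squareCantorᶜ, ‖f j z‖ ≤ 1) →
    (∀ z ∈ squareCantorᶜ, ∃ j, δ ≤ ‖f j z‖) →
    ∃ p ∈ squareCantor, ∃ g : Fin n → ℂ → ℂ,
      (∀ j, DifferentiableOn ℂ (g j) (squareCantorᶜ ∩ ball p r)) ∧
      (∀ j, ∀ z ∈ squareCantorᶜ ∩ ball p r, ‖g j z‖ ≤ B) ∧
      (∀ z ∈ squareCantorᶜ ∩ ball p r, ∑ j, f j z * g j z = 1)

/-- A tiny copy of `f` in every square of level `k`. -/
theorem copies_everywhere (k m : ℕ) {n : ℕ} {f : Fin n → ℂ → ℂ}
    (hfc : ∀ j, Continuous (f j))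
    (hfd : ∀ j, DifferentiableOn ℂ (f j) squareCantorᶜ)
    (hfb : ∀ j, ∀ z ∈ squareCantorᶜ, ‖f j z‖ ≤ 1) :
    ∃ (F : Fin n → ℂ → ℂ) (s : ℂ) (x : List D), s ∈ squareCantorᶜ ∧ x.length = m ∧
      (∀ j, Continuous (F j)) ∧ (∀ j, DifferentiableOn ℂ (F j) squareCantorᶜ) ∧
      (∀ j, ∀ v ∈ lw k, ∀ z, dist (Psi v z) ctr ≤ 78 / 100 →
        ‖F j z - f j (Psi x (Psi v z))‖ ≤ 4 ^ k * (62 / 3 ^ m)) ∧
      ∀ j z, (∀ v ∈ lw k, 78 / 100 < dist (Psi v z) ctr) → ‖F j z - f j s‖ ≤ 4 ^ k * (62 / 3 ^ m) := by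
  classical
  set x : List D := List.replicate m (false, false) with hx
  have hxl : x.length = m := List.length_replicate
  have h3m : (1 : ℝ) ≤ 3 ^ m := one_le_pow₀ (by norm_num)
  set s : ℂ := ctr + (3 : ℂ) ^ m with hs
  have hsd : dist s ctr = 3 ^ m := by
    rw [hs, dist_eq_norm, add_sub_cancel_left, norm_pow]
    norm_num
  have hsE : s ∈ squareCantorᶜ := by
    intro h
    have := squareCantor_dist' h
    rw [hsd] at this
    linarith
  have hext : {z : ℂ | (3 / 4 : ℝ) < dist z ctr} ⊆ squareCantorᶜ := by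
    intro y hy hyE
    have h1 := squareCantor_dist hyE
    have h2 : (3 / 4 : ℝ) < dist y ctr := hy
    linarith
  -- smallness of the far terms
  have hfar : ∀ j y, 78 / 100 < dist y ctr → 3 ≤ m → ‖f j (Psi x y) - f j s‖ ≤ 62 / 3 ^ m := by
    intro j y hy hm
    have h27 : (27 : ℝ) ≤ 3 ^ m := by
      calc (27 : ℝ) = 3 ^ 3 := by norm_num
        _ ≤ 3 ^ m := pow_le_pow_right₀ (by norm_num) hm
    have h1 := dist_Psi_lower x y
    rw [hxl] at h1
    have h2 : 3 ^ m * (72 / 1000) ≤ dist (Psi x y) ctr := by nlinarith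
    have h3 : 1 ≤ dist (Psi x y) ctr := by linarith
    have h4 := exterior_lip (c := ctr) ((hfd j).mono hext) (fun z hz => hfb j z (hext hz)) h3
      (show 1 ≤ dist s ctr by rw [hsd]; exact h3m)
    refine h4.trans ?_
    have h5 : ‖(Psi x y - ctr)⁻¹‖ ≤ 14 / 3 ^ m := by
      rw [norm_inv, ← dist_eq_norm]
      calc (dist (Psi x y) ctr)⁻¹ ≤ (3 ^ m * (72 / 1000))⁻¹ := inv_anti₀ (by positivity) h2
        _ = (1000 / 72) / 3 ^ m := by rw [mul_inv]; field_simp
        _ ≤ 14 / 3 ^ m := by gcongr; norm_num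
    have h6 : ‖(s - ctr)⁻¹‖ = 1 / 3 ^ m := by
      rw [norm_inv, ← dist_eq_norm, hsd, one_div]
    have h7 := norm_sub_le ((Psi x y - ctr)⁻¹) ((s - ctr)⁻¹)
    have h8 : (0 : ℝ) < 1 / 3 ^ m := by positivity
    have h9 : (14 : ℝ) / 3 ^ m = 14 * (1 / 3 ^ m) := by ring
    have h10 : (62 : ℝ) / 3 ^ m = 62 * (1 / 3 ^ m) := by ring
    rw [h10]
    rw [h9] at h5
    rw [h6] at h7
    linarith
  -- trivial bound for small m
  have hfar' : ∀ j y, 78 / 100 < dist y ctr → ‖f j (Psi x y) - f j s‖ ≤ 62 / 3 ^ m := by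
    intro j y hy
    by_cases hm : 3 ≤ m
    · exact hfar j y hy hm
    · push Not at hm
      have hyE : Psi x y ∈ squareCantorᶜ := by
        apply Psi_notMem
        intro h
        have := squareCantor_dist' h
        linarith
      have h1 := hfb j _ hyE
      have h2 := hfb j _ hsE
      have h3 := norm_sub_le (f j (Psi x y)) (f j s)
      have h4 : (3 : ℝ) ^ m ≤ 3 ^ 2 := pow_le_pow_right₀ (by norm_num) (by omega)
      have h5 : (2 : ℝ) ≤ 62 / 3 ^ m := by
        rw [le_div_iff₀ (by positivity)]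
        norm_num at h4
        linarith
      linarith
  have hcard : ∀ S : Finset (List D), S ⊆ lw k → (S.card : ℝ) ≤ 4 ^ k := by
    intro S hS
    have h1 : (lw k).card ≤ 4 ^ k := by
      have : ∀ k, (lw k).card ≤ 4 ^ k := by
        intro k
        induction k with
        | zero => simp [lw]
        | succ k ih =>
          simp only [lw]
          refine Finset.card_image_le.trans ?_
          rw [Finset.card_product, card_D, pow_succ]
          omega
      exact this k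
    have h2 := (Finset.card_le_card hS).trans h1
    exact_mod_cast h2
  have hsum : ∀ j z (S : Finset (List D)), S ⊆ lw k → (∀ v ∈ S, 78 / 100 < dist (Psi v z) ctr) →
      ‖∑ v ∈ S, (f j (Psi x (Psi v z)) - f j s)‖ ≤ 4 ^ k * (62 / 3 ^ m) := by
    intro j z S hS hz
    calc ‖∑ v ∈ S, (f j (Psi x (Psi v z)) - f j s)‖
        ≤ ∑ v ∈ S, ‖f j (Psi x (Psi v z)) - f j s‖ := norm_sum_le _ _
      _ ≤ ∑ _v ∈ S, (62 / 3 ^ m : ℝ) := Finset.sum_le_sum fun v hv => hfar' j _ (hz v hv)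
      _ = S.card * (62 / 3 ^ m) := by rw [Finset.sum_const, nsmul_eq_mul]
      _ ≤ 4 ^ k * (62 / 3 ^ m) := by
          have := hcard S hS
          gcongr
  refine ⟨fun j z => f j s + ∑ v ∈ lw k, (f j (Psi x (Psi v z)) - f j s), s, x, hsE, hxl,
    ?_, ?_, ?_, ?_⟩
  · intro j
    refine continuous_const.add (continuous_finsetSum _ fun v _ => ?_)
    exact ((hfc j).comp ((differentiable_Psi x).continuous.comp
      (differentiable_Psi v).continuous)).sub continuous_const
  · intro j z hz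
    refine DifferentiableAt.differentiableWithinAt ?_
    refine DifferentiableAt.const_add _ (DifferentiableAt.fun_sum fun v _ => ?_)
    have h1 : DifferentiableAt ℂ (fun z => Psi x (Psi v z)) z :=
      DifferentiableAt.comp (g := Psi x) (f := Psi v) z (differentiable_Psi x _)
        (differentiable_Psi v z)
    have h2 : DifferentiableAt ℂ (fun z => f j (Psi x (Psi v z))) z :=
      DifferentiableAt.comp (g := f j) (f := fun z => Psi x (Psi v z)) z
        ((hfd j).differentiableAt (isClosed_squareCantor.isOpen_compl.mem_nhds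
          (Psi_notMem (Psi_notMem hz)))) h1
    exact h2.sub_const _
  · intro j v hv z hz
    have e : f j s + ∑ v ∈ lw k, (f j (Psi x (Psi v z)) - f j s) - f j (Psi x (Psi v z))
        = ∑ w ∈ (lw k).erase v, (f j (Psi x (Psi w z)) - f j s) := by
      rw [← Finset.add_sum_erase _ _ hv]
      ring
    rw [e]
    refine hsum j z _ (Finset.erase_subset _ _) fun w hw => ?_
    exact other_far hv (Finset.mem_of_mem_erase hw) (Finset.ne_of_mem_erase hw) hz
  · intro j z hz
    rw [add_sub_cancel_left]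
    exact hsum j z _ (Finset.Subset.refl _) hz

theorem quantC_of_somePoint (h : SomePointC) : QuantCoronaC := by
  classical
  have hEc : IsClosed squareCantor := isClosed_squareCantor
  have hE : ∀ z ∈ squareCantor, dist z ctr < 3 / 4 := fun z hz => squareCantor_dist hz
  intro n δ hδ
  set δ₁ : ℝ := min δ 1 with hδ₁
  have hδ₁0 : 0 < δ₁ := lt_min hδ one_pos
  have hδ₁1 : δ₁ ≤ 1 := min_le_right _ _
  have hδ₁δ : δ₁ ≤ δ := min_le_left _ _
  obtain ⟨r, hr, B, hB⟩ := h n (δ₁ / 2) (by positivity)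
  set M : ℝ := max B 1 with hM
  have hM1 : 1 ≤ M := le_max_right _ _
  have hBM : B ≤ M := le_max_left _ _
  set τ : ℝ := min (δ₁ / 4) (1 / (2 * (n + 1) * M)) with hτ
  have hτ0 : 0 < τ := lt_min (by positivity) (by positivity)
  have hτ1 : τ ≤ δ₁ / 4 := min_le_left _ _
  have hτ2 : τ ≤ 1 / (2 * (n + 1) * M) := min_le_right _ _
  obtain ⟨k, hk⟩ := exists_pow_lt_of_lt_one (show 0 < r / 3 by positivity)
    (show (1 / 3 : ℝ) < 1 by norm_num)
  obtain ⟨m₀, hm₀⟩ := exists_pow_lt_of_lt_one (show 0 < τ / (4 ^ k * 62) by positivity)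
    (show (1 / 3 : ℝ) < 1 by norm_num)
  set m : ℕ := m₀ + 3 with hm
  have hmτ : 4 ^ k * (62 / 3 ^ m) ≤ τ := by
    rw [lt_div_iff₀ (by positivity)] at hm₀
    rw [div_pow, one_pow] at hm₀
    have h1 : (62 : ℝ) / 3 ^ m ≤ 62 / 3 ^ m₀ := by
      gcongr
      · norm_num
      · omega
    calc (4 : ℝ) ^ k * (62 / 3 ^ m) ≤ 4 ^ k * (62 / 3 ^ m₀) := by gcongr
      _ = 1 / 3 ^ m₀ * (4 ^ k * 62) := by ring
      _ ≤ τ := hm₀.le
  obtain ⟨C₀, hC₀⟩ := exterior_corona (ρ := 3 / 4) (ρ' := 4 / 5) (by norm_num) (by norm_num)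
    n δ hδ
  set N₀ : ℝ := max C₀ 0 with hN₀
  have hN₀0 : 0 ≤ N₀ := le_max_right _ _
  refine ⟨2 * M + N₀ + n * (26 * (2 * M * N₀)), fun f hfc hfd hfb hfl => ?_⟩
  obtain ⟨F, s, x, hsE, hxl, hFc, hFd, hFnear, hFfar⟩ := copies_everywhere k m hfc hfd hfb
  -- normalise
  have hτc : ((1 + τ : ℝ) : ℂ) ≠ 0 := by
    have : (1 + τ : ℝ) ≠ 0 := by positivity
    exact_mod_cast this
  have hnτ : ‖((1 + τ : ℝ) : ℂ)‖ = 1 + τ := by
    rw [Complex.norm_real, Real.norm_eq_abs, abs_of_pos (by positivity)]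
  have hcase : ∀ z ∈ squareCantorᶜ, ∃ y ∈ squareCantorᶜ, ∀ j, ‖F j z - f j y‖ ≤ τ := by
    intro z hz
    by_cases h1 : ∀ v ∈ lw k, 78 / 100 < dist (Psi v z) ctr
    · exact ⟨s, hsE, fun j => (hFfar j z h1).trans hmτ⟩
    · push Not at h1
      obtain ⟨v, hv, hvz⟩ := h1
      exact ⟨Psi x (Psi v z), Psi_notMem (Psi_notMem hz), fun j => (hFnear j v hv z hvz).trans hmτ⟩
  obtain ⟨p, hp, g, hgd, hgb, hgs⟩ := hB (fun j z => F j z / ((1 + τ : ℝ) : ℂ))
    (fun j => (hFc j).div_const _) (fun j => (hFd j).div_const _)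
    (fun j z hz => by
      obtain ⟨y, hy, hy'⟩ := hcase z hz
      rw [norm_div, hnτ, div_le_one (by positivity)]
      have h1 := hy' j
      have h2 := hfb j y hy
      have h3 : ‖F j z‖ ≤ ‖F j z - f j y‖ + ‖f j y‖ := by
        have := norm_add_le (F j z - f j y) (f j y)
        rwa [sub_add_cancel] at this
      linarith)
    (fun z hz => by
      obtain ⟨y, hy, hy'⟩ := hcase z hz
      obtain ⟨j, hj⟩ := hfl y hy
      refine ⟨j, ?_⟩
      rw [norm_div, hnτ, le_div_iff₀ (by positivity)]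
      have h1 := hy' j
      have h3 : ‖f j y‖ ≤ ‖F j z‖ + ‖F j z - f j y‖ := by
        have := norm_sub_le (F j z) (F j z - f j y)
        rwa [sub_sub_cancel] at this
      nlinarith)
  -- the copy near `p`
  obtain ⟨v, hv, hvp⟩ := exists_lw_mem k hp
  have hvl := mem_lw.1 hv
  let φ : ℂ → ℂ := fun y => Phi v (Phi x y)
  have hφΨ : ∀ y, Psi x (Psi v (φ y)) = y := by
    intro y
    simp only [φ]
    rw [Psi_Phi, Psi_Phi]
  have hφE : ∀ y ∈ ball ctr (3 / 2) ∩ squareCantorᶜ, φ y ∈ squareCantorᶜ := by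
    rintro y ⟨hy1, hy2⟩ h
    have h1 := mem_of_Phi_mem (v := v) (dist_Phi_lt hy1) h
    exact hy2 (mem_of_Phi_mem hy1 h1)
  have hφn : ∀ y ∈ ball ctr (3 / 2), dist (Psi v (φ y)) ctr ≤ 78 / 100 := by
    intro y hy
    have hy' : dist y ctr < 3 / 2 := hy
    simp only [φ]
    rw [Psi_Phi]
    have h1 := dist_Psi_lower x (Phi x y)
    rw [Psi_Phi, hxl] at h1
    have h27 : (27 : ℝ) ≤ 3 ^ m := by
      calc (27 : ℝ) = 3 ^ 3 := by norm_num
        _ ≤ 3 ^ m := pow_le_pow_right₀ (by norm_num) (by omega)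
    by_contra hcon
    push Not at hcon
    nlinarith
  have hφb : ∀ y ∈ ball ctr (3 / 2) ∩ squareCantorᶜ, φ y ∈ squareCantorᶜ ∩ ball p r := by
    intro y hy
    refine ⟨hφE y hy, ?_⟩
    have h1 := hφn y hy.1
    have h2 := squareCantor_dist' hvp
    have h3 := dist_Psi v (φ y) p
    rw [hvl] at h3
    have h4 := dist_triangle (Psi v (φ y)) ctr (Psi v p)
    rw [dist_comm ctr (Psi v p)] at h4
    have h3k : (0 : ℝ) < 3 ^ k := by positivity
    rw [div_pow, one_pow] at hk
    have h5 : dist (φ y) p < 3 * (1 / 3 ^ k) := by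
      rw [mul_one_div, lt_div_iff₀ h3k]
      linarith
    rw [mem_ball]
    linarith
  have hφd : ∀ y, DifferentiableAt ℂ φ y := fun y =>
    DifferentiableAt.comp (g := Phi v) (f := Phi x) y (differentiable_Phi v _)
      (differentiable_Phi x y)
  have hopen : IsOpen (ball ctr (3 / 2) ∩ squareCantorᶜ) := isOpen_ball.inter hEc.isOpen_compl
  have hopenr : IsOpen (squareCantorᶜ ∩ ball p r) := hEc.isOpen_compl.inter isOpen_ball
  let G : Fin n → ℂ → ℂ := fun j y => g j (φ y) / ((1 + τ : ℝ) : ℂ)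
  have hGd : ∀ j, DifferentiableOn ℂ (G j) (ball ctr (3 / 2) ∩ squareCantorᶜ) := by
    intro j y hy
    have h1 : DifferentiableAt ℂ (g j) (φ y) :=
      (hgd j).differentiableAt (hopenr.mem_nhds (hφb y hy))
    exact ((DifferentiableAt.comp (g := g j) (f := φ) y h1 (hφd y)).div_const _).differentiableWithinAt
  have hGb : ∀ j, ∀ y ∈ ball ctr (3 / 2) ∩ squareCantorᶜ, ‖G j y‖ ≤ M := by
    intro j y hy
    simp only [G]
    rw [norm_div, hnτ, div_le_iff₀ (by positivity)]
    have h1 := (hgb j _ (hφb y hy)).trans hBM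
    nlinarith
  let S : ℂ → ℂ := fun y => ∑ j, f j y * G j y
  have hS : ∀ y ∈ ball ctr (3 / 2) ∩ squareCantorᶜ, ‖S y - 1‖ ≤ 1 / 2 := by
    intro y hy
    have h1 : S y - 1 = - ∑ j, (F j (φ y) - f j y) * G j y := by
      rw [← hgs _ (hφb y hy)]
      simp only [S, G]
      rw [← Finset.sum_sub_distrib, ← Finset.sum_neg_distrib]
      refine Finset.sum_congr rfl fun j _ => ?_
      ring
    rw [h1, norm_neg]
    calc ‖∑ j, (F j (φ y) - f j y) * G j y‖
        ≤ ∑ j, ‖(F j (φ y) - f j y) * G j y‖ := norm_sum_le _ _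
      _ ≤ ∑ _j : Fin n, τ * M := by
          refine Finset.sum_le_sum fun j _ => ?_
          rw [norm_mul]
          have h2 := hFnear j v hv (φ y) (hφn y hy.1)
          rw [hφΨ] at h2
          exact mul_le_mul (h2.trans hmτ) (hGb j y hy) (norm_nonneg _) hτ0.le
      _ = n * (τ * M) := by simp
      _ ≤ 1 / 2 := by
          have h3 : τ * (2 * (n + 1) * M) ≤ 1 := by
            rwa [le_div_iff₀ (by positivity)] at hτ2
          have h4 : 0 < τ * M := by positivity
          nlinarith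
  have hS2 : ∀ z ∈ ball ctr (3 / 2) ∩ squareCantorᶜ, 1 / 2 ≤ ‖S z‖ := by
    intro z hz
    have h1 := hS z hz
    have h2 : ‖(1 : ℂ)‖ ≤ ‖S z‖ + ‖S z - 1‖ := by
      have := norm_sub_le (S z) (S z - 1)
      simpa using this
    rw [norm_one] at h2
    linarith
  have hS0 : ∀ z ∈ ball ctr (3 / 2) ∩ squareCantorᶜ, S z ≠ 0 := by
    intro z hz h
    have := hS2 z hz
    rw [h, norm_zero] at this
    linarith
  have hSd : DifferentiableOn ℂ S (ball ctr (3 / 2) ∩ squareCantorᶜ) := by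
    refine DifferentiableOn.fun_sum fun j _ => ?_
    exact ((hfd j).mono inter_subset_right).mul (hGd j)
  have hext : {z : ℂ | (3 / 4 : ℝ) < dist z ctr} ⊆ squareCantorᶜ := by
    intro y hy hyE
    have h1 := hE y hyE
    have h2 : (3 / 4 : ℝ) < dist y ctr := hy
    linarith
  obtain ⟨h', hhd, hhb, hhs⟩ := hC₀ ctr f (fun j => (hfd j).mono hext)
    (fun j z hz => hfb j z (hext hz)) (fun z hz => hfl z (hext hz))
  obtain ⟨H, hHd, hHb, hHs⟩ := glue (c := ctr) (M := 2 * M) (N := N₀) hEc hE (by positivity) hN₀0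
    (f := f) (g := fun j z => G j z / S z) (h := h') hfd hfb
    (fun j => (hGd j).div hSd hS0)
    (fun j z hz => by
      rw [norm_div]
      have h1 := hGb j z hz
      have h2 := hS2 z hz
      rw [div_le_iff₀ (by linarith)]
      calc ‖G j z‖ ≤ M := h1
        _ = 2 * M * (1 / 2) := by ring
        _ ≤ 2 * M * ‖S z‖ := by gcongr)
    (fun z hz => by
      have h1 : ∑ j, f j z * (G j z / S z) = S z / S z := by
        simp only [S]
        rw [Finset.sum_div]
        refine Finset.sum_congr rfl fun j _ => ?_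
        ring
      rw [h1]
      exact div_self (hS0 z hz))
    hhd (fun j z hz => (hhb j z hz).trans (le_max_left _ _)) hhs
  exact ⟨H, hHd, hHb, hHs⟩

end Pool.Corona91698f
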